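import Mathlib

/-!
# MP_4dc748_co, two arcs: definitions

F is a finite field of characteristic 2 with q = 2 Q elements, s an automorphism of F, vectors are functions
Fin 3 → F, a ⬝ᵥ v is the standard bilinear form, s ∘ v is the vector (s v_0, s v_1, s v_2).

Points of the Hjelmslev plane: pairs (v, b), v ≠ 0; lines: pairs (a, c), a ≠ 0; the point is on the line iff
a ⬝ᵥ v = 0 and a ⬝ᵥ b + c ⬝ᵥ (s ∘ v) = 0. Two pairs (v, b) give the same point iff they are of the form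
(v, b) and (e v, d v + s(e) b), e ≠ 0.
-/

set_option autoImplicit false

open scoped Classical

namespace Pool.Agent.Lib.MP_4dc748_co.TA

/-- Incidence of the point (v, b) with the line (a, c). -/
def Inc {F : Type} [Field F] (s : F ≃+* F) (a c v b : Fin 3 → F) : Prop :=
  a ⬝ᵥ v = 0 ∧ a ⬝ᵥ b + c ⬝ᵥ (s ∘ v) = 0

/-- v is a real vector: v ≠ 0 and v is not proportional to an element of the set M of missing vectors. -/
def Re {F : Type} [Field F] (M : Finset (Fin 3 → F)) (v : Fin 3 → F) : Prop :=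
  v ≠ 0 ∧ ∀ m ∈ M, ∀ c : F, v ≠ c • m

/-- The number of missing points on the line a. -/
noncomputable def mu {F : Type} [Field F] (M : Finset (Fin 3 → F)) (a : Fin 3 → F) : ℕ :=
  (M.filter (fun m => a ⬝ᵥ m = 0)).card

/-- An arc of lines with at most 2 points and with one point in each class which is not in M:
the point over the class of the vector v is (v, b v). -/
structure Arc (F : Type) [Field F] [Fintype F] (s : F ≃+* F) where
  M : Finset (Fin 3 → F)
  b : (Fin 3 → F) → (Fin 3 → F)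
  ne : ∀ m ∈ M, m ≠ 0
  ind : ∀ m ∈ M, ∀ m' ∈ M, ∀ c : F, m' = c • m → m' = m
  card : M.card + 2 ≤ Fintype.card F
  equi : ∀ c : F, c ≠ 0 → ∀ v, b (c • v) = s c • b v
  arc : ∀ (a x y : Fin 3 → F) (c d : F), a ≠ 0 → a ⬝ᵥ x = 0 → a ⬝ᵥ y = 0 → Re M x → Re M y →
    (∀ e : F, y ≠ e • x) → c ≠ 0 → d ≠ 0 → Re M (c • x + d • y) →
    a ⬝ᵥ b (c • x + d • y) ≠ s c * (a ⬝ᵥ b x) + s d * (a ⬝ᵥ b y)

variable {F : Type} [Field F] [Fintype F] {s : F ≃+* F}

/-- The functional w ↦ Sum of w(s v)^2 h(v) over the real vectors v of the line a, h(v) = a ⬝ᵥ b v. -/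
noncomputable def D (A : Arc F s) (a : Fin 3 → F) (w : MvPolynomial (Fin 3) F) : F :=
  ∑ v ∈ Finset.univ.filter (fun v => a ⬝ᵥ v = 0 ∧ Re A.M v),
    (MvPolynomial.eval (s ∘ v) w) ^ 2 * (a ⬝ᵥ A.b v)

/-- g is a polynomial function of degree at most d on a space of functions. -/
def IsP {F : Type} [Field F] {ι : Type} (d : ℕ) (g : (ι → F) → F) : Prop :=
  ∃ p : MvPolynomial ι F, p.totalDegree ≤ d ∧ ∀ v, MvPolynomial.eval v p = g v

/-- The power sums of the line a: Sum over v ≠ 0 on a of h(v)^k (c ⬝ᵥ s v)^(q-1-k), h(v) = a ⬝ᵥ b v. -/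
noncomputable def Cf (s : F ≃+* F) (k : ℕ) (b : (Fin 3 → F) → (Fin 3 → F)) (a c : Fin 3 → F) : F :=
  ∑ v ∈ Finset.univ.filter (fun v => a ⬝ᵥ v = 0 ∧ v ≠ 0),
    (a ⬝ᵥ b v) ^ k * (c ⬝ᵥ (s ∘ v)) ^ (Fintype.card F - 1 - k)

/-- The number (in F) of the vectors v ≠ 0 on the line a with a ⬝ᵥ b v = c ⬝ᵥ s v. -/
noncomputable def Nf (s : F ≃+* F) (b : (Fin 3 → F) → (Fin 3 → F)) (a c : Fin 3 → F) : F :=
  ∑ v ∈ Finset.univ.filter (fun v => a ⬝ᵥ v = 0 ∧ v ≠ 0),
    (1 + (a ⬝ᵥ b v + c ⬝ᵥ (s ∘ v)) ^ (Fintype.card F - 1))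

/-- The arc condition on one line in coordinates: the points (x, f x), x ∈ X, the point at infinity of slope h
and the vertical point at infinity form an arc. -/
def LArc {F : Type} [Field F] (X : Finset F) (f : F → F) (h : F) : Prop :=
  (∀ x ∈ X, ∀ y ∈ X, x ≠ y → f x + f y ≠ (x + y) * h) ∧
  ∀ x ∈ X, ∀ y ∈ X, ∀ z ∈ X, x ≠ y → x ≠ z → y ≠ z →
    (f x + f y) * (x + z) ≠ (f x + f z) * (x + y)

/-- Nf in coordinates. -/
noncomputable def N2 (f : F → F) (h B C : F) : F :=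
  (1 + (h + C) ^ (Fintype.card F - 1)) + ∑ x : F, (1 + (f x + (B + x * C)) ^ (Fintype.card F - 1))

/-- Cf in coordinates. -/
noncomputable def C2 (k : ℕ) (f : F → F) (h B C : F) : F :=
  h ^ k * C ^ (Fintype.card F - 1 - k) +
    ∑ x : F, f x ^ k * (B + x * C) ^ (Fintype.card F - 1 - k)

end Pool.Agent.Lib.MP_4dc748_co.TA
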