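import Pool.Agent.Lib.MP_4dc748_co.TA.ChainB

/-!
# Rings of order q^2 with residue field F_q and characteristic 2 have coordinates
-/

set_option autoImplicit false

open scoped Classical

namespace Pool.Agent.Lib.MP_4dc748_co.TA

variable {R F : Type} [Ring R] [Field F]

/-- Take 0 ≠ x ∈ J. J has q elements, so J = ι(F) x = x ι(F), x ι(c) = ι(s c) x defines an automorphism s, and
R = ι(F) ⊕ ι(F) x; x ι(d) x = 0 by jac_mul. -/
theorem exists_coord [Finite R] [Finite F] (e : (R ⧸ Ring.jacobson R) ≃+* F)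
    (hchar : CharP R 2) (hcard : Nat.card R = Nat.card F ^ 2) :
    ∃ s : F ≃+* F, Nonempty (Coord R F s) := by
  obtain ⟨ι, hι⟩ := exists_lift_field e hchar hcard
  let π : R →+* F := (e : (R ⧸ Ring.jacobson R) →+* F).comp (Ideal.Quotient.mk (Ring.jacobson R))
  have hπ : ∀ z : R, π z = e (Ideal.Quotient.mk (Ring.jacobson R) z) := fun z => rfl
  have hπι : ∀ c : F, π (ι c) = c := hι
  have hJ : ∀ z : R, z ∈ Ring.jacobson R ↔ π z = 0 := by
    intro z
    rw [hπ, EmbeddingLike.map_eq_zero_iff, Ideal.Quotient.eq_zero_iff_mem]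
  have hsq : ∀ z w : R, π z = 0 → π w = 0 → z * w = 0 := fun z w hz hw =>
    jac_mul e hcard ((hJ z).2 hz) ((hJ w).2 hw)
  have hq : 0 < Nat.card F := Nat.card_pos
  have hJc : Nat.card (Ring.jacobson R) = Nat.card F := by
    have h1 := Submodule.card_eq_card_quotient_mul_card (Ring.jacobson R)
    have h2 : Nat.card (R ⧸ Ring.jacobson R) = Nat.card F := Nat.card_congr e.toEquiv
    rw [h2, hcard, pow_two] at h1
    exact (Nat.eq_of_mul_eq_mul_right hq h1).symm
  obtain ⟨x, hx, hx0⟩ : ∃ x : R, π x = 0 ∧ x ≠ 0 := by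
    have h1 : 1 < Nat.card (Ring.jacobson R) := by
      rw [hJc]
      exact Finite.one_lt_card
    have h2 : Nontrivial (Ring.jacobson R) := Finite.one_lt_card_iff_nontrivial.1 h1
    obtain ⟨y, hy⟩ := exists_ne (0 : Ring.jacobson R)
    exact ⟨y, (hJ y).1 y.2, fun h => hy (Subtype.ext h)⟩
  -- c ↦ ι(c) x is injective
  have hinj : ∀ c d : F, ι c * x = ι d * x → c = d := by
    intro c d h
    have h1 : ι (c - d) * x = 0 := by rw [map_sub, sub_mul, h, sub_self]
    have h2 := (hJ _).1 (chainA_ann_le e hx0 h1)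
    rw [hπι] at h2
    exact sub_eq_zero.1 h2
  have hsurj : ∀ z : R, π z = 0 → ∃ c : F, ι c * x = z := by
    let L : F → Ring.jacobson R := fun c => ⟨ι c * x, (hJ _).2 (by rw [map_mul, hx, mul_zero])⟩
    have hL : Function.Bijective L := by
      rw [Nat.bijective_iff_injective_and_card]
      refine ⟨fun c d h => hinj c d (congrArg Subtype.val h), hJc.symm⟩
    intro z hz
    obtain ⟨c, hc⟩ := hL.2 ⟨z, (hJ z).2 hz⟩
    exact ⟨c, congrArg Subtype.val hc⟩
  have hs : ∀ c : F, ∃ d : F, ι d * x = x * ι c := fun c =>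
    hsurj _ (by rw [map_mul, hx, zero_mul])
  choose s0 hs0 using hs
  let s1 : F →+* F :=
    { toFun := s0
      map_one' := hinj _ _ (by rw [hs0, map_one, mul_one, one_mul])
      map_mul' := fun c d => hinj _ _ (by
        rw [hs0, map_mul, map_mul, ← mul_assoc, ← hs0 c, mul_assoc, mul_assoc, ← hs0 d])
      map_zero' := hinj _ _ (by rw [hs0, map_zero, mul_zero, zero_mul])
      map_add' := fun c d => hinj _ _ (by
        rw [hs0, map_add, map_add, mul_add, add_mul, hs0, hs0]) }
  have hs1 : Function.Bijective s1 := Finite.injective_iff_bijective.1 s1.injective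
  let s : F ≃+* F := RingEquiv.ofBijective s1 hs1
  have hs2 : ∀ c : F, x * ι c = ι (s c) * x := fun c => (hs0 c).symm
  refine ⟨s, ?_⟩
  let G : F × F →+ R :=
    { toFun := fun p => ι p.1 + ι p.2 * x
      map_zero' := by simp
      map_add' := fun p p' => by
        change ι (p.1 + p'.1) + ι (p.2 + p'.2) * x = (ι p.1 + ι p.2 * x) + (ι p'.1 + ι p'.2 * x)
        rw [map_add, map_add, add_mul]
        abel }
  have hG : ∀ p : F × F, G p = ι p.1 + ι p.2 * x := fun p => rfl
  have hπG : ∀ p : F × F, π (G p) = p.1 := by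
    intro p
    rw [hG, map_add, map_mul, hπι, hx, mul_zero, add_zero]
  have hGb : Function.Bijective G := by
    constructor
    · intro p p' h
      have h1 : p.1 = p'.1 := by rw [← hπG p, h, hπG]
      have h2 : p.2 = p'.2 := by
        apply hinj
        rw [hG, hG, h1] at h
        exact add_left_cancel h
      exact Prod.ext h1 h2
    · intro r
      obtain ⟨c, hc⟩ := hsurj (r - ι (π r)) (by rw [map_sub, hπι, sub_self])
      refine ⟨(π r, c), ?_⟩
      rw [hG, hc]
      abel
  let E : F × F ≃+ R := AddEquiv.ofBijective G hGb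
  have hE : ∀ p : F × F, E p = ι p.1 + ι p.2 * x := fun p => rfl
  have hEmul : ∀ p p' : F × F, E p * E p' = E (p.1 * p'.1, p.1 * p'.2 + p.2 * s p'.1) := by
    intro p p'
    have h1 : x * ι p'.2 * x = 0 := by
      rw [mul_assoc]
      exact hsq _ _ hx (by rw [map_mul, hx, mul_zero])
    rw [hE, hE, hE]
    change (ι p.1 + ι p.2 * x) * (ι p'.1 + ι p'.2 * x)
      = ι (p.1 * p'.1) + ι (p.1 * p'.2 + p.2 * s p'.1) * x
    have h2 : (ι p.1 + ι p.2 * x) * (ι p'.1 + ι p'.2 * x)
        = ι p.1 * ι p'.1 + ι p.1 * ι p'.2 * x + ι p.2 * (x * ι p'.1) + ι p.2 * (x * ι p'.2 * x) := by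
      noncomm_ring
    rw [h2, h1, hs2, map_mul, map_add, map_mul, map_mul, mul_zero, add_zero, add_mul, ← mul_assoc,
      add_assoc]
  refine ⟨{ e := E.symm, e_one := ?_, e_mul := ?_ }⟩
  · rw [AddEquiv.symm_apply_eq, hE]
    simp
  · intro r t
    rw [AddEquiv.symm_apply_eq, ← hEmul, AddEquiv.apply_symm_apply, AddEquiv.apply_symm_apply]

end Pool.Agent.Lib.MP_4dc748_co.TA
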