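import Pool.Agent.Lib.MP_4dc748_co.TA.St
import Pool.Agent.Lib.MP_4dc748_co.TA.Defs

/-!
# From the ring to coordinates
-/

set_option autoImplicit false

open scoped Classical

namespace Pool.Agent.Lib.MP_4dc748_co.TA

/-- Coordinates of a ring R: R is isomorphic to the ring of all pairs (a, b) = a + b X of elements of F with
X a = s(a) X, X^2 = 0. -/
structure Coord (R F : Type) [Ring R] [Field F] (s : F ≃+* F) where
  e : R ≃+ F × F
  e_one : e 1 = (1, 0)
  e_mul : ∀ r t, e (r * t) = ((e r).1 * (e t).1, (e r).1 * (e t).2 + (e r).2 * s (e t).1)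

variable {R F : Type} [Ring R] [Field F] {s : F ≃+* F}

/-- First and second coordinates of a vector. -/
def Coord.v1 (C : Coord R F s) (x : Fin 3 → R) : Fin 3 → F := fun i => (C.e (x i)).1

def Coord.v2 (C : Coord R F s) (x : Fin 3 → R) : Fin 3 → F := fun i => (C.e (x i)).2

/-- The vector with coordinates v, b. -/
def Coord.vec (C : Coord R F s) (v b : Fin 3 → F) : Fin 3 → R := fun i => C.e.symm (v i, b i)

theorem planeA_v1_smul (C : Coord R F s) (x : Fin 3 → R) (r : Rᵐᵒᵖ) :
    C.v1 (r • x) = (C.e r.unop).1 • C.v1 x := by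
  funext i
  change (C.e (x i * r.unop)).1 = (C.e r.unop).1 * (C.e (x i)).1
  rw [C.e_mul]
  exact mul_comm _ _

theorem planeA_v2_smul (C : Coord R F s) (x : Fin 3 → R) (r : Rᵐᵒᵖ) :
    C.v2 (r • x) = (C.e r.unop).2 • C.v1 x + s (C.e r.unop).1 • C.v2 x := by
  funext i
  change (C.e (x i * r.unop)).2 =
    (C.e r.unop).2 * (C.e (x i)).1 + s (C.e r.unop).1 * (C.e (x i)).2
  rw [C.e_mul]
  change (C.e (x i)).1 * (C.e r.unop).2 + (C.e (x i)).2 * s (C.e r.unop).1 = _
  ring

theorem planeA_ext (C : Coord R F s) {x y : Fin 3 → R} (h1 : C.v1 x = C.v1 y)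
    (h2 : C.v2 x = C.v2 y) : x = y := by
  funext i
  apply C.e.injective
  exact Prod.ext (congrFun h1 i) (congrFun h2 i)

theorem planeA_smul_eq_zero (C : Coord R F s) {x : Fin 3 → R} (hx : C.v1 x ≠ 0) (r : Rᵐᵒᵖ)
    (h : r • x = 0) : r = 0 := by
  have h1 := planeA_v1_smul C x r
  have h2 := planeA_v2_smul C x r
  have z1 : C.v1 (0 : Fin 3 → R) = 0 := by
    funext i
    change (C.e 0).1 = 0
    rw [map_zero]
    rfl
  have z2 : C.v2 (0 : Fin 3 → R) = 0 := by
    funext i
    change (C.e 0).2 = 0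
    rw [map_zero]
    rfl
  rw [h, z1] at h1
  rw [h, z2] at h2
  have h3 : (C.e r.unop).1 = 0 := (smul_eq_zero.mp h1.symm).resolve_right hx
  rw [h3, map_zero, zero_smul, add_zero] at h2
  have h4 : (C.e r.unop).2 = 0 := (smul_eq_zero.mp h2.symm).resolve_right hx
  have h5 : r.unop = 0 := by
    apply C.e.injective
    rw [map_zero]
    exact Prod.ext h3 h4
  exact MulOpposite.unop_injective h5

/-- A vector x with v1 x ≠ 0 spans a free right module of rank 1: x r = 0 implies r = 0 (in coordinates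
(v c, v d + b s(c)) = 0). -/
theorem Coord.isPoint_span (C : Coord R F s) {x : Fin 3 → R} (hx : C.v1 x ≠ 0) :
    IsPoint R (Submodule.span Rᵐᵒᵖ {x}) := by
  have hli : LinearIndependent Rᵐᵒᵖ (fun _ : Fin 1 => x) := by
    rw [Fintype.linearIndependent_iff]
    intro g hg i
    rw [Fin.sum_univ_one] at hg
    rw [Fin.eq_zero i]
    exact planeA_smul_eq_zero C hx _ hg
  have hb := Module.Basis.span hli
  rw [Set.range_const] at hb
  exact ⟨hb⟩

/-- Every point is the span of a vector x with v1 x ≠ 0: x the basis vector; if v1 x = 0 then x X = 0 for the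
element X = e⁻¹(0, 1) ≠ 0. -/
theorem Coord.exists_of_isPoint (C : Coord R F s) {P : Submodule Rᵐᵒᵖ (Fin 3 → R)}
    (hP : IsPoint R P) : ∃ x : Fin 3 → R, C.v1 x ≠ 0 ∧ P = Submodule.span Rᵐᵒᵖ {x} := by
  obtain ⟨B⟩ := hP
  refine ⟨(B 0 : Fin 3 → R), ?_, ?_⟩
  · intro h0
    obtain ⟨X, hX⟩ : ∃ X : R, C.e X = (0, 1) := ⟨C.e.symm (0, 1), C.e.apply_symm_apply _⟩
    have h1 : MulOpposite.op X • (B 0 : Fin 3 → R) = 0 := by
      apply planeA_ext C
      · rw [planeA_v1_smul, h0, smul_zero]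
        funext i
        change (0 : F) = (C.e 0).1
        rw [map_zero]
        rfl
      · rw [planeA_v2_smul, h0, smul_zero, zero_add, MulOpposite.unop_op, hX]
        funext i
        change s 0 * _ = (C.e 0).2
        rw [map_zero s, zero_mul, map_zero C.e]
        rfl
    have h2 : MulOpposite.op X • B 0 = 0 := Subtype.ext h1
    have h3 := (Fintype.linearIndependent_iff.mp B.linearIndependent) (fun _ => MulOpposite.op X)
      (by rw [Fin.sum_univ_one]; exact h2) 0
    have h4 : X = 0 := MulOpposite.op_injective h3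
    rw [h4, map_zero] at hX
    exact zero_ne_one (congrArg Prod.snd hX)
  · apply le_antisymm
    · intro y hy
      rw [Submodule.mem_span_singleton]
      refine ⟨B.repr ⟨y, hy⟩ 0, ?_⟩
      have h1 := B.sum_repr ⟨y, hy⟩
      rw [Fin.sum_univ_one] at h1
      exact congrArg Subtype.val h1
    · rw [Submodule.span_singleton_le_iff_mem]
      exact (B 0).2

/-- Two vectors with the same span. -/
theorem Coord.span_eq (C : Coord R F s) {x y : Fin 3 → R} {c d : F} (hx : C.v1 x ≠ 0)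
    (hy : C.v1 y ≠ 0) (h1 : C.v1 y = c • C.v1 x) (h2 : C.v2 y = d • C.v1 x + s c • C.v2 x) :
    Submodule.span Rᵐᵒᵖ {y} = Submodule.span Rᵐᵒᵖ {x} := by
  have hc : c ≠ 0 := by
    rintro rfl
    rw [zero_smul] at h1
    exact hy h1
  obtain ⟨r, hr⟩ : ∃ r : R, C.e r = (c, d) := ⟨C.e.symm (c, d), C.e.apply_symm_apply _⟩
  obtain ⟨t, ht⟩ : ∃ t : R, C.e t = (c⁻¹, -(c⁻¹ * d * s c⁻¹)) :=
    ⟨C.e.symm _, C.e.apply_symm_apply _⟩
  have hrt : r * t = 1 := by
    apply C.e.injective
    rw [C.e_mul, hr, ht, C.e_one]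
    refine Prod.ext (mul_inv_cancel₀ hc) ?_
    change c * -(c⁻¹ * d * s c⁻¹) + d * s c⁻¹ = 0
    have h3 : c * -(c⁻¹ * d * s c⁻¹) = -((c * c⁻¹) * d * s c⁻¹) := by ring
    rw [h3, mul_inv_cancel₀ hc]
    ring
  have hyx : y = MulOpposite.op r • x := by
    apply planeA_ext C
    · rw [planeA_v1_smul, MulOpposite.unop_op, hr, h1]
    · rw [planeA_v2_smul, MulOpposite.unop_op, hr, h2]
  have hxy : x = MulOpposite.op t • y := by
    rw [hyx, smul_smul, ← MulOpposite.op_mul, hrt, MulOpposite.op_one, one_smul]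
  apply le_antisymm
  · rw [Submodule.span_singleton_le_iff_mem, Submodule.mem_span_singleton]
    exact ⟨_, hyx.symm⟩
  · rw [Submodule.span_singleton_le_iff_mem, Submodule.mem_span_singleton]
    exact ⟨_, hxy.symm⟩

/-- Conversely the first coordinates of two vectors with the same span are proportional. -/
theorem Coord.prop_of_span_eq (C : Coord R F s) {x y : Fin 3 → R}
    (h : Submodule.span Rᵐᵒᵖ {y} = Submodule.span Rᵐᵒᵖ {x}) : ∃ c : F, C.v1 y = c • C.v1 x := by
  have h1 : y ∈ Submodule.span Rᵐᵒᵖ {x} := by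
    rw [← h]
    exact Submodule.mem_span_singleton_self y
  obtain ⟨r, rfl⟩ := Submodule.mem_span_singleton.mp h1
  exact ⟨_, planeA_v1_smul C x r⟩

/-- The right submodule of all x with Sum of l_i x_i = 0, l = vec a c. -/
def Coord.ker (C : Coord R F s) (a c : Fin 3 → F) : Submodule Rᵐᵒᵖ (Fin 3 → R) where
  carrier := {x | ∑ i, C.vec a c i * x i = 0}
  add_mem' := fun {x y} hx hy => by
    have : ∑ i, C.vec a c i * (x + y) i = ∑ i, C.vec a c i * x i + ∑ i, C.vec a c i * y i := by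
      rw [← Finset.sum_add_distrib]
      exact Finset.sum_congr rfl fun i _ => mul_add _ _ _
    rw [Set.mem_setOf_eq, this, hx, hy, add_zero]
  zero_mem' := by simp
  smul_mem' := fun r x hx => by
    have : ∑ i, C.vec a c i * (r • x) i = (∑ i, C.vec a c i * x i) * r.unop := by
      rw [Finset.sum_mul]
      exact Finset.sum_congr rfl fun i _ => by
        rw [Pi.smul_apply, MulOpposite.smul_eq_mul_unop, mul_assoc]
    rw [Set.mem_setOf_eq, this, hx, zero_mul]

/-- In coordinates. -/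
theorem Coord.span_le_ker (C : Coord R F s) (a c : Fin 3 → F) (x : Fin 3 → R) :
    Submodule.span Rᵐᵒᵖ {x} ≤ C.ker a c ↔ Inc s a c (C.v1 x) (C.v2 x) := by
  rw [Submodule.span_singleton_le_iff_mem]
  change ∑ i, C.vec a c i * x i = 0 ↔ _
  have h1 : C.e (∑ i, C.vec a c i * x i) =
      (a ⬝ᵥ C.v1 x, a ⬝ᵥ C.v2 x + c ⬝ᵥ (s ∘ C.v1 x)) := by
    have h2 : ∀ i, C.e (C.vec a c i * x i) =
        (a i * C.v1 x i, a i * C.v2 x i + c i * s (C.v1 x i)) := by
      intro i
      rw [C.e_mul]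
      have h3 : C.e (C.vec a c i) = (a i, c i) := C.e.apply_symm_apply _
      rw [h3]
      rfl
    rw [map_sum]
    refine Prod.ext ?_ ?_
    · rw [Prod.fst_sum]
      change _ = ∑ i, a i * C.v1 x i
      exact Finset.sum_congr rfl fun i _ => by rw [h2]
    · rw [Prod.snd_sum]
      change _ = ∑ i, a i * C.v2 x i + ∑ i, c i * s (C.v1 x i)
      rw [← Finset.sum_add_distrib]
      exact Finset.sum_congr rfl fun i _ => by rw [h2]
  rw [← C.e.map_eq_zero_iff, h1, Prod.mk_eq_zero]
  exact Iff.rfl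

end Pool.Agent.Lib.MP_4dc748_co.TA
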