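import Mathlib

/-!
# Arcs in the projective Hjelmslev plane over a ring

The definitions which are used in the statement of the theorem.
-/

set_option autoImplicit false

namespace Pool.Agent.Lib.MP_4dc748_co.TA

/-- R is a chain ring: the left ideals are totally ordered by inclusion and the right ideals are totally ordered
by inclusion (right ideals are the submodules of R as a module over the opposite ring). -/
def IsChainRing (R : Type) [Ring R] : Prop :=
  (∀ I J : Submodule R R, I ≤ J ∨ J ≤ I) ∧ ∀ I J : Submodule Rᵐᵒᵖ R, I ≤ J ∨ J ≤ I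

/-- Points of the right projective Hjelmslev plane over R: the free right submodules of rank 1 of R^3. -/
def IsPoint (R : Type) [Ring R] (P : Submodule Rᵐᵒᵖ (Fin 3 → R)) : Prop :=
  Nonempty (Module.Basis (Fin 1) Rᵐᵒᵖ P)

/-- Lines of the right projective Hjelmslev plane over R: the free right submodules of rank 2 of R^3. -/
def IsLine (R : Type) [Ring R] (L : Submodule Rᵐᵒᵖ (Fin 3 → R)) : Prop :=
  Nonempty (Module.Basis (Fin 2) Rᵐᵒᵖ L)

/-- K is a set of points such that every line contains at most n of them. -/
def IsArc (R : Type) [Ring R] (n : ℕ) (K : Set (Submodule Rᵐᵒᵖ (Fin 3 → R))) : Prop :=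
  (∀ P ∈ K, IsPoint R P) ∧ ∀ L, IsLine R L → {P | P ∈ K ∧ P ≤ L}.ncard ≤ n

/-- m_n(R): the largest k for which there is a projective (k, n)-arc. -/
noncomputable def arcMax (R : Type) [Ring R] (n : ℕ) : ℕ :=
  sSup {k : ℕ | ∃ K, IsArc R n K ∧ K.ncard = k}

end Pool.Agent.Lib.MP_4dc748_co.TA
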