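import Pool.Agent.Lib.MP_4dc748_co.TA.LineC

/-!
# The function N2
-/

set_option autoImplicit false

open scoped Classical

namespace Pool.Agent.Lib.MP_4dc748_co.TA

variable {F : Type} [Field F] [Fintype F]

theorem LineN_cast [CharP F 2] : ((Fintype.card F : ℕ) : F) = 0 := by
  have h := FiniteField.cast_card_eq_zero F
  exact h

theorem LineN_binom [CharP F 2] (x y : F) :
    (x + y) ^ (Fintype.card F - 1) =
      ∑ k ∈ Finset.range (Fintype.card F), x ^ k * y ^ (Fintype.card F - 1 - k) := by
  have h1 : 1 < Fintype.card F := Fintype.one_lt_card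
  by_cases hxy : x = y
  · subst hxy
    rw [CharTwo.add_self_eq_zero, zero_pow (by omega)]
    have h2 : ∀ k ∈ Finset.range (Fintype.card F), x ^ k * x ^ (Fintype.card F - 1 - k) =
        x ^ (Fintype.card F - 1) := by
      intro k hk
      rw [Finset.mem_range] at hk
      rw [← pow_add]
      congr 1
      omega
    rw [Finset.sum_congr rfl h2, Finset.sum_const, Finset.card_range, nsmul_eq_mul,
      LineN_cast, zero_mul]
  · have h2 : x - y ≠ 0 := sub_ne_zero.2 hxy
    have h3 := (Commute.all x y).geom_sum₂_mul (Fintype.card F)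
    rw [FiniteField.pow_card, FiniteField.pow_card] at h3
    apply mul_right_cancel₀ h2
    rw [h3]
    have h4 : x + y = x - y := (CharTwo.sub_eq_add x y).symm
    rw [h4, ← pow_succ, Nat.sub_add_cancel h1.le, FiniteField.pow_card]

/-- Binomial expansion: (x + y)^(q-1) = Sum of x^k y^(q-1-k), all binomial coefficients binom(q-1, k) are 1 in F
(q a power of 2; for example from (x + y)^(q-1) (x + y) = x^q + y^q and Commute.geom_sum₂ / mul_geom_sum, or the
identity of polynomials). The number of ones is q + 1 = 1 in F. -/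
theorem N2_eq [CharP F 2] (f : F → F) (h B C : F) :
    N2 f h B C = 1 + ∑ k ∈ Finset.range (Fintype.card F), C2 k f h B C := by
  unfold N2 C2
  rw [LineN_binom, Finset.sum_add_distrib, Finset.sum_add_distrib, Finset.sum_const,
    Finset.card_univ, nsmul_eq_mul, LineN_cast, zero_mul, zero_add, add_assoc]
  congr 2
  rw [Finset.sum_comm]
  exact Finset.sum_congr rfl fun x _ => LineN_binom _ _

theorem C2_zero [CharP F 2] (f : F → F) (h B C : F) : C2 0 f h B C = 0 := by
  have h1 : 1 < Fintype.card F := Fintype.one_lt_card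
  unfold C2
  simp only [pow_zero, one_mul, Nat.sub_zero]
  by_cases hC : C = 0
  · subst hC
    rw [zero_pow (by omega), zero_add]
    simp only [mul_zero, add_zero]
    rw [Finset.sum_const, Finset.card_univ, nsmul_eq_mul, LineN_cast, zero_mul]
  · rw [FiniteField.pow_card_sub_one_eq_one C hC]
    have hb : Function.Bijective fun x : F => B + x * C := by
      rw [Finite.injective_iff_bijective.symm]
      intro x y hxy
      have h2 : B + x * C = B + y * C := hxy
      exact mul_right_cancel₀ hC (add_left_cancel h2)
    have h2 : ∑ x : F, (B + x * C) ^ (Fintype.card F - 1) = ∑ y : F, y ^ (Fintype.card F - 1) :=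
      Fintype.sum_bijective _ hb _ _ fun x => rfl
    have h3 : ∑ y : F, (1 + y ^ (Fintype.card F - 1)) = 1 := by
      rw [Finset.sum_congr rfl fun y _ => ind_eq y, Finset.sum_ite_eq' Finset.univ (0 : F),
        if_pos (Finset.mem_univ _)]
    rw [Finset.sum_add_distrib, Finset.sum_const, Finset.card_univ, nsmul_eq_mul, LineN_cast,
      zero_mul, zero_add] at h3
    rw [h2, h3, CharTwo.add_self_eq_zero]

/-- If N2 vanishes identically then so do all C2 k, k ≤ q - 2: N2 f h (e B) (e C) = 1 + Sum over k of
e^(q-1-k) C2 k f h B C for all e ∈ F (with 0^0 = 1): a polynomial in e of degree ≤ q - 1 with q zeros. -/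
theorem C2_eq_zero_of [CharP F 2] {f : F → F} {h : F} (hN : ∀ B C, N2 f h B C = 0) {k : ℕ}
    (hk : k ≤ Fintype.card F - 2) (B C : F) : C2 k f h B C = 0 := by
  have h1 : 1 < Fintype.card F := Fintype.one_lt_card
  let P : Polynomial F := Polynomial.C 1 + ∑ j ∈ Finset.range (Fintype.card F),
    Polynomial.C (C2 j f h B C) * Polynomial.X ^ (Fintype.card F - 1 - j)
  have hev : ∀ e : F, P.eval e = 0 := by
    intro e
    rw [← hN (e * B) (e * C), N2_eq]
    simp only [P, Polynomial.eval_add, Polynomial.eval_C, Polynomial.eval_finsetSum,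
      Polynomial.eval_mul, Polynomial.eval_pow, Polynomial.eval_X]
    congr 1
    refine Finset.sum_congr rfl fun j _ => ?_
    unfold C2
    rw [add_mul, Finset.sum_mul]
    congr 1
    · rw [mul_pow]
      ring
    · refine Finset.sum_congr rfl fun x _ => ?_
      rw [show e * B + x * (e * C) = e * (B + x * C) by ring, mul_pow]
      ring
  have hdeg : P.natDegree < Fintype.card F := by
    refine lt_of_le_of_lt (Polynomial.natDegree_add_le_of_degree_le
      (n := Fintype.card F - 1) (by simp) ?_) (by omega)
    refine Polynomial.natDegree_sum_le_of_forall_le _ _ fun j _ => ?_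
    exact (Polynomial.natDegree_C_mul_X_pow_le _ _).trans (by omega)
  have hP : P = 0 := Polynomial.eq_zero_of_natDegree_lt_card_of_eval_eq_zero P
    (f := fun e : F => e) (fun a b hab => hab) hev hdeg
  have hco := congrArg (fun p : Polynomial F => p.coeff (Fintype.card F - 1 - k)) hP
  simp only [P, Polynomial.coeff_add, Polynomial.finsetSum_coeff, Polynomial.coeff_C_mul,
    Polynomial.coeff_X_pow, Polynomial.coeff_zero, Polynomial.coeff_C] at hco
  rw [if_neg (by omega), zero_add, Finset.sum_eq_single k] at hco
  · simpa using hco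
  · intro j hj hjk
    rw [Finset.mem_range] at hj
    rw [if_neg (by omega), mul_zero]
  · intro hk'
    rw [Finset.mem_range] at hk'
    omega

/-- Schwartz, Zippel in the plane: a polynomial function of degree ≤ d which is not identically 0 has at least
q (q - d) nonzero values. MvPolynomial.schwartz_zippel_totalDegree (n = 2, S = univ). -/
theorem sz_plane {d : ℕ} {g : (Fin 2 → F) → F} (hg : IsP d g) (h : ∃ v, g v ≠ 0) :
    Fintype.card F * (Fintype.card F - d) ≤
      (Finset.univ.filter (fun B : F × F => g ![B.1, B.2] ≠ 0)).card := by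
  obtain ⟨p, hp, hv⟩ := hg
  obtain ⟨v0, hv0⟩ := h
  have hp0 : p ≠ 0 := by
    rintro rfl
    exact hv0 (by rw [← hv v0, map_zero])
  have hq : 0 < Fintype.card F := Fintype.card_pos
  have h1 := MvPolynomial.schwartz_zippel_totalDegree hp0 (Finset.univ : Finset F)
  rw [Fintype.piFinset_univ, Finset.card_univ] at h1
  have h2 : (Finset.univ.filter (fun v : Fin 2 → F => MvPolynomial.eval v p = 0)).card ≤
      d * Fintype.card F := by
    have hq' : (0 : ℚ≥0) < (Fintype.card F : ℚ≥0) := by exact_mod_cast hq
    rw [div_le_div_iff₀ (by positivity) hq'] at h1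
    have h3 : (((Finset.univ.filter (fun v : Fin 2 → F => MvPolynomial.eval v p = 0)).card *
        Fintype.card F : ℕ) : ℚ≥0) ≤ ((p.totalDegree * Fintype.card F ^ 2 : ℕ) : ℚ≥0) := by
      push_cast
      exact h1
    have h4 := Nat.cast_le.1 h3
    have h5 : (Finset.univ.filter (fun v : Fin 2 → F => MvPolynomial.eval v p = 0)).card *
        Fintype.card F ≤ (d * Fintype.card F) * Fintype.card F :=
      h4.trans (by rw [sq, ← mul_assoc]; gcongr)
    exact Nat.le_of_mul_le_mul_right h5 hq
  have h3 : (Finset.univ.filter (fun B : F × F => g ![B.1, B.2] ≠ 0)).card =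
      (Finset.univ.filter (fun v : Fin 2 → F => ¬ MvPolynomial.eval v p = 0)).card := by
    refine Finset.card_bij (fun B _ => ![B.1, B.2]) ?_ ?_ ?_
    · intro B hB
      rw [Finset.mem_filter] at hB ⊢
      exact ⟨Finset.mem_univ _, by rw [hv]; exact hB.2⟩
    · intro B _ B' _ hBB
      have e1 := congrFun hBB 0
      have e2 := congrFun hBB 1
      exact Prod.ext e1 e2
    · intro v hv'
      rw [Finset.mem_filter] at hv'
      have e : ![v 0, v 1] = v := by
        funext i
        fin_cases i <;> rfl
      refine ⟨(v 0, v 1), ?_, e⟩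
      rw [Finset.mem_filter]
      refine ⟨Finset.mem_univ _, ?_⟩
      show g ![v 0, v 1] ≠ 0
      rw [e, ← hv]
      exact hv'.2
  have h4 := Finset.card_filter_add_card_filter_not (s := (Finset.univ : Finset (Fin 2 → F)))
    (fun v : Fin 2 → F => MvPolynomial.eval v p = 0)
  rw [Finset.card_univ, Fintype.card_fun, Fintype.card_fin] at h4
  rw [h3, Nat.mul_sub, mul_comm _ d]
  have h5 : Fintype.card F ^ 2 = Fintype.card F * Fintype.card F := sq _
  omega

/-- N2_eq, sz_plane with d = q - 2 - k0 (1 + the sum of the C2 k, k > k0), card_N2. -/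
theorem N2_zero_of [CharP F 2] {X : Finset F} {f : F → F} {h : F} (hL : LArc X f h) {k0 : ℕ}
    (hk0 : k0 ≤ Fintype.card F - 2) (hC : ∀ k ≤ k0, ∀ B C, C2 k f h B C = 0)
    (hineq : (Finset.univ \ X).card * (2 * Fintype.card F + 1 - (Finset.univ \ X).card) <
      Fintype.card F * (k0 + 2)) (B C : F) : N2 f h B C = 0 := by
  have h1 : 1 < Fintype.card F := Fintype.one_lt_card
  by_contra hne
  have hC2 : ∀ k, IsP (Fintype.card F - 1 - k) (fun v : Fin 2 → F => C2 k f h (v 0) (v 1)) := by
    intro k
    unfold C2
    refine IsP.add ?_ (IsP.sum Finset.univ fun x _ => ?_)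
    · exact (((IsP.const 0 (h ^ k)).mul ((IsP.coord 1).pow (Fintype.card F - 1 - k))).mono
        (by omega))
    · have e1 : IsP 1 (fun v : Fin 2 → F => v 0 + x * v 1) :=
        (IsP.coord 0).add (((IsP.const 0 x).mul (IsP.coord 1)).mono (by omega))
      exact (((IsP.const 0 (f x ^ k)).mul (e1.pow (Fintype.card F - 1 - k))).mono (by omega))
  have hg : IsP (Fintype.card F - 2 - k0) (fun v : Fin 2 → F => N2 f h (v 0) (v 1)) := by
    refine IsP.congr (g := fun v : Fin 2 → F => 1 +
      ∑ k ∈ (Finset.range (Fintype.card F)).filter (fun k => k0 < k), C2 k f h (v 0) (v 1)) ?_ ?_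
    · refine (IsP.const _ 1).add (IsP.sum _ fun k hk => (hC2 k).mono ?_)
      rw [Finset.mem_filter] at hk
      omega
    · intro v
      show _ = N2 f h (v 0) (v 1)
      rw [N2_eq, Finset.sum_filter]
      congr 1
      refine Finset.sum_congr rfl fun k _ => ?_
      split_ifs with hk
      · rfl
      · exact (hC k (by omega) _ _).symm
  have h2 := sz_plane hg ⟨![B, C], by simpa using hne⟩
  have h3 := card_N2 hL
  have h4 : Fintype.card F - (Fintype.card F - 2 - k0) = k0 + 2 := by omega
  rw [h4] at h2
  have h5 := h2.trans h3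
  omega

/-- N2 is not identically 1 if X has two elements x ≠ y: take C = (f x + f y) / (x + y) ≠ h; then for every B the
number of z with f z + B + z C = 0 is odd, so ≥ 1, and the total number is q, so z ↦ f z + z C is injective; but
it has the same value at x and y. -/
theorem N2_ne_one [CharP F 2] {X : Finset F} {f : F → F} {h : F} (hL : LArc X f h)
    (hX : 1 < X.card) : ¬ ∀ B C, N2 f h B C = 1 := by
  have h1 : 1 < Fintype.card F := Fintype.one_lt_card
  intro hN
  obtain ⟨x, hx, y, hy, hxy⟩ := Finset.one_lt_card.1 hX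
  have hxy' : x + y ≠ 0 := by
    intro h0
    exact hxy (CharTwo.add_eq_zero.1 h0)
  set C : F := (f x + f y) / (x + y) with hC
  have hCm : (x + y) * C = f x + f y := by rw [hC, mul_div_cancel₀ _ hxy']
  have hhC : h + C ≠ 0 := by
    intro h0
    have h2 : h = C := CharTwo.add_eq_zero.1 h0
    exact hL.1 x hx y hy hxy (by rw [h2, hCm])
  have hni : ¬ Function.Injective fun z : F => f z + z * C := by
    intro hi
    apply hxy
    apply hi
    show f x + x * C = f y + y * C
    have h2 : f x + x * C + (f y + y * C) = 0 := by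
      have h3 : f x + x * C + (f y + y * C) = (f x + f y) + (x + y) * C := by ring
      rw [h3, hCm, CharTwo.add_self_eq_zero]
    exact CharTwo.add_eq_zero.1 h2
  have hns : ¬ Function.Surjective fun z : F => f z + z * C :=
    fun hs => hni (Finite.injective_iff_surjective.2 hs)
  rw [Function.Surjective] at hns
  push Not at hns
  obtain ⟨B, hB⟩ := hns
  have h2 := hN B C
  unfold N2 at h2
  rw [ind_eq, if_neg hhC, zero_add, Finset.sum_eq_zero] at h2
  · exact zero_ne_one h2
  · intro z _
    rw [ind_eq, if_neg]
    intro h0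
    apply hB z
    have h3 : f z + z * C + B = 0 := by rw [← h0]; ring
    exact CharTwo.add_eq_zero.1 h3

end Pool.Agent.Lib.MP_4dc748_co.TA
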