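import Pool.Agent.Lib.MP_4dc748_co.TA.LineB
import Pool.Agent.Lib.MP_4dc748_co.TA.LineN

/-!
# The functions Nf and Cf
-/

set_option autoImplicit false

open scoped Classical

namespace Pool.Agent.Lib.MP_4dc748_co.TA

variable {F : Type} [Field F] [Fintype F] {s : F ≃+* F}

omit [Fintype F] in
theorem BadA_exists {a : Fin 3 → F} : ∃ e : Fin 3 → F, a ⬝ᵥ e = 0 ∧ e ≠ 0 := by
  by_cases h : a 0 = 0
  · refine ⟨![1, 0, 0], ?_, ?_⟩
    · simp [dotProduct, Fin.sum_univ_three, h]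
    · intro h0
      have := congrFun h0 0
      simp at this
  · refine ⟨![a 1, -a 0, 0], ?_, ?_⟩
    · simp [dotProduct, Fin.sum_univ_three, mul_comm]
    · intro h0
      have := congrFun h0 1
      simp at this
      exact h this

omit [Fintype F] in
theorem BadA_larc {X : Finset F} {f f' : F → F} {h : F} (hL : LArc X f h)
    (hf : ∀ x ∈ X, f' x = f x) : LArc X f' h := by
  refine ⟨fun x hx y hy hxy => ?_, fun x hx y hy z hz hxy hxz hyz => ?_⟩
  · rw [hf x hx, hf y hy]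
    exact hL.1 x hx y hy hxy
  · rw [hf x hx, hf y hy, hf z hz]
    exact hL.2 x hx y hy z hz hxy hxz hyz

/-- LC.larc, LC.card_compl, LC.Cf_eq, LC.Nf_eq, LC.surj, N2_zero_of. -/
theorem Nf_zero_of [CharP F 2] (A : Arc F s) {b' : (Fin 3 → F) → (Fin 3 → F)}
    (h1 : ∀ v, Re A.M v → b' v = A.b v)
    (h3 : ∀ c : F, c ≠ 0 → ∀ v, b' (c • v) = s c • b' v) {a : Fin 3 → F} (ha : a ≠ 0) {k0 : ℕ}
    (hk0 : k0 ≤ Fintype.card F - 2) (hC : ∀ k ≤ k0, ∀ c, Cf s k b' a c = 0)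
    (hineq : mu A.M a * (2 * Fintype.card F + 1 - mu A.M a) < Fintype.card F * (k0 + 2)) :
    ∀ c, Nf s b' a c = 0 := by
  obtain ⟨e, e', he, -, hr, -, -⟩ := exists_real_pair A ha
  obtain ⟨e0, h⟩ := LC.exists_of ha he hr.1
  have hL0 := h.larc A hr
  have hL : LArc (LX s A.M e e0) (fun x => a ⬝ᵥ b' (e0 + s.symm x • e)) (a ⬝ᵥ b' e) := by
    rw [h1 e hr]
    refine BadA_larc hL0 (fun x hx => ?_)
    rw [LX, Finset.mem_filter] at hx
    show a ⬝ᵥ b' (e0 + s.symm x • e) = a ⬝ᵥ A.b (e0 + s.symm x • e)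
    rw [h1 _ hx.2]
  intro c
  rw [h.Nf_eq s h3]
  refine N2_zero_of hL hk0 ?_ ?_ _ _
  · intro k hk B C
    obtain ⟨c', hB, hC'⟩ := h.surj s B C
    have h4 := h.Cf_eq s h3 (k := k) (by omega) c'
    rw [hB, hC', hC k hk] at h4
    exact h4.symm
  · rw [h.card_compl A hr]
    exact hineq

theorem Cf_zero [CharP F 2] {b' : (Fin 3 → F) → (Fin 3 → F)}
    (h3 : ∀ c : F, c ≠ 0 → ∀ v, b' (c • v) = s c • b' v) {a : Fin 3 → F} (ha : a ≠ 0)
    (c : Fin 3 → F) : Cf s 0 b' a c = 0 := by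
  obtain ⟨e, he, hne⟩ := BadA_exists (a := a)
  obtain ⟨e0, h⟩ := LC.exists_of ha he hne
  rw [h.Cf_eq s h3 (k := 0) (Nat.zero_le _), C2_zero]

/-- C2_eq_zero_of -/
theorem Cf_eq_zero_of [CharP F 2] {b' : (Fin 3 → F) → (Fin 3 → F)}
    (h3 : ∀ c : F, c ≠ 0 → ∀ v, b' (c • v) = s c • b' v) {a : Fin 3 → F} (ha : a ≠ 0)
    (hN : ∀ c, Nf s b' a c = 0) {k : ℕ} (hk : k ≤ Fintype.card F - 2) (c : Fin 3 → F) :
    Cf s k b' a c = 0 := by
  obtain ⟨e, he, hne⟩ := BadA_exists (a := a)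
  obtain ⟨e0, h⟩ := LC.exists_of ha he hne
  rw [h.Cf_eq s h3 (k := k) (by omega)]
  refine C2_eq_zero_of ?_ hk _ _
  intro B C
  obtain ⟨c', hB, hC'⟩ := h.surj s B C
  have h4 := h.Nf_eq s h3 c'
  rw [hB, hC', hN] at h4
  exact h4.symm

/-- Exchange the sums, IsP.sum_plane: degree (q - 1 - k) + k = q - 1 in a. -/
theorem Cf_cw [CharP F 2] {b' : (Fin 3 → F) → (Fin 3 → F)} {k : ℕ}
    (hk : k ≤ Fintype.card F - 1) {g : (Fin 3 → F) → F} (hg : IsP (Fintype.card F - 1 - k) g)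
    (c : Fin 3 → F) : ∑ a, g a * Cf s k b' a c = 0 := by
  have hq : 1 < Fintype.card F := Fintype.one_lt_card
  have h1 : ∀ a, g a * Cf s k b' a c = ∑ v, if v ≠ 0 then
      (c ⬝ᵥ (s ∘ v)) ^ (Fintype.card F - 1 - k) *
        (if a ⬝ᵥ v = 0 then g a * (a ⬝ᵥ b' v) ^ k else 0) else 0 := by
    intro a
    rw [Cf, Finset.mul_sum, Finset.sum_filter]
    refine Finset.sum_congr rfl (fun v _ => ?_)
    by_cases hv : v = 0
    · simp [hv]
    · by_cases hav : a ⬝ᵥ v = 0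
      · simp only [hav, hv, ne_eq, not_false_eq_true, and_self, if_true]
        ring
      · simp [hav]
  rw [Finset.sum_congr rfl (fun a _ => h1 a), Finset.sum_comm]
  refine Finset.sum_eq_zero (fun v _ => ?_)
  by_cases hv : v = 0
  · simp [hv]
  · simp only [hv, ne_eq, not_false_eq_true, if_true]
    rw [← Finset.mul_sum, ← Finset.sum_filter]
    have h2 : IsP (Fintype.card F - 1 - k + k * 1) (fun a => g a * (a ⬝ᵥ b' v) ^ k) :=
      hg.mul ((IsP.dot (b' v)).pow k)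
    rw [h2.sum_plane v (by omega), mul_zero]

/-- Sum over a ≠ 0 of Nf s b' a (a B) = 1 for every matrix B: exchange the sums (ind_eq); for fixed v ≠ 0 the number
of a ≠ 0 with a ⬝ᵥ v = 0 and a ⬝ᵥ (b' v + B (s v)) = 0 is odd (sum_two; the term a = 0 is 1), and the number of
v ≠ 0 is q^3 - 1, odd. (Matrix.dotProduct_mulVec.) -/
theorem Nf_sum [CharP F 2] (b' : (Fin 3 → F) → (Fin 3 → F)) (B : Matrix (Fin 3) (Fin 3) F) :
    ∑ a ∈ Finset.univ.filter (fun a : Fin 3 → F => a ≠ 0), Nf s b' a (Matrix.vecMul a B) = 1 := by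
  have hq : 1 < Fintype.card F := Fintype.one_lt_card
  let n' : (Fin 3 → F) → (Fin 3 → F) := fun v => b' v + Matrix.mulVec B (s ∘ v)
  have h1 : ∀ a : Fin 3 → F, Nf s b' a (Matrix.vecMul a B) = ∑ v, if v ≠ 0 then
      (if a ⬝ᵥ v = 0 ∧ a ⬝ᵥ n' v = 0 then (1 : F) else 0) else 0 := by
    intro a
    rw [Nf, Finset.sum_filter]
    refine Finset.sum_congr rfl (fun v _ => ?_)
    have h2 : a ⬝ᵥ b' v + Matrix.vecMul a B ⬝ᵥ (s ∘ v) = a ⬝ᵥ n' v := by
      show _ = a ⬝ᵥ (b' v + Matrix.mulVec B (s ∘ v))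
      rw [dotProduct_add, Matrix.dotProduct_mulVec]
    rw [h2, ind_eq]
    by_cases hv : v = 0
    · simp [hv]
    · by_cases hav : a ⬝ᵥ v = 0
      · simp [hav, hv]
      · simp [hav]
  rw [Finset.sum_congr rfl (fun a _ => h1 a), Finset.sum_comm]
  have h3 : ∀ v : Fin 3 → F, (∑ a ∈ Finset.univ.filter (fun a : Fin 3 → F => a ≠ 0),
      if v ≠ 0 then (if a ⬝ᵥ v = 0 ∧ a ⬝ᵥ n' v = 0 then (1 : F) else 0) else 0) =
      if v ≠ 0 then 1 else 0 := by
    intro v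
    by_cases hv : v = 0
    · simp [hv]
    · simp only [hv, ne_eq, not_false_eq_true, if_true]
      have h4 := sum_two v (n' v)
      rw [Finset.sum_filter, ← Finset.add_sum_erase Finset.univ _ (Finset.mem_univ (0 : Fin 3 → F))]
        at h4
      have h5 : (if (0 : Fin 3 → F) ⬝ᵥ v = 0 ∧ (0 : Fin 3 → F) ⬝ᵥ n' v = 0 then (1 : F) else 0) = 1 := by
        simp
      rw [h5] at h4
      have h6 : Finset.univ.filter (fun a : Fin 3 → F => ¬ a = 0) = Finset.univ.erase 0 := by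
        ext a
        simp
      rw [h6]
      exact (CharTwo.add_eq_zero.1 h4).symm
  rw [Finset.sum_congr rfl (fun v _ => h3 v)]
  have h7 : ∑ v : Fin 3 → F, (if v ≠ 0 then (1 : F) else 0) + 1 = 0 := by
    have h8 : ∑ v : Fin 3 → F, (1 : F) = 0 := by
      rw [Finset.sum_const, Finset.card_univ, Fintype.card_fun, Fintype.card_fin, nsmul_eq_mul,
        mul_one, Nat.cast_pow, FiniteField.cast_card_eq_zero, zero_pow (by norm_num)]
    refine Eq.trans ?_ h8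
    have h9 : ∑ v ∈ Finset.univ.erase (0 : Fin 3 → F), (if v ≠ 0 then (1 : F) else 0) =
        ∑ v ∈ Finset.univ.erase (0 : Fin 3 → F), (1 : F) := by
      refine Finset.sum_congr rfl (fun v hv => ?_)
      rw [if_pos (Finset.ne_of_mem_erase hv)]
    have h10 : ∑ v : Fin 3 → F, (if v ≠ 0 then (1 : F) else 0) =
        0 + ∑ v ∈ Finset.univ.erase (0 : Fin 3 → F), (1 : F) := by
      rw [← h9, ← Finset.add_sum_erase Finset.univ _ (Finset.mem_univ (0 : Fin 3 → F))]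
      congr 1
      simp
    have h11 : ∑ v : Fin 3 → F, (1 : F) =
        1 + ∑ v ∈ Finset.univ.erase (0 : Fin 3 → F), (1 : F) :=
      (Finset.add_sum_erase Finset.univ (fun _ => (1 : F)) (Finset.mem_univ (0 : Fin 3 → F))).symm
    rw [h10, h11]
    ring
  exact CharTwo.add_eq_zero.1 h7

end Pool.Agent.Lib.MP_4dc748_co.TA
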