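import Pool.Agent.Lib.MP_4dc748_co.TA.Defs

/-!
# Dual bases, forms which are products of linear forms
-/

set_option autoImplicit false

open scoped Classical

namespace Pool.Agent.Lib.MP_4dc748_co.TA

section field

variable {F : Type} [Field F]

/-- Dual bases of F^3. -/
structure Fr (a0 a1 a2 e0 e1 e2 : Fin 3 → F) : Prop where
  h00 : a0 ⬝ᵥ e0 = 1
  h01 : a0 ⬝ᵥ e1 = 0
  h02 : a0 ⬝ᵥ e2 = 0
  h10 : a1 ⬝ᵥ e0 = 0
  h11 : a1 ⬝ᵥ e1 = 1
  h12 : a1 ⬝ᵥ e2 = 0
  h20 : a2 ⬝ᵥ e0 = 0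
  h21 : a2 ⬝ᵥ e1 = 0
  h22 : a2 ⬝ᵥ e2 = 1

theorem frame_mat {a0 a1 a2 e0 e1 e2 : Fin 3 → F} (h : Fr a0 a1 a2 e0 e1 e2) (k l : Fin 3) :
    e0 k * a0 l + e1 k * a1 l + e2 k * a2 l = if k = l then 1 else 0 := by
  have h1 : (Matrix.of ![a0, a1, a2]) * (Matrix.of ![e0, e1, e2]).transpose = 1 := by
    ext i j
    rw [Matrix.mul_apply']
    fin_cases i <;> fin_cases j
    · exact h.h00
    · exact h.h01
    · exact h.h02
    · exact h.h10
    · exact h.h11
    · exact h.h12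
    · exact h.h20
    · exact h.h21
    · exact h.h22
  have h2 : (Matrix.of ![e0, e1, e2]).transpose * (Matrix.of ![a0, a1, a2]) = 1 :=
    mul_eq_one_comm.1 h1
  have h3 := congrFun (congrFun h2 k) l
  rw [Matrix.mul_apply, Fin.sum_univ_three, Matrix.one_apply] at h3
  exact h3

/-- Coordinates of a vector. -/
theorem Fr.vec {a0 a1 a2 e0 e1 e2 : Fin 3 → F} (h : Fr a0 a1 a2 e0 e1 e2) (v : Fin 3 → F) :
    v = (a0 ⬝ᵥ v) • e0 + (a1 ⬝ᵥ v) • e1 + (a2 ⬝ᵥ v) • e2 := by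
  ext k
  have h1 : v k = ∑ l, (e0 k * a0 l + e1 k * a1 l + e2 k * a2 l) * v l := by
    rw [Finset.sum_congr rfl fun l _ => by rw [frame_mat h k l]]
    simp
  rw [h1]
  simp only [Pi.add_apply, Pi.smul_apply, smul_eq_mul, dotProduct, Finset.sum_mul]
  rw [← Finset.sum_add_distrib, ← Finset.sum_add_distrib]
  exact Finset.sum_congr rfl fun l _ => by ring

/-- Coordinates of a line. -/
theorem Fr.cov {a0 a1 a2 e0 e1 e2 : Fin 3 → F} (h : Fr a0 a1 a2 e0 e1 e2) (a : Fin 3 → F) :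
    a = (a ⬝ᵥ e0) • a0 + (a ⬝ᵥ e1) • a1 + (a ⬝ᵥ e2) • a2 := by
  ext l
  have h1 : a l = ∑ k, a k * (e0 k * a0 l + e1 k * a1 l + e2 k * a2 l) := by
    rw [Finset.sum_congr rfl fun k _ => by rw [frame_mat h k l]]
    simp
  rw [h1]
  simp only [Pi.add_apply, Pi.smul_apply, smul_eq_mul, dotProduct, Finset.sum_mul]
  rw [← Finset.sum_add_distrib, ← Finset.sum_add_distrib]
  exact Finset.sum_congr rfl fun l _ => by ring

/-- Given a0 ≠ 0 and independent e1, e2 on a0 there is such a frame. -/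
theorem exists_frame {a0 e1 e2 : Fin 3 → F} (h0 : a0 ≠ 0) (h01 : a0 ⬝ᵥ e1 = 0)
    (h02 : a0 ⬝ᵥ e2 = 0) (h1 : e1 ≠ 0) (h2 : ∀ c : F, e2 ≠ c • e1) :
    ∃ a1 a2 e0 : Fin 3 → F, Fr a0 a1 a2 e0 e1 e2 := by
  obtain ⟨i, hi⟩ := Function.ne_iff.1 h0
  rw [Pi.zero_apply] at hi
  set e0 : Fin 3 → F := Pi.single i (a0 i)⁻¹ with he0
  have h00 : a0 ⬝ᵥ e0 = 1 := by
    rw [he0, dotProduct_single, mul_inv_cancel₀ hi]
  have hind : LinearIndependent F (Matrix.of ![e0, e1, e2]).row := by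
    rw [Fintype.linearIndependent_iff]
    intro g hg
    rw [Fin.sum_univ_three] at hg
    have hg' : g 0 • e0 + g 1 • e1 + g 2 • e2 = 0 := hg
    have k0 : g 0 = 0 := by
      have := congrArg (fun v => a0 ⬝ᵥ v) hg'
      simp only [dotProduct_add, dotProduct_smul, h00, h01, h02, dotProduct_zero] at this
      simpa using this
    rw [k0, zero_smul, zero_add] at hg'
    have k2 : g 2 = 0 := by
      by_contra hne
      apply h2 (-((g 2)⁻¹ * g 1))
      have : e2 = (g 2)⁻¹ • (g 2 • e2) := by rw [smul_smul, inv_mul_cancel₀ hne, one_smul]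
      rw [this, eq_neg_of_add_eq_zero_right hg', smul_neg, smul_smul, neg_smul]
    rw [k2, zero_smul, add_zero] at hg'
    have k1 : g 1 = 0 := (smul_eq_zero.1 hg').resolve_right h1
    intro j
    fin_cases j
    · exact k0
    · exact k1
    · exact k2
  have hu := Matrix.linearIndependent_rows_iff_isUnit.1 hind
  have hinv : (Matrix.of ![e0, e1, e2]) * (Matrix.of ![e0, e1, e2])⁻¹ = 1 :=
    Matrix.mul_nonsing_inv _ ((Matrix.isUnit_iff_isUnit_det _).1 hu)
  set B := (Matrix.of ![e0, e1, e2])⁻¹ with hB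
  have key : ∀ i j : Fin 3, (![e0, e1, e2] i) ⬝ᵥ (fun k => B k j) = if i = j then 1 else 0 := by
    intro i j
    have := congrFun (congrFun hinv i) j
    rw [Matrix.mul_apply', Matrix.one_apply] at this
    exact this
  refine ⟨fun k => B k 1, fun k => B k 2, e0, ⟨h00, h01, h02, ?_, ?_, ?_, ?_, ?_, ?_⟩⟩
  · rw [dotProduct_comm]
    simpa using key 0 1
  · rw [dotProduct_comm]
    simpa using key 1 1
  · rw [dotProduct_comm]
    simpa using key 2 1
  · rw [dotProduct_comm]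
    simpa using key 0 2
  · rw [dotProduct_comm]
    simpa using key 1 2
  · rw [dotProduct_comm]
    simpa using key 2 2

/-- The linear form v ↦ n ⬝ᵥ v. -/
noncomputable def linf (n : Fin 3 → F) : MvPolynomial (Fin 3) F :=
  ∑ k, MvPolynomial.C (n k) * MvPolynomial.X k

theorem linf_hom (n : Fin 3 → F) : (linf n).IsHomogeneous 1 := by
  unfold linf
  refine MvPolynomial.IsHomogeneous.sum _ _ _ fun k _ => ?_
  have h := (MvPolynomial.isHomogeneous_C (Fin 3) (n k)).mul (MvPolynomial.isHomogeneous_X F k)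
  rwa [zero_add] at h

theorem linf_eval (n v : Fin 3 → F) : MvPolynomial.eval v (linf n) = n ⬝ᵥ v := by
  unfold linf
  rw [map_sum]
  exact Finset.sum_congr rfl fun k _ => by simp

/-- A homogeneous polynomial at a multiple of a vector. -/
theorem hom_smul {d : ℕ} {w : MvPolynomial (Fin 3) F} (hw : w.IsHomogeneous d) (c : F)
    (v : Fin 3 → F) :
    MvPolynomial.eval (c • v) w = c ^ d * MvPolynomial.eval v w := by
  rw [MvPolynomial.eval_eq, MvPolynomial.eval_eq, Finset.mul_sum]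
  refine Finset.sum_congr rfl fun x hx => ?_
  have h1 : ∏ i ∈ x.support, (c • v) i ^ x i = c ^ d * ∏ i ∈ x.support, v i ^ x i := by
    have h2 : d = ∑ i ∈ x.support, x i := hw.degree_eq_sum_deg_support hx
    rw [h2, ← Finset.prod_pow_eq_pow_sum, ← Finset.prod_mul_distrib]
    exact Finset.prod_congr rfl fun i _ => by rw [Pi.smul_apply, smul_eq_mul, mul_pow]
  rw [h1]
  ring

end field

end Pool.Agent.Lib.MP_4dc748_co.TA
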