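import Pool.Agent.Lib.MP_4dc748_co.TA.Virt
import Pool.Agent.Lib.MP_4dc748_co.TA.BadA
import Pool.Agent.Lib.MP_4dc748_co.TA.Frame

/-!
# Bad lines, the contradiction
-/

set_option autoImplicit false

open scoped Classical

namespace Pool.Agent.Lib.MP_4dc748_co.TA

variable {F : Type} [Field F] [Fintype F] {s : F ≃+* F}

/-- Two different lines have at most one common point. -/
theorem bad_prop {a1 a v v' : Fin 3 → F} (h1 : a1 ≠ 0) (h : ∀ c : F, a ≠ c • a1) (hv : v ≠ 0)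
    (k1 : a1 ⬝ᵥ v = 0) (k2 : a1 ⬝ᵥ v' = 0) (k3 : a ⬝ᵥ v = 0) (k4 : a ⬝ᵥ v' = 0) :
    ∃ c : F, v' = c • v := by
  by_contra hcon
  push Not at hcon
  obtain ⟨x, y, e0, hF⟩ := exists_frame h1 k1 k2 hv hcon
  have h2 := hF.cov a
  rw [k3, k4, zero_smul, zero_smul, add_zero, add_zero] at h2
  exact h _ h2

theorem bad_cast [CharP F 2] : ((Fintype.card F - 1 : ℕ) : F) = 1 := by
  have h0 : ((Fintype.card F : ℕ) : F) = 0 := by simp
  rw [Nat.cast_sub Fintype.card_pos, h0, Nat.cast_one, zero_sub, CharTwo.neg_eq]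

/-- Sums over the multiples of a vector. -/
theorem bad_sum [CharP F 2] {a1 : Fin 3 → F} (h1 : a1 ≠ 0) {g : (Fin 3 → F) → F} {x : F}
    (hg : ∀ e : F, e ≠ 0 → g (e • a1) = x) (h0 : g 0 = 0)
    (hz : ∀ a, a ≠ 0 → (∀ c : F, a ≠ c • a1) → g a = 0) : ∑ a, g a = x := by
  have h2 : ∑ a ∈ (Finset.univ.filter (fun e : F => e ≠ 0)).image (fun e => e • a1), g a =
      ∑ a, g a := by
    refine Finset.sum_subset (Finset.subset_univ _) fun a _ ha => ?_
    by_cases h3 : a = 0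
    · rw [h3, h0]
    refine hz a h3 fun c hc => ha ?_
    rw [Finset.mem_image]
    refine ⟨c, ?_, hc.symm⟩
    rw [Finset.mem_filter]
    refine ⟨Finset.mem_univ _, ?_⟩
    rintro rfl
    rw [zero_smul] at hc
    exact h3 hc
  rw [← h2, Finset.sum_image]
  · rw [Finset.sum_congr rfl fun e he => hg e (Finset.mem_filter.1 he).2, Finset.sum_const,
      Finset.filter_ne', Finset.card_erase_of_mem (Finset.mem_univ _), Finset.card_univ,
      nsmul_eq_mul, bad_cast, one_mul]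
  · intro e _ e' _ hee
    exact smul_left_injective F h1 hee

theorem bad_Cf_scale {k : ℕ} {b' : (Fin 3 → F) → (Fin 3 → F)} {e : F} (he : e ≠ 0)
    (a c : Fin 3 → F) : Cf s k b' (e • a) c = e ^ k * Cf s k b' a c := by
  unfold Cf
  rw [Finset.mul_sum]
  refine Finset.sum_congr ?_ fun v _ => ?_
  · ext v
    simp [smul_dotProduct, he]
  · rw [smul_dotProduct, smul_eq_mul, mul_pow, mul_assoc]

theorem bad_Nf_scale {b' : (Fin 3 → F) → (Fin 3 → F)} {e : F} (he : e ≠ 0)
    (a c : Fin 3 → F) : Nf s b' (e • a) (e • c) = Nf s b' a c := by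
  unfold Nf
  refine Finset.sum_congr ?_ fun v _ => ?_
  · ext v
    simp [smul_dotProduct, he]
  · rw [smul_dotProduct, smul_dotProduct, smul_eq_mul, smul_eq_mul, ← mul_add, mul_pow,
      FiniteField.pow_card_sub_one_eq_one e he, one_mul]

theorem bad_Nf_scale' {b' : (Fin 3 → F) → (Fin 3 → F)} {e : F} (he : e ≠ 0)
    (a c : Fin 3 → F) : Nf s b' (e • a) c = Nf s b' a (e⁻¹ • c) := by
  rw [← bad_Nf_scale he a (e⁻¹ • c), smul_smul, mul_inv_cancel₀ he, one_smul]

/-- A bad line a1 (Nf not identically 0) with mu a1 ≤ Q such that all bad lines a have mu a ≥ mu a1. Contradiction.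
Let ρ = mu a1. ρ = 0: Nf_zero_of with k0 = 0; ρ = 1: k0 = 1 (Cf_zero, h4). So ρ ≥ 2. Let
Z = the missing points not on a1 minus ρ - 2 of them (Z = ∅ if there are fewer than ρ - 2), |Z| ≤ q - 2 - ρ - (ρ-2).
A bad line a which is not a multiple of a1 has at most one missing point on a1, so at least ρ - 1 missing points
not on a1, so one of them in Z (in particular there are at least ρ - 1 of them). For k ≤ 2 ρ - 2 let
g a = (Prod over z ∈ Z of a ⬝ᵥ z) (a ⬝ᵥ z0)^(q-1-k-|Z|), z0 with a1 ⬝ᵥ z0 ≠ 0. Cf_cw: only the multiples of a1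
contribute (bad lines: g = 0; good lines: Cf_eq_zero_of; a = 0: g 0 = 0), g (e a1) Cf (e a1) = g a1 Cf a1, and
q - 1 = 1 in F: Cf s k b' a1 c = 0. So Nf_zero_of with k0 = 2 ρ - 2: ρ (2 q + 1 - ρ) < 2 ρ q. -/
theorem no_small_bad [CharP F 2] {Q : ℕ} (hq : Fintype.card F = 2 * Q) (h2 : 2 ≤ Q)
    (A : Arc F s) {b' : (Fin 3 → F) → (Fin 3 → F)} (h1 : ∀ v, Re A.M v → b' v = A.b v)
    (h3 : ∀ c : F, c ≠ 0 → ∀ v, b' (c • v) = s c • b' v)
    (h4 : ∀ a : Fin 3 → F, a ≠ 0 → mu A.M a = 1 → ∀ c, Cf s 1 b' a c = 0)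
    {a1 : Fin 3 → F} (ha1 : a1 ≠ 0) (hbad : ∃ c, Nf s b' a1 c ≠ 0)
    (hmin : ∀ a : Fin 3 → F, a ≠ 0 → (∃ c, Nf s b' a c ≠ 0) → mu A.M a1 ≤ mu A.M a)
    (hQ : mu A.M a1 ≤ Q) : False := by
  obtain ⟨c1, hc1⟩ := hbad
  set ρ := mu A.M a1 with hρ
  have hρM : ρ ≤ A.M.card := Finset.card_filter_le _ _
  have hcard := A.card
  rcases Nat.lt_or_ge ρ 2 with hlt | hge
  · refine hc1 (Nf_zero_of A h1 h3 ha1 (k0 := ρ) (by omega) (fun k hk c => ?_) ?_ c1)
    · rcases Nat.eq_zero_or_pos k with rfl | hk0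
      · exact Cf_zero h3 ha1 c
      · have hk1 : k = 1 := by omega
        subst hk1
        exact h4 a1 ha1 (by omega) c
    · rw [← hρ]
      interval_cases ρ
      · omega
      · omega
  -- the missing points outside a1
  set M2 := A.M.filter (fun m => ¬ a1 ⬝ᵥ m = 0) with hM2
  have hM2c : M2.card + ρ = A.M.card := by
    rw [hρ, hM2, mu, add_comm]
    exact Finset.card_filter_add_card_filter_not _
  obtain ⟨Z, hZM, hZc⟩ := Finset.exists_subset_card_eq (s := M2) (n := M2.card - (ρ - 2))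
    (Nat.sub_le _ _)
  have hZ : ∀ a : Fin 3 → F, a ≠ 0 → (∃ c, Nf s b' a c ≠ 0) → (∀ c : F, a ≠ c • a1) →
      ∃ z ∈ Z, a ⬝ᵥ z = 0 := by
    intro a ha hba hac
    by_contra hcon
    push Not at hcon
    have k1 := hmin a ha hba
    have k2 : (A.M.filter (fun m => a ⬝ᵥ m = 0)).card ≤
        ((A.M.filter (fun m => a ⬝ᵥ m = 0)).filter (fun m => a1 ⬝ᵥ m = 0)).card +
        ((A.M.filter (fun m => a ⬝ᵥ m = 0)).filter (fun m => ¬ a1 ⬝ᵥ m = 0)).card :=
      (Finset.card_filter_add_card_filter_not _).ge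
    have k3 : ((A.M.filter (fun m => a ⬝ᵥ m = 0)).filter (fun m => a1 ⬝ᵥ m = 0)).card ≤ 1 := by
      rw [Finset.card_le_one]
      intro m hm m' hm'
      rw [Finset.mem_filter, Finset.mem_filter] at hm hm'
      obtain ⟨c, hc⟩ := bad_prop ha1 hac (A.ne m hm.1.1) hm.2 hm'.2 hm.1.2 hm'.1.2
      exact (A.ind m hm.1.1 m' hm'.1.1 c hc).symm
    have k4 : ((A.M.filter (fun m => a ⬝ᵥ m = 0)).filter (fun m => ¬ a1 ⬝ᵥ m = 0)).card ≤
        (M2 \ Z).card := by
      refine Finset.card_le_card fun m hm => ?_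
      rw [Finset.mem_filter, Finset.mem_filter] at hm
      rw [Finset.mem_sdiff, hM2, Finset.mem_filter]
      exact ⟨⟨hm.1.1, hm.2⟩, fun hz => hcon m hz hm.1.2⟩
    rw [Finset.card_sdiff_of_subset hZM, hZc] at k4
    have k5 : mu A.M a = (A.M.filter (fun m => a ⬝ᵥ m = 0)).card := rfl
    omega
  obtain ⟨i0, hi0⟩ := Function.ne_iff.1 ha1
  rw [Pi.zero_apply] at hi0
  have hz0 : a1 ⬝ᵥ Pi.single i0 1 ≠ 0 := by
    rw [dotProduct_single, mul_one]
    exact hi0
  have key : ∀ k ≤ 2 * ρ - 2, ∀ c, Cf s k b' a1 c = 0 := by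
    intro k hk c
    have hZk : Z.card ≤ Fintype.card F - 1 - k := by omega
    set g : (Fin 3 → F) → F := fun a => (∏ z ∈ Z, a ⬝ᵥ z) *
      (a ⬝ᵥ Pi.single i0 1) ^ (Fintype.card F - 1 - k - Z.card) with hg
    have hgP : IsP (Fintype.card F - 1 - k) g := by
      have := (IsP.prod (F := F) Z (d := 1) (g := fun z a => a ⬝ᵥ z) fun z _ => IsP.dot z).mul
        ((IsP.dot (F := F) (Pi.single i0 (1 : F))).pow (Fintype.card F - 1 - k - Z.card))
      exact this.mono (by omega)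
    have hgs : ∀ (e : F) (a : Fin 3 → F), g (e • a) = e ^ (Fintype.card F - 1 - k) * g a := by
      intro e a
      simp only [hg]
      have k1 : ∏ z ∈ Z, (e • a) ⬝ᵥ z = e ^ Z.card * ∏ z ∈ Z, a ⬝ᵥ z := by
        rw [← Finset.prod_const, ← Finset.prod_mul_distrib]
        exact Finset.prod_congr rfl fun z _ => by rw [smul_dotProduct, smul_eq_mul]
      have k2 : Fintype.card F - 1 - k = Z.card + (Fintype.card F - 1 - k - Z.card) := by omega
      conv_rhs => rw [k2]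
      rw [k1, smul_dotProduct, smul_eq_mul, mul_pow, pow_add, ← k2]
      ring
    have hcw := Cf_cw (s := s) (b' := b') (k := k) (by omega) hgP c
    rw [bad_sum ha1 (g := fun a => g a * Cf s k b' a c) (x := g a1 * Cf s k b' a1 c)] at hcw
    · refine (mul_eq_zero.1 hcw).resolve_left ?_
      refine mul_ne_zero (Finset.prod_ne_zero_iff.2 fun z hz => ?_) (pow_ne_zero _ hz0)
      exact (Finset.mem_filter.1 (hZM hz)).2
    · intro e he
      rw [hgs, bad_Cf_scale he]
      have k3 : e ^ (Fintype.card F - 1 - k) * e ^ k = 1 := by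
        rw [← pow_add, Nat.sub_add_cancel (by omega)]
        exact FiniteField.pow_card_sub_one_eq_one e he
      calc e ^ (Fintype.card F - 1 - k) * g a1 * (e ^ k * Cf s k b' a1 c)
          = (e ^ (Fintype.card F - 1 - k) * e ^ k) * (g a1 * Cf s k b' a1 c) := by ring
        _ = _ := by rw [k3, one_mul]
    · have k4 := hgs 0 a1
      rw [zero_smul, zero_pow (by omega), zero_mul] at k4
      rw [k4, zero_mul]
    · intro a ha hac
      by_cases hba : ∃ c, Nf s b' a c ≠ 0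
      · obtain ⟨z, hz, haz⟩ := hZ a ha hba hac
        have k5 : g a = 0 := by
          simp only [hg]
          rw [Finset.prod_eq_zero hz haz, zero_mul]
        rw [k5, zero_mul]
      · push Not at hba
        rw [Cf_eq_zero_of h3 ha hba (by omega), mul_zero]
  refine hc1 (Nf_zero_of A h1 h3 ha1 (k0 := 2 * ρ - 2) (by omega) key ?_ c1)
  rw [← hρ]
  have k6 : 2 * ρ - 2 + 2 = 2 * ρ := by omega
  rw [k6]
  calc ρ * (2 * Fintype.card F + 1 - ρ) < ρ * (2 * Fintype.card F) := by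
        apply Nat.mul_lt_mul_of_pos_left <;> omega
    _ = Fintype.card F * (2 * ρ) := by ring

/-- exists_ext. If there is a bad line take one with minimal mu: no_small_bad gives mu > Q; so all bad lines have
mu > Q and are multiples of one a0 (mu_le_of_large). Nf_sum with B = 0 gives a bad line; and with B such that
a0 B = c (arbitrary c): Nf s b' (e a0) (e c) = Nf s b' a0 c, q - 1 = 1 in F: Nf s b' a0 c = 1 for all c.
N2_ne_one in coordinates (X has q - mu ≥ 2 elements, LC.surj). -/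
theorem no_arc [CharP F 2] {Q : ℕ} (hq : Fintype.card F = 2 * Q) (h2 : 2 ≤ Q) (A : Arc F s) :
    False := by
  obtain ⟨b', h1, h3, h4⟩ := exists_ext hq h2 A
  have hex : ∃ a : Fin 3 → F, a ≠ 0 ∧ ∃ c, Nf s b' a c ≠ 0 := by
    by_contra hcon
    push Not at hcon
    have k1 := Nf_sum (s := s) b' 0
    rw [Finset.sum_eq_zero fun a ha => hcon a (Finset.mem_filter.1 ha).2 _] at k1
    exact zero_ne_one k1
  obtain ⟨a0, ha0, hmin⟩ := Finset.exists_min_image
    (Finset.univ.filter (fun a : Fin 3 → F => a ≠ 0 ∧ ∃ c, Nf s b' a c ≠ 0)) (mu A.M) (by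
      obtain ⟨a, ha⟩ := hex
      exact ⟨a, Finset.mem_filter.2 ⟨Finset.mem_univ _, ha⟩⟩)
  rw [Finset.mem_filter] at ha0
  have hmin' : ∀ a : Fin 3 → F, a ≠ 0 → (∃ c, Nf s b' a c ≠ 0) → mu A.M a0 ≤ mu A.M a :=
    fun a ha hba => hmin a (Finset.mem_filter.2 ⟨Finset.mem_univ _, ha, hba⟩)
  rcases Nat.lt_or_ge Q (mu A.M a0) with hlt | hge
  swap
  · exact no_small_bad hq h2 A h1 h3 h4 ha0.2.1 ha0.2.2 hmin' hge
  have hmult : ∀ a : Fin 3 → F, a ≠ 0 → (∀ c : F, a ≠ c • a0) → ∀ c, Nf s b' a c = 0 := by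
    intro a ha hac
    by_contra hcon
    push Not at hcon
    have k1 := hmin' a ha hcon
    have k2 := mu_le_of_large hq A ha0.2.1 hlt ha hac
    omega
  -- Nf is 1 on a0
  have hone : ∀ c1, Nf s b' a0 c1 = 1 := by
    intro c1
    obtain ⟨i0, hi0⟩ := Function.ne_iff.1 ha0.2.1
    rw [Pi.zero_apply] at hi0
    set B : Matrix (Fin 3) (Fin 3) F := Matrix.of fun i j => if i = i0 then (a0 i0)⁻¹ * c1 j else 0
      with hB
    have hBa : Matrix.vecMul a0 B = c1 := by
      ext j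
      rw [Matrix.vecMul, dotProduct, Finset.sum_eq_single i0]
      · simp [hB, mul_inv_cancel_left₀ hi0]
      · intro i _ hi
        simp [hB, hi]
      · intro h
        exact absurd (Finset.mem_univ _) h
    have k1 := Nf_sum (s := s) b' B
    rw [Finset.sum_filter] at k1
    rw [bad_sum ha0.2.1 (x := Nf s b' a0 c1)] at k1
    · exact k1
    · intro e he
      rw [if_pos (smul_ne_zero he ha0.2.1), Matrix.smul_vecMul, hBa, bad_Nf_scale he]
    · simp
    · intro a ha hac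
      rw [if_pos ha, hmult a ha hac]
  obtain ⟨e, e', k1, k2, k3, k4, k5⟩ := exists_real_pair A ha0.2.1
  obtain ⟨e0, hLC⟩ := LC.exists_of ha0.2.1 k1 k3.1
  have hL := LC.larc A hLC k3
  have hL' : LArc (LX s A.M e e0) (fun x => a0 ⬝ᵥ b' (e0 + s.symm x • e)) (a0 ⬝ᵥ b' e) := by
    have k6 : ∀ x ∈ LX s A.M e e0, b' (e0 + s.symm x • e) = A.b (e0 + s.symm x • e) :=
      fun x hx => h1 _ (Finset.mem_filter.1 hx).2
    rw [h1 e k3]
    refine ⟨fun x hx y hy hxy => ?_, fun x hx y hy z hz hxy hxz hyz => ?_⟩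
    · simp only [k6 x hx, k6 y hy]
      exact hL.1 x hx y hy hxy
    · simp only [k6 x hx, k6 y hy, k6 z hz]
      exact hL.2 x hx y hy z hz hxy hxz hyz
  refine N2_ne_one hL' ?_ fun B C => ?_
  · have k6 := LC.card_compl A hLC k3
    have k7 : mu A.M a0 ≤ A.M.card := Finset.card_filter_le _ _
    have k8 := A.card
    have k9 := Finset.card_sdiff_add_card_eq_card (Finset.subset_univ (LX s A.M e e0))
    rw [Finset.card_univ] at k9
    omega
  · obtain ⟨c, hc1, hc2⟩ := hLC.surj s B C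
    have k6 := LC.Nf_eq hLC s h3 c
    rw [hone, hc1, hc2] at k6
    exact k6.symm

end Pool.Agent.Lib.MP_4dc748_co.TA
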