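import Pool.Agent.Lib.MP_4dc748_co.TA.Defs

/-!
# Sums of polynomial functions over vector spaces (Chevalley, Warning)
-/

set_option autoImplicit false

open scoped Classical

namespace Pool.Agent.Lib.MP_4dc748_co.TA

variable {F : Type} [Field F]

section

variable {ι : Type}

theorem IsP.mono {d e : ℕ} {g : (ι → F) → F} (hg : IsP d g) (h : d ≤ e) : IsP e g := by
  obtain ⟨p, hp, hv⟩ := hg
  exact ⟨p, hp.trans h, hv⟩

theorem IsP.congr {d : ℕ} {g g' : (ι → F) → F} (hg : IsP d g) (h : ∀ v, g v = g' v) : IsP d g' := by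
  obtain ⟨p, hp, hv⟩ := hg
  exact ⟨p, hp, fun v => (hv v).trans (h v)⟩

theorem IsP.const (d : ℕ) (c : F) : IsP (ι := ι) d (fun _ => c) :=
  ⟨MvPolynomial.C c, by simp, fun v => by simp⟩

theorem IsP.coord (i : ι) : IsP 1 (fun v : ι → F => v i) :=
  ⟨MvPolynomial.X i, by simp, fun v => by simp⟩

theorem IsP.add {d : ℕ} {g h : (ι → F) → F} (hg : IsP d g) (hh : IsP d h) :
    IsP d (fun v => g v + h v) := by
  obtain ⟨p, hp, hv⟩ := hg
  obtain ⟨p', hp', hv'⟩ := hh
  exact ⟨p + p', (MvPolynomial.totalDegree_add _ _).trans (max_le hp hp'), fun v => by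
    rw [map_add, hv, hv']⟩

theorem IsP.mul {d e : ℕ} {g h : (ι → F) → F} (hg : IsP d g) (hh : IsP e h) :
    IsP (d + e) (fun v => g v * h v) := by
  obtain ⟨p, hp, hv⟩ := hg
  obtain ⟨p', hp', hv'⟩ := hh
  exact ⟨p * p', (MvPolynomial.totalDegree_mul _ _).trans (add_le_add hp hp'), fun v => by
    rw [map_mul, hv, hv']⟩

theorem IsP.pow {d : ℕ} {g : (ι → F) → F} (hg : IsP d g) (k : ℕ) :
    IsP (k * d) (fun v => g v ^ k) := by
  obtain ⟨p, hp, hv⟩ := hg
  exact ⟨p ^ k, (MvPolynomial.totalDegree_pow _ _).trans (Nat.mul_le_mul_left _ hp), fun v => by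
    rw [map_pow, hv]⟩

theorem IsP.sum {κ : Type} {d : ℕ} (T : Finset κ) {g : κ → (ι → F) → F}
    (hg : ∀ i ∈ T, IsP d (g i)) : IsP d (fun v => ∑ i ∈ T, g i v) := by
  induction T using Finset.induction_on with
  | empty => exact (IsP.const d 0).congr fun v => by simp
  | insert i T hi ih =>
    exact ((hg i (Finset.mem_insert_self _ _)).add
      (ih fun j hj => hg j (Finset.mem_insert_of_mem hj))).congr fun v => by
        rw [Finset.sum_insert hi]

theorem IsP.prod {κ : Type} {d : ℕ} (T : Finset κ) {g : κ → (ι → F) → F}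
    (hg : ∀ i ∈ T, IsP d (g i)) : IsP (T.card * d) (fun v => ∏ i ∈ T, g i v) := by
  induction T using Finset.induction_on with
  | empty => exact (IsP.const _ 1).congr fun v => by simp
  | insert i T hi ih =>
    have h := (hg i (Finset.mem_insert_self _ _)).mul
      (ih fun j hj => hg j (Finset.mem_insert_of_mem hj))
    rw [Finset.card_insert_of_notMem hi]
    refine (h.mono (by ring_nf; rfl)).congr fun v => ?_
    rw [Finset.prod_insert hi]

theorem IsP.dot [Fintype ι] (n : ι → F) : IsP 1 (fun v : ι → F => v ⬝ᵥ n) := by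
  refine (IsP.sum Finset.univ (g := fun i v => v i * n i) fun i _ => ?_).congr fun v => rfl
  exact ((IsP.coord i).mul (IsP.const 0 (n i))).mono (by simp)

theorem IsP.dot' [Fintype ι] (n : ι → F) : IsP 1 (fun v : ι → F => n ⬝ᵥ v) :=
  (IsP.dot n).congr fun v => dotProduct_comm _ _

/-- The sum of a polynomial function of degree less than (q-1) * dim is 0. -/
theorem IsP.sum_eq_zero [Fintype F] [Fintype ι] [DecidableEq ι] {d : ℕ} {g : (ι → F) → F}
    (hg : IsP d g) (hd : d < (Fintype.card F - 1) * Fintype.card ι) : ∑ v, g v = 0 := by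
  obtain ⟨p, hp, hv⟩ := hg
  have h := MvPolynomial.sum_eval_eq_zero p (lt_of_le_of_lt hp hd)
  rw [← h]
  exact Finset.sum_congr rfl fun v _ => (hv v).symm

end

variable [Fintype F]

theorem ind_eq [CharP F 2] (x : F) :
    (1 + x ^ (Fintype.card F - 1) : F) = if x = 0 then 1 else 0 := by
  have h1 : 1 < Fintype.card F := Fintype.one_lt_card
  split_ifs with h
  · rw [h, zero_pow (by omega), add_zero]
  · rw [FiniteField.pow_card_sub_one_eq_one x h, CharTwo.add_self_eq_zero]

/-- Sum over a plane through 0. -/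
theorem IsP.sum_plane [CharP F 2] {d : ℕ} {g : (Fin 3 → F) → F} (hg : IsP d g) (n : Fin 3 → F)
    (hd : d < 2 * (Fintype.card F - 1)) :
    ∑ v ∈ Finset.univ.filter (fun v : Fin 3 → F => v ⬝ᵥ n = 0), g v = 0 := by
  have h1 : IsP (d + (Fintype.card F - 1) * 1)
      (fun v : Fin 3 → F => g v * (1 + (v ⬝ᵥ n) ^ (Fintype.card F - 1))) :=
    hg.mul ((IsP.const _ 1).add ((IsP.dot n).pow _))
  have h2 := h1.sum_eq_zero (by rw [Fintype.card_fin]; omega)
  rw [Finset.sum_filter]
  refine (Finset.sum_congr rfl fun v _ => ?_).trans h2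
  rw [ind_eq]
  split_ifs <;> simp

/-- The number of vectors orthogonal to two vectors is even. -/
theorem sum_two [CharP F 2] (n n' : Fin 3 → F) :
    ∑ v ∈ Finset.univ.filter (fun v : Fin 3 → F => v ⬝ᵥ n = 0 ∧ v ⬝ᵥ n' = 0), (1 : F) = 0 := by
  have h0 : 1 < Fintype.card F := Fintype.one_lt_card
  have h1 : IsP ((Fintype.card F - 1) * 1) (fun v : Fin 3 → F =>
      (1 + (v ⬝ᵥ n') ^ (Fintype.card F - 1))) := (IsP.const _ 1).add ((IsP.dot n').pow _)
  have h2 := h1.sum_plane n (by omega)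
  rw [← Finset.filter_filter, Finset.sum_filter _ (fun _ => (1 : F))]
  refine (Finset.sum_congr rfl fun v _ => ?_).trans h2
  rw [ind_eq]

end Pool.Agent.Lib.MP_4dc748_co.TA
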