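import Pool.Agent.Lib.MP_4dc748_co.TA.PlaneA

/-!
# The radical
-/

set_option autoImplicit false

open scoped Classical

namespace Pool.Agent.Lib.MP_4dc748_co.TA

variable {R F : Type} [Ring R] [Field F]

/-- The left annihilator of a nonzero element is contained in the radical. -/
theorem chainA_ann_le (e : (R ⧸ Ring.jacobson R) ≃+* F) {r y : R} (hy : y ≠ 0)
    (hr : r * y = 0) : r ∈ Ring.jacobson R := by
  by_contra hcon
  have h1 : e (Ideal.Quotient.mk (Ring.jacobson R) r) ≠ 0 := by
    rw [Ne, EmbeddingLike.map_eq_zero_iff, Ideal.Quotient.eq_zero_iff_mem]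
    exact hcon
  obtain ⟨t, ht⟩ := Ideal.Quotient.mk_surjective
    (e.symm (e (Ideal.Quotient.mk (Ring.jacobson R) r))⁻¹)
  have h2 : Ideal.Quotient.mk (Ring.jacobson R) (t * r) = 1 := by
    apply e.injective
    rw [map_mul, map_mul, ht, RingEquiv.apply_symm_apply, inv_mul_cancel₀ h1, map_one]
  have h3 : t * r - 1 ∈ Ring.jacobson R := by
    rw [← Ideal.Quotient.eq_zero_iff_mem, map_sub, h2, map_one, sub_self]
  rw [← Ideal.jacobson_bot, Ideal.mem_jacobson_iff] at h3
  obtain ⟨z, hz⟩ := h3 1
  rw [Ideal.mem_bot, mul_one] at hz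
  have h4 : z * t * r = 1 := by
    have h5 : z * t * r - 1 = z * (t * r - 1) + z - 1 := by noncomm_ring
    rw [hz] at h5
    exact sub_eq_zero.1 h5
  apply hy
  rw [← one_mul y, ← h4, mul_assoc, hr, mul_zero]

/-- J = Ring.jacobson R has q elements and J^2 = 0: elements outside J are units (R / J is a field and 1 + J
consists of units), so for 0 ≠ x ∈ J the left annihilator of x is contained in J, |R x| = |R| / |ann x| ≥ q,
R x ⊆ J, so |ann x| = q, ann x = J. -/
theorem jac_mul [Finite R] [Finite F] (e : (R ⧸ Ring.jacobson R) ≃+* F)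
    (hcard : Nat.card R = Nat.card F ^ 2) {x y : R} (hx : x ∈ Ring.jacobson R)
    (hy : y ∈ Ring.jacobson R) : x * y = 0 := by
  by_cases hy0 : y = 0
  · rw [hy0, mul_zero]
  have hq : 0 < Nat.card F := Nat.card_pos
  have hJ : Nat.card (Ring.jacobson R) = Nat.card F := by
    have h1 := Submodule.card_eq_card_quotient_mul_card (Ring.jacobson R)
    have h2 : Nat.card (R ⧸ Ring.jacobson R) = Nat.card F := Nat.card_congr e.toEquiv
    rw [h2, hcard, pow_two] at h1
    exact (Nat.eq_of_mul_eq_mul_right hq h1).symm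
  have hK : LinearMap.ker (LinearMap.toSpanSingleton R R y) ≤ Ring.jacobson R := by
    intro r hr
    rw [LinearMap.mem_ker, LinearMap.toSpanSingleton_apply, smul_eq_mul] at hr
    exact chainA_ann_le e hy0 hr
  have hR : LinearMap.range (LinearMap.toSpanSingleton R R y) ≤ Ring.jacobson R := by
    rintro _ ⟨r, rfl⟩
    rw [LinearMap.toSpanSingleton_apply, smul_eq_mul]
    exact Ideal.mul_mem_left _ r hy
  have h3 := Submodule.card_eq_card_quotient_mul_card (LinearMap.ker (LinearMap.toSpanSingleton R R y))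
  have h4 : Nat.card (R ⧸ LinearMap.ker (LinearMap.toSpanSingleton R R y))
      = Nat.card (LinearMap.range (LinearMap.toSpanSingleton R R y)) :=
    Nat.card_congr (LinearMap.quotKerEquivRange (LinearMap.toSpanSingleton R R y)).toEquiv
  have h5 : Nat.card (LinearMap.range (LinearMap.toSpanSingleton R R y)) ≤ Nat.card F := by
    rw [← hJ]
    exact Nat.card_le_card_of_injective (Submodule.inclusion hR) (Submodule.inclusion_injective hR)
  have h6 : Nat.card F ≤ Nat.card (LinearMap.ker (LinearMap.toSpanSingleton R R y)) := by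
    rw [h4, hcard, pow_two] at h3
    by_contra hcon
    have h6 := lt_of_le_of_lt (Nat.mul_le_mul_right
      (Nat.card (LinearMap.ker (LinearMap.toSpanSingleton R R y))) h5)
      (Nat.mul_lt_mul_of_pos_left (not_le.1 hcon) hq)
    rw [h3, mul_comm] at h6
    exact lt_irrefl _ h6
  have h7 : ((LinearMap.ker (LinearMap.toSpanSingleton R R y) : Submodule R R) : Set R)
      = (Ring.jacobson R : Set R) := by
    apply Set.eq_of_subset_of_ncard_le hK
    · rw [← Nat.card_coe_set_eq, ← Nat.card_coe_set_eq]
      have h8 : Nat.card ((Ring.jacobson R : Submodule R R) : Set R) = Nat.card F := hJ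
      rw [h8]
      exact h6
  have h8 : x ∈ LinearMap.ker (LinearMap.toSpanSingleton R R y) := by
    rw [← SetLike.mem_coe, h7]
    exact hx
  rw [LinearMap.mem_ker, LinearMap.toSpanSingleton_apply, smul_eq_mul] at h8
  exact h8

/-- F has characteristic 2. -/
theorem charP_of_quot (e : (R ⧸ Ring.jacobson R) ≃+* F) (hchar : CharP R 2) : CharP F 2 := by
  refine CharTwo.of_one_ne_zero_of_two_eq_zero one_ne_zero ?_
  have h1 : (2 : R) = 0 := by exact_mod_cast CharP.cast_eq_zero R 2
  have h2 : e (Ideal.Quotient.mk (Ring.jacobson R) (2 : R)) = 2 := by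
    rw [map_ofNat, map_ofNat]
  rw [← h2, h1, map_zero, map_zero]

end Pool.Agent.Lib.MP_4dc748_co.TA
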