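import Pool.Agent.Lib.MP_4dc748_co.TA.ChainA

/-!
# The residue field lifts
-/

set_option autoImplicit false

open scoped Classical

namespace Pool.Agent.Lib.MP_4dc748_co.TA

variable {R F : Type} [Ring R] [Field F]

/-- Elements 1 + j with j of square 0, in characteristic 2. -/
theorem chainB_one_add_pow (hchar : CharP R 2) {j : R} (hj : j * j = 0) (n : ℕ) :
    (1 + j) ^ (2 * n) = 1 := by
  have h1 : (2 : R) = 0 := by exact_mod_cast CharP.cast_eq_zero R 2
  have h2 : (1 + j) ^ 2 = 1 := by
    have h3 : (1 + j) ^ 2 = 1 + 2 * j + j * j := by noncomm_ring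
    rw [h3, h1, hj, zero_mul, add_zero, add_zero]
  rw [pow_mul, h2, one_pow]

/-- The field lifts to R: let π : R → F be the quotient map followed by e, g a generator of the group of units of F,
π u = g, v = u^q: u^(q-1) = 1 + j with j ∈ J, (1 + j)^2 = 1 (characteristic 2), q even, so v^(q-1) = 1 and
π v = g^q = g, v^q = v. For every polynomial p over ZMod 2 with p(g) = 0: p(v) ∈ J, p(v)^q = p(v^q) = p(v)
(commutative subring, characteristic 2, coefficients in ZMod 2), p(v)^2 = 0, so p(v) = 0. Polynomials in g exhaust F: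
RingHom.liftOfSurjective (or lift through the quotient by the kernel). -/
theorem exists_lift_field [Finite R] [Finite F] (e : (R ⧸ Ring.jacobson R) ≃+* F)
    (hchar : CharP R 2) (hcard : Nat.card R = Nat.card F ^ 2) :
    ∃ ι : F →+* R, ∀ x : F, e (Ideal.Quotient.mk (Ring.jacobson R) (ι x)) = x := by
  have hFt : Fintype F := Fintype.ofFinite F
  have hF : CharP F 2 := charP_of_quot e hchar
  let _ : Algebra (ZMod 2) R := ZMod.algebra R 2
  let _ : Algebra (ZMod 2) F := ZMod.algebra F 2
  obtain ⟨n, hn, hq⟩ := FiniteField.card F 2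
  let π : R →ₐ[ZMod 2] F :=
    { (e : (R ⧸ Ring.jacobson R) →+* F).comp (Ideal.Quotient.mk (Ring.jacobson R)) with
      commutes' := fun r => by
        exact RingHom.congr_fun (RingHom.ext_zmod
          (((e : (R ⧸ Ring.jacobson R) →+* F).comp (Ideal.Quotient.mk (Ring.jacobson R))).comp
            (algebraMap (ZMod 2) R)) (algebraMap (ZMod 2) F)) r }
  have hπ : ∀ z : R, π z = e (Ideal.Quotient.mk (Ring.jacobson R) z) := fun z => rfl
  have hJ : ∀ z : R, π z = 0 → z ∈ Ring.jacobson R := by
    intro z hz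
    rw [hπ, EmbeddingLike.map_eq_zero_iff, Ideal.Quotient.eq_zero_iff_mem] at hz
    exact hz
  have hsq : ∀ z w : R, π z = 0 → π w = 0 → z * w = 0 := fun z w hz hw =>
    jac_mul e hcard (hJ z hz) (hJ w hw)
  obtain ⟨g, hg⟩ := IsCyclic.exists_generator (α := Fˣ)
  obtain ⟨u, hu⟩ : ∃ u : R, π u = g := by
    obtain ⟨t, ht⟩ := Ideal.Quotient.mk_surjective (e.symm (g : F))
    exact ⟨t, by rw [hπ, ht, RingEquiv.apply_symm_apply]⟩
  set q : ℕ := 2 ^ (n : ℕ) with hqdef
  have hq2 : q = 2 * 2 ^ ((n : ℕ) - 1) := by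
    rw [hqdef, ← pow_succ', Nat.sub_add_cancel n.pos]
  have hq1 : 1 ≤ q := Nat.one_le_two_pow
  have hgq : (g : F) ^ q = g := by
    have h := FiniteField.pow_card (g : F)
    rwa [hq] at h
  have hgq1 : (g : F) ^ (q - 1) = 1 := by
    have h := FiniteField.pow_card_sub_one_eq_one (g : F) g.ne_zero
    rwa [hq] at h
  set v : R := u ^ q with hv
  have hπv : π v = g := by rw [hv, map_pow, hu, hgq]
  have hvq : v ^ q = v := by
    have h1 : π (u ^ (q - 1) - 1) = 0 := by
      rw [map_sub, map_pow, hu, hgq1, map_one, sub_self]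
    have h2 : (u ^ (q - 1)) ^ q = 1 := by
      have h3 := chainB_one_add_pow hchar (hsq _ _ h1 h1) (2 ^ ((n : ℕ) - 1))
      rw [← hq2, add_sub_cancel] at h3
      exact h3
    calc v ^ q = v ^ (q - 1) * v := by rw [← pow_succ, Nat.sub_add_cancel hq1]
      _ = v := by rw [hv, ← pow_mul, mul_comm q (q - 1), pow_mul, h2, one_mul]
  have hker : RingHom.ker (Polynomial.aeval (R := ZMod 2) (g : F) : Polynomial (ZMod 2) →+* F)
      ≤ RingHom.ker (Polynomial.aeval (R := ZMod 2) v : Polynomial (ZMod 2) →+* R) := by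
    intro p hp
    rw [RingHom.mem_ker] at hp ⊢
    change Polynomial.aeval v p = 0
    change Polynomial.aeval (g : F) p = 0 at hp
    have h1 : π (Polynomial.aeval v p) = 0 := by
      rw [← Polynomial.aeval_algHom_apply, hπv, hp]
    have h2 : Polynomial.aeval v p ^ q = Polynomial.aeval v p := by
      have h3 : Polynomial.expand (ZMod 2) (2 ^ (n : ℕ)) p = p ^ (2 ^ (n : ℕ)) := by
        generalize (n : ℕ) = k
        induction k with
        | zero => simp
        | succ k ih =>
          rw [pow_succ, Polynomial.expand_mul, ZMod.expand_card, map_pow, ih, ← pow_mul]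
      rw [← map_pow, hqdef, ← h3, Polynomial.expand_aeval, ← hqdef, hvq]
    rw [← h2, hq2, pow_mul, pow_two, hsq _ _ h1 h1, zero_pow (by positivity)]
  have hsurj : Function.Surjective
      (Polynomial.aeval (R := ZMod 2) (g : F) : Polynomial (ZMod 2) →+* F) := by
    intro x
    by_cases hx : x = 0
    · exact ⟨0, by rw [map_zero, hx]⟩
    · obtain ⟨k, hk⟩ := (mem_powers_iff_mem_zpowers.2 (hg (Units.mk0 x hx)))
      refine ⟨Polynomial.X ^ k, ?_⟩
      change Polynomial.aeval (g : F) (Polynomial.X ^ k) = x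
      have h1 := congrArg (Units.val) hk
      simpa using h1
  refine ⟨RingHom.liftOfSurjective _ hsurj ⟨_, hker⟩, fun x => ?_⟩
  obtain ⟨p, rfl⟩ := hsurj x
  rw [← hπ, RingHom.liftOfSurjective_comp_apply]
  change π (Polynomial.aeval v p) = Polynomial.aeval (g : F) p
  rw [← Polynomial.aeval_algHom_apply, hπv]

end Pool.Agent.Lib.MP_4dc748_co.TA
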