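import Pool.Agent.Lib.MP_4dc748_co.TA.Defs

/-!
# The sums A m j
-/

set_option autoImplicit false

open scoped Classical

namespace Pool.Agent.Lib.MP_4dc748_co.TA

variable {F : Type} [Field F] [Fintype F]

/-- Sum over T of T^m (T X + Y)^j. For X ≠ 0 substitute z = T X + Y: it is X^(-m) Sum over z of z^j (z + Y)^m;
for X = 0 it is Y^j Sum over T of T^m (0 for m < q - 1). FiniteField.sum_pow_lt_card_sub_one and similar. -/
noncomputable def AA (m j : ℕ) (X Y : F) : F := ∑ T : F, T ^ m * (T * X + Y) ^ j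

/-- Sum of x^i over x is 0 if i = 0 or q - 1 does not divide i. -/
theorem sum_pow_zero [CharP F 2] {i : ℕ} (h : i = 0 ∨ ¬ (Fintype.card F - 1) ∣ i) :
    ∑ x : F, x ^ i = 0 := by
  rcases h with h | h
  · subst h
    exact FiniteField.sum_pow_lt_card_sub_one F 0 (by have := Fintype.one_lt_card (α := F); omega)
  · have hi : i ≠ 0 := by
      rintro rfl
      exact h (dvd_zero _)
    have h1 := FiniteField.sum_pow_units F i
    rw [if_neg h] at h1
    rw [← Finset.sum_erase_add Finset.univ _ (Finset.mem_univ (0 : F)), zero_pow hi, add_zero]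
    refine Eq.trans ?_ h1
    symm
    refine Finset.sum_bij (fun (u : Fˣ) _ => (u : F)) ?_ ?_ ?_ ?_
    · intro u _
      exact Finset.mem_erase.2 ⟨u.ne_zero, Finset.mem_univ _⟩
    · intro u _ v _ huv
      exact Units.ext huv
    · intro x hx
      exact ⟨Units.mk0 x (Finset.mem_erase.1 hx).1, Finset.mem_univ _, rfl⟩
    · intro u _
      simp

/-- Sum of x^(q-1). -/
theorem FAlgA_sum_one [CharP F 2] : ∑ x : F, x ^ (Fintype.card F - 1) = 1 := by
  have hc := Fintype.one_lt_card (α := F)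
  have hi : Fintype.card F - 1 ≠ 0 := by omega
  rw [← Finset.sum_erase_add Finset.univ _ (Finset.mem_univ (0 : F)), zero_pow hi, add_zero]
  have : ∀ x ∈ Finset.univ.erase (0 : F), x ^ (Fintype.card F - 1) = 1 := by
    intro x hx
    exact FiniteField.pow_card_sub_one_eq_one x (Finset.mem_erase.1 hx).1
  rw [Finset.sum_congr rfl this, Finset.sum_const, Finset.card_erase_of_mem (Finset.mem_univ _),
    Finset.card_univ, nsmul_eq_mul, mul_one, Nat.cast_sub (by omega), FiniteField.cast_card_eq_zero]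
  simp [CharTwo.neg_eq]

/-- The value of the power sums below 2 (q - 1). -/
theorem FAlgA_S [CharP F 2] {i : ℕ} (h : i < 2 * (Fintype.card F - 1)) :
    ∑ x : F, x ^ i = if i = Fintype.card F - 1 then 1 else 0 := by
  split_ifs with h1
  · rw [h1]
    exact FAlgA_sum_one
  · apply sum_pow_zero
    by_cases h0 : i = 0
    · exact Or.inl h0
    · right
      rintro ⟨k, hk⟩
      rcases k with _ | _ | k
      · exact h0 (by simpa using hk)
      · exact h1 (by simpa using hk)
      · have : (Fintype.card F - 1) * (k + 1 + 1) = (Fintype.card F - 1) * k + 2 * (Fintype.card F - 1) := by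
          ring
        omega

theorem FAlgA_ne [CharP F 2] (m j : ℕ) {X : F} (hX : X ≠ 0) (Y : F) :
    AA m j X Y = (X ^ m)⁻¹ * ∑ z : F, z ^ j * (z + Y) ^ m := by
  unfold AA
  rw [Finset.mul_sum]
  refine Finset.sum_bij (fun T _ => T * X + Y) (fun _ _ => Finset.mem_univ _) ?_ ?_ ?_
  · intro a _ b _ h
    have h' : a * X = b * X := by simpa using h
    exact mul_right_cancel₀ hX h'
  · intro z _
    refine ⟨(z - Y) / X, Finset.mem_univ _, ?_⟩
    field_simp
    ring
  · intro T _
    have h1 : T * X + Y + Y = T * X := by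
      rw [add_assoc, CharTwo.add_self_eq_zero, add_zero]
    rw [h1, mul_pow]
    have := pow_ne_zero m hX
    field_simp

theorem FAlgA_zero (m j : ℕ) (Y : F) :
    AA m j 0 Y = (∑ T : F, T ^ m) * Y ^ j := by
  unfold AA
  rw [Finset.sum_mul]
  refine Finset.sum_congr rfl ?_
  intro T _
  rw [mul_zero, zero_add]

theorem FAlgA_inv {X : F} (hX : X ≠ 0) {m : ℕ} (hm : m ≤ Fintype.card F - 1) :
    (X ^ m)⁻¹ = X ^ (Fintype.card F - 1 - m) := by
  have h := FiniteField.pow_card_sub_one_eq_one X hX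
  refine inv_eq_of_mul_eq_one_right ?_
  rw [← pow_add, ← h]
  congr 1
  omega

theorem AA_zero [CharP F 2] {j : ℕ} (hj : j ≤ Fintype.card F - 2) (X Y : F) :
    AA 0 j X Y = 0 := by
  have hc := Fintype.one_lt_card (α := F)
  by_cases hX : X = 0
  · subst hX
    rw [FAlgA_zero, sum_pow_zero (Or.inl rfl), zero_mul]
  · rw [FAlgA_ne _ _ hX]
    simp only [pow_zero, mul_one, inv_one, one_mul]
    rw [FAlgA_S (by omega), if_neg (by omega)]

/-- z^j (z + Y)^p = z^j (z^p + Y^p) for a power p of 2. -/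
theorem AA_pow [CharP F 2] {Q p : ℕ} (hq : Fintype.card F = 2 * Q) (h2 : 2 ≤ Q)
    (hp : ∃ k, p = 2 ^ k) (hpQ : p ≤ Q) {j : ℕ} (hj : j ≤ Fintype.card F - 2)
    (hj' : j ≠ Fintype.card F - 1 - p) (X Y : F) : AA p j X Y = 0 := by
  obtain ⟨k, hk⟩ := hp
  have hp1 : 1 ≤ p := by rw [hk]; exact Nat.one_le_two_pow
  by_cases hX : X = 0
  · subst hX
    rw [FAlgA_zero, FAlgA_S (by omega), if_neg (by omega), zero_mul]
  · rw [FAlgA_ne _ _ hX]
    have h : ∀ z : F, z ^ j * (z + Y) ^ p = z ^ (j + p) + Y ^ p * z ^ j := by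
      intro z
      rw [hk, add_pow_char_pow]
      ring
    simp_rw [h]
    rw [Finset.sum_add_distrib, ← Finset.mul_sum, FAlgA_S (by omega), FAlgA_S (by omega),
      if_neg (by omega), if_neg (by omega)]
    simp

theorem FAlgA_Q [CharP F 2] {Q : ℕ} (hq : Fintype.card F = 2 * Q) : ∃ k, Q = 2 ^ k := by
  obtain ⟨n, hn, hc⟩ := FiniteField.card F 2
  have h1 : 2 * Q = 2 ^ (n : ℕ) := by rw [← hq, hc]
  have hn : (n : ℕ) = (n : ℕ) - 1 + 1 := by have := n.pos; omega
  rw [hn, pow_succ] at h1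
  exact ⟨(n : ℕ) - 1, by omega⟩

/-- z^j (z + Y)^(Q+p) = z^j (z^Q + Y^Q) (z^p + Y^p) (Q is a power of 2, FiniteField.card). -/
theorem AA_add [CharP F 2] {Q p : ℕ} (hq : Fintype.card F = 2 * Q) (h2 : 2 ≤ Q)
    (hp : ∃ k, p = 2 ^ k) (hpQ : 2 * p ≤ Q) {j : ℕ} (hj : j ≤ Fintype.card F - 2)
    (hj' : j ≠ Fintype.card F - 1 - p) (hj'' : j ≠ Q - 1) (X Y : F) :
    AA (Q + p) j X Y = if j = Q - 1 - p then X ^ (Q - 1 - p) else 0 := by
  obtain ⟨k, hk⟩ := hp
  obtain ⟨K, hK⟩ := FAlgA_Q hq
  have hp1 : 1 ≤ p := by rw [hk]; exact Nat.one_le_two_pow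
  by_cases hX : X = 0
  · subst hX
    rw [FAlgA_zero, FAlgA_S (by omega)]
    by_cases h : Q + p = Fintype.card F - 1
    · rw [if_pos h, one_mul]
      have h3 : Q = 2 := by omega
      have h4 : p = 1 := by omega
      have h5 : j = 0 := by omega
      rw [h5, h3, h4]
      simp
    · rw [if_neg h, zero_mul]
      have h3 : Q - 1 - p ≠ 0 := by omega
      rw [zero_pow h3]
      simp
  · rw [FAlgA_ne _ _ hX]
    have h : ∀ z : F, z ^ j * (z + Y) ^ (Q + p) =
        z ^ (j + Q + p) + Y ^ Q * z ^ (j + p) + Y ^ p * z ^ (j + Q) + Y ^ (Q + p) * z ^ j := by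
      intro z
      rw [pow_add (z + Y), hk, add_pow_char_pow (p := 2) (n := k)]
      conv_lhs => rw [hK, add_pow_char_pow (p := 2) (n := K), ← hK]
      ring
    simp_rw [h]
    rw [Finset.sum_add_distrib, Finset.sum_add_distrib, Finset.sum_add_distrib,
      ← Finset.mul_sum, ← Finset.mul_sum, ← Finset.mul_sum, FAlgA_S (by omega),
      FAlgA_S (by omega), FAlgA_S (by omega), FAlgA_S (by omega)]
    rw [if_neg (show ¬ (j + p = Fintype.card F - 1) by omega),
      if_neg (show ¬ (j + Q = Fintype.card F - 1) by omega),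
      if_neg (show ¬ (j = Fintype.card F - 1) by omega)]
    by_cases h3 : j = Q - 1 - p
    · rw [if_pos (by omega), if_pos h3, FAlgA_inv hX (by omega)]
      have : Fintype.card F - 1 - (Q + p) = Q - 1 - p := by omega
      rw [this]
      simp
    · rw [if_neg (by omega), if_neg h3]
      simp

/-- T^(2 Q) = T. -/
theorem AA_two [CharP F 2] {Q : ℕ} (hq : Fintype.card F = 2 * Q) (h2 : 2 ≤ Q) {j : ℕ}
    (hj : j ≤ Fintype.card F - 2) (X Y : F) :
    AA (Q + Q) j X Y = if j = Fintype.card F - 2 then X ^ (Fintype.card F - 2) else 0 := by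
  have h0 : AA (Q + Q) j X Y = AA 1 j X Y := by
    unfold AA
    refine Finset.sum_congr rfl ?_
    intro T _
    have : T ^ (Q + Q) = T ^ 1 := by
      have h := FiniteField.pow_card T
      rw [hq, two_mul] at h
      rw [h, pow_one]
    rw [this]
  rw [h0]
  by_cases hX : X = 0
  · subst hX
    rw [FAlgA_zero, FAlgA_S (by omega), if_neg (by omega), zero_mul]
    rw [zero_pow (by omega)]
    simp
  · rw [FAlgA_ne _ _ hX]
    have h : ∀ z : F, z ^ j * (z + Y) ^ 1 = z ^ (j + 1) + Y * z ^ j := by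
      intro z
      ring
    simp_rw [h]
    rw [Finset.sum_add_distrib, ← Finset.mul_sum, FAlgA_S (by omega), FAlgA_S (by omega)]
    rw [if_neg (show ¬ (j = Fintype.card F - 1) by omega)]
    by_cases h3 : j = Fintype.card F - 2
    · rw [if_pos (by omega), if_pos h3, FAlgA_inv hX (by omega)]
      have : Fintype.card F - 1 - 1 = Fintype.card F - 2 := by omega
      rw [this]
      simp
    · rw [if_neg (by omega), if_neg h3]
      simp

theorem FAlgA_geom [CharP F 2] {Q : ℕ} (hq : Fintype.card F = 2 * Q) (h2 : 2 ≤ Q) (x y : F) :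
    (x + y) ^ (Q - 1) = ∑ t ∈ Finset.range Q, x ^ t * y ^ (Q - 1 - t) := by
  obtain ⟨K, hK⟩ := FAlgA_Q hq
  by_cases h : x + y = 0
  · have hxy : x = y := by
      have h' := eq_neg_of_add_eq_zero_left h
      rwa [CharTwo.neg_eq] at h'
    rw [h, zero_pow (by omega), hxy]
    have : ∀ t ∈ Finset.range Q, y ^ t * y ^ (Q - 1 - t) = y ^ (Q - 1) := by
      intro t ht
      rw [← pow_add]
      congr 1
      have := Finset.mem_range.1 ht
      omega
    rw [Finset.sum_congr rfl this, Finset.sum_const, Finset.card_range, nsmul_eq_mul]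
    have hQ : (Q : F) = 0 := by
      rw [hK]
      push_cast
      have : (2 : F) = 0 := CharTwo.two_eq_zero
      rw [this, zero_pow]
      rintro rfl
      simp at hK
      omega
    rw [hQ, zero_mul]
  · have h1 := geom_sum₂_mul x y Q
    apply mul_right_cancel₀ h
    rw [← CharTwo.sub_eq_add, h1, CharTwo.sub_eq_add, CharTwo.sub_eq_add, ← pow_succ,
      show Q - 1 + 1 = Q by omega]
    conv_lhs => rw [hK, add_pow_char_pow (p := 2) (n := K), ← hK]

/-- (T X + Y)^(Q-1) = Sum over t ≤ Q - 1 of (T X)^t Y^(Q-1-t): all binomial coefficients binom(Q-1, t) are odd. -/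
theorem AA_Q [CharP F 2] {Q : ℕ} (hq : Fintype.card F = 2 * Q) (h2 : 2 ≤ Q) {m : ℕ}
    (hm : m ≤ Fintype.card F - 1) (X Y : F) :
    AA m (Q - 1) X Y = if Q ≤ m then X ^ (Fintype.card F - 1 - m) * Y ^ (m - Q) else 0 := by
  unfold AA
  have h : ∀ T : F, T ^ m * (T * X + Y) ^ (Q - 1) =
      ∑ t ∈ Finset.range Q, (X ^ t * Y ^ (Q - 1 - t)) * T ^ (m + t) := by
    intro T
    rw [FAlgA_geom hq h2, Finset.mul_sum]
    refine Finset.sum_congr rfl ?_
    intro t _
    rw [mul_pow]
    ring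
  simp_rw [h]
  rw [Finset.sum_comm]
  have h1 : ∀ t ∈ Finset.range Q, ∑ T : F, (X ^ t * Y ^ (Q - 1 - t)) * T ^ (m + t) =
      if m + t = Fintype.card F - 1 then X ^ t * Y ^ (Q - 1 - t) else 0 := by
    intro t ht
    have := Finset.mem_range.1 ht
    rw [← Finset.mul_sum, FAlgA_S (by omega)]
    split_ifs <;> simp
  rw [Finset.sum_congr rfl h1]
  by_cases hQ : Q ≤ m
  · rw [if_pos hQ, Finset.sum_eq_single (Fintype.card F - 1 - m)]
    · rw [if_pos (by omega)]
      congr 2
      omega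
    · intro t _ ht
      rw [if_neg (by omega)]
    · intro ht
      exact absurd (Finset.mem_range.2 (by omega)) ht
  · rw [if_neg hQ]
    refine Finset.sum_eq_zero ?_
    intro t ht
    have := Finset.mem_range.1 ht
    rw [if_neg (by omega)]

/-- T^m = T^(m - (q - 1)). -/
theorem AA_Q' [CharP F 2] {Q : ℕ} (hq : Fintype.card F = 2 * Q) (h2 : 2 ≤ Q) {m : ℕ}
    (hm : Fintype.card F ≤ m) (hm' : m < Fintype.card F - 1 + Q) (X Y : F) :
    AA m (Q - 1) X Y = 0 := by
  have h0 : AA m (Q - 1) X Y = AA (m - (Fintype.card F - 1)) (Q - 1) X Y := by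
    unfold AA
    refine Finset.sum_congr rfl ?_
    intro T _
    have : T ^ m = T ^ (m - (Fintype.card F - 1)) := by
      have h := FiniteField.pow_card T
      have h1 : m = Fintype.card F + (m - Fintype.card F) := by omega
      have h3 : m - (Fintype.card F - 1) = (m - Fintype.card F) + 1 := by omega
      rw [h3, pow_succ]
      conv_lhs => rw [h1, pow_add, h, mul_comm]
    rw [this]
  rw [h0, AA_Q hq h2 (by omega), if_neg (by omega)]

end Pool.Agent.Lib.MP_4dc748_co.TA
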