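import Pool.Agent.Lib.MP_4dc748_co.TA.PSum
import Pool.Agent.Lib.MP_4dc748_co.TA.FAlgA

/-!
# The algebraic lemma for the line with many missing points
-/

set_option autoImplicit false

open scoped Classical

namespace Pool.Agent.Lib.MP_4dc748_co.TA

variable {F : Type} [Field F] [Fintype F]

/-- characteristic 2 substitution -/
theorem falg_star [CharP F 2] {Q p : ℕ} {ψ1 ψ2 ν : F → F → F}
    (H1 : ∀ T C, ∀ i j, i + j = Q - 1 →
      ∑ X : F, X ^ i * (C + T * X) ^ j * (ψ2 X (C + T * X) + T ^ p * ψ1 X (C + T * X)) =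
        T ^ j * ν T C) (m j i i' : ℕ) (h : i + i' = Q - 1) :
    ∑ T : F, T ^ (m + i') * ∑ C : F, C ^ j * ν T C =
      ∑ X : F, ∑ Y : F, X ^ i * Y ^ i' *
        (ψ2 X Y * AA m j X Y + ψ1 X Y * AA (m + p) j X Y) := by
  have h1 : ∀ T : F, T ^ (m + i') * ∑ C : F, C ^ j * ν T C =
      ∑ X : F, ∑ Y : F, T ^ m * (T * X + Y) ^ j * (X ^ i * Y ^ i') *
        (ψ2 X Y + T ^ p * ψ1 X Y) := by
    intro T
    have h2 : T ^ (m + i') * ∑ C : F, C ^ j * ν T C =
        ∑ C : F, ∑ X : F, T ^ m * C ^ j * (X ^ i * (C + T * X) ^ i' *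
          (ψ2 X (C + T * X) + T ^ p * ψ1 X (C + T * X))) := by
      rw [Finset.mul_sum]
      refine Finset.sum_congr rfl fun C _ => ?_
      rw [← Finset.mul_sum, H1 T C i i' h, pow_add]
      ring
    rw [h2, Finset.sum_comm]
    refine Finset.sum_congr rfl fun X _ => ?_
    refine Fintype.sum_equiv (Equiv.addRight (T * X)) _ _ fun C => ?_
    have h3 : T * X + (C + T * X) = C := by
      rw [add_comm C, ← add_assoc, CharTwo.add_self_eq_zero, zero_add]
    simp only [Equiv.coe_addRight]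
    rw [h3]
    ring
  simp_rw [h1]
  rw [Finset.sum_comm]
  refine Finset.sum_congr rfl fun X _ => ?_
  rw [Finset.sum_comm]
  refine Finset.sum_congr rfl fun Y _ => ?_
  unfold AA
  rw [Finset.mul_sum, Finset.mul_sum, ← Finset.sum_add_distrib, Finset.mul_sum]
  refine Finset.sum_congr rfl fun T _ => ?_
  rw [pow_add]
  ring

/-- the sums of the first kind -/
theorem falg_psi [CharP F 2] {Q p : ℕ} {ψ : F → F → F} {α β : F}
    (H2 : ∀ X, ∀ j < Q - 1, ∑ Y : F, Y ^ j * ψ X Y = 0)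
    (H2' : ∀ X, ∑ Y : F, Y ^ (Q - 1) * ψ X Y = α + β * X ^ p) (a b : ℕ) (hb : b ≤ Q - 1)
    (h1 : b = Q - 1 → a = 0 ∨ ¬ (Fintype.card F - 1) ∣ a)
    (h2 : b = Q - 1 → a + p = 0 ∨ ¬ (Fintype.card F - 1) ∣ a + p) :
    ∑ X : F, ∑ Y : F, X ^ a * (Y ^ b * ψ X Y) = 0 := by
  rcases lt_or_eq_of_le hb with hb' | hb'
  · refine Finset.sum_eq_zero fun X _ => ?_
    rw [← Finset.mul_sum, H2 X b hb', mul_zero]
  · subst hb'
    have h3 : ∀ X : F, ∑ Y : F, X ^ a * (Y ^ (Q - 1) * ψ X Y) = α * X ^ a + β * X ^ (a + p) := by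
      intro X
      rw [← Finset.mul_sum, H2' X, pow_add]
      ring
    simp_rw [h3]
    rw [Finset.sum_add_distrib, ← Finset.mul_sum, ← Finset.mul_sum, sum_pow_zero (h1 rfl),
      sum_pow_zero (h2 rfl), mul_zero, mul_zero, add_zero]

theorem falg_ndvd {n a : ℕ} (h0 : 0 < a) (h : a < n) : ¬ n ∣ a := fun hd =>
  absurd (Nat.le_of_dvd h0 hd) (not_le.2 h)

theorem falg_zero [CharP F 2] {Q : ℕ} (hq : Fintype.card F = 2 * Q) (h2 : 2 ≤ Q) {p : ℕ}
    (hp : ∃ k, p = 2 ^ k) (hpQ : p ≤ Q) {ψ1 ψ2 ν : F → F → F} {α β α' β' : F}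
    (H1 : ∀ T C, ∀ i j, i + j = Q - 1 →
      ∑ X : F, X ^ i * (C + T * X) ^ j * (ψ2 X (C + T * X) + T ^ p * ψ1 X (C + T * X)) =
        T ^ j * ν T C)
    (H2 : ∀ X, ∀ j < Q - 1, ∑ Y : F, Y ^ j * ψ1 X Y = 0)
    (H2' : ∀ X, ∑ Y : F, Y ^ (Q - 1) * ψ1 X Y = α + β * X ^ p)
    (H3 : ∀ Y, ∀ i < Q - 1, ∑ X : F, X ^ i * ψ2 X Y = 0)
    (H3' : ∀ Y, ∑ X : F, X ^ (Q - 1) * ψ2 X Y = α' + β' * Y ^ p) (j : ℕ)
    (hj : j ≤ Fintype.card F - 2) (hjp : j ≠ Fintype.card F - 1 - p) (e : ℕ)
    (he : e ≤ Fintype.card F - 1) : ∑ T : F, T ^ e * ∑ C : F, C ^ j * ν T C = 0 := by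
  have hp1 : 1 ≤ p := by
    obtain ⟨k, rfl⟩ := hp
    exact Nat.one_le_two_pow
  have hQ2 : ∃ k, Q = 2 ^ k := by
    obtain ⟨n, hn, hc⟩ := FiniteField.card F 2
    refine ⟨(n : ℕ) - 1, ?_⟩
    have hn1 : 0 < (n : ℕ) := n.pos
    have h3 : 2 * Q = 2 * 2 ^ ((n : ℕ) - 1) := by
      rw [← hq, hc, ← pow_succ', Nat.sub_add_cancel hn1]
    exact Nat.eq_of_mul_eq_mul_left (by norm_num) h3
  have hpQ2 : p = Q ∨ 2 * p ≤ Q := by
    rcases eq_or_lt_of_le hpQ with h | h
    · exact Or.inl h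
    · right
      obtain ⟨k, rfl⟩ := hp
      obtain ⟨l, rfl⟩ := hQ2
      have hkl : k < l := (Nat.pow_lt_pow_iff_right (by norm_num)).1 h
      calc 2 * 2 ^ k = 2 ^ (k + 1) := by rw [pow_succ']
        _ ≤ 2 ^ l := Nat.pow_le_pow_right (by norm_num) hkl
  have star := fun (m i i' : ℕ) (h : i + i' = Q - 1) => falg_star H1 m j i i' h
  rcases le_or_gt e (Q - 1) with he1 | he1
  · -- e ≤ Q - 1
    have h3 := star 0 (Q - 1 - e) e (by omega)
    rw [zero_add] at h3
    rw [h3]
    refine Finset.sum_eq_zero fun X _ => Finset.sum_eq_zero fun Y _ => ?_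
    rw [AA_zero hj, zero_add, AA_pow hq h2 hp hpQ hj hjp]
    ring
  by_cases hjQ : j = Q - 1
  · -- j = Q - 1
    subst hjQ
    have h2p : 2 * p ≤ Q := by
      rcases hpQ2 with h | h
      · exfalso
        apply hjp
        omega
      · exact h
    have hA : ∀ m X Y, m ≤ Fintype.card F - 1 → AA (F := F) m (Q - 1) X Y =
        if Q ≤ m then X ^ (Fintype.card F - 1 - m) * Y ^ (m - Q) else 0 :=
      fun m X Y hm => AA_Q hq h2 hm X Y
    have hB : ∀ m X Y, Fintype.card F ≤ m → m < Fintype.card F - 1 + Q →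
        AA (F := F) m (Q - 1) X Y = 0 := fun m X Y h h' => AA_Q' hq h2 h h' X Y
    rcases lt_trichotomy e (Fintype.card F - 1 - p) with h3 | h3 | h3
    · -- e ≤ q - 2 - p
      have h4 := star (Q - p - 1) (2 * Q - p - 2 - e) (e - (Q - p - 1)) (by omega)
      rw [show Q - p - 1 + (e - (Q - p - 1)) = e by omega] at h4
      rw [h4]
      refine Finset.sum_eq_zero fun X _ => Finset.sum_eq_zero fun Y _ => ?_
      rw [hA _ _ _ (by omega), if_neg (by omega), hA _ _ _ (by omega), if_neg (by omega)]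
      ring
    · -- e = q - 1 - p
      have h4 := star (Q - p) 0 (Q - 1) (by omega)
      rw [show Q - p + (Q - 1) = e by omega] at h4
      rw [h4]
      have h5 := falg_psi H2 H2' (Q - 1) (Q - 1) le_rfl
        (fun _ => Or.inr (falg_ndvd (by omega) (by omega)))
        (fun _ => Or.inr (falg_ndvd (by omega) (by omega)))
      rw [← h5]
      refine Finset.sum_congr rfl fun X _ => Finset.sum_congr rfl fun Y _ => ?_
      rw [hA _ _ _ (by omega), if_neg (by omega), hA _ _ _ (by omega), if_pos (by omega),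
        show Fintype.card F - 1 - (Q - p + p) = Q - 1 by omega,
        show Q - p + p - Q = 0 by omega]
      ring
    · rcases lt_or_eq_of_le he with h4 | h4
      · -- q - p ≤ e ≤ q - 2
        have h5 := star (e - Q + 1) 0 (Q - 1) (by omega)
        have h6 := star Q (2 * Q - 1 - e) (e - Q) (by omega)
        have h7 := star e (Q - 1) 0 (by omega)
        rw [show e - Q + 1 + (Q - 1) = e by omega] at h5
        rw [show Q + (e - Q) = e by omega] at h6
        rw [show e + 0 = e by omega] at h7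
        set P : F := ∑ X : F, ∑ Y : F, X ^ (3 * Q - 2 - e) * Y ^ (e - Q) * ψ2 X Y with hP
        set R : F := ∑ X : F, ∑ Y : F, X ^ (3 * Q - 2 - e - p) * Y ^ (e + p - Q) * ψ1 X Y with hR
        have h5' : ∑ T : F, T ^ e * ∑ C : F, C ^ (Q - 1) * ν T C = R := by
          rw [h5, hR]
          refine Finset.sum_congr rfl fun X _ => Finset.sum_congr rfl fun Y _ => ?_
          rw [hA _ _ _ (by omega), if_neg (by omega), hA _ _ _ (by omega), if_pos (by omega),
            show Fintype.card F - 1 - (e - Q + 1 + p) = 3 * Q - 2 - e - p by omega]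
          have : Y ^ (e + p - Q) = Y ^ (Q - 1) * Y ^ (e - Q + 1 + p - Q) := by
            rw [← pow_add]
            congr 1
            omega
          rw [this]
          ring
        have h6' : ∑ T : F, T ^ e * ∑ C : F, C ^ (Q - 1) * ν T C = P + R := by
          rw [h6, hP, hR, ← Finset.sum_add_distrib]
          refine Finset.sum_congr rfl fun X _ => ?_
          rw [← Finset.sum_add_distrib]
          refine Finset.sum_congr rfl fun Y _ => ?_
          rw [hA _ _ _ (by omega), if_pos le_rfl, hA _ _ _ (by omega), if_pos (by omega)]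
          have t1 : X ^ (3 * Q - 2 - e) = X ^ (2 * Q - 1 - e) * X ^ (Fintype.card F - 1 - Q) := by
            rw [← pow_add]
            congr 1
            omega
          have t2 : X ^ (3 * Q - 2 - e - p) =
              X ^ (2 * Q - 1 - e) * X ^ (Fintype.card F - 1 - (Q + p)) := by
            rw [← pow_add]
            congr 1
            omega
          have t3 : Y ^ (e + p - Q) = Y ^ (e - Q) * Y ^ (Q + p - Q) := by
            rw [← pow_add]
            congr 1
            omega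
          rw [t1, t2, t3, Nat.sub_self, pow_zero]
          ring
        have h7' : ∑ T : F, T ^ e * ∑ C : F, C ^ (Q - 1) * ν T C = P := by
          rw [h7, hP]
          refine Finset.sum_congr rfl fun X _ => Finset.sum_congr rfl fun Y _ => ?_
          rw [hA _ _ _ (by omega), if_pos (by omega), hB _ _ _ (by omega) (by omega)]
          have t1 : X ^ (3 * Q - 2 - e) = X ^ (Q - 1) * X ^ (Fintype.card F - 1 - e) := by
            rw [← pow_add]
            congr 1
            omega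
          rw [t1]
          ring
        have h8 : P = 0 := by
          have h9 := h5'.symm.trans h6'
          linear_combination (-1 : F) * h9
        rw [h7', h8]
      · -- e = q - 1
        have h5 := star e (Q - 1) 0 (by omega)
        rw [show e + 0 = e by omega] at h5
        rw [h5]
        have h6 := falg_psi (ψ := fun Y X => ψ2 X Y) H3 H3' (Q - 1) (Q - 1) le_rfl
          (fun _ => Or.inr (falg_ndvd (by omega) (by omega)))
          (fun _ => Or.inr (falg_ndvd (by omega) (by omega)))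
        rw [Finset.sum_comm] at h6
        rw [← h6]
        refine Finset.sum_congr rfl fun X _ => Finset.sum_congr rfl fun Y _ => ?_
        rw [hA _ _ _ (by omega), if_pos (by omega), hB _ _ _ (by omega) (by omega),
          show Fintype.card F - 1 - e = 0 by omega, show e - Q = Q - 1 by omega]
        ring
  · -- j ≠ Q - 1
    have h3 := star Q (2 * Q - 1 - e) (e - Q) (by omega)
    rw [show Q + (e - Q) = e by omega] at h3
    rw [h3]
    have hAQ : ∀ X Y : F, AA Q j X Y = 0 := fun X Y =>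
      AA_pow hq h2 hQ2 le_rfl hj (by omega) X Y
    rcases hpQ2 with h4 | h4
    · subst h4
      by_cases hj2 : j = Fintype.card F - 2
      · have h5 := falg_psi H2 H2' (2 * p - 1 - e + (Fintype.card F - 2)) (e - p) (by omega)
          (fun hb => Or.inr (falg_ndvd (by omega) (by omega)))
          (fun hb => by
            right
            rw [show 2 * p - 1 - e + (Fintype.card F - 2) + p =
              (Fintype.card F - 1) + (p - 1) by omega, Nat.dvd_add_right (dvd_refl _)]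
            exact falg_ndvd (by omega) (by omega))
        rw [← h5]
        refine Finset.sum_congr rfl fun X _ => Finset.sum_congr rfl fun Y _ => ?_
        rw [hAQ, AA_two hq h2 hj, if_pos hj2, pow_add]
        ring
      · refine Finset.sum_eq_zero fun X _ => Finset.sum_eq_zero fun Y _ => ?_
        rw [hAQ, AA_two hq h2 hj, if_neg hj2]
        ring
    · by_cases hj2 : j = Q - 1 - p
      · have h5 := falg_psi H2 H2' (2 * Q - 1 - e + (Q - 1 - p)) (e - Q) (by omega)
          (fun hb => by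
            rcases Nat.eq_zero_or_pos (2 * Q - 1 - e + (Q - 1 - p)) with h | h
            · exact Or.inl h
            · exact Or.inr (falg_ndvd h (by omega)))
          (fun hb => Or.inr (falg_ndvd (by omega) (by omega)))
        rw [← h5]
        refine Finset.sum_congr rfl fun X _ => Finset.sum_congr rfl fun Y _ => ?_
        rw [hAQ, AA_add hq h2 hp h4 hj hjp hjQ, if_pos hj2, pow_add]
        ring
      · refine Finset.sum_eq_zero fun X _ => Finset.sum_eq_zero fun Y _ => ?_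
        rw [hAQ, AA_add hq h2 hp h4 hj hjp hjQ, if_neg hj2]
        ring

/-- q = 2 Q = 2^r, p = 2^k ≤ Q. Let N j T = Sum over C of C^j (ν T C), j ≤ q - 2, j ≠ q - 1 - p. It suffices that
Sum over T of T^e (N j T) = 0 for all e ≤ q - 1 (powersum_zero, powersum_span).
Let A m j X Y = Sum over T of T^m (T X + Y)^j. H1, times C^j T^m, summed over C and T (substitute Y = C + T X):
Sum over T of T^(m + i') (N j T) = Sum over X, Y of X^i Y^i' (ψ2 X Y * A m j X Y + ψ1 X Y * A (m+p) j X Y) for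
i + i' = Q - 1. (*)
Ψ1 a i' := Sum over X of X^a * Sum over Y of Y^i' ψ1 X Y is 0 for i' ≤ Q - 2 and Sum over X of X^a (α + β X^p)
for i' = Q - 1, which is 0 unless q - 1 divides a (a > 0) or a + p. The same for ψ2 with X, Y exchanged.
Values of A: X ≠ 0, z = T X + Y: A m j X Y = X^(-m) Sum over z of z^j (z + Y)^m; X = 0: Y^j Sum T^m.
 e ≤ Q - 1: use (*) with m = 0, i' = e: A 0 j = 0 and A p j = 0 (z^j (z^p + Y^p), j + p ≠ q - 1, j ≤ q - 2).
 Q ≤ e ≤ q - 1, j ≠ Q - 1: (*) with m = Q, i' = e - Q: A Q j = 0 (z^j (z^Q + Y^Q)).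
   p = Q: A (Q+p) j = A 1 j (T^q = T) is 0 unless j = q - 2, then it is X^(q-2); the sum is Ψ1 (i + q - 2) i' = 0.
   p ≤ Q/2: A (Q+p) j = 0 unless j = Q - 1 - p (z^j (z^Q + Y^Q) (z^p + Y^p)), then it is X^(Q-1-p) and the sum is
   Ψ1 (i + Q - 1 - p) i' = 0.
 Q ≤ e ≤ q - 1, j = Q - 1 (so p ≤ Q/2 because j ≠ q - 1 - p): (T X + Y)^(Q-1) = Sum over t ≤ Q - 1 of
 (T X)^t Y^(Q-1-t), so A m (Q-1) X Y = X^(q-1-m) Y^(m-Q) for Q ≤ m ≤ q - 1 and 0 for m < Q (m ≥ 0); for
 q ≤ m ≤ q - 1 + Q/2 it is A (m - (q - 1)) = 0. With P = Sum of X^(3Q-2-e) Y^(e-Q) ψ2 and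
 R = Sum of X^(3Q-2-e-p) Y^(e+p-Q) ψ1 the value of (*) is [m ≥ Q] P + [Q ≤ m + p ≤ q - 1] R for every m with
 e - Q + 1 ≤ m ≤ e, 1 ≤ m:
   e ≤ q - 2 - p: m = Q - p - 1 gives 0 (here Q ≥ 4, m ≥ 1).
   e = q - 1 - p: m = Q - p gives R = Ψ1 (Q-1) (Q-1) = 0.
   q - p ≤ e ≤ q - 2: m = e - Q + 1 gives R, m = Q gives P + R, m = e gives P: so all are 0.
   e = q - 1: m = q - 1 gives P = Ψ2 (Q-1) (Q-1) = 0.
(The statement was checked by linear algebra for q = 4, 8 and all p.) -/
theorem falg [CharP F 2] {Q : ℕ} (hq : Fintype.card F = 2 * Q) (h2 : 2 ≤ Q) {p : ℕ}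
    (hp : ∃ k, p = 2 ^ k) (hpQ : p ≤ Q) {ψ1 ψ2 ν : F → F → F} {α β α' β' : F}
    (H1 : ∀ T C, ∀ i j, i + j = Q - 1 →
      ∑ X : F, X ^ i * (C + T * X) ^ j * (ψ2 X (C + T * X) + T ^ p * ψ1 X (C + T * X)) =
        T ^ j * ν T C)
    (H2 : ∀ X, ∀ j < Q - 1, ∑ Y : F, Y ^ j * ψ1 X Y = 0)
    (H2' : ∀ X, ∑ Y : F, Y ^ (Q - 1) * ψ1 X Y = α + β * X ^ p)
    (H3 : ∀ Y, ∀ i < Q - 1, ∑ X : F, X ^ i * ψ2 X Y = 0)
    (H3' : ∀ Y, ∑ X : F, X ^ (Q - 1) * ψ2 X Y = α' + β' * Y ^ p) :
    ∀ T, ∃ n0 n1 : F, ∀ C, ν T C = n0 + n1 * C ^ p := by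
  have hp1 : 1 ≤ p := by
    obtain ⟨k, rfl⟩ := hp
    exact Nat.one_le_two_pow
  intro T
  refine powersum_span hp1 (by omega) fun j hj hjp => ?_
  exact powersum_zero (f := fun T => ∑ C : F, C ^ j * ν T C)
    (falg_zero hq h2 hp hpQ H1 H2 H2' H3 H3' j hj hjp) T

end Pool.Agent.Lib.MP_4dc748_co.TA
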