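import Pool.Agent.Lib.MP_4dc748_co.TA.Star

/-!
# Sums of the functional D over all lines
-/

set_option autoImplicit false

open scoped Classical

namespace Pool.Agent.Lib.MP_4dc748_co.TA

variable {F : Type} [Field F] [Fintype F] {s : F ≃+* F}

/-- Sum over all lines: exchange the sums, IsP.sum_plane for g a * (a ⬝ᵥ b v), of degree q - 1. -/
theorem D_cw [CharP F 2] (hq4 : 4 ≤ Fintype.card F) (A : Arc F s) {g : (Fin 3 → F) → F}
    (hg : IsP (Fintype.card F - 2) g) (w : MvPolynomial (Fin 3) F) :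
    ∑ a, g a * D A a w = 0 := by
  have h1 : ∀ v : Fin 3 → F, ∑ a ∈ Finset.univ.filter (fun a : Fin 3 → F => a ⬝ᵥ v = 0),
      g a * (a ⬝ᵥ A.b v) = 0 := by
    intro v
    exact (hg.mul (IsP.dot (A.b v))).sum_plane v (by omega)
  have h2 : ∑ a, g a * D A a w = ∑ v ∈ Finset.univ.filter (fun v => Re A.M v),
      (MvPolynomial.eval (s ∘ v) w) ^ 2 *
        ∑ a ∈ Finset.univ.filter (fun a : Fin 3 → F => a ⬝ᵥ v = 0), g a * (a ⬝ᵥ A.b v) := by
    simp only [D, Finset.mul_sum, Finset.sum_filter]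
    rw [Finset.sum_comm]
    refine Finset.sum_congr rfl fun v _ => ?_
    by_cases hv : Re A.M v
    · rw [if_pos hv]
      refine Finset.sum_congr rfl fun a _ => ?_
      by_cases ha : a ⬝ᵥ v = 0
      · rw [if_pos ⟨ha, hv⟩, if_pos ha]
        ring
      · rw [if_neg (fun h => ha h.1), if_neg ha]
        ring
    · rw [if_neg hv]
      refine Finset.sum_eq_zero fun a _ => ?_
      rw [if_neg (fun h => hv h.2), mul_zero]
  rw [h2]
  refine Finset.sum_eq_zero fun v _ => ?_
  rw [h1 v, mul_zero]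

/-! ### The product over the elements not 0, 1 -/

/-- The elements other than 0, 1. -/
noncomputable def func_T (F : Type) [Field F] [Fintype F] : Finset F := Finset.univ \ {0, 1}

theorem func_mem {t : F} : t ∈ func_T F ↔ t ≠ 0 ∧ t ≠ 1 := by
  simp [func_T]

theorem func_card : (func_T F).card = Fintype.card F - 2 := by
  rw [func_T, Finset.card_sdiff_of_subset (Finset.subset_univ _), Finset.card_univ,
    Finset.card_pair zero_ne_one]

theorem func_prod [CharP F 2] : ∏ t ∈ func_T F, t = 1 := by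
  refine Finset.prod_involution (fun t _ => t⁻¹) ?_ ?_ ?_ ?_
  · intro t ht
    exact mul_inv_cancel₀ (func_mem.1 ht).1
  · intro t ht h1 h2
    have h0 := (func_mem.1 ht).1
    have h3 : t * t = 1 := by
      nth_rewrite 2 [← h2]
      exact mul_inv_cancel₀ h0
    have h4 : (t + 1) ^ 2 = 0 := by
      rw [CharTwo.add_sq, sq, h3, one_pow, CharTwo.add_self_eq_zero]
    have h5 : t + 1 = 0 := pow_eq_zero_iff (two_ne_zero) |>.1 h4
    exact h1 (CharTwo.add_eq_zero.1 h5)
  · intro t ht
    have := func_mem.1 ht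
    exact func_mem.2 ⟨inv_ne_zero this.1, fun h => this.2 (inv_eq_one.1 h)⟩
  · intro t _
    exact inv_inv t

theorem func_prod' [CharP F 2] : ∏ t ∈ func_T F, (1 + t) = 1 := by
  refine Eq.trans ?_ (func_prod (F := F))
  refine Finset.prod_bij' (fun t _ => 1 + t) (fun t _ => 1 + t) ?_ ?_ ?_ ?_ ?_
  · intro t ht
    have := func_mem.1 ht
    exact func_mem.2 ⟨fun h => this.2 (CharTwo.add_eq_zero.1 h).symm, fun h => this.1 (by simpa using h)⟩
  · intro t ht
    have := func_mem.1 ht
    exact func_mem.2 ⟨fun h => this.2 (CharTwo.add_eq_zero.1 h).symm, fun h => this.1 (by simpa using h)⟩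
  · intro t _
    rw [← add_assoc, CharTwo.add_self_eq_zero, zero_add]
  · intro t _
    rw [← add_assoc, CharTwo.add_self_eq_zero, zero_add]
  · intro t _
    rfl

/-- The product of the forms y + t x. -/
noncomputable def func_G (x y : F) : F := ∏ t ∈ func_T F, (y + t * x)

theorem func_G1 (y : F) : func_G 0 y = y ^ (Fintype.card F - 2) := by
  simp [func_G, func_card]

theorem func_G2 [CharP F 2] (x : F) : func_G x 0 = x ^ (Fintype.card F - 2) := by
  simp [func_G, Finset.prod_mul_distrib, func_prod, func_card]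

theorem func_G3 [CharP F 2] (x : F) : func_G x x = x ^ (Fintype.card F - 2) := by
  have : ∀ t ∈ func_T F, x + t * x = (1 + t) * x := fun t _ => by ring
  rw [func_G, Finset.prod_congr rfl this, Finset.prod_mul_distrib, func_prod', one_mul,
    Finset.prod_const, func_card]

theorem func_G4 [CharP F 2] {x y : F} (hx : x ≠ 0) (hy : y ≠ 0) (hxy : x ≠ y) :
    func_G x y = 0 := by
  refine Finset.prod_eq_zero (i := y / x) (func_mem.2 ⟨div_ne_zero hy hx, fun h => hxy ?_⟩) ?_
  · exact ((div_eq_one_iff_eq hx).1 h).symm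
  · rw [div_mul_cancel₀ _ hx, CharTwo.add_self_eq_zero]

theorem func_pow {c : F} (hc : c ≠ 0) (h : 2 ≤ Fintype.card F) (d : F) :
    c ^ (Fintype.card F - 2) * (c * d) = d := by
  rw [← mul_assoc, ← pow_succ, show Fintype.card F - 2 + 1 = Fintype.card F - 1 by omega,
    FiniteField.pow_card_sub_one_eq_one c hc, one_mul]

theorem func_sum [CharP F 2] (d : F) : ∑ c : F, (if c = 0 then 0 else d) = d := by
  have h1 : ∀ c : F, (if c = 0 then 0 else d) = d + (if c = 0 then d else 0) := by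
    intro c
    split_ifs
    · rw [CharTwo.add_self_eq_zero]
    · rw [add_zero]
  simp only [h1, Finset.sum_add_distrib, Finset.sum_const, Finset.card_univ, nsmul_eq_mul,
    Nat.cast_card_eq_zero, zero_mul, Finset.sum_ite_eq', Finset.mem_univ, if_true, zero_add]

/-- The additivity for a pair of vectors with dual vectors. -/
theorem func_key [CharP F 2] {Q : ℕ} (hq : Fintype.card F = 2 * Q) (h2 : 2 ≤ Q)
    (A : Arc F s) {z : Fin 3 → F} {w : MvPolynomial (Fin 3) F}
    (hw : w.IsHomogeneous (Q - 1))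
    (h0 : ∀ m ∈ A.M, m ≠ z → MvPolynomial.eval (s ∘ m) w = 0) {a1 a2 n1 n2 : Fin 3 → F}
    (h11 : a1 ⬝ᵥ n1 = 1) (h12 : a1 ⬝ᵥ n2 = 0) (h21 : a2 ⬝ᵥ n1 = 0) (h22 : a2 ⬝ᵥ n2 = 1)
    (h1z : a1 ⬝ᵥ z = 0) (h2z : a2 ⬝ᵥ z = 0)
    (hz : ∀ a : Fin 3 → F, a ⬝ᵥ z = 0 → a = (a ⬝ᵥ n1) • a1 + (a ⬝ᵥ n2) • a2) :
    D A a1 w + D A a2 w + D A (a1 + a2) w = 0 := by
  have hg : IsP (Fintype.card F - 2) (fun a : Fin 3 → F => func_G (a ⬝ᵥ n1) (a ⬝ᵥ n2)) := by
    have h := IsP.prod (func_T F) (d := 1)
      (g := fun (t : F) (a : Fin 3 → F) => a ⬝ᵥ n2 + t * (a ⬝ᵥ n1)) fun t _ =>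
        (IsP.dot n2).add (((IsP.const 0 t).mul (IsP.dot n1)).mono (by simp))
    rw [func_card, mul_one] at h
    exact h
  have h3 := D_cw (by omega) A hg w
  have h4 : ∑ a, func_G (a ⬝ᵥ n1) (a ⬝ᵥ n2) * D A a w =
      ∑ a ∈ Finset.univ.filter (fun a : Fin 3 → F => a ⬝ᵥ z = 0),
        func_G (a ⬝ᵥ n1) (a ⬝ᵥ n2) * D A a w := by
    symm
    refine Finset.sum_subset (Finset.subset_univ _) fun a _ ha => ?_
    rw [star hq h2 A a hw fun m hm ham => h0 m hm ?_, mul_zero]
    rintro rfl
    exact ha (Finset.mem_filter.2 ⟨Finset.mem_univ _, ham⟩)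
  have h5 : ∑ a ∈ Finset.univ.filter (fun a : Fin 3 → F => a ⬝ᵥ z = 0),
        func_G (a ⬝ᵥ n1) (a ⬝ᵥ n2) * D A a w =
      ∑ xy : F × F, func_G xy.1 xy.2 * D A (xy.1 • a1 + xy.2 • a2) w := by
    refine Finset.sum_bij' (fun a _ => (a ⬝ᵥ n1, a ⬝ᵥ n2)) (fun xy _ => xy.1 • a1 + xy.2 • a2)
      ?_ ?_ ?_ ?_ ?_
    · intro a _
      exact Finset.mem_univ _
    · intro xy _
      rw [Finset.mem_filter]
      refine ⟨Finset.mem_univ _, ?_⟩
      rw [add_dotProduct, smul_dotProduct, smul_dotProduct, h1z, h2z]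
      simp
    · intro a ha
      exact (hz a (Finset.mem_filter.1 ha).2).symm
    · intro xy _
      simp only [add_dotProduct, smul_dotProduct, h11, h12, h21, h22]
      simp
    · intro a ha
      show _ = func_G (a ⬝ᵥ n1) (a ⬝ᵥ n2) * D A ((a ⬝ᵥ n1) • a1 + (a ⬝ᵥ n2) • a2) w
      rw [← hz a (Finset.mem_filter.1 ha).2]
  have h6 : ∀ x y : F, func_G x y * D A (x • a1 + y • a2) w =
      (if x = 0 then (if y = 0 then 0 else D A a2 w) else 0) +
      (if y = 0 then (if x = 0 then 0 else D A a1 w) else 0) +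
      (if y = x then (if x = 0 then 0 else D A (a1 + a2) w) else 0) := by
    intro x y
    by_cases hx : x = 0
    · subst hx
      by_cases hy : y = 0
      · subst hy
        rw [func_G1, zero_pow (by omega)]
        simp
      · rw [func_G1, zero_smul, zero_add, D_scale A hy, func_pow hy (by omega)]
        simp [hy]
    · by_cases hy : y = 0
      · subst hy
        rw [func_G2, zero_smul, add_zero, D_scale A hx, func_pow hx (by omega)]
        simp [hx, Ne.symm hx]
      · by_cases hxy : y = x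
        · subst hxy
          rw [func_G3, ← smul_add, D_scale A hx, func_pow hx (by omega)]
          simp [hx]
        · rw [func_G4 hx hy (Ne.symm hxy)]
          simp [hx, hy, hxy]
  rw [h4, h5, Fintype.sum_prod_type] at h3
  simp only [h6, Finset.sum_add_distrib, Finset.sum_ite_eq', Finset.mem_univ, if_true] at h3
  have e1 : ∑ x : F, ∑ y : F, (if x = 0 then (if y = 0 then 0 else D A a2 w) else 0) =
      D A a2 w := by
    rw [Finset.sum_comm]
    simp only [Finset.sum_ite_eq', Finset.mem_univ, if_true, func_sum]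
  rw [e1] at h3
  simp only [func_sum] at h3
  rw [← h3]
  ring

omit [Fintype F] in
/-- A basis of the plane orthogonal to a vector, with dual vectors. -/
theorem func_basis {z : Fin 3 → F} (hz : z ≠ 0) : ∃ a1 a2 n1 n2 : Fin 3 → F,
    a1 ⬝ᵥ n1 = 1 ∧ a1 ⬝ᵥ n2 = 0 ∧ a2 ⬝ᵥ n1 = 0 ∧ a2 ⬝ᵥ n2 = 1 ∧ a1 ⬝ᵥ z = 0 ∧ a2 ⬝ᵥ z = 0 ∧
    ∀ a : Fin 3 → F, a ⬝ᵥ z = 0 → a = (a ⬝ᵥ n1) • a1 + (a ⬝ᵥ n2) • a2 := by
  obtain ⟨i, hi⟩ := Function.ne_iff.1 hz
  rw [Pi.zero_apply] at hi
  fin_cases i
  · have hi : z 0 ≠ 0 := hi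
    refine ⟨![-(z 1 / z 0), 1, 0], ![-(z 2 / z 0), 0, 1], ![0, 1, 0], ![0, 0, 1], ?_, ?_, ?_, ?_,
      ?_, ?_, fun a ha => ?_⟩
    all_goals simp only [dotProduct, Fin.sum_univ_three] at *
    all_goals simp
    · field_simp
      ring
    · field_simp
      ring
    · funext i
      fin_cases i
      · simp
        field_simp
        linear_combination ha
      · simp
      · simp
  · have hi : z 1 ≠ 0 := hi
    refine ⟨![1, -(z 0 / z 1), 0], ![0, -(z 2 / z 1), 1], ![1, 0, 0], ![0, 0, 1], ?_, ?_, ?_, ?_,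
      ?_, ?_, fun a ha => ?_⟩
    all_goals simp only [dotProduct, Fin.sum_univ_three] at *
    all_goals simp
    · field_simp
      ring
    · field_simp
      ring
    · funext i
      fin_cases i
      · simp
      · simp
        field_simp
        linear_combination ha
      · simp
  · have hi : z 2 ≠ 0 := hi
    refine ⟨![1, 0, -(z 0 / z 2)], ![0, 1, -(z 1 / z 2)], ![1, 0, 0], ![0, 1, 0], ?_, ?_, ?_, ?_,
      ?_, ?_, fun a ha => ?_⟩
    all_goals simp only [dotProduct, Fin.sum_univ_three] at *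
    all_goals simp
    · field_simp
      ring
    · field_simp
      ring
    · funext i
      fin_cases i
      · simp
      · simp
      · simp
        field_simp
        linear_combination ha

/-- If w vanishes at all missing points but z then D A a w, a through z, is a linear function of a.
D A a w = 0 if a ⬝ᵥ z ≠ 0, by star. Let a1, a2 be independent with a_i ⬝ᵥ z = 0, n1, n2 with n_i ⬝ᵥ a_j = δ_ij.
g a = Prod over t in univ \ {0, 1} of ((a ⬝ᵥ n2) + t (a ⬝ᵥ n1)) has degree q - 2 and D_cw says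
Sum over (x, y) of g (x a1 + y a2) D (x a1 + y a2) = 0; g (x a1 + y a2) = Prod (y + t x) is not 0 only for
x = 0 or y = 0 or x = y (and not both 0), and its values at (1, 0), (0, 1), (1, 1) are 1. With D_scale:
D a1 + D a2 + D (a1 + a2) = 0. So D is additive on the plane of all a with a ⬝ᵥ z = 0 (dependent pairs:
D_scale), and for a basis a1, a2 of it take u with a_i ⬝ᵥ u = D a_i. -/
theorem exists_functional [CharP F 2] {Q : ℕ} (hq : Fintype.card F = 2 * Q) (h2 : 2 ≤ Q)
    (A : Arc F s) {z : Fin 3 → F} (hz : z ∈ A.M) {w : MvPolynomial (Fin 3) F}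
    (hw : w.IsHomogeneous (Q - 1))
    (h0 : ∀ m ∈ A.M, m ≠ z → MvPolynomial.eval (s ∘ m) w = 0) :
    ∃ u : Fin 3 → F, ∀ a, a ⬝ᵥ z = 0 → D A a w = a ⬝ᵥ u := by
  obtain ⟨a1, a2, n1, n2, h11, h12, h21, h22, h1z, h2z, hs⟩ := func_basis (A.ne z hz)
  have hD0 : D A 0 w = 0 := by
    unfold D
    refine Finset.sum_eq_zero fun v _ => ?_
    rw [zero_dotProduct, mul_zero]
  have key : ∀ x y : F, D A (x • a1 + y • a2) w = x * D A a1 w + y * D A a2 w := by
    intro x y
    by_cases hx : x = 0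
    · subst hx
      by_cases hy : y = 0
      · subst hy
        simp [hD0]
      · rw [zero_smul, zero_add, D_scale A hy, zero_mul, zero_add]
    · by_cases hy : y = 0
      · subst hy
        rw [zero_smul, add_zero, D_scale A hx, zero_mul, add_zero]
      · have h3 := func_key hq h2 A hw h0 (a1 := x • a1) (a2 := y • a2) (n1 := x⁻¹ • n1)
          (n2 := y⁻¹ • n2) (z := z) ?_ ?_ ?_ ?_ ?_ ?_ ?_
        · rw [D_scale A hx, D_scale A hy] at h3
          exact (CharTwo.add_eq_zero.1 h3).symm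
        · simp [h11, hx]
        · simp [h12]
        · simp [h21]
        · simp [h22, hy]
        · simp [h1z]
        · simp [h2z]
        · intro a ha
          conv_lhs => rw [hs a ha]
          rw [dotProduct_smul, dotProduct_smul, smul_smul, smul_smul]
          congr 2
          · rw [smul_eq_mul]
            field_simp
          · rw [smul_eq_mul]
            field_simp
  refine ⟨D A a1 w • n1 + D A a2 w • n2, fun a ha => ?_⟩
  conv_lhs => rw [hs a ha]
  rw [key, dotProduct_add, dotProduct_smul, dotProduct_smul, smul_eq_mul, smul_eq_mul]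
  ring

end Pool.Agent.Lib.MP_4dc748_co.TA
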