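import Mathlib

/-!
# A matching lemma
-/

set_option autoImplicit false

open scoped Classical

namespace Pool.Agent.Lib.MP_4dc748_co.TA

theorem pairs_step {α β : Type} (T : Finset α) (κ : α → β) {D : ℕ} (hT : T.card ≤ 2 * (D + 1))
    (hκ : ∀ b, (T.filter (fun x => κ x = b)).card ≤ D + 1) :
    ∃ Q : Finset α, Q ⊆ T ∧ (Q.card ≤ 1 ∨ ∃ x y, Q = {x, y} ∧ κ x ≠ κ y) ∧
      (T \ Q).card ≤ 2 * D ∧ ∀ b, ((T \ Q).filter (fun x => κ x = b)).card ≤ D := by
  by_cases hm : ∀ x ∈ T, ∀ y ∈ T, κ x = κ y
  · rcases T.eq_empty_or_nonempty with rfl | ⟨x, hx⟩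
    · exact ⟨∅, subset_rfl, Or.inl (by simp), by simp, by simp⟩
    · have h1 : T.filter (fun y => κ y = κ x) = T :=
        Finset.filter_true_of_mem fun y hy => hm y hy x hx
      have h2 := hκ (κ x)
      rw [h1] at h2
      have h3 : (T \ {x}).card ≤ D := by
        rw [Finset.sdiff_singleton_eq_erase, Finset.card_erase_of_mem hx]
        omega
      refine ⟨{x}, Finset.singleton_subset_iff.2 hx, Or.inl (by simp), by omega, fun b => ?_⟩
      exact (Finset.card_filter_le _ _).trans h3
  · push Not at hm
    obtain ⟨x0, hx0, y0, hy0, hne0⟩ := hm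
    obtain ⟨b1, hb1, hmax1⟩ := (T.image κ).exists_max_image
      (fun b => (T.filter (fun x => κ x = b)).card) ⟨κ x0, Finset.mem_image_of_mem κ hx0⟩
    have hne : ((T.image κ).erase b1).Nonempty := by
      by_cases h : κ x0 = b1
      · refine ⟨κ y0, Finset.mem_erase.2 ⟨fun h' => hne0 (h.trans h'.symm), ?_⟩⟩
        exact Finset.mem_image_of_mem κ hy0
      · exact ⟨κ x0, Finset.mem_erase.2 ⟨h, Finset.mem_image_of_mem κ hx0⟩⟩
    obtain ⟨b2, hb2, hmax2⟩ := ((T.image κ).erase b1).exists_max_image
      (fun b => (T.filter (fun x => κ x = b)).card) hne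
    obtain ⟨hb21, hb2'⟩ := Finset.mem_erase.1 hb2
    obtain ⟨x, hx, rfl⟩ := Finset.mem_image.1 hb1
    obtain ⟨y, hy, rfl⟩ := Finset.mem_image.1 hb2'
    have hxy : x ≠ y := fun h => hb21 (by rw [h])
    have hsub : ({x, y} : Finset α) ⊆ T := by
      intro z hz
      rcases Finset.mem_insert.1 hz with rfl | hz
      · exact hx
      · rw [Finset.mem_singleton.1 hz]
        exact hy
    refine ⟨{x, y}, hsub, Or.inr ⟨x, y, rfl, fun h => hb21 h.symm⟩, ?_, fun b => ?_⟩
    · rw [Finset.card_sdiff_of_subset hsub, Finset.card_pair hxy]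
      omega
    · have herase : ∀ z ∈ T, z ∈ ({x, y} : Finset α) → κ z = b →
          ((T \ {x, y}).filter (fun x => κ x = b)).card ≤ D := by
        intro z hz hzQ hzb
        have h1 : (T \ {x, y}).filter (fun x => κ x = b) ⊆
            (T.filter (fun x => κ x = b)).erase z := by
          intro w hw
          rw [Finset.mem_filter, Finset.mem_sdiff] at hw
          refine Finset.mem_erase.2 ⟨?_, Finset.mem_filter.2 ⟨hw.1.1, hw.2⟩⟩
          rintro rfl
          exact hw.1.2 hzQ
        have h2 := Finset.card_le_card h1
        rw [Finset.card_erase_of_mem (Finset.mem_filter.2 ⟨hz, hzb⟩)] at h2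
        have h3 := hκ b
        omega
      by_cases h1 : κ x = b
      · exact herase x hx (by simp) h1
      · by_cases h2 : κ y = b
        · exact herase y hy (by simp) h2
        · have h3 : ((T \ {x, y}).filter (fun x => κ x = b)).card ≤
              (T.filter (fun x => κ x = b)).card :=
            Finset.card_le_card (Finset.filter_subset_filter _ Finset.sdiff_subset)
          refine h3.trans ?_
          by_contra hlt
          have hb : b ∈ T.image κ := by
            have h4 : (T.filter (fun x => κ x = b)).Nonempty := by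
              rw [← Finset.card_pos]
              omega
            obtain ⟨z, hz⟩ := h4
            rw [Finset.mem_filter] at hz
            exact Finset.mem_image.2 ⟨z, hz⟩
          have h5 := hmax1 b hb
          have h6 := hmax2 b (Finset.mem_erase.2 ⟨fun h => h1 h.symm, hb⟩)
          have hd : ∀ c c' : β, c ≠ c' → Disjoint (T.filter (fun x => κ x = c))
              (T.filter (fun x => κ x = c')) := by
            intro c c' hcc
            rw [Finset.disjoint_left]
            intro z hz hz'
            rw [Finset.mem_filter] at hz hz'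
            exact hcc (hz.2.symm.trans hz'.2)
          have h7 : ((T.filter (fun z => κ z = κ x)) ∪ ((T.filter (fun z => κ z = κ y)) ∪
              (T.filter (fun z => κ z = b)))).card ≤ T.card := by
            refine Finset.card_le_card (Finset.union_subset (Finset.filter_subset _ _)
              (Finset.union_subset (Finset.filter_subset _ _) (Finset.filter_subset _ _)))
          rw [Finset.card_union_of_disjoint, Finset.card_union_of_disjoint (hd _ _ h2)] at h7
          · omega
          · rw [Finset.disjoint_union_right]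
            exact ⟨hd _ _ fun h => hb21 h.symm, hd _ _ h1⟩

/-- Combinatorial part: a finite set T with a colouring, at most 2 D elements, every colour at most D times:
T is covered by D pairs of elements of different colours or single elements. Enumerate T increasingly for an order
which is compatible with the colours (map T into ℕ or Fin N injectively, colour first) and take the pairs
number i and number i + D; if they had the same colour, all between too, D + 1 elements. -/
theorem exists_pairs {α β : Type} (T : Finset α) (κ : α → β) {D : ℕ} (hT : T.card ≤ 2 * D)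
    (hκ : ∀ b, (T.filter (fun x => κ x = b)).card ≤ D) :
    ∃ P : Fin D → Finset α, (∀ x ∈ T, ∃ i, x ∈ P i) ∧
      ∀ i, P i ⊆ T ∧ ((P i).card ≤ 1 ∨ ∃ x y, P i = {x, y} ∧ κ x ≠ κ y) := by
  induction D generalizing T with
  | zero =>
    have h0 : T = ∅ := Finset.card_eq_zero.1 (by omega)
    subst h0
    exact ⟨fun i => i.elim0, fun x hx => absurd hx (Finset.notMem_empty x), fun i => i.elim0⟩
  | succ D ih =>
    obtain ⟨Q, hQT, hQ, h1, h2⟩ := pairs_step T κ hT hκ
    obtain ⟨P, h3, h4⟩ := ih (T \ Q) h1 h2
    refine ⟨Fin.cons Q P, ?_, ?_⟩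
    · intro x hx
      by_cases hxQ : x ∈ Q
      · exact ⟨0, by simpa using hxQ⟩
      · obtain ⟨i, hi⟩ := h3 x (Finset.mem_sdiff.2 ⟨hx, hxQ⟩)
        exact ⟨i.succ, by simpa using hi⟩
    · intro i
      refine Fin.cases ?_ (fun i => ?_) i
      · rw [Fin.cons_zero]
        exact ⟨hQT, hQ⟩
      · rw [Fin.cons_succ]
        exact ⟨(h4 i).1.trans Finset.sdiff_subset, (h4 i).2⟩

end Pool.Agent.Lib.MP_4dc748_co.TA
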