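import Pool.Agent.Lib.MP_4dc748_co.TA.Defs
import Pool.Agent.Lib.MP_4dc748_co.TA.Frame
import Pool.Agent.Lib.MP_4dc748_co.TA.Pairs

/-!
# Isolating forms
-/

set_option autoImplicit false

open scoped Classical

namespace Pool.Agent.Lib.MP_4dc748_co.TA

variable {F : Type} [Field F]

/-- Vectors which are not proportional have a cross product different from 0. -/
theorem isol_cross {m z : Fin 3 → F} (hz : z ≠ 0) (h : ∀ c : F, m ≠ c • z) :
    crossProduct z m ≠ 0 := by
  rw [crossProduct_ne_zero_iff_linearIndependent, LinearIndependent.pair_iff' hz]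
  exact fun a ha => h a ha.symm

/-- A vector with a given product 1 with m ≠ 0. -/
theorem isol_dual {m : Fin 3 → F} (hm : m ≠ 0) : ∃ n : Fin 3 → F, n ⬝ᵥ m = 1 := by
  obtain ⟨i, hi⟩ := Function.ne_iff.1 hm
  rw [Pi.zero_apply] at hi
  exact ⟨Pi.single i (m i)⁻¹, by rw [single_dotProduct, inv_mul_cancel₀ hi]⟩

/-- A linear form which is 1 at m and 0 at z. -/
theorem isol_one {m z : Fin 3 → F} (hz : z ≠ 0) (h : ∀ c : F, m ≠ c • z) :
    ∃ n : Fin 3 → F, n ⬝ᵥ m = 1 ∧ n ⬝ᵥ z = 0 := by
  obtain ⟨u, hu⟩ := isol_dual (isol_cross hz h)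
  refine ⟨crossProduct u z, ?_, ?_⟩
  · rw [dotProduct_comm, triple_product_permutation, hu]
  · rw [dotProduct_comm]
    exact dot_cross_self u z

theorem isol_prod_hom {ι : Type} (T : Finset ι) (n : ι → Fin 3 → F) :
    (∏ z ∈ T, linf (n z)).IsHomogeneous T.card := by
  have h := MvPolynomial.IsHomogeneous.prod T (fun z => linf (n z)) (fun _ => 1)
    (fun z _ => linf_hom (n z))
  rwa [Finset.sum_const, smul_eq_mul, mul_one] at h

/-- A form of degree k ≥ |T| which vanishes on T and is 1 at m: a product of linear forms. (Two independent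
vectors m, z: there is n with n ⬝ᵥ z = 0, n ⬝ᵥ m = 1. Powers of a linear form with n ⬝ᵥ m = 1 fill up.) -/
theorem exists_vanish [Fintype F] (T : Finset (Fin 3 → F)) {k : ℕ} (hT : T.card ≤ k) {m : Fin 3 → F}
    (hm : m ≠ 0) (h : ∀ z ∈ T, z ≠ 0 ∧ ∀ c : F, m ≠ c • z) :
    ∃ w : MvPolynomial (Fin 3) F, w.IsHomogeneous k ∧ MvPolynomial.eval m w = 1 ∧
      ∀ z ∈ T, MvPolynomial.eval z w = 0 := by
  obtain ⟨n0, hn0⟩ := isol_dual hm
  have hex : ∀ z : Fin 3 → F, ∃ n : Fin 3 → F, z ∈ T → n ⬝ᵥ m = 1 ∧ n ⬝ᵥ z = 0 := by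
    intro z
    by_cases hz : z ∈ T
    · obtain ⟨n, hn⟩ := isol_one (h z hz).1 (h z hz).2
      exact ⟨n, fun _ => hn⟩
    · exact ⟨0, fun h' => absurd h' hz⟩
  choose n hn using hex
  refine ⟨(∏ z ∈ T, linf (n z)) * linf n0 ^ (k - T.card), ?_, ?_, ?_⟩
  · have h1 := (isol_prod_hom T n).mul ((linf_hom n0).pow (k - T.card))
    rwa [one_mul, Nat.add_sub_cancel' hT] at h1
  · rw [map_mul, map_pow, map_prod, linf_eval, hn0, one_pow, mul_one]
    exact Finset.prod_eq_one fun z hz => by rw [linf_eval, (hn z hz).1]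
  · intro z hz
    rw [map_mul, map_prod, Finset.prod_eq_zero hz (by rw [linf_eval, (hn z hz).2]), zero_mul]

variable [Fintype F]

/-- The missing vectors: at most q - 2, pairwise not proportional; z one of them such that every line through z
contains at most Q of them. Then there is a form of degree Q - 1 which is 1 at s z and 0 at the others.
T = M.erase z has at most 2 (Q - 1) elements, the colour of x is the line through z and x (for example the
span {z, x} as a subspace, or a suitable set), every colour at most Q - 1 times. A pair x, y of different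
colours: x, y, z independent, so n = cross product of s x and s y has n ⬝ᵥ s x = n ⬝ᵥ s y = 0, n ⬝ᵥ s z ≠ 0. -/
theorem exists_isol {Q : ℕ} (hq : Fintype.card F = 2 * Q) (h2 : 2 ≤ Q) (s : F ≃+* F)
    {M : Finset (Fin 3 → F)} (hM : M.card + 2 ≤ Fintype.card F) (hne : ∀ m ∈ M, m ≠ 0)
    (hind : ∀ m ∈ M, ∀ m' ∈ M, ∀ c : F, m' = c • m → m' = m) {z : Fin 3 → F} (hz : z ∈ M)
    (h : ∀ a : Fin 3 → F, a ≠ 0 → a ⬝ᵥ z = 0 → mu M a ≤ Q) :
    ∃ w : MvPolynomial (Fin 3) F, w.IsHomogeneous (Q - 1) ∧ MvPolynomial.eval (s ∘ z) w = 1 ∧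
      ∀ m ∈ M, m ≠ z → MvPolynomial.eval (s ∘ m) w = 0 := by
  have hcr : ∀ x ∈ M.erase z, crossProduct z x ≠ 0 := by
    intro x hx
    rw [Finset.mem_erase] at hx
    exact isol_cross (hne z hz) fun c hc => hx.1 (hind z hz x hx.2 c hc)
  have hsd : ∀ u v : Fin 3 → F, (s ∘ u) ⬝ᵥ (s ∘ v) = s (u ⬝ᵥ v) := by
    intro u v
    simp only [dotProduct, Function.comp_apply, map_sum, map_mul]
  have hsc : ∀ u v : Fin 3 → F, crossProduct (s ∘ u) (s ∘ v) = s ∘ (crossProduct u v) := by
    intro u v
    rw [cross_apply, cross_apply]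
    funext i
    fin_cases i <;> simp
  have hs0 : ∀ u : Fin 3 → F, u ≠ 0 → s ∘ u ≠ 0 := by
    intro u hu h0
    apply hu
    funext i
    have := congrFun h0 i
    simpa using this
  set κ : (Fin 3 → F) → Submodule F (Fin 3 → F) := fun x => F ∙ (crossProduct z x) with hκd
  obtain ⟨P, hPc, hP⟩ := exists_pairs (M.erase z) κ (D := Q - 1)
    (by rw [Finset.card_erase_of_mem hz]; omega) (by
      intro b
      by_cases hb : ∃ x0 ∈ M.erase z, κ x0 = b
      · obtain ⟨x0, hx0, rfl⟩ := hb
        have h1 := h (crossProduct z x0) (hcr x0 hx0) (by rw [dotProduct_comm]; exact dot_self_cross z x0)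
        have h2 : ((M.erase z).filter (fun x => κ x = κ x0)) ⊆
            (M.filter (fun m => crossProduct z x0 ⬝ᵥ m = 0)).erase z := by
          intro x hx
          rw [Finset.mem_filter, Finset.mem_erase] at hx
          rw [Finset.mem_erase, Finset.mem_filter]
          refine ⟨hx.1.1, hx.1.2, ?_⟩
          have h3 : crossProduct z x0 ∈ κ x := by
            rw [hx.2]
            exact Submodule.mem_span_singleton_self _
          obtain ⟨c, hc⟩ := Submodule.mem_span_singleton.1 h3
          rw [← hc, smul_dotProduct, dotProduct_comm, dot_cross_self, smul_zero]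
        have h4 := Finset.card_le_card h2
        rw [Finset.card_erase_of_mem (Finset.mem_filter.2 ⟨hz, by
          rw [dotProduct_comm]; exact dot_self_cross z x0⟩)] at h4
        exact h4.trans (Nat.sub_le_sub_right h1 1)
      · push Not at hb
        refine (Finset.card_eq_zero.2 (Finset.filter_eq_empty_iff.2 ?_)).le.trans (Nat.zero_le _)
        exact fun x hx => hb x hx)
  have hex : ∀ i : Fin (Q - 1), ∃ n : Fin 3 → F, n ⬝ᵥ (s ∘ z) = 1 ∧ ∀ x ∈ P i, n ⬝ᵥ (s ∘ x) = 0 := by
    intro i
    rcases (hP i).2 with h1 | ⟨x, y, hxy, hne2⟩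
    · rw [Finset.card_le_one_iff_subset_singleton] at h1
      obtain ⟨x, hx⟩ := h1
      by_cases hxe : x ∈ M.erase z
      · have hxe' := Finset.mem_erase.1 hxe
        obtain ⟨n, hn1, hn2⟩ := isol_one (m := s ∘ z) (z := s ∘ x) (hs0 x (hne x hxe'.2)) (by
          intro c hc
          apply hxe'.1
          refine (hind x hxe'.2 z hz (s.symm c) ?_).symm
          funext j
          have := congrArg s.symm (congrFun hc j)
          simpa using this)
        refine ⟨n, hn1, fun x' hx' => ?_⟩
        rw [Finset.mem_singleton.1 (hx hx'), hn2]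
      · obtain ⟨n, hn⟩ := isol_dual (hs0 z (hne z hz))
        refine ⟨n, hn, fun x' hx' => ?_⟩
        exfalso
        apply hxe
        rw [← Finset.mem_singleton.1 (hx hx')]
        exact (hP i).1 hx'
    · have hx : x ∈ M.erase z := (hP i).1 (by rw [hxy]; simp)
      have hy : y ∈ M.erase z := (hP i).1 (by rw [hxy]; simp)
      have hd : crossProduct x y ⬝ᵥ z ≠ 0 := by
        intro h0
        apply hne2
        have h6 : x ⬝ᵥ crossProduct z y = 0 := by
          rw [triple_product_permutation, ← cross_anticomm, dotProduct_neg, dotProduct_comm, h0,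
            neg_zero]
        have h5 : crossProduct (crossProduct z x) (crossProduct z y) = 0 := by
          rw [cross_cross_eq_smul_sub_smul, dot_self_cross, h6, zero_smul, zero_smul, sub_zero]
        have h7 := mt crossProduct_ne_zero_iff_linearIndependent.2 (not_not.2 h5)
        rw [LinearIndependent.pair_iff' (hcr x hx)] at h7
        push Not at h7
        obtain ⟨a, ha⟩ := h7
        have ha0 : a ≠ 0 := by
          rintro rfl
          rw [zero_smul] at ha
          exact hcr y hy ha.symm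
        simp only [hκd]
        rw [← ha]
        exact (Submodule.span_singleton_smul_eq (IsUnit.mk0 a ha0) _).symm
      refine ⟨(s (crossProduct x y ⬝ᵥ z))⁻¹ • crossProduct (s ∘ x) (s ∘ y), ?_, ?_⟩
      · rw [smul_dotProduct, hsc, hsd, smul_eq_mul, inv_mul_cancel₀]
        rwa [map_ne_zero]
      · intro x' hx'
        have hx2 : x' = x ∨ x' = y := by simpa [hxy] using hx'
        rw [smul_dotProduct, hsc, hsd, dotProduct_comm _ x']
        rcases hx2 with rfl | rfl
        · rw [dot_self_cross, map_zero, smul_zero]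
        · rw [dot_cross_self, map_zero, smul_zero]
  choose n hn using hex
  refine ⟨∏ i, linf (n i), ?_, ?_, ?_⟩
  · have h1 := isol_prod_hom Finset.univ n
    rwa [Finset.card_univ, Fintype.card_fin] at h1
  · rw [map_prod]
    exact Finset.prod_eq_one fun i _ => by rw [linf_eval, (hn i).1]
  · intro m hm hmz
    obtain ⟨i, hi⟩ := hPc m (Finset.mem_erase.2 ⟨hmz, hm⟩)
    rw [map_prod]
    exact Finset.prod_eq_zero (Finset.mem_univ i) (by rw [linf_eval, (hn i).2 m hi])

end Pool.Agent.Lib.MP_4dc748_co.TA
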