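import Pool.Agent.Lib.MP_4dc748_co.TA.L0R
import Pool.Agent.Lib.MP_4dc748_co.TA.FAlg
import Pool.Agent.Lib.MP_4dc748_co.TA.Frame

/-!
# Virtual points on a line with many missing points
-/

set_option autoImplicit false

open scoped Classical

namespace Pool.Agent.Lib.MP_4dc748_co.TA

variable {F : Type} [Field F] [Fintype F] {s : F ≃+* F}

theorem l0_card_cast [CharP F 2] {Q : ℕ} (hq : Fintype.card F = 2 * Q) :
    ((Fintype.card F : ℕ) : F) = 0 := by
  rw [hq]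
  push_cast
  rw [CharTwo.two_eq_zero, zero_mul]

/-- Sum over the vectors off the line a0. -/
theorem l0_sum [CharP F 2] {Q : ℕ} (hq : Fintype.card F = 2 * Q)
    {a0 a1 a2 e0 e1 e2 : Fin 3 → F} (h : Fr a0 a1 a2 e0 e1 e2)
    (g : (Fin 3 → F) → F) (hg : ∀ c : F, c ≠ 0 → ∀ v, g (c • v) = g v) :
    ∑ v ∈ Finset.univ.filter (fun v => a0 ⬝ᵥ v ≠ 0), g v =
      ∑ x : F, ∑ y : F, g (e0 + x • e1 + y • e2) := by
  have hlin : ∀ x y : F, a0 ⬝ᵥ (e0 + x • e1 + y • e2) = 1 ∧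
      a1 ⬝ᵥ (e0 + x • e1 + y • e2) = x ∧ a2 ⬝ᵥ (e0 + x • e1 + y • e2) = y := by
    intro x y
    simp only [dotProduct_add, dotProduct_smul, smul_eq_mul]
    rw [h.h00, h.h01, h.h02, h.h10, h.h11, h.h12, h.h20, h.h21, h.h22]
    refine ⟨by ring, by ring, by ring⟩
  have h1 : ∑ v ∈ Finset.univ.filter (fun v => a0 ⬝ᵥ v ≠ 0), g v =
      ∑ p ∈ (Finset.univ.filter (fun c : F => c ≠ 0)) ×ˢ (Finset.univ : Finset (F × F)),
        g (e0 + p.2.1 • e1 + p.2.2 • e2) := by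
    refine Finset.sum_bij' (fun v _ => (a0 ⬝ᵥ v, ((a0 ⬝ᵥ v)⁻¹ * (a1 ⬝ᵥ v),
      (a0 ⬝ᵥ v)⁻¹ * (a2 ⬝ᵥ v)))) (fun p _ => p.1 • (e0 + p.2.1 • e1 + p.2.2 • e2)) ?_ ?_ ?_ ?_ ?_
    · intro v hv
      rw [Finset.mem_filter] at hv
      simp [hv.2]
    · rintro ⟨c, x, y⟩ hp
      simp only [Finset.mem_product, Finset.mem_filter, Finset.mem_univ, true_and, and_true] at hp
      simp only [Finset.mem_filter, Finset.mem_univ, true_and]
      rw [dotProduct_smul, (hlin x y).1, smul_eq_mul, mul_one]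
      exact hp
    · intro v hv
      rw [Finset.mem_filter] at hv
      have h2 := h.vec v
      simp only
      rw [smul_add, smul_add, smul_smul, smul_smul, ← mul_assoc, ← mul_assoc,
        mul_inv_cancel₀ hv.2, one_mul, one_mul]
      exact h2.symm
    · rintro ⟨c, x, y⟩ hp
      simp only [Finset.mem_product, Finset.mem_filter, Finset.mem_univ, true_and, and_true] at hp
      simp only [dotProduct_smul, (hlin x y).1, (hlin x y).2.1, (hlin x y).2.2, smul_eq_mul,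
        mul_one]
      rw [← mul_assoc, ← mul_assoc, inv_mul_cancel₀ hp, one_mul, one_mul]
    · intro v hv
      rw [Finset.mem_filter] at hv
      have h2 := h.vec v
      have h3 : (a0 ⬝ᵥ v)⁻¹ • v = e0 + ((a0 ⬝ᵥ v)⁻¹ * (a1 ⬝ᵥ v)) • e1 +
          ((a0 ⬝ᵥ v)⁻¹ * (a2 ⬝ᵥ v)) • e2 := by
        refine (congrArg (fun u => (a0 ⬝ᵥ v)⁻¹ • u) h2).trans ?_
        rw [smul_add, smul_add, smul_smul, smul_smul, smul_smul, inv_mul_cancel₀ hv.2, one_smul]
      simp only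
      rw [← h3, hg _ (inv_ne_zero hv.2)]
  rw [h1, Finset.sum_product]
  simp only
  rw [Finset.sum_const, ← Fintype.sum_prod_type']
  have h4 : (Finset.univ.filter (fun c : F => c ≠ 0)).card = Fintype.card F - 1 := by
    rw [Finset.filter_ne', Finset.card_erase_of_mem (Finset.mem_univ _), Finset.card_univ]
  rw [h4, nsmul_eq_mul, Nat.cast_sub (Fintype.card_pos), l0_card_cast hq]
  simp [CharTwo.neg_eq]

theorem l0_dot_s (s : F ≃+* F) (a v : Fin 3 → F) : (s ∘ a) ⬝ᵥ (s ∘ v) = s (a ⬝ᵥ v) := by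
  unfold dotProduct
  rw [map_sum]
  exact Finset.sum_congr rfl fun i _ => (map_mul s _ _).symm

/-- The form X0^k X1^i X2^j in the dual coordinates. -/
noncomputable def l0form (s : F ≃+* F) (a0 a1 a2 : Fin 3 → F) (k i j : ℕ) :
    MvPolynomial (Fin 3) F :=
  linf (s ∘ a0) ^ k * linf (s ∘ a1) ^ i * linf (s ∘ a2) ^ j

theorem l0form_hom (s : F ≃+* F) (a0 a1 a2 : Fin 3 → F) {k i j d : ℕ} (h : k + i + j = d) :
    (l0form s a0 a1 a2 k i j).IsHomogeneous d := by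
  have h1 := (((linf_hom (s ∘ a0)).pow k).mul ((linf_hom (s ∘ a1)).pow i)).mul
    ((linf_hom (s ∘ a2)).pow j)
  rw [one_mul, one_mul, one_mul, h] at h1
  exact h1

theorem l0form_eval (s : F ≃+* F) (a0 a1 a2 : Fin 3 → F) (k i j : ℕ) (v : Fin 3 → F) :
    MvPolynomial.eval (s ∘ v) (l0form s a0 a1 a2 k i j) =
      s (a0 ⬝ᵥ v) ^ k * s (a1 ⬝ᵥ v) ^ i * s (a2 ⬝ᵥ v) ^ j := by
  unfold l0form
  rw [map_mul, map_mul, map_pow, map_pow, map_pow, linf_eval, linf_eval, linf_eval, l0_dot_s,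
    l0_dot_s, l0_dot_s]

/-- The sum of exists_bx in coordinates. -/
theorem l0_sum' [CharP F 2] {Q : ℕ} (hq : Fintype.card F = 2 * Q) (h2 : 2 ≤ Q)
    {a0 a1 a2 e0 e1 e2 : Fin 3 → F} (h : Fr a0 a1 a2 e0 e1 e2)
    {bx : (Fin 3 → F) → (Fin 3 → F)} (hb : ∀ c : F, c ≠ 0 → ∀ v, bx (c • v) = s c • bx v)
    (a : Fin 3 → F) {w : MvPolynomial (Fin 3) F} (hw : w.IsHomogeneous (Q - 1)) :
    ∑ v ∈ Finset.univ.filter (fun v => a ⬝ᵥ v = 0 ∧ a0 ⬝ᵥ v ≠ 0),
      (MvPolynomial.eval (s ∘ v) w) ^ 2 * (a ⬝ᵥ bx v) =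
    ∑ x : F, ∑ y : F, if a ⬝ᵥ (e0 + x • e1 + y • e2) = 0 then
      (MvPolynomial.eval (s ∘ (e0 + x • e1 + y • e2)) w) ^ 2 *
        (a ⬝ᵥ bx (e0 + x • e1 + y • e2)) else 0 := by
  rw [← l0_sum hq h (fun v => if a ⬝ᵥ v = 0 then
      (MvPolynomial.eval (s ∘ v) w) ^ 2 * (a ⬝ᵥ bx v) else 0), Finset.sum_ite, Finset.sum_const_zero,
    add_zero, Finset.filter_filter]
  · refine Finset.sum_congr ?_ fun _ _ => rfl
    ext v
    simp only [Finset.mem_filter, Finset.mem_univ, true_and]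
    exact and_comm
  · intro c hc v
    have h1 : s ∘ (c • v) = s c • (s ∘ v) := by
      ext i
      simp
    have h3 : s c ≠ 0 := by simpa using hc
    simp only [dotProduct_smul, smul_eq_mul, mul_eq_zero, hc, false_or]
    rw [h1, hom_smul hw, hb c hc, dotProduct_smul, smul_eq_mul]
    split_ifs
    · have h4 : s c ^ (2 * (Q - 1) + 1) = 1 := by
        have : 2 * (Q - 1) + 1 = Fintype.card F - 1 := by omega
        rw [this]
        exact FiniteField.pow_card_sub_one_eq_one _ h3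
      calc (s c ^ (Q - 1) * MvPolynomial.eval (s ∘ v) w) ^ 2 * (s c * a ⬝ᵥ bx v)
          = s c ^ (2 * (Q - 1) + 1) * (MvPolynomial.eval (s ∘ v) w ^ 2 * a ⬝ᵥ bx v) := by
            rw [pow_succ (s c) (2 * (Q - 1)), mul_comm 2 (Q - 1), pow_mul]
            ring
        _ = _ := by rw [h4, one_mul]
    · rfl

/-- Square roots. -/
theorem l0_sq_inj [CharP F 2] {x y : F} (h : x ^ 2 = y ^ 2) : x = y :=
  frobenius_inj F 2 (by rwa [frobenius_def, frobenius_def])

/-- Coordinates: two independent real vectors e1, e2 on a0 (exists_real_pair), e0 with a0 ⬝ᵥ e0 = 1, a1, a2 with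
a_i ⬝ᵥ e_j = δ_ij (i, j = 0, 1, 2). m = l (e1 + t0 e2), l, t0 ≠ 0. For a vector v with a0 ⬝ᵥ v = 1:
v = e0 + x e1 + y e2. φ1 x y = (a1 + x a0) ⬝ᵥ bx v, φ2 x y = (a2 + y a0) ⬝ᵥ bx v (bx of exists_bx). For
a = c a0 + t a1 + a2, c = t x + y (so a ⬝ᵥ v = 0, char 2): a ⬝ᵥ bx v = t φ1 + φ2, and a meets a0 in d = e1 + t e2. -/
theorem l0_nu [CharP F 2] {Q : ℕ} (hq : Fintype.card F = 2 * Q) (h2 : 2 ≤ Q)
    {b bx : (Fin 3 → F) → (Fin 3 → F)} {M : Finset (Fin 3 → F)}
    {a0 a1 a2 e0 e1 e2 : Fin 3 → F} (h : Fr a0 a1 a2 e0 e1 e2)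
    (hb : ∀ c : F, c ≠ 0 → ∀ v, bx (c • v) = s c • bx v)
    (hr1 : Re M e1) (hr2 : Re M e2)
    (hbx : ∀ a d : Fin 3 → F, (∀ c : F, a ≠ c • a0) → d ≠ 0 → a ⬝ᵥ d = 0 → a0 ⬝ᵥ d = 0 →
        ∃ ν : F, (Re M d → ν = a ⬝ᵥ b d) ∧
          ∀ w : MvPolynomial (Fin 3) F, w.IsHomogeneous (Q - 1) →
            ∑ v ∈ Finset.univ.filter (fun v => a ⬝ᵥ v = 0 ∧ a0 ⬝ᵥ v ≠ 0),
              (MvPolynomial.eval (s ∘ v) w) ^ 2 * (a ⬝ᵥ bx v) =
            (MvPolynomial.eval (s ∘ d) w) ^ 2 * ν) (t : F) :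
    ∃ n0 n1 : F, ∀ (c : F) (w : MvPolynomial (Fin 3) F), w.IsHomogeneous (Q - 1) →
      ∑ v ∈ Finset.univ.filter (fun v => (c • a0 + t • a1 + a2) ⬝ᵥ v = 0 ∧ a0 ⬝ᵥ v ≠ 0),
        (MvPolynomial.eval (s ∘ v) w) ^ 2 * ((c • a0 + t • a1 + a2) ⬝ᵥ bx v) =
      (MvPolynomial.eval (s ∘ (e1 + t • e2)) w) ^ 2 * (n0 + n1 * c) := by
  have dv : ∀ x y : F, a0 ⬝ᵥ (e0 + x • e1 + y • e2) = 1 ∧
      a1 ⬝ᵥ (e0 + x • e1 + y • e2) = x ∧ a2 ⬝ᵥ (e0 + x • e1 + y • e2) = y := by
    intro x y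
    simp only [dotProduct_add, dotProduct_smul, smul_eq_mul]
    rw [h.h00, h.h01, h.h02, h.h10, h.h11, h.h12, h.h20, h.h21, h.h22]
    refine ⟨by ring, by ring, by ring⟩
  obtain ⟨k, hkQ, hk⟩ := exists_frob hq s
  let r : F → F := fun x => x ^ Q
  have hr : ∀ x, r x ^ 2 = x := fun x => by
    change (x ^ Q) ^ 2 = x
    rw [← pow_mul, mul_comm, ← hq, FiniteField.pow_card]
  -- the values ν on the lines with a ⬝ᵥ e2 = 1
  have hne : ∀ t c c' : F, (c • a0 + t • a1 + a2) ≠ c' • a0 := by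
    intro t c c' heq
    have := congrArg (fun v => v ⬝ᵥ e2) heq
    simp only [add_dotProduct, smul_dotProduct, h.h02, h.h12, h.h22, smul_eq_mul] at this
    simp at this
  have hd : ∀ t : F, e1 + t • e2 ≠ 0 := by
    intro t heq
    have := congrArg (fun v => a1 ⬝ᵥ v) heq
    simp only [dotProduct_add, dotProduct_smul, h.h11, h.h12, smul_eq_mul] at this
    simp at this
  have hat : ∀ t c : F, (c • a0 + t • a1 + a2) ⬝ᵥ (e1 + t • e2) = 0 := by
    intro t c
    simp only [add_dotProduct, smul_dotProduct, dotProduct_add, dotProduct_smul, h.h01, h.h02,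
      h.h11, h.h12, h.h21, h.h22, smul_eq_mul]
    ring_nf
    rw [mul_two, CharTwo.add_self_eq_zero]
  have h0t : ∀ t : F, a0 ⬝ᵥ (e1 + t • e2) = 0 := by
    intro t
    simp only [dotProduct_add, dotProduct_smul, h.h01, h.h02, smul_eq_mul]
    ring
  choose ν hν1 hν2 using fun t c : F => hbx (c • a0 + t • a1 + a2) (e1 + t • e2) (hne t c) (hd t)
    (hat t c) (h0t t)
  let φ1 : F → F → F := fun x y => (a1 + x • a0) ⬝ᵥ bx (e0 + x • e1 + y • e2)
  let φ2 : F → F → F := fun x y => (a2 + y • a0) ⬝ᵥ bx (e0 + x • e1 + y • e2)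
  -- the relation on the lines c a0 + t a1 + a2
  have K1 : ∀ t c : F, ∀ i j : ℕ, i + j = Q - 1 →
      ∑ x : F, ((s x) ^ i * (s (c + t * x)) ^ j) ^ 2 * (φ2 x (c + t * x) + t * φ1 x (c + t * x)) =
        ((s t) ^ j) ^ 2 * ν t c := by
    intro t c i j hij
    have h3 := hν2 t c (l0form s a0 a1 a2 0 i j) (l0form_hom s a0 a1 a2 (by omega))
    rw [l0_sum' hq h2 h hb _ (l0form_hom s a0 a1 a2 (by omega)), l0form_eval] at h3
    have h4 : a1 ⬝ᵥ (e1 + t • e2) = 1 := by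
      simp only [dotProduct_add, dotProduct_smul, h.h11, h.h12, smul_eq_mul]
      ring
    have h5 : a2 ⬝ᵥ (e1 + t • e2) = t := by
      simp only [dotProduct_add, dotProduct_smul, h.h21, h.h22, smul_eq_mul]
      ring
    rw [h4, h5, map_one, one_pow, pow_zero, one_mul, one_mul] at h3
    rw [← h3]
    refine Finset.sum_congr rfl fun x _ => ?_
    have h6 : ∀ y : F, (c • a0 + t • a1 + a2) ⬝ᵥ (e0 + x • e1 + y • e2) = c + t * x + y := by
      intro y
      rw [add_dotProduct, add_dotProduct, smul_dotProduct, smul_dotProduct, (dv x y).1,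
        (dv x y).2.1, (dv x y).2.2, smul_eq_mul, smul_eq_mul, mul_one]
    rw [Finset.sum_eq_single (c + t * x)]
    · rw [if_pos (by rw [h6, CharTwo.add_self_eq_zero]), l0form_eval, (dv _ _).1, (dv _ _).2.1,
        (dv _ _).2.2, map_one, one_pow, one_mul]
      congr 1
      change (a2 + (c + t * x) • a0) ⬝ᵥ _ + t * ((a1 + x • a0) ⬝ᵥ _) = _
      simp only [add_dotProduct, smul_dotProduct, smul_eq_mul]
      linear_combination (t * x * (a0 ⬝ᵥ bx (e0 + x • e1 + (c + t * x) • e2))) *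
        (CharTwo.two_eq_zero : (2 : F) = 0)
    · intro y _ hy
      rw [if_neg]
      rw [h6]
      intro h7
      exact hy (CharTwo.add_eq_zero.1 h7).symm
    · intro h7
      exact absurd (Finset.mem_univ _) h7
  -- the lines x = c
  have K2 : ∀ x : F, ∀ j : ℕ, j ≤ Q - 1 →
      ∑ y : F, ((s y) ^ j) ^ 2 * φ1 x y =
        if j = Q - 1 then a1 ⬝ᵥ b e2 + (a0 ⬝ᵥ b e2) * x else 0 := by
    intro c j hj
    obtain ⟨μ, hμ1, hμ2⟩ := hbx (a1 + c • a0) e2 (by
        intro c' heq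
        have := congrArg (fun v => v ⬝ᵥ e1) heq
        simp only [add_dotProduct, smul_dotProduct, h.h01, h.h11, smul_eq_mul] at this
        simp at this) hr2.1 (by
        rw [add_dotProduct, smul_dotProduct, h.h02, h.h12, smul_zero, add_zero]) h.h02
    have h3 := hμ2 (l0form s a0 a1 a2 (Q - 1 - j) 0 j) (l0form_hom s a0 a1 a2 (by omega))
    rw [l0_sum' hq h2 h hb _ (l0form_hom s a0 a1 a2 (by omega)), l0form_eval, h.h02, h.h12,
      h.h22, map_one, one_pow, pow_zero, map_zero, mul_one, mul_one, hμ1 hr2] at h3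
    have h6 : ∀ x y : F, (a1 + c • a0) ⬝ᵥ (e0 + x • e1 + y • e2) = x + c := by
      intro x y
      rw [add_dotProduct, smul_dotProduct, (dv x y).1, (dv x y).2.1, smul_eq_mul, mul_one]
    rw [Finset.sum_eq_single c] at h3
    · have h7 : ∑ y : F, ((s y) ^ j) ^ 2 * φ1 c y =
          (0 ^ (Q - 1 - j)) ^ 2 * (a1 + c • a0) ⬝ᵥ b e2 := by
        rw [← h3]
        refine Finset.sum_congr rfl fun y _ => ?_
        rw [if_pos (by rw [h6, CharTwo.add_self_eq_zero]), l0form_eval, (dv _ _).1, (dv _ _).2.2,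
          map_one, one_pow, one_mul, pow_zero, one_mul]
      rw [h7]
      split_ifs with hjQ
      · rw [hjQ, Nat.sub_self, pow_zero, one_pow, one_mul, add_dotProduct, smul_dotProduct,
          smul_eq_mul, mul_comm c]
      · rw [zero_pow (by omega), zero_pow two_ne_zero, zero_mul]
    · intro x _ hx
      refine Finset.sum_eq_zero fun y _ => ?_
      rw [if_neg]
      rw [h6]
      intro h7
      exact hx (CharTwo.add_eq_zero.1 h7)
    · intro h7
      exact absurd (Finset.mem_univ _) h7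
  -- the lines y = c
  have K3 : ∀ y : F, ∀ i : ℕ, i ≤ Q - 1 →
      ∑ x : F, ((s x) ^ i) ^ 2 * φ2 x y =
        if i = Q - 1 then a2 ⬝ᵥ b e1 + (a0 ⬝ᵥ b e1) * y else 0 := by
    intro c i hi
    obtain ⟨μ, hμ1, hμ2⟩ := hbx (a2 + c • a0) e1 (by
        intro c' heq
        have := congrArg (fun v => v ⬝ᵥ e2) heq
        simp only [add_dotProduct, smul_dotProduct, h.h02, h.h22, smul_eq_mul] at this
        simp at this) hr1.1 (by
        rw [add_dotProduct, smul_dotProduct, h.h01, h.h21, smul_zero, add_zero]) h.h01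
    have h3 := hμ2 (l0form s a0 a1 a2 (Q - 1 - i) i 0) (l0form_hom s a0 a1 a2 (by omega))
    rw [l0_sum' hq h2 h hb _ (l0form_hom s a0 a1 a2 (by omega)), l0form_eval, h.h01, h.h11,
      h.h21, map_one, one_pow, pow_zero, map_zero, mul_one, mul_one, hμ1 hr1] at h3
    have h6 : ∀ x y : F, (a2 + c • a0) ⬝ᵥ (e0 + x • e1 + y • e2) = y + c := by
      intro x y
      rw [add_dotProduct, smul_dotProduct, (dv x y).1, (dv x y).2.2, smul_eq_mul, mul_one]
    have h7 : ∑ x : F, ((s x) ^ i) ^ 2 * φ2 x c =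
        (0 ^ (Q - 1 - i)) ^ 2 * (a2 + c • a0) ⬝ᵥ b e1 := by
      rw [← h3]
      refine Finset.sum_congr rfl fun x _ => ?_
      rw [Finset.sum_eq_single c]
      · rw [if_pos (by rw [h6, CharTwo.add_self_eq_zero]), l0form_eval, (dv _ _).1,
          (dv _ _).2.1, map_one, one_pow, one_mul, pow_zero, mul_one]
      · intro y _ hy
        rw [if_neg]
        rw [h6]
        intro h8
        exact hy (CharTwo.add_eq_zero.1 h8)
      · intro h8
        exact absurd (Finset.mem_univ _) h8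
    rw [h7]
    split_ifs with hiQ
    · rw [hiQ, Nat.sub_self, pow_zero, one_pow, one_mul, add_dotProduct, smul_dotProduct,
        smul_eq_mul, mul_comm c]
    · rw [zero_pow (by omega), zero_pow two_ne_zero, zero_mul]
  -- square roots
  have F1 := falg hq h2 (p := 2 ^ k) ⟨k, rfl⟩ hkQ
    (ψ1 := fun X Y => r (φ1 (s.symm X) (s.symm Y)))
    (ψ2 := fun X Y => r (φ2 (s.symm X) (s.symm Y)))
    (ν := fun T C => r (ν (s.symm T) (s.symm C)))
    (α := r (a1 ⬝ᵥ b e2)) (β := r (a0 ⬝ᵥ b e2)) (α' := r (a2 ⬝ᵥ b e1)) (β' := r (a0 ⬝ᵥ b e1))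
    (by
      intro T C i j hij
      apply l0_sq_inj
      rw [CharTwo.sum_sq, mul_pow, hr, ← s.toEquiv.sum_comp]
      have h3 := K1 (s.symm T) (s.symm C) i j hij
      rw [s.apply_symm_apply] at h3
      rw [← h3]
      refine Finset.sum_congr rfl fun x _ => ?_
      have h4 : C + T * s.toEquiv x = s (s.symm C + s.symm T * x) := by
        rw [map_add, map_mul, s.apply_symm_apply, s.apply_symm_apply]
        rfl
      have h5 : s.toEquiv x = s x := rfl
      rw [h4, h5, mul_pow, CharTwo.add_sq, mul_pow (T ^ 2 ^ k), hr, hr, hk, s.symm_apply_apply,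
        s.symm_apply_apply])
    (by
      intro X j hj
      apply l0_sq_inj
      rw [CharTwo.sum_sq, zero_pow two_ne_zero, ← s.toEquiv.sum_comp]
      have h3 := K2 (s.symm X) j hj.le
      rw [if_neg hj.ne] at h3
      rw [← h3]
      refine Finset.sum_congr rfl fun y _ => ?_
      have h5 : s.toEquiv y = s y := rfl
      rw [mul_pow, hr, h5, s.symm_apply_apply])
    (by
      intro X
      apply l0_sq_inj
      rw [CharTwo.sum_sq, ← s.toEquiv.sum_comp, CharTwo.add_sq, mul_pow, hr, hr, hk]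
      have h3 := K2 (s.symm X) (Q - 1) le_rfl
      rw [if_pos rfl] at h3
      rw [← h3]
      refine Finset.sum_congr rfl fun y _ => ?_
      have h5 : s.toEquiv y = s y := rfl
      rw [mul_pow, hr, h5, s.symm_apply_apply])
    (by
      intro Y i hi
      apply l0_sq_inj
      rw [CharTwo.sum_sq, zero_pow two_ne_zero, ← s.toEquiv.sum_comp]
      have h3 := K3 (s.symm Y) i hi.le
      rw [if_neg hi.ne] at h3
      rw [← h3]
      refine Finset.sum_congr rfl fun x _ => ?_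
      have h5 : s.toEquiv x = s x := rfl
      rw [mul_pow, hr, h5, s.symm_apply_apply])
    (by
      intro Y
      apply l0_sq_inj
      rw [CharTwo.sum_sq, ← s.toEquiv.sum_comp, CharTwo.add_sq, mul_pow, hr, hr, hk]
      have h3 := K3 (s.symm Y) (Q - 1) le_rfl
      rw [if_pos rfl] at h3
      rw [← h3]
      refine Finset.sum_congr rfl fun x _ => ?_
      have h5 : s.toEquiv x = s x := rfl
      rw [mul_pow, hr, h5, s.symm_apply_apply])
  obtain ⟨n0, n1, hn⟩ := F1 (s t)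
  refine ⟨n0 ^ 2, n1 ^ 2, fun c w hw => ?_⟩
  rw [hν2 t c w hw]
  congr 1
  have h3 : r (ν (s.symm (s t)) (s.symm (s c))) ^ 2 = (n0 + n1 * (s c) ^ 2 ^ k) ^ 2 :=
    congrArg (fun x => x ^ 2) (hn (s c))
  rw [hr, CharTwo.add_sq, mul_pow, hk, s.symm_apply_apply, s.symm_apply_apply] at h3
  exact h3

/-- Result for T = s t0: ν(t0, c) = (n0 + n1 C^p)^2 = n0^2 + n1^2 c. So u0 = n1^2 e0 + n0^2 e2 has a ⬝ᵥ u0 = ν for all
a = c a0 + t0 a1 + a2. If mu a = 1 and a ⬝ᵥ m = 0 then a is not a multiple of a0 (mu a0 > Q ≥ 1), so it is a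
multiple of such a vector (D_scale), the real vectors of a are exactly the v with a ⬝ᵥ v = 0, a0 ⬝ᵥ v ≠ 0 (the
only missing point of a is m), and D A a w = w(s d)^2 ν = w(s m)^2 (a ⬝ᵥ (s l • u0)) as s(l)^(2(Q-1)) s(l) = 1. -/
theorem exists_virt_l0 [CharP F 2] {Q : ℕ} (hq : Fintype.card F = 2 * Q) (h2 : 2 ≤ Q)
    (A : Arc F s) {a0 : Fin 3 → F} (h0 : a0 ≠ 0) (hmu : Q < mu A.M a0) {m : Fin 3 → F}
    (hm : m ∈ A.M) (ham : a0 ⬝ᵥ m = 0) :
    ∃ u : Fin 3 → F, ∀ a : Fin 3 → F, a ≠ 0 → a ⬝ᵥ m = 0 → mu A.M a = 1 →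
      ∀ w : MvPolynomial (Fin 3) F, w.IsHomogeneous (Q - 1) →
        D A a w = (MvPolynomial.eval (s ∘ m) w) ^ 2 * (a ⬝ᵥ u) := by
  obtain ⟨bx, hb, hbr, hbx⟩ := exists_bx hq h2 A h0 hmu
  obtain ⟨e1, e2, k1, k2, hr1, hr2, hne⟩ := exists_real_pair A h0
  obtain ⟨a1, a2, e0, hF⟩ := exists_frame h0 k1 k2 hr1.1 hne
  have hmv := hF.vec m
  rw [ham, zero_smul, zero_add] at hmv
  set l := a1 ⬝ᵥ m with hl
  have hl0 : l ≠ 0 := by
    intro hl0
    rw [hl0, zero_smul, zero_add] at hmv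
    have h3 : a2 ⬝ᵥ m ≠ 0 := by
      intro h4
      rw [h4, zero_smul] at hmv
      exact A.ne m hm hmv
    apply hr2.2 m hm (a2 ⬝ᵥ m)⁻¹
    refine Eq.trans ?_ (congrArg (fun v => (a2 ⬝ᵥ m)⁻¹ • v) hmv).symm
    rw [smul_smul, inv_mul_cancel₀ h3, one_smul]
  set t := l⁻¹ * (a2 ⬝ᵥ m) with ht
  have hml : m = l • (e1 + t • e2) := by
    rw [smul_add, smul_smul, ht, ← mul_assoc, mul_inv_cancel₀ hl0, one_mul]
    exact hmv
  obtain ⟨n0, n1, hn⟩ := l0_nu hq h2 hF hb hr1 hr2 hbx t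
  refine ⟨s l • (n1 • e0 + n0 • e2), fun a ha hm0 hmu1 w hw => ?_⟩
  have hac := hF.cov a
  set α0 := a ⬝ᵥ e0 with hα0
  set α1 := a ⬝ᵥ e1 with hα1
  set α2 := a ⬝ᵥ e2 with hα2
  have h12 : α1 = t * α2 := by
    rw [hml, dotProduct_smul, dotProduct_add, dotProduct_smul, smul_eq_mul, smul_eq_mul,
      ← hα1, ← hα2, mul_eq_zero] at hm0
    exact CharTwo.add_eq_zero.1 (hm0.resolve_left hl0)
  have hα2 : α2 ≠ 0 := by
    intro h3
    rw [h12, h3, mul_zero, zero_smul, zero_smul, add_zero, add_zero] at hac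
    have h4 : α0 ≠ 0 := by
      rintro h4
      rw [h4, zero_smul] at hac
      exact ha hac
    have h5 : mu A.M a = mu A.M a0 := by
      unfold mu
      congr 1
      ext v
      rw [Finset.mem_filter, Finset.mem_filter, hac, smul_dotProduct, smul_eq_mul, mul_eq_zero,
        or_iff_right h4]
    omega
  set a' := (α2⁻¹ * α0) • a0 + t • a1 + a2 with ha'
  have haa : a = α2 • a' := by
    rw [ha', smul_add, smul_add, smul_smul, smul_smul, ← mul_assoc, mul_inv_cancel₀ hα2, one_mul,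
      mul_comm α2 t, ← h12]
    exact hac
  have hm' : a' ⬝ᵥ m = 0 := by
    rw [haa, smul_dotProduct, smul_eq_mul, mul_eq_zero] at hm0
    exact hm0.resolve_left hα2
  have hmu' : mu A.M a' = 1 := by
    rw [← hmu1]
    unfold mu
    congr 1
    ext v
    rw [Finset.mem_filter, Finset.mem_filter, haa, smul_dotProduct, smul_eq_mul, mul_eq_zero,
      or_iff_right hα2]
  have hu : ∀ m' ∈ A.M, a' ⬝ᵥ m' = 0 → m' = m := by
    intro m' hm1 hm2
    obtain ⟨z, hz⟩ := Finset.card_eq_one.1 hmu'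
    have h3 : m ∈ A.M.filter (fun m => a' ⬝ᵥ m = 0) := Finset.mem_filter.2 ⟨hm, hm'⟩
    have h4 : m' ∈ A.M.filter (fun m => a' ⬝ᵥ m = 0) := Finset.mem_filter.2 ⟨hm1, hm2⟩
    rw [hz, Finset.mem_singleton] at h3 h4
    rw [h3, h4]
  have hD : D A a' w = (MvPolynomial.eval (s ∘ (e1 + t • e2)) w) ^ 2 *
      (n0 + n1 * (α2⁻¹ * α0)) := by
    rw [← hn _ w hw]
    unfold D
    have h3 : Finset.univ.filter (fun v => a' ⬝ᵥ v = 0 ∧ Re A.M v) =
        Finset.univ.filter (fun v => a' ⬝ᵥ v = 0 ∧ a0 ⬝ᵥ v ≠ 0) := by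
      ext v
      simp only [Finset.mem_filter, Finset.mem_univ, true_and]
      refine and_congr_right fun hv => ⟨fun hre h4 => ?_, fun h4 => ⟨?_, fun m' hm1 c hc => ?_⟩⟩
      · have h5 := hF.vec v
        rw [h4, zero_smul, zero_add] at h5
        have h6 : a2 ⬝ᵥ v = t * (a1 ⬝ᵥ v) := by
          rw [ha', add_dotProduct, add_dotProduct, smul_dotProduct, smul_dotProduct, h4,
            smul_zero, zero_add, smul_eq_mul] at hv
          exact (CharTwo.add_eq_zero.1 hv).symm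
        apply hre.2 m hm ((a1 ⬝ᵥ v) * l⁻¹)
        rw [hml, smul_smul, mul_assoc, inv_mul_cancel₀ hl0, mul_one, smul_add, smul_smul,
          mul_comm _ t, ← h6]
        exact h5
      · rintro rfl
        exact h4 (dotProduct_zero _)
      · have hc0 : c ≠ 0 := by
          rintro rfl
          rw [hc, zero_smul] at h4
          exact h4 (dotProduct_zero _)
        rw [hc, dotProduct_smul, smul_eq_mul, mul_eq_zero] at hv
        have h5 := hu m' hm1 (hv.resolve_left hc0)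
        rw [hc, h5, dotProduct_smul, ham, smul_zero] at h4
        exact h4 rfl
    rw [← h3]
    refine Finset.sum_congr rfl fun v hv => ?_
    rw [Finset.mem_filter] at hv
    rw [hbr v hv.2.2]
  have h5 : s ∘ m = s l • (s ∘ (e1 + t • e2)) := by
    rw [hml]
    ext i
    simp only [Function.comp_apply, Pi.smul_apply, smul_eq_mul, map_mul]
  have h6 : s l ≠ 0 := by simpa using hl0
  have h7 : a ⬝ᵥ (n1 • e0 + n0 • e2) = α2 * (n0 + n1 * (α2⁻¹ * α0)) := by
    rw [dotProduct_add, dotProduct_smul, dotProduct_smul, ← hα0, smul_eq_mul, smul_eq_mul]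
    have h9 : α2 * α2⁻¹ = 1 := mul_inv_cancel₀ hα2
    linear_combination (-(n1 * α0)) * h9
  have h8 : s l ^ (2 * (Q - 1) + 1) = 1 := by
    have : 2 * (Q - 1) + 1 = Fintype.card F - 1 := by omega
    rw [this]
    exact FiniteField.pow_card_sub_one_eq_one _ h6
  rw [haa, D_scale A hα2, hD, ← haa, h5, hom_smul hw, dotProduct_smul, smul_eq_mul, h7]
  calc α2 * (MvPolynomial.eval (s ∘ (e1 + t • e2)) w ^ 2 * (n0 + n1 * (α2⁻¹ * α0)))
      = s l ^ (2 * (Q - 1) + 1) *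
        (MvPolynomial.eval (s ∘ (e1 + t • e2)) w ^ 2 * (α2 * (n0 + n1 * (α2⁻¹ * α0)))) := by
        rw [h8]
        ring
    _ = _ := by
        rw [pow_succ (s l) (2 * (Q - 1)), mul_comm 2 (Q - 1), pow_mul]
        ring

end Pool.Agent.Lib.MP_4dc748_co.TA
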