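import Pool.Agent.Lib.MP_4dc748_co.TA.Func
import Pool.Agent.Lib.MP_4dc748_co.TA.Isol
import Pool.Agent.Lib.MP_4dc748_co.TA.Frame

/-!
# Virtual points outside a line with many missing points
-/

set_option autoImplicit false

open scoped Classical

namespace Pool.Agent.Lib.MP_4dc748_co.TA

variable {F : Type} [Field F] [Fintype F] {s : F ≃+* F}

/-- A missing point z such that no line through z has more than Q missing points: an isolating form w and a
virtual point u. exists_isol, exists_functional. -/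
theorem exists_wu [CharP F 2] {Q : ℕ} (hq : Fintype.card F = 2 * Q) (h2 : 2 ≤ Q) (A : Arc F s)
    {z : Fin 3 → F} (hz : z ∈ A.M) (h : ∀ a : Fin 3 → F, a ≠ 0 → a ⬝ᵥ z = 0 → mu A.M a ≤ Q) :
    ∃ (w : MvPolynomial (Fin 3) F) (u : Fin 3 → F), w.IsHomogeneous (Q - 1) ∧
      MvPolynomial.eval (s ∘ z) w = 1 ∧ (∀ m ∈ A.M, m ≠ z → MvPolynomial.eval (s ∘ m) w = 0) ∧
      ∀ a, a ⬝ᵥ z = 0 → D A a w = a ⬝ᵥ u := by
  obtain ⟨w, hw, h1, h0⟩ := exists_isol hq h2 s A.card A.ne A.ind hz h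
  obtain ⟨u, hu⟩ := exists_functional hq h2 A hz hw h0
  exact ⟨w, u, hw, h1, h0, hu⟩

/-- The common zeros of two independent linear forms are the multiples of one vector. -/
theorem L0R_ker {a0 a : Fin 3 → F} (h0 : a0 ≠ 0) (h : ∀ c : F, a ≠ c • a0) {v v' : Fin 3 → F}
    (hv : v ≠ 0) (h1 : a0 ⬝ᵥ v = 0) (h2 : a ⬝ᵥ v = 0) (h3 : a0 ⬝ᵥ v' = 0) (h4 : a ⬝ᵥ v' = 0) :
    ∃ c : F, v' = c • v := by
  by_contra hne
  push Not at hne
  obtain ⟨a1, a2, e0, hfr⟩ := exists_frame h0 h1 h3 hv hne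
  apply h (a ⬝ᵥ e0)
  have h5 := hfr.cov a
  rw [h2, h4, zero_smul, zero_smul, add_zero, add_zero] at h5
  exact h5

/-- Two lines with a common missing point: mu a + mu a' ≤ |M| + 1. So a missing point outside a line a0 with
more than Q missing points is as in exists_wu. -/
theorem mu_le_of_large {Q : ℕ} (hq : Fintype.card F = 2 * Q) (A : Arc F s) {a0 : Fin 3 → F}
    (h0 : a0 ≠ 0) (hmu : Q < mu A.M a0) {a : Fin 3 → F} (ha : a ≠ 0) (h : ∀ c : F, a ≠ c • a0) :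
    mu A.M a ≤ Q := by
  have h1 : (A.M.filter (fun m => a0 ⬝ᵥ m = 0) ∩ A.M.filter (fun m => a ⬝ᵥ m = 0)).card ≤ 1 := by
    rw [Finset.card_le_one]
    intro m hm m' hm'
    rw [Finset.mem_inter, Finset.mem_filter, Finset.mem_filter] at hm hm'
    obtain ⟨c, hc⟩ := L0R_ker h0 h (A.ne m hm.1.1) hm.1.2 hm.2.2 hm'.1.2 hm'.2.2
    exact (A.ind m hm.1.1 m' hm'.1.1 c hc).symm
  have h2 := Finset.card_union_add_card_inter (A.M.filter (fun m => a0 ⬝ᵥ m = 0))
    (A.M.filter (fun m => a ⬝ᵥ m = 0))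
  have h3 : (A.M.filter (fun m => a0 ⬝ᵥ m = 0) ∪ A.M.filter (fun m => a ⬝ᵥ m = 0)).card ≤
      A.M.card :=
    Finset.card_le_card (Finset.union_subset (Finset.filter_subset _ _) (Finset.filter_subset _ _))
  have h4 := A.card
  unfold mu at hmu ⊢
  omega

/-- s(c)^(2(Q-1)) s(c) = 1. -/
theorem L0R_pow {Q : ℕ} (hq : Fintype.card F = 2 * Q) (h2 : 2 ≤ Q) (s : F ≃+* F) {c : F}
    (hc : c ≠ 0) : (s c ^ (Q - 1)) ^ 2 * s c = 1 := by
  have hsc : s c ≠ 0 := fun h => hc (by simpa using h)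
  have h1 : s c ^ (Fintype.card F - 1) = 1 := FiniteField.pow_card_sub_one_eq_one _ hsc
  have h3 : Fintype.card F - 1 = (Q - 1) * 2 + 1 := by omega
  rwa [h3, pow_succ, pow_mul] at h1

/-- The number of nonzero elements is 1 in F. -/
theorem L0R_count [CharP F 2] (x : F) :
    ∑ c : F, (if c ≠ 0 then x else 0) = x := by
  have h1 : ∀ c : F, (if c ≠ 0 then x else 0) = x + (if c = 0 then x else 0) := by
    intro c
    by_cases hc : c = 0
    · rw [if_neg (by simpa using hc), if_pos hc, CharTwo.add_self_eq_zero]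
    · rw [if_pos hc, if_neg hc, add_zero]
  rw [Finset.sum_congr rfl fun c _ => h1 c, Finset.sum_add_distrib,
    Finset.sum_ite_eq' Finset.univ (0 : F) (fun _ => x), if_pos (Finset.mem_univ _),
    Finset.sum_const, Finset.card_univ, nsmul_eq_mul, FiniteField.cast_card_eq_zero, zero_mul,
    zero_add]

theorem L0R_eval {Q : ℕ} (s : F ≃+* F) {w : MvPolynomial (Fin 3) F} (hw : w.IsHomogeneous (Q - 1))
    (c : F) (v : Fin 3 → F) : MvPolynomial.eval (s ∘ (c • v)) w =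
      s c ^ (Q - 1) * MvPolynomial.eval (s ∘ v) w := by
  rw [star_comp, star_hom hw]

/-- The sum over the multiples of a vector. -/
theorem L0R_mult [CharP F 2] {Q : ℕ} (hq : Fintype.card F = 2 * Q) (h2 : 2 ≤ Q) (s : F ≃+* F)
    {w : MvPolynomial (Fin 3) F} (hw : w.IsHomogeneous (Q - 1)) (v : Fin 3 → F) (x : F) :
    ∑ c : F, (if c ≠ 0 then (MvPolynomial.eval (s ∘ (c • v)) w) ^ 2 * (s c * x) else 0) =
      (MvPolynomial.eval (s ∘ v) w) ^ 2 * x := by
  rw [← L0R_count ((MvPolynomial.eval (s ∘ v) w) ^ 2 * x)]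
  refine Finset.sum_congr rfl fun c _ => ?_
  by_cases hc : c = 0
  · rw [if_neg (by simpa using hc), if_neg (by simpa using hc)]
  · rw [if_pos hc, if_pos hc, L0R_eval s hw]
    calc (s c ^ (Q - 1) * MvPolynomial.eval (s ∘ v) w) ^ 2 * (s c * x) =
        ((s c ^ (Q - 1)) ^ 2 * s c) * ((MvPolynomial.eval (s ∘ v) w) ^ 2 * x) := by ring
      _ = _ := by rw [L0R_pow hq h2 s hc, one_mul]

/-- The extension of b by multiples of given vectors U m at the multiples of m ∈ T. -/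
noncomputable def L0R_bx (A : Arc F s) (T : Finset (Fin 3 → F)) (U : (Fin 3 → F) → (Fin 3 → F))
    (v : Fin 3 → F) : Fin 3 → F :=
  (if Re A.M v then A.b v else 0) + ∑ m ∈ T, ∑ c : F, if v = c • m then s c • U m else 0

theorem L0R_bx_smul (A : Arc F s) (T : Finset (Fin 3 → F)) (U : (Fin 3 → F) → (Fin 3 → F))
    {c : F} (hc : c ≠ 0) (v : Fin 3 → F) :
    L0R_bx A T U (c • v) = s c • L0R_bx A T U v := by
  unfold L0R_bx
  rw [smul_add, Finset.smul_sum]
  congr 1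
  · by_cases hv : Re A.M v
    · rw [if_pos ((star_re A.M hc v).mpr hv), if_pos hv, A.equi c hc]
    · rw [if_neg (fun h => hv ((star_re A.M hc v).mp h)), if_neg hv, smul_zero]
  · refine Finset.sum_congr rfl fun m _ => ?_
    rw [Finset.smul_sum]
    refine (Fintype.sum_equiv (Equiv.mulLeft₀ c hc) _ _ fun d => ?_).symm
    show s c • (if v = d • m then s d • U m else 0) =
      if c • v = (c * d) • m then s (c * d) • U m else 0
    by_cases h : v = d • m
    · rw [if_pos h, if_pos (by rw [h, smul_smul]), map_mul, smul_smul]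
    · rw [if_neg h, if_neg, smul_zero]
      intro h'
      apply h
      rw [← smul_smul] at h'
      exact smul_right_injective _ hc h'

theorem L0R_bx_re (A : Arc F s) {T : Finset (Fin 3 → F)} (hT : T ⊆ A.M)
    (U : (Fin 3 → F) → (Fin 3 → F)) {v : Fin 3 → F} (hv : Re A.M v) :
    L0R_bx A T U v = A.b v := by
  unfold L0R_bx
  rw [if_pos hv, Finset.sum_eq_zero, add_zero]
  intro m hm
  refine Finset.sum_eq_zero fun c _ => ?_
  rw [if_neg (hv.2 m (hT hm) c)]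

/-- The part of the sum over the multiples of m. -/
theorem L0R_part [CharP F 2] {Q : ℕ} (hq : Fintype.card F = 2 * Q) (h2 : 2 ≤ Q) (s : F ≃+* F)
    {w : MvPolynomial (Fin 3) F} (hw : w.IsHomogeneous (Q - 1)) (a a0 m u : Fin 3 → F)
    (hm : a0 ⬝ᵥ m ≠ 0) :
    ∑ v ∈ Finset.univ.filter (fun v => a ⬝ᵥ v = 0 ∧ a0 ⬝ᵥ v ≠ 0),
      (MvPolynomial.eval (s ∘ v) w) ^ 2 * (a ⬝ᵥ (∑ c : F, if v = c • m then s c • u else 0)) =
      if a ⬝ᵥ m = 0 then (MvPolynomial.eval (s ∘ m) w) ^ 2 * (a ⬝ᵥ u) else 0 := by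
  have h1 : ∀ v : Fin 3 → F, (MvPolynomial.eval (s ∘ v) w) ^ 2 *
      (a ⬝ᵥ (∑ c : F, if v = c • m then s c • u else 0)) =
      ∑ c : F, if v = c • m then (MvPolynomial.eval (s ∘ v) w) ^ 2 * (s c * (a ⬝ᵥ u)) else 0 := by
    intro v
    rw [dotProduct_sum, Finset.mul_sum]
    refine Finset.sum_congr rfl fun c _ => ?_
    by_cases hc : v = c • m
    · rw [if_pos hc, if_pos hc, dotProduct_smul, smul_eq_mul]
    · rw [if_neg hc, if_neg hc, dotProduct_zero, mul_zero]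
  rw [Finset.sum_congr rfl fun v _ => h1 v, Finset.sum_comm]
  have h3 : ∀ c : F, ∑ v ∈ Finset.univ.filter (fun v => a ⬝ᵥ v = 0 ∧ a0 ⬝ᵥ v ≠ 0),
      (if v = c • m then (MvPolynomial.eval (s ∘ v) w) ^ 2 * (s c * (a ⬝ᵥ u)) else 0) =
      if c ≠ 0 then (if a ⬝ᵥ m = 0 then
        (MvPolynomial.eval (s ∘ (c • m)) w) ^ 2 * (s c * (a ⬝ᵥ u)) else 0) else 0 := by
    intro c
    rw [Finset.sum_ite_eq']
    by_cases hc : c = 0
    · rw [if_neg, if_neg (by simpa using hc)]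
      rw [Finset.mem_filter, hc, zero_smul, dotProduct_zero]
      exact fun h => h.2.2 (dotProduct_zero a0)
    · rw [if_pos hc]
      by_cases ham : a ⬝ᵥ m = 0
      · rw [if_pos, if_pos ham]
        rw [Finset.mem_filter, dotProduct_smul, dotProduct_smul, ham, smul_zero]
        exact ⟨Finset.mem_univ _, rfl, smul_ne_zero hc hm⟩
      · rw [if_neg, if_neg ham]
        rw [Finset.mem_filter, dotProduct_smul]
        exact fun h => smul_ne_zero hc ham h.2.1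
  rw [Finset.sum_congr rfl fun c _ => h3 c]
  by_cases ham : a ⬝ᵥ m = 0
  · simp only [if_pos ham]
    exact L0R_mult hq h2 s hw m (a ⬝ᵥ u)
  · simp only [if_neg ham, ite_self, Finset.sum_const_zero]

/-- The multiples of d in the sum over the line a. -/
theorem L0R_D [CharP F 2] {Q : ℕ} (hq : Fintype.card F = 2 * Q) (h2 : 2 ≤ Q) (A : Arc F s)
    {a0 a d : Fin 3 → F} (h0 : a0 ≠ 0) (h : ∀ c : F, a ≠ c • a0) (hd : d ≠ 0)
    (had : a ⬝ᵥ d = 0) (h0d : a0 ⬝ᵥ d = 0)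
    {w : MvPolynomial (Fin 3) F} (hw : w.IsHomogeneous (Q - 1)) :
    ∑ v ∈ Finset.univ.filter (fun v => a ⬝ᵥ v = 0 ∧ a0 ⬝ᵥ v ≠ 0),
      (MvPolynomial.eval (s ∘ v) w) ^ 2 * (a ⬝ᵥ (if Re A.M v then A.b v else 0)) =
      D A a w + if Re A.M d then (MvPolynomial.eval (s ∘ d) w) ^ 2 * (a ⬝ᵥ A.b d) else 0 := by
  let g : (Fin 3 → F) → F := fun v =>
    if Re A.M v then (MvPolynomial.eval (s ∘ v) w) ^ 2 * (a ⬝ᵥ A.b v) else 0
  have hg : ∀ v : Fin 3 → F, (MvPolynomial.eval (s ∘ v) w) ^ 2 *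
      (a ⬝ᵥ (if Re A.M v then A.b v else 0)) = g v := by
    intro v
    show _ = if Re A.M v then _ else _
    by_cases hv : Re A.M v
    · rw [if_pos hv, if_pos hv]
    · rw [if_neg hv, if_neg hv, dotProduct_zero, mul_zero]
  rw [Finset.sum_congr rfl fun v _ => hg v]
  have hD : D A a w = ∑ v ∈ Finset.univ.filter (fun v => a ⬝ᵥ v = 0), g v := by
    unfold D
    rw [Finset.sum_filter, Finset.sum_filter]
    refine Finset.sum_congr rfl fun v _ => ?_
    show _ = if a ⬝ᵥ v = 0 then (if Re A.M v then _ else _) else _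
    by_cases hv : a ⬝ᵥ v = 0
    · by_cases hr : Re A.M v
      · rw [if_pos ⟨hv, hr⟩, if_pos hv, if_pos hr]
      · rw [if_neg (fun h => hr h.2), if_pos hv, if_neg hr]
    · rw [if_neg (fun h => hv h.1), if_neg hv]
  have hsplit : ∑ v ∈ Finset.univ.filter (fun v => a ⬝ᵥ v = 0), g v =
      ∑ v ∈ Finset.univ.filter (fun v => a ⬝ᵥ v = 0 ∧ a0 ⬝ᵥ v ≠ 0), g v +
        ∑ v ∈ Finset.univ.filter (fun v => a ⬝ᵥ v = 0 ∧ a0 ⬝ᵥ v = 0), g v := by
    rw [← Finset.sum_filter_add_sum_filter_not (Finset.univ.filter (fun v => a ⬝ᵥ v = 0))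
      (fun v => a0 ⬝ᵥ v ≠ 0) g, Finset.filter_filter, Finset.filter_filter]
    congr 1
    refine Finset.sum_congr ?_ fun _ _ => rfl
    refine Finset.filter_congr fun v _ => ?_
    rw [not_not]
  have hmult : ∑ v ∈ Finset.univ.filter (fun v => a ⬝ᵥ v = 0 ∧ a0 ⬝ᵥ v = 0), g v =
      if Re A.M d then (MvPolynomial.eval (s ∘ d) w) ^ 2 * (a ⬝ᵥ A.b d) else 0 := by
    have hinj : Function.Injective (fun c : F => c • d) := smul_left_injective F hd
    have himg : Finset.univ.filter (fun v => a ⬝ᵥ v = 0 ∧ a0 ⬝ᵥ v = 0) =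
        Finset.univ.image (fun c : F => c • d) := by
      ext v
      rw [Finset.mem_filter, Finset.mem_image]
      constructor
      · rintro ⟨-, h3, h4⟩
        obtain ⟨c, hc⟩ := L0R_ker h0 h hd h0d had h4 h3
        exact ⟨c, Finset.mem_univ _, hc.symm⟩
      · rintro ⟨c, -, rfl⟩
        rw [dotProduct_smul, dotProduct_smul, had, h0d, smul_zero]
        exact ⟨Finset.mem_univ _, rfl, rfl⟩
    rw [himg, Finset.sum_image fun x _ y _ hxy => hinj hxy]
    by_cases hr : Re A.M d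
    · rw [if_pos hr, ← L0R_mult hq h2 s hw d (a ⬝ᵥ A.b d)]
      refine Finset.sum_congr rfl fun c _ => ?_
      show (if Re A.M (c • d) then _ else _) = _
      by_cases hc : c = 0
      · have h3 : ¬ Re A.M (c • d) := by
          intro h3
          apply h3.1
          rw [hc, zero_smul]
        rw [if_neg h3, if_neg (by simpa using hc)]
      · rw [if_pos hc, if_pos ((star_re A.M hc d).mpr hr), A.equi c hc, dotProduct_smul,
          smul_eq_mul]
    · rw [if_neg hr]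
      refine Finset.sum_eq_zero fun c _ => ?_
      show (if Re A.M (c • d) then _ else _) = _
      rw [if_neg]
      intro h3
      by_cases hc : c = 0
      · apply h3.1
        rw [hc, zero_smul]
      · exact hr ((star_re A.M hc d).mp h3)
  rw [hD, hsplit, hmult, add_assoc, CharTwo.add_self_eq_zero, add_zero]

/-- The correction of w at the missing points outside a0. -/
theorem L0R_corr [CharP F 2] {Q : ℕ} (A : Arc F s) {a0 a : Fin 3 → F}
    {W : (Fin 3 → F) → MvPolynomial (Fin 3) F} {U : (Fin 3 → F) → (Fin 3 → F)}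
    (hW1 : ∀ z ∈ A.M, a0 ⬝ᵥ z ≠ 0 → (W z).IsHomogeneous (Q - 1))
    (hW2 : ∀ z ∈ A.M, a0 ⬝ᵥ z ≠ 0 → MvPolynomial.eval (s ∘ z) (W z) = 1)
    (hW3 : ∀ z ∈ A.M, a0 ⬝ᵥ z ≠ 0 → ∀ m ∈ A.M, m ≠ z → MvPolynomial.eval (s ∘ m) (W z) = 0)
    (hU : ∀ z ∈ A.M, a0 ⬝ᵥ z ≠ 0 → ∀ a, a ⬝ᵥ z = 0 → D A a (W z) = a ⬝ᵥ U z)
    {w : MvPolynomial (Fin 3) F} (hw : w.IsHomogeneous (Q - 1)) :
    ∃ w' : MvPolynomial (Fin 3) F, w'.IsHomogeneous (Q - 1) ∧
      (∀ m ∈ A.M, a ⬝ᵥ m = 0 → a0 ⬝ᵥ m ≠ 0 → MvPolynomial.eval (s ∘ m) w' = 0) ∧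
      (∀ m ∈ A.M, a0 ⬝ᵥ m = 0 → MvPolynomial.eval (s ∘ m) w' = MvPolynomial.eval (s ∘ m) w) ∧
      D A a w' = D A a w + ∑ m ∈ A.M.filter (fun m => a0 ⬝ᵥ m ≠ 0),
        (if a ⬝ᵥ m = 0 then (MvPolynomial.eval (s ∘ m) w) ^ 2 * (a ⬝ᵥ U m) else 0) := by
  have hterm : ∀ m ∈ A.M, ∀ T : Finset (Fin 3 → F), (∀ z ∈ T, z ∈ A.M ∧ a0 ⬝ᵥ z ≠ 0) →
      ∑ z ∈ T, MvPolynomial.eval (s ∘ m) (MvPolynomial.C (MvPolynomial.eval (s ∘ z) w) * W z) =
      if m ∈ T then MvPolynomial.eval (s ∘ m) w else 0 := by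
    intro m hm T hT
    by_cases hmT : m ∈ T
    · rw [if_pos hmT, Finset.sum_eq_single m]
      · rw [map_mul, MvPolynomial.eval_C, hW2 m hm (hT m hmT).2, mul_one]
      · intro z hz hne
        rw [map_mul, hW3 z (hT z hz).1 (hT z hz).2 m hm (fun h => hne h.symm), mul_zero]
      · intro h
        exact absurd hmT h
    · rw [if_neg hmT]
      refine Finset.sum_eq_zero fun z hz => ?_
      rw [map_mul, hW3 z (hT z hz).1 (hT z hz).2 m hm, mul_zero]
      rintro rfl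
      exact hmT hz
  set T := A.M.filter (fun m => a0 ⬝ᵥ m ≠ 0 ∧ a ⬝ᵥ m = 0) with hTdef
  have hT : ∀ z ∈ T, z ∈ A.M ∧ a0 ⬝ᵥ z ≠ 0 := by
    intro z hz
    rw [hTdef, Finset.mem_filter] at hz
    exact ⟨hz.1, hz.2.1⟩
  refine ⟨w + ∑ z ∈ T, MvPolynomial.C (MvPolynomial.eval (s ∘ z) w) * W z, ?_, ?_, ?_, ?_⟩
  · refine hw.add (MvPolynomial.IsHomogeneous.sum _ _ _ fun z hz => ?_)
    have h := (MvPolynomial.isHomogeneous_C (Fin 3) (MvPolynomial.eval (s ∘ z) w)).mul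
      (hW1 z (hT z hz).1 (hT z hz).2)
    rwa [zero_add] at h
  · intro m hm h1 h3
    have hmT : m ∈ T := by
      rw [hTdef, Finset.mem_filter]
      exact ⟨hm, h3, h1⟩
    rw [map_add, map_sum, hterm m hm T hT, if_pos hmT, CharTwo.add_self_eq_zero]
  · intro m hm h3
    have hmT : m ∉ T := fun h => (hT m h).2 h3
    rw [map_add, map_sum, hterm m hm T hT, if_neg hmT, add_zero]
  · rw [D_add, D_sum]
    congr 1
    rw [← Finset.sum_filter, Finset.filter_filter]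
    refine Finset.sum_congr rfl fun z hz => ?_
    rw [D_smul, hU z (hT z hz).1 (hT z hz).2 a]
    exact (Finset.mem_filter.mp hz).2.2

/-- a0: a line with more than Q missing points. bx = b on the real vectors, bx (c z) = s c u_z on the missing
points z outside a0 (exists_wu: w_z, u_z). For a line a ≠ a0 which meets a0 in (the class of) d:
(1) d real: for every form w of degree Q - 1 the form w + Sum over missing z on a of w(s z) w_z vanishes at all
missing points of a (they are not on a0), so by star D A a w = Sum of w(s z)^2 (a ⬝ᵥ u_z); subtract the sum over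
the multiples of d, which is w(s d)^2 (a ⬝ᵥ b d): ν = a ⬝ᵥ b d.
(2) d = c m, m ∈ M: let w1 be a form of degree Q - 1 with w1 (s m) = 1, w1 (s z) = 0 for the missing z not on a0
(exists_vanish, there are at most Q - 3 of them); w + w(s m) w1 + Sum over missing z on a, z ≠ m, of w(s z) w_z
vanishes at all missing points of a, so D A a w = w(s m)^2 D A a w1 + Sum of w(s z)^2 (a ⬝ᵥ u_z).
In both cases the sum over the vectors v = c z, c ≠ 0, of w(s v)^2 (a ⬝ᵥ bx v) is w(s z)^2 (a ⬝ᵥ u_z)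
(s(c)^(2(Q-1)+1) = 1 and q - 1 = 1 in F; char 2). -/
theorem exists_bx [CharP F 2] {Q : ℕ} (hq : Fintype.card F = 2 * Q) (h2 : 2 ≤ Q) (A : Arc F s)
    {a0 : Fin 3 → F} (h0 : a0 ≠ 0) (hmu : Q < mu A.M a0) :
    ∃ bx : (Fin 3 → F) → (Fin 3 → F), (∀ c : F, c ≠ 0 → ∀ v, bx (c • v) = s c • bx v) ∧
      (∀ v, Re A.M v → bx v = A.b v) ∧
      ∀ a d : Fin 3 → F, (∀ c : F, a ≠ c • a0) → d ≠ 0 → a ⬝ᵥ d = 0 → a0 ⬝ᵥ d = 0 →
        ∃ ν : F, (Re A.M d → ν = a ⬝ᵥ A.b d) ∧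
          ∀ w : MvPolynomial (Fin 3) F, w.IsHomogeneous (Q - 1) →
            ∑ v ∈ Finset.univ.filter (fun v => a ⬝ᵥ v = 0 ∧ a0 ⬝ᵥ v ≠ 0),
              (MvPolynomial.eval (s ∘ v) w) ^ 2 * (a ⬝ᵥ bx v) =
            (MvPolynomial.eval (s ∘ d) w) ^ 2 * ν := by
  have hwu : ∀ z : Fin 3 → F, ∃ (w : MvPolynomial (Fin 3) F) (u : Fin 3 → F), z ∈ A.M →
      a0 ⬝ᵥ z ≠ 0 → (w.IsHomogeneous (Q - 1) ∧
      MvPolynomial.eval (s ∘ z) w = 1 ∧ (∀ m ∈ A.M, m ≠ z → MvPolynomial.eval (s ∘ m) w = 0) ∧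
      ∀ a, a ⬝ᵥ z = 0 → D A a w = a ⬝ᵥ u) := by
    intro z
    by_cases hz : z ∈ A.M ∧ a0 ⬝ᵥ z ≠ 0
    · obtain ⟨w, u, h⟩ := exists_wu hq h2 A hz.1 fun a ha haz => by
        refine mu_le_of_large hq A h0 hmu ha fun c hc => ?_
        rw [hc, smul_dotProduct, smul_eq_mul] at haz
        have hc0 : c = 0 := (mul_eq_zero.mp haz).resolve_right hz.2
        rw [hc0, zero_smul] at hc
        exact ha hc
      exact ⟨w, u, fun _ _ => h⟩
    · exact ⟨0, 0, fun h1 h3 => absurd ⟨h1, h3⟩ hz⟩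
  choose W U hWU using hwu
  refine ⟨L0R_bx A (A.M.filter fun m => a0 ⬝ᵥ m ≠ 0) U, fun c hc v => L0R_bx_smul A _ U hc v,
    fun v hv => L0R_bx_re A (Finset.filter_subset _ _) U hv, ?_⟩
  intro a d hind hd had h0d
  -- the sum
  have hsum : ∀ w : MvPolynomial (Fin 3) F, w.IsHomogeneous (Q - 1) →
      ∃ w' : MvPolynomial (Fin 3) F, w'.IsHomogeneous (Q - 1) ∧
      (∀ m ∈ A.M, a ⬝ᵥ m = 0 → a0 ⬝ᵥ m ≠ 0 → MvPolynomial.eval (s ∘ m) w' = 0) ∧
      (∀ m ∈ A.M, a0 ⬝ᵥ m = 0 → MvPolynomial.eval (s ∘ m) w' = MvPolynomial.eval (s ∘ m) w) ∧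
      ∑ v ∈ Finset.univ.filter (fun v => a ⬝ᵥ v = 0 ∧ a0 ⬝ᵥ v ≠ 0),
        (MvPolynomial.eval (s ∘ v) w) ^ 2 *
          (a ⬝ᵥ L0R_bx A (A.M.filter fun m => a0 ⬝ᵥ m ≠ 0) U v) =
      D A a w' + if Re A.M d then (MvPolynomial.eval (s ∘ d) w) ^ 2 * (a ⬝ᵥ A.b d) else 0 := by
    intro w hw
    obtain ⟨w', h1, h3, h4, h5⟩ := L0R_corr (Q := Q) (a := a) A
      (fun z hz hz' => (hWU z hz hz').1) (fun z hz hz' => (hWU z hz hz').2.1)
      (fun z hz hz' => (hWU z hz hz').2.2.1) (fun z hz hz' => (hWU z hz hz').2.2.2) hw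
    refine ⟨w', h1, h3, h4, ?_⟩
    have h6 : ∀ v : Fin 3 → F, (MvPolynomial.eval (s ∘ v) w) ^ 2 *
        (a ⬝ᵥ L0R_bx A (A.M.filter fun m => a0 ⬝ᵥ m ≠ 0) U v) =
        (MvPolynomial.eval (s ∘ v) w) ^ 2 * (a ⬝ᵥ (if Re A.M v then A.b v else 0)) +
        ∑ m ∈ A.M.filter (fun m => a0 ⬝ᵥ m ≠ 0), (MvPolynomial.eval (s ∘ v) w) ^ 2 *
          (a ⬝ᵥ (∑ c : F, if v = c • m then s c • U m else 0)) := by
      intro v
      unfold L0R_bx
      rw [dotProduct_add, mul_add, dotProduct_sum, Finset.mul_sum]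
    rw [Finset.sum_congr rfl fun v _ => h6 v, Finset.sum_add_distrib, Finset.sum_comm,
      L0R_D hq h2 A h0 hind hd had h0d hw, h5]
    rw [Finset.sum_congr rfl fun m hm => L0R_part hq h2 s hw a a0 m (U m)
      (Finset.mem_filter.mp hm).2]
    ring
  by_cases hr : Re A.M d
  · refine ⟨a ⬝ᵥ A.b d, fun _ => rfl, fun w hw => ?_⟩
    obtain ⟨w', h1, h3, h4, h5⟩ := hsum w hw
    rw [h5, if_pos hr, star hq h2 A a h1, zero_add]
    intro m hm ham
    refine h3 m hm ham fun h0m => ?_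
    obtain ⟨c, hc⟩ := L0R_ker h0 hind (A.ne m hm) h0m ham h0d had
    exact hr.2 m hm c hc
  · have hr' : ∃ m ∈ A.M, ∃ c : F, d = c • m := by
      by_contra hne
      push Not at hne
      exact hr ⟨hd, hne⟩
    obtain ⟨m0, hm0, c, hc⟩ := hr'
    have hc0 : c ≠ 0 := by
      rintro rfl
      rw [zero_smul] at hc
      exact hd hc
    have ham0 : a ⬝ᵥ m0 = 0 := by
      rw [hc, dotProduct_smul, smul_eq_mul] at had
      exact (mul_eq_zero.mp had).resolve_left hc0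
    have h0m0 : a0 ⬝ᵥ m0 = 0 := by
      rw [hc, dotProduct_smul, smul_eq_mul] at h0d
      exact (mul_eq_zero.mp h0d).resolve_left hc0
    have hsne : ∀ v : Fin 3 → F, v ≠ 0 → s ∘ v ≠ 0 := by
      intro v hv h
      apply hv
      ext i
      have := congrFun h i
      simpa using this
    -- the form w1
    obtain ⟨w1, hw1, hw11, hw10⟩ := exists_vanish
      ((A.M.filter fun m => a0 ⬝ᵥ m ≠ 0).image (fun m => s ∘ m)) (k := Q - 1)
      (by
        have h3 := Finset.card_image_le (s := A.M.filter fun m => a0 ⬝ᵥ m ≠ 0)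
          (f := fun m => (s ∘ m : Fin 3 → F))
        have h4 := Finset.card_filter_add_card_filter_not (s := A.M) (fun m => a0 ⬝ᵥ m = 0)
        have h5 := A.card
        unfold mu at hmu
        have h6 : (A.M.filter fun m => ¬ a0 ⬝ᵥ m = 0).card =
          (A.M.filter fun m => a0 ⬝ᵥ m ≠ 0).card := rfl
        omega)
      (hsne m0 (A.ne m0 hm0))
      (by
        intro z hz
        obtain ⟨m, hm, rfl⟩ := Finset.mem_image.mp hz
        rw [Finset.mem_filter] at hm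
        refine ⟨hsne m (A.ne m hm.1), fun e he => ?_⟩
        have h3 : m0 = s.symm e • m := by
          ext i
          have := congrFun he i
          rw [Function.comp_apply, Pi.smul_apply, smul_eq_mul, Function.comp_apply] at this
          rw [Pi.smul_apply, smul_eq_mul, ← s.symm_apply_apply (m0 i), this, map_mul,
            s.symm_apply_apply]
        have h4 := h0m0
        rw [h3, dotProduct_smul, smul_eq_mul] at h4
        have h5 : s.symm e = 0 := (mul_eq_zero.mp h4).resolve_right hm.2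
        rw [h5, zero_smul] at h3
        exact A.ne m0 hm0 h3)
    refine ⟨s c * D A a w1, fun h => absurd h hr, fun w hw => ?_⟩
    obtain ⟨w', h1, h3, h4, h5⟩ := hsum w hw
    rw [h5, if_neg hr, add_zero]
    have h6 : D A a (w' + MvPolynomial.C (MvPolynomial.eval (s ∘ m0) w) * w1) = 0 := by
      refine star hq h2 A a ?_ ?_
      · have h := (MvPolynomial.isHomogeneous_C (Fin 3) (MvPolynomial.eval (s ∘ m0) w)).mul hw1
        rw [zero_add] at h
        exact h1.add h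
      · intro m hm ham
        rw [map_add, map_mul, MvPolynomial.eval_C]
        by_cases h0m : a0 ⬝ᵥ m = 0
        · obtain ⟨e, he⟩ := L0R_ker h0 hind (A.ne m0 hm0) h0m0 ham0 h0m ham
          have h7 : m = m0 := A.ind m0 hm0 m hm e he
          rw [h7, h4 m0 hm0 h0m0, hw11, mul_one, CharTwo.add_self_eq_zero]
        · rw [h3 m hm ham h0m, hw10 _ (Finset.mem_image_of_mem _
            (Finset.mem_filter.mpr ⟨hm, h0m⟩)), mul_zero, add_zero]
    rw [D_add, D_smul] at h6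
    have h7 : D A a w' = (MvPolynomial.eval (s ∘ m0) w) ^ 2 * D A a w1 :=
      CharTwo.add_eq_zero.mp h6
    rw [h7, hc, L0R_eval s hw]
    calc (MvPolynomial.eval (s ∘ m0) w) ^ 2 * D A a w1 =
        1 * ((MvPolynomial.eval (s ∘ m0) w) ^ 2 * D A a w1) := by rw [one_mul]
      _ = ((s c ^ (Q - 1)) ^ 2 * s c) * ((MvPolynomial.eval (s ∘ m0) w) ^ 2 * D A a w1) := by
        rw [L0R_pow hq h2 s hc0]
      _ = _ := by ring

end Pool.Agent.Lib.MP_4dc748_co.TA
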