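import Pool.Agent.Lib.MP_4dc748_co.TA.CW

/-!
# Coordinates on a line
-/

set_option autoImplicit false

open scoped Classical

namespace Pool.Agent.Lib.MP_4dc748_co.TA

variable {F : Type} [Field F] [Fintype F] {s : F ≃+* F}

/-- e, e0 is a basis of the plane of all v with a ⬝ᵥ v = 0. -/
structure LC (a e e0 : Fin 3 → F) : Prop where
  ha : a ≠ 0
  he : a ⬝ᵥ e = 0
  he0 : a ⬝ᵥ e0 = 0
  ind : ∀ c d : F, c • e + d • e0 = 0 → c = 0 ∧ d = 0

/-- The linear form of the vector a. -/
def lineA_form (a : Fin 3 → F) : (Fin 3 → F) →ₗ[F] F where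
  toFun := fun v => a ⬝ᵥ v
  map_add' := fun v w => dotProduct_add a v w
  map_smul' := fun c v => by rw [dotProduct_smul, RingHom.id_apply]

/-- Every nonzero vector e of the plane is the first vector of a basis. -/
theorem LC.exists_of {a e : Fin 3 → F} (ha : a ≠ 0) (he : a ⬝ᵥ e = 0) (h : e ≠ 0) :
    ∃ e0, LC a e e0 := by
  have h1 : ¬ LinearMap.ker (lineA_form a) ≤ Submodule.span F {e} := by
    intro hle
    have h2 := Submodule.finrank_mono hle
    rw [finrank_span_singleton h] at h2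
    have h3 := LinearMap.finrank_range_add_finrank_ker (lineA_form a)
    rw [Module.finrank_fin_fun] at h3
    have h4 := Submodule.finrank_le (LinearMap.range (lineA_form a))
    rw [Module.finrank_self] at h4
    omega
  obtain ⟨e0, h2, h3⟩ := SetLike.not_le_iff_exists.1 h1
  refine ⟨e0, ha, he, LinearMap.mem_ker.1 h2, ?_⟩
  intro c d hcd
  have hd : d = 0 := by
    by_contra hd
    apply h3
    rw [Submodule.mem_span_singleton]
    refine ⟨-(d⁻¹ * c), ?_⟩
    have h4 : d⁻¹ • (c • e + d • e0) = 0 := by rw [hcd, smul_zero]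
    rw [smul_add, smul_smul, smul_smul, inv_mul_cancel₀ hd, one_smul] at h4
    rw [neg_smul]
    exact neg_eq_of_add_eq_zero_right h4
  rw [hd, zero_smul, add_zero] at hcd
  exact ⟨(smul_eq_zero.1 hcd).resolve_right h, hd⟩

/-- The coordinates. -/
theorem LC.repr {a e e0 : Fin 3 → F} (h : LC a e e0) {v : Fin 3 → F} (hv : a ⬝ᵥ v = 0) :
    ∃ c d : F, v = c • e + d • e0 := by
  have h1 : (Matrix.of ![e, e0, v]).det = 0 := by
    apply Matrix.exists_mulVec_eq_zero_iff.1
    refine ⟨a, h.ha, ?_⟩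
    funext i
    fin_cases i
    · exact (dotProduct_comm _ _).trans h.he
    · exact (dotProduct_comm _ _).trans h.he0
    · exact (dotProduct_comm _ _).trans hv
  obtain ⟨w, hw0, hw⟩ := Matrix.exists_vecMul_eq_zero_iff.2 h1
  have h2 : w 0 • e + w 1 • e0 + w 2 • v = 0 := by
    funext j
    have h3 := congrFun hw j
    rw [Matrix.vecMul, dotProduct, Fin.sum_univ_three] at h3
    simpa using h3
  have h4 : w 2 ≠ 0 := by
    intro h5
    rw [h5, zero_smul, add_zero] at h2
    obtain ⟨h6, h7⟩ := h.ind _ _ h2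
    apply hw0
    funext i
    fin_cases i
    · exact h6
    · exact h7
    · exact h5
  refine ⟨-((w 2)⁻¹ * w 0), -((w 2)⁻¹ * w 1), ?_⟩
  have h5 : (w 2)⁻¹ • (w 0 • e + w 1 • e0 + w 2 • v) = 0 := by rw [h2, smul_zero]
  rw [smul_add, smul_add, smul_smul, smul_smul, smul_smul, inv_mul_cancel₀ h4, one_smul] at h5
  rw [neg_smul, neg_smul, ← neg_add]
  exact (neg_eq_of_add_eq_zero_right h5).symm

/-- The number of nonzero elements is 1 in F. -/
theorem lineA_card [CharP F 2] : (((Finset.univ : Finset F).erase 0).card : F) = 1 := by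
  rw [Finset.card_erase_of_mem (Finset.mem_univ _), Finset.card_univ]
  have h1 : (Fintype.card F : F) = 0 := FiniteField.cast_card_eq_zero F
  have h2 : 0 < Fintype.card F := Fintype.card_pos
  rw [Nat.cast_sub h2, h1, zero_sub, Nat.cast_one, CharTwo.neg_eq]

/-- Sums of functions which are constant on the classes: (q - 1) = 1 in F. -/
theorem LC.sum [CharP F 2] {a e e0 : Fin 3 → F} (h : LC a e e0) (s : F ≃+* F)
    (g : (Fin 3 → F) → F)
    (hg : ∀ c : F, c ≠ 0 → ∀ v, a ⬝ᵥ v = 0 → g (c • v) = g v) :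
    ∑ v ∈ Finset.univ.filter (fun v => a ⬝ᵥ v = 0 ∧ v ≠ 0), g v =
      g e + ∑ x : F, g (e0 + s.symm x • e) := by
  have h1 : ∑ v ∈ Finset.univ.filter (fun v => a ⬝ᵥ v = 0 ∧ v ≠ 0), g v
      = ∑ p : F × F, (if p.1 • e + p.2 • e0 = 0 then 0 else g (p.1 • e + p.2 • e0)) := by
    have h2 : ∑ v ∈ Finset.univ.filter (fun v => a ⬝ᵥ v = 0 ∧ v ≠ 0), g v
        = ∑ v ∈ Finset.univ.filter (fun v => a ⬝ᵥ v = 0), (if v = 0 then 0 else g v) := by
      rw [← Finset.filter_filter, Finset.sum_filter _ (fun v => g v)]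
      refine Finset.sum_congr rfl fun v _ => ?_
      by_cases hv : v = 0
      · simp [hv]
      · simp [hv]
    rw [h2]
    symm
    refine Finset.sum_nbij (fun p : F × F => p.1 • e + p.2 • e0) ?_ ?_ ?_ ?_
    · intro p _
      rw [Finset.mem_filter]
      refine ⟨Finset.mem_univ _, ?_⟩
      rw [dotProduct_add, dotProduct_smul, dotProduct_smul, h.he, h.he0, smul_zero, smul_zero,
        add_zero]
    · intro p _ p' _ hp
      simp only at hp
      have h3 : (p.1 - p'.1) • e + (p.2 - p'.2) • e0 = 0 := by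
        rw [sub_smul, sub_smul]
        have h4 := sub_eq_zero.2 hp
        rw [← h4]
        abel
      obtain ⟨h5, h6⟩ := h.ind _ _ h3
      exact Prod.ext (sub_eq_zero.1 h5) (sub_eq_zero.1 h6)
    · intro v hv
      rw [Finset.mem_coe, Finset.mem_filter] at hv
      obtain ⟨c, d, hcd⟩ := h.repr hv.2
      exact ⟨(c, d), Finset.mem_coe.2 (Finset.mem_univ _), hcd.symm⟩
    · intro p _
      rfl
  rw [h1, Fintype.sum_prod_type, Finset.sum_comm]
  rw [← Finset.add_sum_erase _ _ (Finset.mem_univ (0 : F))]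
  congr 1
  · rw [← Finset.add_sum_erase _ _ (Finset.mem_univ (0 : F))]
    have he : e ≠ 0 := by
      intro h0
      have := h.ind 1 0 (by rw [h0]; simp)
      exact one_ne_zero this.1
    have h2 : ∀ c ∈ (Finset.univ : Finset F).erase 0,
        (if c • e + (0 : F) • e0 = 0 then 0 else g (c • e + (0 : F) • e0)) = g e := by
      intro c hc
      have hc0 := (Finset.mem_erase.1 hc).1
      rw [zero_smul, add_zero, if_neg (smul_ne_zero hc0 he), hg c hc0 e h.he]
    have h3 : (if (0 : F) • e + (0 : F) • e0 = 0 then 0 else g ((0 : F) • e + (0 : F) • e0))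
        = 0 := by
      rw [zero_smul, zero_smul, add_zero, if_pos rfl]
    refine (congrArg₂ (· + ·) h3 (Finset.sum_congr rfl h2)).trans ?_
    simp only [Finset.sum_const, nsmul_eq_mul, lineA_card, one_mul, zero_add]
  · have h2 : ∀ d ∈ (Finset.univ : Finset F).erase 0,
        (∑ c : F, (if c • e + d • e0 = 0 then 0 else g (c • e + d • e0)))
          = ∑ x : F, g (e0 + s.symm x • e) := by
      intro d hd
      have hd0 := (Finset.mem_erase.1 hd).1
      symm
      refine Fintype.sum_bijective (fun x : F => d * s.symm x)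
        ((mulLeft_bijective₀ d hd0).comp s.symm.bijective) _ _ ?_
      intro x
      have h3 : (d * s.symm x) • e + d • e0 = d • (e0 + s.symm x • e) := by
        rw [smul_add, smul_smul, add_comm]
      have h4 : a ⬝ᵥ (e0 + s.symm x • e) = 0 := by
        rw [dotProduct_add, dotProduct_smul, h.he, h.he0, smul_zero, add_zero]
      have h5 : d • (e0 + s.symm x • e) ≠ 0 := by
        rw [← h3]
        intro h6
        exact hd0 (h.ind _ _ h6).2
      rw [h3, if_neg h5, hg d hd0 _ h4]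
    rw [Finset.sum_congr rfl h2, Finset.sum_const, nsmul_eq_mul, lineA_card, one_mul]

/-- The pairs (c ⬝ᵥ s e0, c ⬝ᵥ s e) are arbitrary. -/
theorem LC.surj {a e e0 : Fin 3 → F} (h : LC a e e0) (s : F ≃+* F) (B C : F) :
    ∃ c : Fin 3 → F, c ⬝ᵥ (s ∘ e0) = B ∧ c ⬝ᵥ (s ∘ e) = C := by
  let T : (Fin 3 → F) →ₗ[F] F × F :=
    (lineA_form (s ∘ e0)).prod (lineA_form (s ∘ e))
  have hT : LinearMap.range T = ⊤ := by
    by_contra hne
    obtain ⟨f, hf0, hf⟩ := Submodule.exists_le_ker_of_lt_top _ (lt_top_iff_ne_top.2 hne)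
    have h1 : ∀ u w : F, f (u, w) = u * f (1, 0) + w * f (0, 1) := by
      intro u w
      have h2 : ((u, w) : F × F) = u • ((1 : F), (0 : F)) + w • ((0 : F), (1 : F)) := by
        ext <;> simp
      rw [h2, map_add, map_smul, map_smul, smul_eq_mul, smul_eq_mul]
    have h2 : ∀ i, (s ∘ e0) i * f (1, 0) + (s ∘ e) i * f (0, 1) = 0 := by
      intro i
      have h3 : T (Pi.single i 1) ∈ LinearMap.ker f := hf ⟨_, rfl⟩
      have h4 : T (Pi.single i 1) = ((s ∘ e0) i, (s ∘ e) i) := by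
        change (((s ∘ e0) ⬝ᵥ (Pi.single i 1) : F), ((s ∘ e) ⬝ᵥ (Pi.single i 1) : F)) = _
        rw [dotProduct_single, dotProduct_single, mul_one, mul_one]
      rw [LinearMap.mem_ker, h4, h1] at h3
      exact h3
    have h5 : s.symm (f (0, 1)) • e + s.symm (f (1, 0)) • e0 = 0 := by
      funext i
      rw [Pi.add_apply, Pi.smul_apply, Pi.smul_apply, smul_eq_mul, smul_eq_mul, Pi.zero_apply]
      apply s.injective
      have h10 := h2 i
      rw [Function.comp_apply, Function.comp_apply] at h10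
      rw [map_add, map_mul, map_mul, RingEquiv.apply_symm_apply, RingEquiv.apply_symm_apply,
        map_zero]
      linear_combination h10
    obtain ⟨h6, h7⟩ := h.ind _ _ h5
    apply hf0
    have h8 : f (0, 1) = 0 := by
      have := congrArg s h6
      rwa [RingEquiv.apply_symm_apply, map_zero] at this
    have h9 : f (1, 0) = 0 := by
      have := congrArg s h7
      rwa [RingEquiv.apply_symm_apply, map_zero] at this
    apply LinearMap.ext
    rintro ⟨u, w⟩
    rw [h1, h8, h9, mul_zero, mul_zero, add_zero, LinearMap.zero_apply]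
  obtain ⟨c, hc⟩ := LinearMap.range_eq_top.1 hT (B, C)
  refine ⟨c, ?_, ?_⟩
  · rw [dotProduct_comm]
    exact congrArg Prod.fst hc
  · rw [dotProduct_comm]
    exact congrArg Prod.snd hc

theorem LC.dot_s {a e e0 : Fin 3 → F} (_h : LC a e e0) (s : F ≃+* F) (c : Fin 3 → F) (x : F) :
    c ⬝ᵥ (s ∘ (e0 + s.symm x • e)) = c ⬝ᵥ (s ∘ e0) + x * (c ⬝ᵥ (s ∘ e)) := by
  have h1 : s ∘ (e0 + s.symm x • e) = s ∘ e0 + x • (s ∘ e) := by
    funext i
    rw [Function.comp_apply, Pi.add_apply, Pi.smul_apply, smul_eq_mul, map_add, map_mul,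
      RingEquiv.apply_symm_apply]
    rfl
  rw [h1, dotProduct_add, dotProduct_smul, smul_eq_mul]

/-- Scaling of the dot product with s v. -/
theorem lineA_dot_smul (s : F ≃+* F) (c v : Fin 3 → F) (r : F) :
    c ⬝ᵥ (s ∘ (r • v)) = s r * (c ⬝ᵥ (s ∘ v)) := by
  have h1 : s ∘ (r • v) = s r • (s ∘ v) := by
    funext i
    rw [Function.comp_apply, Pi.smul_apply, smul_eq_mul, map_mul]
    rfl
  rw [h1, dotProduct_smul, smul_eq_mul]

/-- The (q-1)st power of s r is 1. -/
theorem lineA_pow (s : F ≃+* F) {r : F} (hr : r ≠ 0) : (s r) ^ (Fintype.card F - 1) = 1 :=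
  FiniteField.pow_card_sub_one_eq_one _ ((map_ne_zero s).2 hr)

/-- Nf in coordinates: LC.sum and LC.dot_s. -/
theorem LC.Nf_eq [CharP F 2] {a e e0 : Fin 3 → F} (h : LC a e e0) (s : F ≃+* F)
    {b : (Fin 3 → F) → (Fin 3 → F)} (hb : ∀ c : F, c ≠ 0 → ∀ v, b (c • v) = s c • b v)
    (c : Fin 3 → F) :
    Nf s b a c = N2 (fun x => a ⬝ᵥ b (e0 + s.symm x • e)) (a ⬝ᵥ b e) (c ⬝ᵥ (s ∘ e0))
      (c ⬝ᵥ (s ∘ e)) := by
  rw [Nf, N2, h.sum s]
  · congr 1
    refine Finset.sum_congr rfl fun x _ => ?_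
    rw [h.dot_s]
  · intro r hr v _
    rw [hb r hr, lineA_dot_smul, dotProduct_smul, smul_eq_mul, ← mul_add, mul_pow,
      lineA_pow s hr, one_mul]

/-- Cf in coordinates. For c = 0 the function v ↦ (..)^k (..)^(q-1-k) is constant on the classes because
k + (q - 1 - k) = q - 1. -/
theorem LC.Cf_eq [CharP F 2] {a e e0 : Fin 3 → F} (h : LC a e e0) (s : F ≃+* F)
    {b : (Fin 3 → F) → (Fin 3 → F)} (hb : ∀ c : F, c ≠ 0 → ∀ v, b (c • v) = s c • b v)
    {k : ℕ} (hk : k ≤ Fintype.card F - 1) (c : Fin 3 → F) :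
    Cf s k b a c = C2 k (fun x => a ⬝ᵥ b (e0 + s.symm x • e)) (a ⬝ᵥ b e) (c ⬝ᵥ (s ∘ e0))
      (c ⬝ᵥ (s ∘ e)) := by
  rw [Cf, C2, h.sum s]
  · congr 1
    refine Finset.sum_congr rfl fun x _ => ?_
    rw [h.dot_s]
  · intro r hr v _
    rw [hb r hr, lineA_dot_smul, dotProduct_smul, smul_eq_mul, mul_pow, mul_pow]
    have h1 : (s r) ^ k * (s r) ^ (Fintype.card F - 1 - k) = 1 := by
      rw [← pow_add, Nat.add_sub_cancel' hk]
      exact lineA_pow s hr
    linear_combination ((a ⬝ᵥ b v) ^ k * (c ⬝ᵥ (s ∘ v)) ^ (Fintype.card F - 1 - k)) * h1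

/-- The coordinates of the real points of a line. -/
noncomputable def LX (s : F ≃+* F) (M : Finset (Fin 3 → F)) (e e0 : Fin 3 → F) : Finset F :=
  Finset.univ.filter (fun x : F => Re M (e0 + s.symm x • e))

end Pool.Agent.Lib.MP_4dc748_co.TA
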