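import Pool.Agent.Lib.MP_4dc748_co.TA.LineA

/-!
# The arc condition on a line, in coordinates
-/

set_option autoImplicit false

open scoped Classical

namespace Pool.Agent.Lib.MP_4dc748_co.TA

variable {F : Type} [Field F] [Fintype F] {s : F ≃+* F}

/-- The arc condition in coordinates. First part: e0 + y' e = (e0 + x' e) + (x' + y') e (char 2), x' = s⁻¹ x.
Second part: for x, y, z the vector e0 + z' e is c (e0 + x' e) + d (e0 + y' e) with c = (z' + y') / (x' + y'),
d = (x' + z') / (x' + y'). -/
theorem LC.larc [CharP F 2] (A : Arc F s) {a e e0 : Fin 3 → F} (h : LC a e e0)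
    (hr : Re A.M e) :
    LArc (LX s A.M e e0) (fun x => a ⬝ᵥ A.b (e0 + s.symm x • e)) (a ⬝ᵥ A.b e) := by
  have two : ∀ t : F, t + t = 0 := fun t => CharTwo.add_self_eq_zero t
  have hu : ∀ x : F, a ⬝ᵥ (e0 + s.symm x • e) = 0 := by
    intro x
    rw [dotProduct_add, dotProduct_smul, h.he, h.he0, smul_zero, add_zero]
  have hne : ∀ x y : F, x ≠ y → s.symm x + s.symm y ≠ 0 := by
    intro x y hxy h0
    apply hxy
    apply s.symm.injective
    rw [← sub_eq_zero, CharTwo.sub_eq_add]
    exact h0
  have hs : ∀ x y : F, s (s.symm x + s.symm y) = x + y := by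
    intro x y
    rw [map_add, s.apply_symm_apply, s.apply_symm_apply]
  have hmem : ∀ x ∈ LX s A.M e e0, Re A.M (e0 + s.symm x • e) := by
    intro x hx
    exact (Finset.mem_filter.1 hx).2
  refine ⟨?_, ?_⟩
  · intro x hx y hy hxy hcon
    have h1 : (1 : F) • (e0 + s.symm x • e) + (s.symm x + s.symm y) • e = e0 + s.symm y • e := by
      rw [one_smul, add_assoc, ← add_smul, ← add_assoc, two, zero_add]
    have h2 := A.arc a (e0 + s.symm x • e) e 1 (s.symm x + s.symm y) h.ha (hu x) h.he
      (hmem x hx) hr ?_ one_ne_zero (hne x y hxy) ?_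
    · apply h2
      rw [h1, map_one, one_mul, hs]
      have h3 : a ⬝ᵥ A.b (e0 + s.symm x • e) + (a ⬝ᵥ A.b (e0 + s.symm x • e) +
          a ⬝ᵥ A.b (e0 + s.symm y • e)) = a ⬝ᵥ A.b (e0 + s.symm y • e) := by
        rw [← add_assoc, two, zero_add]
      rw [← h3]
      congr 1
    · intro k hk
      have h3 : (1 - k * s.symm x) • e + (-k) • e0 = 0 := by
        have : (1 - k * s.symm x) • e + (-k) • e0 = e - k • (e0 + s.symm x • e) := by
          rw [sub_smul, one_smul, smul_add, neg_smul, smul_smul]
          abel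
        rw [this, ← hk, sub_self]
      obtain ⟨h4, h5⟩ := h.ind _ _ h3
      rw [neg_eq_zero] at h5
      rw [h5, zero_mul, sub_zero] at h4
      exact one_ne_zero h4
    · rw [h1]
      exact hmem y hy
  · intro x hx y hy z hz hxy hxz hyz hcon
    have hd := hne x y hxy
    set x' := s.symm x with hx'
    set y' := s.symm y with hy'
    set z' := s.symm z with hz'
    have h1 : ((z' + y') / (x' + y')) • (e0 + x' • e) + ((x' + z') / (x' + y')) • (e0 + y' • e) =
        e0 + z' • e := by
      have e1 : (z' + y') / (x' + y') + (x' + z') / (x' + y') = 1 := by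
        rw [← add_div, div_eq_one_iff_eq hd]
        linear_combination two z'
      have e2 : (z' + y') / (x' + y') * x' + (x' + z') / (x' + y') * y' = z' := by
        field_simp
        linear_combination two (x' * y')
      calc ((z' + y') / (x' + y')) • (e0 + x' • e) + ((x' + z') / (x' + y')) • (e0 + y' • e)
          = ((z' + y') / (x' + y') + (x' + z') / (x' + y')) • e0 +
            ((z' + y') / (x' + y') * x' + (x' + z') / (x' + y') * y') • e := by
            rw [smul_add, smul_add, smul_smul, smul_smul, add_smul, add_smul]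
            abel
        _ = e0 + z' • e := by rw [e1, e2, one_smul]
    have h2 := A.arc a (e0 + x' • e) (e0 + y' • e) ((z' + y') / (x' + y')) ((x' + z') / (x' + y'))
      h.ha (hu x) (hu y) (hmem x hx) (hmem y hy) ?_ (div_ne_zero (hne z y hyz.symm) hd)
      (div_ne_zero (hne x z hxz) hd) ?_
    · apply h2
      have hxy0 : x + y ≠ 0 := by
        intro h0
        apply hxy
        rw [← sub_eq_zero, CharTwo.sub_eq_add]
        exact h0
      rw [h1, map_div₀, map_div₀, hx', hy', hz', hs, hs, hs, ← hx', ← hy', ← hz']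
      set fx := a ⬝ᵥ A.b (e0 + x' • e) with hfx
      set fy := a ⬝ᵥ A.b (e0 + y' • e) with hfy
      set fz := a ⬝ᵥ A.b (e0 + z' • e) with hfz
      have hcon' : (fx + fy) * (x + z) = (fx + fz) * (x + y) := hcon
      rw [div_mul_eq_mul_div, div_mul_eq_mul_div, ← add_div, eq_div_iff hxy0]
      linear_combination -hcon' - two (fx * y)
    · intro k hk
      have h3 : (y' - k * x') • e + (1 - k) • e0 = 0 := by
        have : (y' - k * x') • e + (1 - k) • e0 = (e0 + y' • e) - k • (e0 + x' • e) := by
          rw [sub_smul, sub_smul, one_smul, smul_add, smul_smul]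
          abel
        rw [this, ← hk, sub_self]
      obtain ⟨h4, h5⟩ := h.ind _ _ h3
      have h6 : k = 1 := (sub_eq_zero.1 h5).symm
      rw [h6, one_mul] at h4
      apply hd
      rw [sub_eq_zero.1 h4]
      exact two _
    · rw [h1]
      exact hmem z hz

/-- The number of missing points of a line. -/
theorem LC.card_compl (A : Arc F s) {a e e0 : Fin 3 → F} (h : LC a e e0) (hr : Re A.M e) :
    (Finset.univ \ LX s A.M e e0).card = mu A.M a := by
  classical
  have hu : ∀ x : F, a ⬝ᵥ (e0 + s.symm x • e) = 0 := by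
    intro x
    rw [dotProduct_add, dotProduct_smul, h.he, h.he0, smul_zero, add_zero]
  have hne : ∀ x : F, e0 + s.symm x • e ≠ 0 := by
    intro x h0
    have h1 : (s.symm x) • e + (1 : F) • e0 = 0 := by rw [one_smul, add_comm]; exact h0
    exact one_ne_zero (h.ind _ _ h1).2
  have hex : ∀ m ∈ A.M.filter (fun m => a ⬝ᵥ m = 0), ∃ x : F, ∃ k : F,
      e0 + s.symm x • e = k • m := by
    intro m hm
    rw [Finset.mem_filter] at hm
    obtain ⟨c, d, hcd⟩ := h.repr hm.2
    have hd : d ≠ 0 := by
      intro hd
      rw [hd, zero_smul, add_zero] at hcd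
      have hc : c ≠ 0 := by
        intro hc
        rw [hc, zero_smul] at hcd
        exact A.ne m hm.1 hcd
      apply hr.2 m hm.1 c⁻¹
      rw [hcd, smul_smul, inv_mul_cancel₀ hc, one_smul]
    refine ⟨s (d⁻¹ * c), d⁻¹, ?_⟩
    rw [s.symm_apply_apply, hcd, smul_add, smul_smul, smul_smul, inv_mul_cancel₀ hd, one_smul,
      add_comm]
  choose! g hg using hex
  symm
  refine Finset.card_bij (fun m _ => g m) ?_ ?_ ?_
  · intro m hm
    obtain ⟨k, hk⟩ := hg m hm
    rw [Finset.mem_sdiff]
    refine ⟨Finset.mem_univ _, fun hmem => ?_⟩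
    exact (Finset.mem_filter.1 hmem).2.2 m (Finset.mem_filter.1 hm).1 k hk
  · intro m hm m' hm' hmm
    obtain ⟨k, hk⟩ := hg m hm
    obtain ⟨k', hk'⟩ := hg m' hm'
    have hmm' : g m = g m' := hmm
    rw [hmm'] at hk
    have hk'0 : k' ≠ 0 := by
      intro h0
      rw [h0, zero_smul] at hk'
      exact hne _ hk'
    have h1 : m' = (k'⁻¹ * k) • m := by
      rw [mul_smul, ← hk, hk', smul_smul, inv_mul_cancel₀ hk'0, one_smul]
    exact (A.ind m (Finset.mem_filter.1 hm).1 m' (Finset.mem_filter.1 hm').1 _ h1).symm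
  · intro x hx
    rw [Finset.mem_sdiff] at hx
    have hnr : ¬ Re A.M (e0 + s.symm x • e) := fun hre =>
      hx.2 (Finset.mem_filter.2 ⟨Finset.mem_univ _, hre⟩)
    have hm : ∃ m ∈ A.M, ∃ c : F, e0 + s.symm x • e = c • m := by
      by_contra hcon
      push Not at hcon
      exact hnr ⟨hne x, hcon⟩
    obtain ⟨m, hm, c, hc⟩ := hm
    have hc0 : c ≠ 0 := by
      intro h0
      rw [h0, zero_smul] at hc
      exact hne x hc
    have ham : a ⬝ᵥ m = 0 := by
      have h1 := hu x
      rw [hc, dotProduct_smul, smul_eq_mul] at h1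
      exact (mul_eq_zero.1 h1).resolve_left hc0
    have hmf : m ∈ A.M.filter (fun m => a ⬝ᵥ m = 0) := Finset.mem_filter.2 ⟨hm, ham⟩
    refine ⟨m, hmf, ?_⟩
    obtain ⟨k, hk⟩ := hg m hmf
    have h1 : e0 + s.symm (g m) • e = (k * c⁻¹) • (e0 + s.symm x • e) := by
      rw [hc, smul_smul, mul_assoc, inv_mul_cancel₀ hc0, mul_one, hk]
    have h3 : (s.symm (g m) - k * c⁻¹ * s.symm x) • e + (1 - k * c⁻¹) • e0 = 0 := by
      have : (s.symm (g m) - k * c⁻¹ * s.symm x) • e + (1 - k * c⁻¹) • e0 =
          (e0 + s.symm (g m) • e) - (k * c⁻¹) • (e0 + s.symm x • e) := by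
        rw [sub_smul, sub_smul, one_smul, smul_add, smul_smul]
        abel
      rw [this, ← h1, sub_self]
    obtain ⟨h4, h5⟩ := h.ind _ _ h3
    rw [← sub_eq_zero.1 h5, one_mul] at h4
    exact s.symm.injective (sub_eq_zero.1 h4)

/-- Every line has three real points; two of them. The plane of a has q^2 - 1 nonzero vectors, at most
(q - 2) (q - 1) of them are proportional to missing vectors, and 2 (q - 1) > q - 1 remain. -/
theorem exists_real_pair (A : Arc F s) {a : Fin 3 → F} (ha : a ≠ 0) :
    ∃ e e' : Fin 3 → F, a ⬝ᵥ e = 0 ∧ a ⬝ᵥ e' = 0 ∧ Re A.M e ∧ Re A.M e' ∧ ∀ c : F, e' ≠ c • e := by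
  classical
  obtain ⟨u, hu0, hau⟩ : ∃ u : Fin 3 → F, u ≠ 0 ∧ a ⬝ᵥ u = 0 := by
    by_cases h0 : a 0 = 0 ∧ a 1 = 0
    · refine ⟨![1, 0, 0], fun h => ?_, ?_⟩
      · have := congrFun h 0
        simp at this
      · simp [dotProduct, Fin.sum_univ_three, h0.1]
    · refine ⟨![a 1, -a 0, 0], fun h => h0 ⟨?_, ?_⟩, ?_⟩
      · have := congrFun h 1
        simpa using this
      · have := congrFun h 0
        simpa using this
      · simp only [dotProduct, Fin.sum_univ_three, Matrix.cons_val_zero, Matrix.cons_val_one,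
          Matrix.cons_val]
        ring
  obtain ⟨v, hL⟩ := LC.exists_of ha hau hu0
  -- the points of the line
  let w : Option F → (Fin 3 → F) := fun i => i.elim u (fun x => v + x • u)
  have hw0 : ∀ i, a ⬝ᵥ w i = 0 := by
    intro i
    cases i with
    | none => exact hau
    | some x =>
      show a ⬝ᵥ (v + x • u) = 0
      rw [dotProduct_add, dotProduct_smul, hau, hL.he0, smul_zero, add_zero]
  have hwne : ∀ i, w i ≠ 0 := by
    intro i
    cases i with
    | none => exact hu0
    | some x =>
      show v + x • u ≠ 0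
      intro h0
      have h1 : x • u + (1 : F) • v = 0 := by rw [one_smul, add_comm]; exact h0
      exact one_ne_zero (hL.ind _ _ h1).2
  have hprop : ∀ i j (c : F), w j = c • w i → i = j := by
    intro i j c hc
    cases i with
    | none =>
      cases j with
      | none => rfl
      | some y =>
        have h0 : v + y • u = c • u := hc
        have h1 : (y - c) • u + (1 : F) • v = 0 := by
          have : (y - c) • u + (1 : F) • v = (v + y • u) - c • u := by
            rw [sub_smul, one_smul]
            abel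
          rw [this, h0, sub_self]
        exact absurd (hL.ind _ _ h1).2 one_ne_zero
    | some x =>
      cases j with
      | none =>
        have h0 : u = c • (v + x • u) := hc
        have h1 : (1 - c * x) • u + (-c) • v = 0 := by
          have : (1 - c * x) • u + (-c) • v = u - c • (v + x • u) := by
            rw [sub_smul, one_smul, smul_add, neg_smul, smul_smul]
            abel
          rw [this, ← h0, sub_self]
        obtain ⟨h4, h5⟩ := hL.ind _ _ h1
        rw [neg_eq_zero] at h5
        rw [h5, zero_mul, sub_zero] at h4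
        exact absurd h4 one_ne_zero
      | some y =>
        have h0 : v + y • u = c • (v + x • u) := hc
        have h1 : (y - c * x) • u + (1 - c) • v = 0 := by
          have : (y - c * x) • u + (1 - c) • v = (v + y • u) - c • (v + x • u) := by
            rw [sub_smul, sub_smul, one_smul, smul_add, smul_smul]
            abel
          rw [this, ← h0, sub_self]
        obtain ⟨h4, h5⟩ := hL.ind _ _ h1
        rw [← sub_eq_zero.1 h5, one_mul] at h4
        rw [sub_eq_zero.1 h4]
  -- the missing ones
  have hbad : (Finset.univ.filter (fun i => ¬ Re A.M (w i))).card ≤ A.M.card := by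
    have hex : ∀ i ∈ Finset.univ.filter (fun i => ¬ Re A.M (w i)), ∃ m ∈ A.M, ∃ c : F,
        w i = c • m := by
      intro i hi
      have hi' := (Finset.mem_filter.1 hi).2
      by_contra hcon
      push Not at hcon
      exact hi' ⟨hwne i, hcon⟩
    choose! g hg1 hg2 using hex
    refine Finset.card_le_card_of_injOn g (fun i hi => hg1 i hi) ?_
    intro i hi j hj hij
    obtain ⟨c, hc⟩ := hg2 i hi
    obtain ⟨d, hd⟩ := hg2 j hj
    rw [← hij] at hd
    have hc0 : c ≠ 0 := by
      intro h0
      rw [h0, zero_smul] at hc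
      exact hwne i hc
    apply hprop i j (d * c⁻¹)
    rw [hc, smul_smul, mul_assoc, inv_mul_cancel₀ hc0, mul_one, hd]
  have hcard : (Finset.univ.filter (fun i => Re A.M (w i))).card +
      (Finset.univ.filter (fun i => ¬ Re A.M (w i))).card = Fintype.card F + 1 := by
    rw [Finset.card_filter_add_card_filter_not, Finset.card_univ, Fintype.card_option]
  have hM := A.card
  have h1 : 1 < (Finset.univ.filter (fun i => Re A.M (w i))).card := by omega
  obtain ⟨i, hi, j, hj, hij⟩ := Finset.one_lt_card.1 h1
  refine ⟨w i, w j, hw0 i, hw0 j, (Finset.mem_filter.1 hi).2, (Finset.mem_filter.1 hj).2, ?_⟩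
  intro c hc
  exact hij (hprop i j c hc)

end Pool.Agent.Lib.MP_4dc748_co.TA
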