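import Pool.Agent.Lib.MP_4dc748_co.TA.CW

/-!
# The number of zeros of N2
-/

set_option autoImplicit false

open scoped Classical

namespace Pool.Agent.Lib.MP_4dc748_co.TA

variable {F : Type} [Field F] [Fintype F]

/-- incidence of (B, C) with a point (none is the point at infinity) -/
def LineC_inc (f : F → F) (h : F) (P : Option F) (B : F × F) : Prop :=
  P.elim (h + B.2 = 0) (fun x => f x + (B.1 + x * B.2) = 0)

/-- the pairs incident with a point -/
noncomputable def LineC_T (f : F → F) (h : F) (P : Option F) : Finset (F × F) :=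
  Finset.univ.filter (LineC_inc f h P)

theorem LineC_mem {f : F → F} {h : F} {P : Option F} {B : F × F} :
    B ∈ LineC_T f h P ↔ LineC_inc f h P B := by
  rw [LineC_T, Finset.mem_filter]
  exact ⟨fun h => h.2, fun h => ⟨Finset.mem_univ _, h⟩⟩

theorem LineC_card (f : F → F) (h : F) (P : Option F) :
    (LineC_T f h P).card ≤ Fintype.card F := by
  cases P with
  | none =>
    refine Finset.card_le_card_of_injOn (fun B => B.1) (fun _ _ => Finset.mem_univ _) ?_
    intro B hB B' hB' he
    have h1 : h + B.2 = 0 := LineC_mem.1 hB
    have h2 : h + B'.2 = 0 := LineC_mem.1 hB'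
    exact Prod.ext he (add_left_cancel (h1.trans h2.symm))
  | some x =>
    refine Finset.card_le_card_of_injOn (fun B => B.2) (fun _ _ => Finset.mem_univ _) ?_
    intro B hB B' hB' he
    have h1 : f x + (B.1 + x * B.2) = 0 := LineC_mem.1 hB
    have h2 : f x + (B'.1 + x * B'.2) = 0 := LineC_mem.1 hB'
    have he' : B.2 = B'.2 := he
    have h3 := add_left_cancel (h1.trans h2.symm)
    rw [he'] at h3
    exact Prod.ext (add_right_cancel h3) he

theorem LineC_two [CharP F 2] (f : F → F) (h : F) {P P' : Option F} (hP : P ≠ P') :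
    1 ≤ (LineC_T f h P ∩ LineC_T f h P').card := by
  rw [Nat.one_le_iff_ne_zero, Finset.card_ne_zero]
  have hnx : ∀ x, ∃ B, B ∈ LineC_T f h none ∧ B ∈ LineC_T f h (some x) := by
    intro x
    refine ⟨(f x + x * h, h), LineC_mem.2 ?_, LineC_mem.2 ?_⟩
    · show h + h = 0
      exact CharTwo.add_self_eq_zero h
    · show f x + (f x + x * h + x * h) = 0
      rw [add_assoc (f x), CharTwo.add_self_eq_zero (x * h), add_zero, CharTwo.add_self_eq_zero]
  cases P with
  | none =>
    cases P' with
    | none => exact absurd rfl hP
    | some x =>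
      obtain ⟨B, h1, h2⟩ := hnx x
      exact ⟨B, Finset.mem_inter.2 ⟨h1, h2⟩⟩
  | some x =>
    cases P' with
    | none =>
      obtain ⟨B, h1, h2⟩ := hnx x
      exact ⟨B, Finset.mem_inter.2 ⟨h2, h1⟩⟩
    | some y =>
      have hxy : x + y ≠ 0 := by
        intro h0
        exact hP (congrArg some (CharTwo.add_eq_zero.1 h0))
      refine ⟨(f x + x * ((f x + f y) / (x + y)), (f x + f y) / (x + y)),
        Finset.mem_inter.2 ⟨LineC_mem.2 ?_, LineC_mem.2 ?_⟩⟩
      · show f x + (f x + x * ((f x + f y) / (x + y)) + x * ((f x + f y) / (x + y))) = 0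
        rw [add_assoc (f x), CharTwo.add_self_eq_zero (x * _), add_zero,
          CharTwo.add_self_eq_zero]
      · show f y + (f x + x * ((f x + f y) / (x + y)) + y * ((f x + f y) / (x + y))) = 0
        have h1 : f y + (f x + x * ((f x + f y) / (x + y)) + y * ((f x + f y) / (x + y))) =
            (f x + f y) + (x + y) * ((f x + f y) / (x + y)) := by ring
        rw [h1, mul_div_cancel₀ _ hxy, CharTwo.add_self_eq_zero]

/-- no pair is incident with three real points -/
theorem LineC_three [CharP F 2] {X : Finset F} {f : F → F} {h : F} (hL : LArc X f h)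
    {P P' P'' : Option F} (hP : P ∈ Finset.insertNone X) (hP' : P' ∈ Finset.insertNone X)
    (hP'' : P'' ∈ Finset.insertNone X) (h1 : P ≠ P') (h2 : P ≠ P'') (h3 : P' ≠ P'') {B : F × F}
    (i1 : LineC_inc f h P B) (i2 : LineC_inc f h P' B) (i3 : LineC_inc f h P'' B) : False := by
  have hnn : ∀ x ∈ X, ∀ y ∈ X, x ≠ y → LineC_inc f h none B → LineC_inc f h (some x) B →
      LineC_inc f h (some y) B → False := by
    intro x hx y hy hxy j1 j2 j3
    have e1 : h + B.2 = 0 := j1
    have e2 : f x + (B.1 + x * B.2) = 0 := j2
    have e3 : f y + (B.1 + y * B.2) = 0 := j3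
    have e4 : h = B.2 := CharTwo.add_eq_zero.1 e1
    have e5 : f x = B.1 + x * B.2 := CharTwo.add_eq_zero.1 e2
    have e6 : f y = B.1 + y * B.2 := CharTwo.add_eq_zero.1 e3
    apply hL.1 x hx y hy hxy
    rw [e4, e5, e6]
    have h2 : (2 : F) = 0 := CharTwo.two_eq_zero
    linear_combination B.1 * h2
  rw [Finset.mem_insertNone] at hP hP' hP''
  cases P with
  | none =>
    cases P' with
    | none => exact h1 rfl
    | some y =>
      cases P'' with
      | none => exact h2 rfl
      | some z =>
        exact hnn y (hP' y rfl) z (hP'' z rfl) (fun e => h3 (congrArg some e)) i1 i2 i3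
  | some x =>
    cases P' with
    | none =>
      cases P'' with
      | none => exact h3 rfl
      | some z =>
        exact hnn x (hP x rfl) z (hP'' z rfl) (fun e => h2 (congrArg some e)) i2 i1 i3
    | some y =>
      cases P'' with
      | none =>
        exact hnn x (hP x rfl) y (hP' y rfl) (fun e => h1 (congrArg some e)) i3 i1 i2
      | some z =>
        have e5 : f x = B.1 + x * B.2 := CharTwo.add_eq_zero.1 i1
        have e6 : f y = B.1 + y * B.2 := CharTwo.add_eq_zero.1 i2
        have e7 : f z = B.1 + z * B.2 := CharTwo.add_eq_zero.1 i3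
        apply hL.2 x (hP x rfl) y (hP' y rfl) z (hP'' z rfl) (fun e => h1 (congrArg some e))
          (fun e => h2 (congrArg some e)) (fun e => h3 (congrArg some e))
        rw [e5, e6, e7]
        have h2 : (2 : F) = 0 := CharTwo.two_eq_zero
        linear_combination (B.1 * (x + z) - B.1 * (x + y)) * h2

/-- N2 is the number of the incident points -/
theorem LineC_N2 [CharP F 2] (f : F → F) (h : F) (B : F × F) :
    N2 f h B.1 B.2 = ((Finset.univ.filter (fun P : Option F => LineC_inc f h P B)).card : F) := by
  have hq : Fintype.card F - 1 ≠ 0 := by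
    have := Fintype.one_lt_card (α := F)
    omega
  have h1 : ∀ y : F, 1 + y ^ (Fintype.card F - 1) = if y = 0 then 1 else 0 := by
    intro y
    split_ifs with hy
    · rw [hy, zero_pow hq, add_zero]
    · rw [FiniteField.pow_card_sub_one_eq_one y hy, CharTwo.add_self_eq_zero]
  rw [N2, h1, Finset.sum_congr rfl (fun x _ => h1 _), Finset.card_filter, Nat.cast_sum,
    Fintype.sum_option]
  congr 1
  · rw [Nat.cast_ite, Nat.cast_one, Nat.cast_zero]
    rfl
  · refine Finset.sum_congr rfl (fun x _ => ?_)
    rw [Nat.cast_ite, Nat.cast_one, Nat.cast_zero]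
    rfl

/-- The count. (B, C) is incident with the point x if f x + B + x C = 0 and with the point at infinity if
h + C = 0. Two different points have exactly one common (B, C); no (B, C) is incident with three real points
(x ∈ X or infinity) by hL. If N2 ≠ 0 then the number of incident points is odd: so either a point x ∉ X is incident
(at most ρ q pairs (B, C)) or exactly one real point is incident: for each real point x at most q - |X| = ρ of its
q pairs (the |X| other real points give different pairs on it), so at most (|X| + 1) ρ = (q + 1 - ρ) ρ. -/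
theorem card_N2 [CharP F 2] {X : Finset F} {f : F → F} {h : F} (hL : LArc X f h) :
    (Finset.univ.filter (fun B : F × F => N2 f h B.1 B.2 ≠ 0)).card ≤
      (Finset.univ \ X).card * (2 * Fintype.card F + 1 - (Finset.univ \ X).card) := by
  have hXle : X.card ≤ Fintype.card F := Finset.card_le_univ X
  have hρ : (Finset.univ \ X).card = Fintype.card F - X.card := by
    rw [Finset.card_sdiff_of_subset (Finset.subset_univ X), Finset.card_univ]
  set R : Finset (Option F) := Finset.insertNone X with hR
  have hRc : R.card = X.card + 1 := Finset.card_insertNone X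
  -- the pairs with exactly one real point
  let U : Option F → Finset (F × F) := fun P =>
    LineC_T f h P \ (R.erase P).biUnion (fun P' => LineC_T f h P ∩ LineC_T f h P')
  have hU : ∀ P ∈ R, (U P).card ≤ Fintype.card F - X.card := by
    intro P hP
    have h1 : (R.erase P).card = X.card := by
      rw [Finset.card_erase_of_mem hP, hRc, Nat.add_sub_cancel]
    have h2 : X.card ≤ ((R.erase P).biUnion
        (fun P' => LineC_T f h P ∩ LineC_T f h P')).card := by
      rw [Finset.card_biUnion]
      · calc X.card = ∑ P' ∈ R.erase P, 1 := by rw [Finset.sum_const, smul_eq_mul, mul_one, h1]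
          _ ≤ _ := Finset.sum_le_sum (fun P' hP' =>
            LineC_two f h (Finset.ne_of_mem_erase hP').symm)
      · intro P' hP' P'' hP'' hne
        rw [Function.onFun, Finset.disjoint_left]
        intro B hB hB'
        rw [Finset.mem_inter] at hB hB'
        exact LineC_three hL hP (Finset.mem_of_mem_erase hP') (Finset.mem_of_mem_erase hP'')
          (Finset.ne_of_mem_erase hP').symm (Finset.ne_of_mem_erase hP'').symm hne
          (LineC_mem.1 hB.1) (LineC_mem.1 hB.2) (LineC_mem.1 hB'.2)
    have h3 : (R.erase P).biUnion (fun P' => LineC_T f h P ∩ LineC_T f h P') ⊆ LineC_T f h P := by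
      rw [Finset.biUnion_subset]
      intro P' _
      exact Finset.inter_subset_left
    have h4 : (U P).card = (LineC_T f h P).card -
        ((R.erase P).biUnion (fun P' => LineC_T f h P ∩ LineC_T f h P')).card :=
      Finset.card_sdiff_of_subset h3
    have h5 := LineC_card f h P
    omega
  have hsub : Finset.univ.filter (fun B : F × F => N2 f h B.1 B.2 ≠ 0) ⊆
      ((Finset.univ \ X).biUnion (fun x => LineC_T f h (some x))) ∪ R.biUnion U := by
    intro B hB
    rw [Finset.mem_filter] at hB
    have hB2 := hB.2
    rw [LineC_N2] at hB2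
    set I := Finset.univ.filter (fun P : Option F => LineC_inc f h P B) with hI
    have hmemI : ∀ P, P ∈ I ↔ LineC_inc f h P B := by
      intro P
      rw [hI, Finset.mem_filter]
      exact ⟨fun h => h.2, fun h => ⟨Finset.mem_univ _, h⟩⟩
    rw [Finset.mem_union]
    by_cases hx : ∃ x, x ∉ X ∧ LineC_inc f h (some x) B
    · left
      obtain ⟨x, hx, hi⟩ := hx
      rw [Finset.mem_biUnion]
      exact ⟨x, Finset.mem_sdiff.2 ⟨Finset.mem_univ _, hx⟩, LineC_mem.2 hi⟩
    · right
      push Not at hx
      have hIR : ∀ P ∈ I, P ∈ R := by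
        intro P hP
        rw [hmemI] at hP
        rw [hR, Finset.mem_insertNone]
        intro x hxP
        by_contra hcon
        rw [hxP] at hP
        exact hx x hcon hP
      have hodd : Odd I.card := by
        rw [← Nat.not_even_iff_odd]
        intro hev
        apply hB2
        exact (CharP.cast_eq_zero_iff F 2 _).2 hev.two_dvd
      have hle : I.card ≤ 2 := by
        by_contra hcon
        push Not at hcon
        obtain ⟨P, P', P'', hP, hP', hP'', h1, h2, h3⟩ := Finset.two_lt_card_iff.1 hcon
        exact LineC_three hL (hIR P hP) (hIR P' hP') (hIR P'' hP'') h1 h2 h3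
          ((hmemI P).1 hP) ((hmemI P').1 hP') ((hmemI P'').1 hP'')
      have h1 : I.card = 1 := by
        obtain ⟨k, hk⟩ := hodd
        omega
      obtain ⟨P, hP⟩ := Finset.card_eq_one.1 h1
      have hPI : P ∈ I := by rw [hP]; exact Finset.mem_singleton_self P
      rw [Finset.mem_biUnion]
      refine ⟨P, hIR P hPI, Finset.mem_sdiff.2 ⟨LineC_mem.2 ((hmemI P).1 hPI), ?_⟩⟩
      intro hcon
      rw [Finset.mem_biUnion] at hcon
      obtain ⟨P', hP', hB'⟩ := hcon
      have h2 : P' ∈ I := (hmemI P').2 (LineC_mem.1 (Finset.mem_inter.1 hB').2)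
      rw [hP, Finset.mem_singleton] at h2
      exact Finset.ne_of_mem_erase hP' h2
  refine (Finset.card_le_card hsub).trans ((Finset.card_union_le _ _).trans ?_)
  have h1 : ((Finset.univ \ X).biUnion (fun x => LineC_T f h (some x))).card ≤
      (Finset.univ \ X).card * Fintype.card F :=
    Finset.card_biUnion_le_card_mul _ _ _ (fun x _ => LineC_card f h (some x))
  have h2 : (R.biUnion U).card ≤ R.card * (Fintype.card F - X.card) :=
    Finset.card_biUnion_le_card_mul _ _ _ hU
  rw [hRc] at h2
  rw [hρ] at h1 ⊢
  have h3 : 2 * Fintype.card F + 1 - (Fintype.card F - X.card) = Fintype.card F + (X.card + 1) := by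
    omega
  rw [h3, mul_add, mul_comm (Fintype.card F - X.card) (X.card + 1)]
  exact Nat.add_le_add h1 h2

end Pool.Agent.Lib.MP_4dc748_co.TA
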