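import Pool.Agent.Lib.MP_4dc748_co.TA.Defs

/-!
# The lower bound
-/

set_option autoImplicit false

open scoped Classical

namespace Pool.Agent.Lib.MP_4dc748_co.TA

variable {F : Type} [Field F] [Fintype F]

omit [Fintype F] in
/-- Two affine points on a line. -/
theorem lower_pair [CharP F 2] {s : F ≃+* F} {β : F} {a c : Fin 3 → F} (ha : a ≠ 0)
    {x y x' y' : F} (h1 : Inc s a c ![1, x, y] ![0, s x ^ 2 + s y ^ 2, β * s x ^ 2])
    (h2 : Inc s a c ![1, x', y'] ![0, s x' ^ 2 + s y' ^ 2, β * s x' ^ 2])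
    (hne : (x, y) ≠ (x', y')) :
    ∃ t : F, s t ≠ 0 ∧ x' = x + t * a 2 ∧ y' = y + t * a 1 ∧
      s t * (a 1 * (s (a 2) ^ 2 + s (a 1) ^ 2) + a 2 * β * s (a 2) ^ 2) =
        c 1 * s (a 2) + c 2 * s (a 1) := by
  have h0 : (2 : F) = 0 := CharP.cast_eq_zero F 2
  obtain ⟨l1, q1⟩ := h1
  obtain ⟨l2, q2⟩ := h2
  simp only [dotProduct, Fin.sum_univ_three, Function.comp, Matrix.cons_val_zero,
    Matrix.cons_val_one, Matrix.cons_val, map_one, mul_one, mul_zero, zero_add] at l1 q1 l2 q2
  have key : ∃ t : F, x' = x + t * a 2 ∧ y' = y + t * a 1 := by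
    by_cases h3 : a 2 = 0
    · have h4 : a 1 ≠ 0 := by
        intro h4
        apply ha
        rw [h3, h4, zero_mul, zero_mul, add_zero, add_zero] at l1
        funext i
        fin_cases i
        · exact l1
        · exact h4
        · exact h3
      refine ⟨(y + y') / a 1, ?_, ?_⟩
      · rw [h3, mul_zero, add_zero]
        have h5 : a 1 * (x' - x) = 0 := by
          rw [h3] at l1 l2
          linear_combination l2 - l1
        exact sub_eq_zero.1 ((mul_eq_zero.1 h5).resolve_left h4)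
      · rw [div_mul_cancel₀ _ h4]
        linear_combination (-y) * h0
    · refine ⟨(x + x') / a 2, ?_, ?_⟩
      · rw [div_mul_cancel₀ _ h3]
        linear_combination (-x) * h0
      · field_simp
        linear_combination l2 - l1 - (x' * a 1) * h0
  obtain ⟨t, hx, hy⟩ := key
  have ht : s t ≠ 0 := by
    intro h3
    have h4 : t = 0 := (map_eq_zero s).1 h3
    apply hne
    rw [hx, hy, h4, zero_mul, zero_mul, add_zero, add_zero]
  refine ⟨t, ht, hx, hy, ?_⟩
  rw [hx, hy, map_add, map_add, map_mul, map_mul] at q2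
  have h5 : s t * (s t * (a 1 * (s (a 2) ^ 2 + s (a 1) ^ 2) + a 2 * β * s (a 2) ^ 2) -
      (c 1 * s (a 2) + c 2 * s (a 1))) = 0 := by
    linear_combination q2 - q1 - (s t * (c 1 * s (a 2) + c 2 * s (a 1)) +
      a 1 * (s x * s t * s (a 2) + s y * s t * s (a 1)) + a 2 * β * (s x * s t * s (a 2))) * h0
  exact sub_eq_zero.1 ((mul_eq_zero.1 h5).resolve_left ht)

omit [Fintype F] in
/-- The form H has no zero. -/
theorem lower_H {s : F ≃+* F} {β : F} (hβ : ∀ t : F, t * s t ^ 2 + t + β ≠ 0)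
    {a : Fin 3 → F} (h : a 1 ≠ 0 ∨ a 2 ≠ 0) :
    a 1 * (s (a 2) ^ 2 + s (a 1) ^ 2) + a 2 * β * s (a 2) ^ 2 ≠ 0 := by
  by_cases h2 : a 2 = 0
  · have h1 : a 1 ≠ 0 := h.resolve_right (fun h => h h2)
    rw [h2, map_zero]
    have h3 : s (a 1) ≠ 0 := fun h3 => h1 ((map_eq_zero s).1 h3)
    have : a 1 * ((0 : F) ^ 2 + s (a 1) ^ 2) + 0 * β * 0 ^ 2 = a 1 * s (a 1) ^ 2 := by ring
    rw [this]
    exact mul_ne_zero h1 (pow_ne_zero 2 h3)
  · have h3 : s (a 2) ≠ 0 := fun h3 => h2 ((map_eq_zero s).1 h3)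
    obtain ⟨r, hr⟩ : ∃ r, a 1 = r * a 2 := ⟨a 1 / a 2, (div_mul_cancel₀ _ h2).symm⟩
    rw [hr, map_mul]
    have : r * a 2 * (s (a 2) ^ 2 + (s r * s (a 2)) ^ 2) + a 2 * β * s (a 2) ^ 2 =
        a 2 * s (a 2) ^ 2 * (r * s r ^ 2 + r + β) := by ring
    rw [this]
    exact mul_ne_zero (mul_ne_zero h2 (pow_ne_zero 2 h3)) (hβ r)

/-- The points. -/
def lower_v (F : Type) [Field F] : (F × F) ⊕ Bool → Fin 3 → F
  | Sum.inl p => ![1, p.1, p.2]
  | Sum.inr true => ![0, 1, 0]
  | Sum.inr false => ![0, 0, 1]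

/-- The second coordinates. -/
def lower_b (s : F ≃+* F) (β : F) : (F × F) ⊕ Bool → Fin 3 → F
  | Sum.inl p => ![0, s p.1 ^ 2 + s p.2 ^ 2, β * s p.1 ^ 2]
  | Sum.inr _ => 0

omit [Fintype F] in
theorem lower_inf {s : F ≃+* F} {β : F} {a c : Fin 3 → F} :
    (Inc s a c (lower_v F (Sum.inr true)) (lower_b s β (Sum.inr true)) → a 1 = 0 ∧ c 1 = 0) ∧
    (Inc s a c (lower_v F (Sum.inr false)) (lower_b s β (Sum.inr false)) →
      a 2 = 0 ∧ c 2 = 0) := by
  constructor
  · rintro ⟨h1, h2⟩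
    simpa [lower_v, lower_b, dotProduct, Fin.sum_univ_three] using And.intro h1 h2
  · rintro ⟨h1, h2⟩
    simpa [lower_v, lower_b, dotProduct, Fin.sum_univ_three] using And.intro h1 h2

omit [Fintype F] in
/-- Two affine points and a point at infinity. -/
theorem lower_mix [CharP F 2] {s : F ≃+* F} {β : F} (hβ : ∀ t : F, t * s t ^ 2 + t + β ≠ 0)
    {a c : Fin 3 → F} (ha : a ≠ 0) {p p' : F × F} {i : Bool}
    (h1 : Inc s a c (lower_v F (Sum.inl p)) (lower_b s β (Sum.inl p)))
    (h2 : Inc s a c (lower_v F (Sum.inl p')) (lower_b s β (Sum.inl p')))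
    (h3 : Inc s a c (lower_v F (Sum.inr i)) (lower_b s β (Sum.inr i))) (hne : p ≠ p') :
    False := by
  obtain ⟨t, ht, hx, hy, hH⟩ := lower_pair ha h1 h2 hne
  have h4 : a 1 ≠ 0 ∨ a 2 ≠ 0 := by
    by_contra h4
    rw [not_or, not_not, not_not] at h4
    apply hne
    refine Prod.ext ?_ ?_
    · rw [hx, h4.2, mul_zero, add_zero]
    · rw [hy, h4.1, mul_zero, add_zero]
  have h5 := lower_H hβ h4
  apply mul_ne_zero ht h5
  rw [hH]
  cases i with
  | true =>
    obtain ⟨h6, h7⟩ := lower_inf.1 h3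
    rw [h6, h7, map_zero, zero_mul, mul_zero, add_zero]
  | false =>
    obtain ⟨h6, h7⟩ := lower_inf.2 h3
    rw [h6, h7, map_zero, zero_mul, mul_zero, add_zero]

omit [Fintype F] in
/-- One affine point and both points at infinity. -/
theorem lower_mix2 {s : F ≃+* F} {β : F} {a c : Fin 3 → F} (ha : a ≠ 0) {p : F × F} {i j : Bool}
    (h1 : Inc s a c (lower_v F (Sum.inl p)) (lower_b s β (Sum.inl p)))
    (h2 : Inc s a c (lower_v F (Sum.inr i)) (lower_b s β (Sum.inr i)))
    (h3 : Inc s a c (lower_v F (Sum.inr j)) (lower_b s β (Sum.inr j))) (hne : i ≠ j) :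
    False := by
  have key : a 1 = 0 ∧ a 2 = 0 := by
    cases i <;> cases j
    · exact absurd rfl hne
    · exact ⟨(lower_inf.1 h3).1, (lower_inf.2 h2).1⟩
    · exact ⟨(lower_inf.1 h2).1, (lower_inf.2 h3).1⟩
    · exact absurd rfl hne
  obtain ⟨k1, k2⟩ := key
  apply ha
  have h4 := h1.1
  simp only [lower_v, dotProduct, Fin.sum_univ_three, Matrix.cons_val_zero,
    Matrix.cons_val_one, Matrix.cons_val, mul_one, k1, k2, zero_mul, add_zero] at h4
  funext i
  fin_cases i
  · exact h4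
  · exact k1
  · exact k2

omit [Fintype F] in
/-- Three affine points. -/
theorem lower_three [CharP F 2] {s : F ≃+* F} {β : F} (hβ : ∀ t : F, t * s t ^ 2 + t + β ≠ 0)
    {a c : Fin 3 → F} (ha : a ≠ 0) {p p' p'' : F × F}
    (h1 : Inc s a c (lower_v F (Sum.inl p)) (lower_b s β (Sum.inl p)))
    (h2 : Inc s a c (lower_v F (Sum.inl p')) (lower_b s β (Sum.inl p')))
    (h3 : Inc s a c (lower_v F (Sum.inl p'')) (lower_b s β (Sum.inl p'')))
    (hne : p ≠ p') (hne' : p ≠ p'') : p' = p'' := by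
  obtain ⟨t, ht, hx, hy, hH⟩ := lower_pair ha h1 h2 hne
  obtain ⟨t', ht', hx', hy', hH'⟩ := lower_pair ha h1 h3 hne'
  have h4 : a 1 ≠ 0 ∨ a 2 ≠ 0 := by
    by_contra h4
    rw [not_or, not_not, not_not] at h4
    apply hne
    refine Prod.ext ?_ ?_
    · rw [hx, h4.2, mul_zero, add_zero]
    · rw [hy, h4.1, mul_zero, add_zero]
  have h5 := lower_H hβ h4
  rw [← hH'] at hH
  have h6 : t = t' := s.injective (mul_right_cancel₀ h5 hH)
  refine Prod.ext ?_ ?_
  · rw [hx, hx', h6]
  · rw [hy, hy', h6]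

/-- The points (x, y) ↦ v = (1, x, y), b = (0, X^2 + Y^2, β X^2), X = s x, Y = s y, where β is such that
t ↦ t s(t)^2 + t + β has no zero (t = 0, 1 give the same value of t s(t)^2 + t, so this function is not injective, so
not surjective), and the two points v = (0, 1, 0), (0, 0, 1) with b = 0. Line (a, c), a ≠ 0. If a 1 = a 2 = 0 no point
(1, x, y) is on it. Otherwise H = a1 (A2^2 + A1^2) + a2 β A2^2 ≠ 0, A_i = s (a_i) (a2 = 0: a1 A1^2; a2 ≠ 0: with
t = a1 / a2 it is a2 A2^2 (t s(t)^2 + t + β)). The points (1, x, y) on the line: two of them, (x, y) and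
(x + t a2, y + t a1) (t ≠ 0) satisfy H T + c1 A2 + c2 A1 = 0, T = s t. So at most two, and at most one if
c1 A2 + c2 A1 = 0. The point (0, 1, 0) is on the line iff a1 = 0 and c1 = 0, (0, 0, 1) iff a2 = 0 and c2 = 0; in both
cases c1 A2 + c2 A1 = 0 and only one of the two is on the line. -/
theorem exists_lower [CharP F 2] (s : F ≃+* F) :
    ∃ v b : (F × F) ⊕ Bool → Fin 3 → F, (∀ i, v i ≠ 0) ∧
      (∀ i j, i ≠ j → ∀ c : F, v j ≠ c • v i) ∧
      ∀ a c : Fin 3 → F, a ≠ 0 →
        (Finset.univ.filter (fun i => Inc s a c (v i) (b i))).card ≤ 2 := by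
  have h0 : (2 : F) = 0 := CharP.cast_eq_zero F 2
  obtain ⟨β, hβ⟩ : ∃ β : F, ∀ t : F, t * s t ^ 2 + t + β ≠ 0 := by
    have h1 : ¬ Function.Surjective (fun t : F => t * s t ^ 2 + t) := by
      intro h1
      have h2 := Finite.injective_iff_surjective.2 h1
      have h3 : (0 : F) = 1 := h2 (by
        show (0 : F) * s 0 ^ 2 + 0 = 1 * s 1 ^ 2 + 1
        rw [map_one]
        linear_combination -h0)
      exact zero_ne_one h3
    simp only [Function.Surjective, not_forall, not_exists] at h1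
    obtain ⟨β, hβ⟩ := h1
    refine ⟨β, fun t ht => hβ t ?_⟩
    linear_combination ht - β * h0
  refine ⟨lower_v F, lower_b s β, ?_, ?_, ?_⟩
  · rintro (p | i) h
    · exact one_ne_zero (congrFun h 0)
    · cases i
      · exact one_ne_zero (congrFun h 2)
      · exact one_ne_zero (congrFun h 1)
  · intro i j hij c h
    rcases i with p | i <;> rcases j with p' | j
    · have h1 : (1 : F) = c * 1 := congrFun h 0
      rw [mul_one] at h1
      have h2 : p'.1 = c * p.1 := congrFun h 1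
      have h3 : p'.2 = c * p.2 := congrFun h 2
      rw [← h1, one_mul] at h2 h3
      exact hij (congrArg Sum.inl (Prod.ext h2.symm h3.symm))
    · have h1 : lower_v F (Sum.inr j) 0 = c * 1 := congrFun h 0
      have h2 : lower_v F (Sum.inr j) 0 = 0 := by cases j <;> rfl
      rw [h2, mul_one] at h1
      rw [← h1, zero_smul] at h
      cases j
      · exact one_ne_zero (congrFun h 2)
      · exact one_ne_zero (congrFun h 1)
    · have h1 : (1 : F) = c * lower_v F (Sum.inr i) 0 := congrFun h 0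
      have h2 : lower_v F (Sum.inr i) 0 = 0 := by cases i <;> rfl
      rw [h2, mul_zero] at h1
      exact one_ne_zero h1
    · cases i <;> cases j
      · exact hij rfl
      · have h1 : (1 : F) = c * 0 := congrFun h 1
        rw [mul_zero] at h1
        exact one_ne_zero h1
      · have h1 : (1 : F) = c * 0 := congrFun h 2
        rw [mul_zero] at h1
        exact one_ne_zero h1
      · exact hij rfl
  · intro a c ha
    by_contra h
    rw [not_le, Finset.two_lt_card] at h
    obtain ⟨i, hi, j, hj, k, hk, hij, hik, hjk⟩ := h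
    have hi := (Finset.mem_filter.1 hi).2
    have hj := (Finset.mem_filter.1 hj).2
    have hk := (Finset.mem_filter.1 hk).2
    rcases i with i | i <;> rcases j with j | j <;> rcases k with k | k
    · exact hjk (congrArg Sum.inl (lower_three hβ ha hi hj hk (fun h => hij (by rw [h]))
        (fun h => hik (by rw [h]))))
    · exact lower_mix hβ ha hi hj hk (fun h => hij (by rw [h]))
    · exact lower_mix hβ ha hi hk hj (fun h => hik (by rw [h]))
    · exact lower_mix2 ha hi hj hk (fun h => hjk (by rw [h]))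
    · exact lower_mix hβ ha hj hk hi (fun h => hjk (by rw [h]))
    · exact lower_mix2 ha hj hi hk (fun h => hik (by rw [h]))
    · exact lower_mix2 ha hk hi hj (fun h => hij (by rw [h]))
    · cases i <;> cases j <;> cases k <;> first
        | exact hij rfl
        | exact hik rfl
        | exact hjk rfl

end Pool.Agent.Lib.MP_4dc748_co.TA
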