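import Pool.Agent.Lib.MP_4dc748_co.TA.PlaneB

/-!
# From the ring to coordinates
-/

set_option autoImplicit false

open scoped Classical

namespace Pool.Agent.Lib.MP_4dc748_co.TA

variable {R F : Type} [Ring R] [Field F] {s : F ≃+* F}

theorem plane_finite [Finite R] : Finite (Submodule Rᵐᵒᵖ (Fin 3 → R)) :=
  Finite.of_injective (fun P => (P : Set (Fin 3 → R))) SetLike.coe_injective

/-- The upper bound: families of pairs (v, b) give the bound for arcs (n = 2). -/
theorem Coord.upper [Finite R] (C : Coord R F s) {N : ℕ}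
    (hU : ∀ (ι : Type) [Fintype ι] (v b : ι → Fin 3 → F), (∀ i, v i ≠ 0) →
      (∀ i j, i ≠ j → ∀ c d : F, ¬ (v j = c • v i ∧ b j = d • v i + s c • b i)) →
      (∀ a c : Fin 3 → F, a ≠ 0 →
        (Finset.univ.filter (fun i => Inc s a c (v i) (b i))).card ≤ 2) →
      Fintype.card ι ≤ N)
    {K : Set (Submodule Rᵐᵒᵖ (Fin 3 → R))} (hK : IsArc R 2 K) : K.ncard ≤ N := by
  have hfin : Finite (Submodule Rᵐᵒᵖ (Fin 3 → R)) := plane_finite
  have hfK : Fintype K := Fintype.ofFinite K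
  choose x hx1 hx2 using fun P : K => C.exists_of_isPoint (hK.1 P.1 P.2)
  have hcard : K.ncard = Fintype.card K := by
    rw [← Nat.card_eq_fintype_card, Nat.card_coe_set_eq]
  rw [hcard]
  refine hU K (fun P => C.v1 (x P)) (fun P => C.v2 (x P)) hx1 ?_ ?_
  · rintro P P' hne c d ⟨h1, h2⟩
    have h3 := C.span_eq (hx1 P) (hx1 P') h1 h2
    rw [← hx2, ← hx2] at h3
    exact hne (Subtype.ext h3.symm)
  · intro a c ha
    refine le_trans ?_ (hK.2 (C.ker a c) (C.isLine_ker c ha))
    have h1 : ((Finset.univ.filter (fun P : K => Inc s a c (C.v1 (x P)) (C.v2 (x P)))).map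
        ⟨Subtype.val, Subtype.val_injective⟩ : Set (Submodule Rᵐᵒᵖ (Fin 3 → R))) ⊆
        {P | P ∈ K ∧ P ≤ C.ker a c} := by
      intro P hP
      rw [Finset.mem_coe, Finset.mem_map] at hP
      obtain ⟨P', hP', rfl⟩ := hP
      refine ⟨P'.2, ?_⟩
      have h2 := (C.span_le_ker a c (x P')).2 (Finset.mem_filter.1 hP').2
      rw [← hx2] at h2
      exact h2
    have h3 := Set.ncard_le_ncard h1 (Set.toFinite _)
    rwa [Set.ncard_coe_finset, Finset.card_map] at h3

/-- A family of pairs (v, b) with pairwise not proportional v gives an arc. -/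
theorem Coord.lower [Finite R] (C : Coord R F s) {ι : Type} [Fintype ι] {v b : ι → Fin 3 → F}
    (hv : ∀ i, v i ≠ 0) (hd : ∀ i j, i ≠ j → ∀ c : F, v j ≠ c • v i)
    (hl : ∀ a c : Fin 3 → F, a ≠ 0 →
      (Finset.univ.filter (fun i => Inc s a c (v i) (b i))).card ≤ 2) :
    ∃ K, IsArc R 2 K ∧ K.ncard = Fintype.card ι := by
  have hfin : Finite (Submodule Rᵐᵒᵖ (Fin 3 → R)) := plane_finite
  have h1 : ∀ i, C.v1 (C.vec (v i) (b i)) = v i := fun i => by
    ext j
    simp [Coord.v1, Coord.vec]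
  have h2 : ∀ i, C.v2 (C.vec (v i) (b i)) = b i := fun i => by
    ext j
    simp [Coord.v2, Coord.vec]
  let f : ι → Submodule Rᵐᵒᵖ (Fin 3 → R) := fun i => Submodule.span Rᵐᵒᵖ {C.vec (v i) (b i)}
  have hf : Function.Injective f := by
    intro i j hij
    by_contra hne
    obtain ⟨c, hc⟩ := C.prop_of_span_eq hij.symm
    rw [h1, h1] at hc
    exact hd i j hne c hc
  refine ⟨Set.range f, ⟨?_, ?_⟩, ?_⟩
  · rintro P ⟨i, rfl⟩
    exact C.isPoint_span (by rw [h1]; exact hv i)
  · intro L hL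
    obtain ⟨a, c, ha, hLk⟩ := C.exists_ker hL
    refine le_trans ?_ (hl a c ha)
    have h3 : {P | P ∈ Set.range f ∧ P ≤ L} ⊆
        (((Finset.univ.filter (fun i => Inc s a c (v i) (b i))).image f : Finset _) :
          Set (Submodule Rᵐᵒᵖ (Fin 3 → R))) := by
      rintro P ⟨⟨i, rfl⟩, hi⟩
      rw [Finset.mem_coe, Finset.mem_image]
      refine ⟨i, Finset.mem_filter.2 ⟨Finset.mem_univ _, ?_⟩, rfl⟩
      have h4 := (C.span_le_ker a c (C.vec (v i) (b i))).1 (hi.trans hLk)
      rwa [h1, h2] at h4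
    refine (Set.ncard_le_ncard h3 (Set.toFinite _)).trans ?_
    rw [Set.ncard_coe_finset]
    exact Finset.card_image_le
  · rw [← Set.image_univ, Set.ncard_image_of_injective _ hf, Set.ncard_univ,
      Nat.card_eq_fintype_card]

end Pool.Agent.Lib.MP_4dc748_co.TA
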