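import Pool.Agent.Lib.MP_4dc748_co.TA.StepA
import Pool.Agent.Lib.MP_4dc748_co.TA.Frame

/-!
# Construction of the structure Arc
-/

set_option autoImplicit false

open scoped Classical

namespace Pool.Agent.Lib.MP_4dc748_co.TA

variable {F : Type} [Field F] [Fintype F] {s : F ≃+* F}

/-- The points over the classes. -/
noncomputable def step1B {ι : Type} (s : F ≃+* F) (v b : ι → Fin 3 → F) (x : Fin 3 → F) :
    Fin 3 → F :=
  if h : ∃ i, ∃ c : F, c ≠ 0 ∧ x = c • v i then s h.choose_spec.choose • b h.choose else 0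

theorem step1B_eq {ι : Type} {v b : ι → Fin 3 → F} (hv : ∀ i, v i ≠ 0)
    (hci : ∀ i j, i ≠ j → ∀ c : F, v j ≠ c • v i) (i : ι) {c : F} (hc : c ≠ 0) :
    step1B s v b (c • v i) = s c • b i := by
  have h : ∃ i', ∃ c' : F, c' ≠ 0 ∧ c • v i = c' • v i' := ⟨i, c, hc, rfl⟩
  unfold step1B
  rw [dif_pos h]
  have key : ∀ (i' : ι) (c' : F), c' ≠ 0 → c • v i = c' • v i' → i' = i ∧ c' = c := by
    intro i' c' hc' h2
    have hi : i' = i := by
      by_contra hne
      refine hci _ _ hne (c⁻¹ * c') ?_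
      rw [mul_smul, ← h2, smul_smul, inv_mul_cancel₀ hc, one_smul]
    subst hi
    refine ⟨rfl, ?_⟩
    have h5 : (c - c') • v i' = 0 := by rw [sub_smul, h2, sub_self]
    exact (sub_eq_zero.1 ((smul_eq_zero.1 h5).resolve_right (hv i'))).symm
  obtain ⟨h1, h2⟩ := h.choose_spec.choose_spec
  obtain ⟨h3, h4⟩ := key _ _ h1 h2
  rw [h4, h3]

theorem step1B_smul {ι : Type} {v b : ι → Fin 3 → F} (hv : ∀ i, v i ≠ 0)
    (hci : ∀ i j, i ≠ j → ∀ c : F, v j ≠ c • v i) (c : F) (hc : c ≠ 0) (x : Fin 3 → F) :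
    step1B s v b (c • x) = s c • step1B s v b x := by
  by_cases h : ∃ i, ∃ d : F, d ≠ 0 ∧ x = d • v i
  · obtain ⟨i, d, hd, rfl⟩ := h
    rw [smul_smul, step1B_eq hv hci i (mul_ne_zero hc hd), step1B_eq hv hci i hd, map_mul,
      mul_smul]
  · have h' : ¬ ∃ i, ∃ d : F, d ≠ 0 ∧ c • x = d • v i := by
      rintro ⟨i, d, hd, he⟩
      refine h ⟨i, c⁻¹ * d, mul_ne_zero (inv_ne_zero hc) hd, ?_⟩
      rw [mul_smul, ← he, smul_smul, inv_mul_cancel₀ hc, one_smul]
    unfold step1B
    rw [dif_neg h, dif_neg h', smul_zero]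

/-- The classes. -/
noncomputable def step1P {ι : Type} {v : ι → Fin 3 → F} (hv : ∀ i, v i ≠ 0) (i : ι) :
    Projectivization F (Fin 3 → F) := Projectivization.mk F (v i) (hv i)

/-- The structure Arc. M = representatives of the classes (points of the projective plane, q^2 + q + 1 of them,
Projectivization.card_of_finrank) which do not contain a v i, so |M| ≤ q - 2. b (c v_i) = s c b_i for c ≠ 0, 0 else.
The field arc: c • x + d • y, x, y are (multiples of) v k, v i, v j, three different indices; if equality holds there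
is c' with c' ⬝ᵥ s x = - a ⬝ᵥ b x, c' ⬝ᵥ s y = - a ⬝ᵥ b y (s x, s y are independent), and the line (a, c') contains
the three points. -/
theorem exists_arc {ι : Type} [Fintype ι] {v b : ι → Fin 3 → F} (hv : ∀ i, v i ≠ 0)
    (hd : ∀ i j, i ≠ j → ∀ c d : F, ¬ (v j = c • v i ∧ b j = d • v i + s c • b i))
    (hl : ∀ a c : Fin 3 → F, a ≠ 0 →
      (Finset.univ.filter (fun i => Inc s a c (v i) (b i))).card ≤ 2)
    (hcard : Fintype.card F ^ 2 + 3 ≤ Fintype.card ι) :
    Nonempty (Arc F s) := by
  classical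
  have hci := class_inj (s := s) hv hd hl hcard
  have : Fintype (Projectivization F (Fin 3 → F)) := Fintype.ofFinite _
  have hcardP : Fintype.card (Projectivization F (Fin 3 → F)) =
      Fintype.card F ^ 2 + Fintype.card F + 1 := by
    rw [← Nat.card_eq_fintype_card, Projectivization.card_of_finrank F (Fin 3 → F)
      (n := 3) (by simp), Finset.sum_range_succ, Finset.sum_range_succ, Finset.sum_range_one,
      Nat.card_eq_fintype_card]
    ring
  have hinj : Function.Injective (step1P hv) := by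
    intro i j hij
    by_contra hne
    unfold step1P at hij
    rw [Projectivization.mk_eq_mk_iff'] at hij
    obtain ⟨c, hc⟩ := hij
    exact hci j i (Ne.symm hne) c hc.symm
  let T : Finset (Projectivization F (Fin 3 → F)) :=
    Finset.univ \ Finset.univ.image (step1P hv)
  have hT : T.card + Fintype.card ι = Fintype.card F ^ 2 + Fintype.card F + 1 := by
    have h1 : (Finset.univ.image (step1P hv)).card = Fintype.card ι := by
      rw [Finset.card_image_of_injective _ hinj, Finset.card_univ]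
    rw [← hcardP, ← h1, ← Finset.card_univ]
    exact Finset.card_sdiff_add_card_eq_card (Finset.subset_univ _)
  let M : Finset (Fin 3 → F) := T.image Projectivization.rep
  have hq : 2 ≤ Fintype.card F := Fintype.one_lt_card
  -- real vectors
  have hreal : ∀ x, Re M x → ∃ i, ∃ c : F, c ≠ 0 ∧ x = c • v i := by
    rintro x ⟨hx0, hx⟩
    have h1 : Projectivization.mk F x hx0 ∈ Finset.univ.image (step1P hv) := by
      by_contra hcon
      have h2 : Projectivization.mk F x hx0 ∈ T := Finset.mem_sdiff.2 ⟨Finset.mem_univ _, hcon⟩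
      obtain ⟨c, hc⟩ := Projectivization.exists_smul_eq_mk_rep F x hx0
      refine hx _ (Finset.mem_image_of_mem _ h2) (c⁻¹ : Fˣ) ?_
      rw [← hc]
      show x = ((c⁻¹ : Fˣ) : F) • ((c : F) • x)
      rw [smul_smul, Units.inv_mul, one_smul]
    obtain ⟨i, -, hi⟩ := Finset.mem_image.1 h1
    unfold step1P at hi
    rw [Projectivization.mk_eq_mk_iff] at hi
    obtain ⟨c, hc⟩ := hi
    refine ⟨i, ((c⁻¹ : Fˣ) : F), Units.ne_zero _, ?_⟩
    rw [← hc]
    show x = ((c⁻¹ : Fˣ) : F) • ((c : F) • x)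
    rw [smul_smul, Units.inv_mul, one_smul]
  refine ⟨⟨M, step1B s v b, ?_, ?_, ?_, step1B_smul hv hci, ?_⟩⟩
  · intro m hm
    obtain ⟨p, -, rfl⟩ := Finset.mem_image.1 hm
    exact Projectivization.rep_nonzero p
  · intro m hm m' hm' c hc
    obtain ⟨p, -, rfl⟩ := Finset.mem_image.1 hm
    obtain ⟨p', -, rfl⟩ := Finset.mem_image.1 hm'
    have h1 : p' = p := by
      rw [← Projectivization.mk_rep p', ← Projectivization.mk_rep p,
        Projectivization.mk_eq_mk_iff']
      exact ⟨c, hc.symm⟩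
    rw [h1]
  · have h1 : M.card ≤ T.card := Finset.card_image_le
    omega
  · intro a x y c d ha hax hay hx hy hyx hc hd' hxy hcon
    obtain ⟨i, α, hα, hxi⟩ := hreal x hx
    obtain ⟨j, β, hβ, hyj⟩ := hreal y hy
    obtain ⟨k, γ, hγ, hk⟩ := hreal _ hxy
    have hij : i ≠ j := by
      rintro rfl
      refine hyx (β * α⁻¹) ?_
      rw [hyj, hxi, smul_smul, mul_assoc, inv_mul_cancel₀ hα, mul_one]
    have hki : k ≠ i := by
      rintro rfl
      have h1 : d • y = (γ * α⁻¹ - c) • x := by
        have h2 : γ • v k = (γ * α⁻¹) • x := by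
          rw [hxi, smul_smul, mul_assoc, inv_mul_cancel₀ hα, mul_one]
        rw [sub_smul, ← h2, ← hk]
        abel
      refine hyx (d⁻¹ * (γ * α⁻¹ - c)) ?_
      rw [mul_smul, ← h1, smul_smul, inv_mul_cancel₀ hd', one_smul]
    have hkj : k ≠ j := by
      rintro rfl
      have h1 : c • x = (γ * β⁻¹ - d) • y := by
        have h2 : γ • v k = (γ * β⁻¹) • y := by
          rw [hyj, smul_smul, mul_assoc, inv_mul_cancel₀ hβ, mul_one]
        rw [sub_smul, ← h2, ← hk]
        abel
      have h3 : γ * β⁻¹ - d ≠ 0 := by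
        intro h0
        rw [h0, zero_smul] at h1
        exact hx.1 ((smul_eq_zero.1 h1).resolve_left hc)
      refine hyx ((γ * β⁻¹ - d)⁻¹ * c) ?_
      rw [mul_smul, h1, smul_smul, inv_mul_cancel₀ h3, one_smul]
    -- the line
    have hsc : ∀ (t : F) (w : Fin 3 → F), s ∘ (t • w) = s t • (s ∘ w) := by
      intro t w
      funext l
      simp
    have hsadd : ∀ w w' : Fin 3 → F, s ∘ (w + w') = s ∘ w + s ∘ w' := by
      intro w w'
      funext l
      simp
    have hsdot : ∀ w w' : Fin 3 → F, (s ∘ w) ⬝ᵥ (s ∘ w') = s (w ⬝ᵥ w') := by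
      intro w w'
      simp [dotProduct, map_sum]
    have hsne : ∀ w : Fin 3 → F, w ≠ 0 → s ∘ w ≠ 0 := by
      intro w hw h0
      apply hw
      funext l
      have := congrFun h0 l
      simpa using this
    obtain ⟨a1, a2, e0, hfr⟩ := exists_frame (a0 := s ∘ a) (e1 := s ∘ x) (e2 := s ∘ y)
      (hsne a ha) (by rw [hsdot, hax, map_zero]) (by rw [hsdot, hay, map_zero]) (hsne x hx.1)
      (by
        intro t ht
        refine hyx (s.symm t) ?_
        funext l
        have := congrFun ht l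
        apply s.injective
        simpa using this)
    set bb := step1B s v b with hbb
    set c' : Fin 3 → F := (-(a ⬝ᵥ bb x)) • a1 + (-(a ⬝ᵥ bb y)) • a2 with hc'
    have hcx : c' ⬝ᵥ (s ∘ x) = -(a ⬝ᵥ bb x) := by
      rw [hc', add_dotProduct, smul_dotProduct, smul_dotProduct, hfr.h11, hfr.h21, smul_eq_mul,
        smul_eq_mul, mul_zero, mul_one, add_zero]
    have hcy : c' ⬝ᵥ (s ∘ y) = -(a ⬝ᵥ bb y) := by
      rw [hc', add_dotProduct, smul_dotProduct, smul_dotProduct, hfr.h12, hfr.h22, smul_eq_mul,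
        smul_eq_mul, mul_zero, mul_one, zero_add]
    have hcz : c' ⬝ᵥ (s ∘ (c • x + d • y)) = -(a ⬝ᵥ bb (c • x + d • y)) := by
      rw [hcon, hsadd, hsc, hsc, dotProduct_add, dotProduct_smul, dotProduct_smul, hcx, hcy,
        smul_eq_mul, smul_eq_mul]
      ring
    have hinc : ∀ (l : ι) (t : F) (w : Fin 3 → F), t ≠ 0 → w = t • v l → a ⬝ᵥ w = 0 →
        c' ⬝ᵥ (s ∘ w) = -(a ⬝ᵥ bb w) → Inc s a c' (v l) (b l) := by
      intro l t w ht hw haw hcw
      refine ⟨?_, ?_⟩
      · rw [hw, dotProduct_smul, smul_eq_mul] at haw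
        exact (mul_eq_zero.1 haw).resolve_left ht
      · rw [hw, hsc, hbb, step1B_eq hv hci l ht, dotProduct_smul, dotProduct_smul, smul_eq_mul,
          smul_eq_mul] at hcw
        have hst : s t ≠ 0 := by
          intro h0
          apply ht
          rwa [map_eq_zero] at h0
        have h1 : s t * (a ⬝ᵥ b l + c' ⬝ᵥ (s ∘ v l)) = 0 := by
          rw [mul_add, hcw]
          ring
        exact (mul_eq_zero.1 h1).resolve_left hst
    have haz : a ⬝ᵥ (c • x + d • y) = 0 := by
      rw [dotProduct_add, dotProduct_smul, dotProduct_smul, hax, hay, smul_zero, smul_zero,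
        add_zero]
    have hi := hinc i α x hα hxi hax hcx
    have hj := hinc j β y hβ hyj hay hcy
    have hk' := hinc k γ _ hγ hk haz hcz
    have hsub : ({i, j, k} : Finset ι) ⊆
        Finset.univ.filter (fun i => Inc s a c' (v i) (b i)) := by
      intro l hl'
      rw [Finset.mem_insert, Finset.mem_insert, Finset.mem_singleton] at hl'
      rw [Finset.mem_filter]
      rcases hl' with rfl | rfl | rfl
      · exact ⟨Finset.mem_univ _, hi⟩
      · exact ⟨Finset.mem_univ _, hj⟩
      · exact ⟨Finset.mem_univ _, hk'⟩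
    have h3 : ({i, j, k} : Finset ι).card = 3 := Finset.card_eq_three.2
      ⟨i, j, k, hij, Ne.symm hki, Ne.symm hkj, rfl⟩
    have h4 := Finset.card_le_card hsub
    rw [h3] at h4
    have h5 := hl a c' ha
    omega

end Pool.Agent.Lib.MP_4dc748_co.TA
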