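import Pool.Agent.Lib.MP_4dc748_co.TA.CW
import Pool.Agent.Lib.MP_4dc748_co.TA.Func

/-!
# The field with two elements
-/

set_option autoImplicit false

open scoped Classical

namespace Pool.Agent.Lib.MP_4dc748_co.TA

variable {F : Type} [Field F] [Fintype F] {s : F ≃+* F}

/-- q = 2: M = ∅, every line a ≠ 0 has three points x, y, x + y and (arc, c = d = 1)
a ⬝ᵥ b x + a ⬝ᵥ b y + a ⬝ᵥ b (x + y) = 1 (it is not 0). Sum over a ≠ 0 (seven of them) is 1. But it is
Sum over v ≠ 0 of Sum over a with a ⬝ᵥ v = 0 of a ⬝ᵥ b v = 0 (IsP.sum_plane with d = 1). -/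
theorem no_arc_two [CharP F 2] (hq : Fintype.card F = 2) (A : Arc F s) : False := by
  have hM : A.M = ∅ := by
    have := A.card
    rw [← Finset.card_eq_zero]
    omega
  have hRe : ∀ v : Fin 3 → F, v ≠ 0 → Re A.M v := by
    intro v hv
    refine ⟨hv, fun m hm => ?_⟩
    rw [hM] at hm
    simp at hm
  have h01 : ∀ x : F, x ≠ 0 → x = 1 := by
    intro x hx
    have := FiniteField.pow_card_sub_one_eq_one x hx
    rwa [hq, Nat.add_one_sub_one, pow_one] at this
  have h01' : ∀ x : F, x = 0 ∨ x = 1 := fun x => (em (x = 0)).imp id (h01 x)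
  have h1 : ∀ a : Fin 3 → F, a ≠ 0 →
      ∑ v ∈ Finset.univ.filter (fun v => a ⬝ᵥ v = 0 ∧ v ≠ 0), a ⬝ᵥ A.b v = 1 := by
    intro a ha
    obtain ⟨x1, x2, n1, n2, h11, h12, h21, h22, h1z, h2z, hs⟩ := func_basis ha
    have hx1 : x1 ≠ 0 := by
      rintro rfl
      rw [zero_dotProduct] at h11
      exact zero_ne_one h11
    have hx2 : x2 ≠ 0 := by
      rintro rfl
      rw [zero_dotProduct] at h22
      exact zero_ne_one h22
    have hx3 : x1 + x2 ≠ 0 := by
      intro h
      have := congrArg (fun v => v ⬝ᵥ n1) h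
      simp only [add_dotProduct, h11, h21, zero_dotProduct, add_zero] at this
      exact one_ne_zero this
    have hx12 : ∀ e : F, x2 ≠ e • x1 := by
      intro e h
      have := congrArg (fun v => v ⬝ᵥ n2) h
      simp only [smul_dotProduct, h12, h22, smul_zero] at this
      exact one_ne_zero this
    have harc := A.arc a x1 x2 1 1 ha (by rwa [dotProduct_comm]) (by rwa [dotProduct_comm])
      (hRe _ hx1) (hRe _ hx2) hx12 one_ne_zero one_ne_zero
      (hRe _ (by rwa [one_smul, one_smul]))
    rw [one_smul, one_smul, map_one, one_mul, one_mul] at harc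
    have hset : Finset.univ.filter (fun v => a ⬝ᵥ v = 0 ∧ v ≠ 0) =
        ({x1, x2, x1 + x2} : Finset (Fin 3 → F)) := by
      ext v
      simp only [Finset.mem_filter, Finset.mem_univ, true_and, Finset.mem_insert,
        Finset.mem_singleton]
      constructor
      · rintro ⟨h3, h4⟩
        have h5 := hs v (by rwa [dotProduct_comm])
        rcases h01' (v ⬝ᵥ n1) with h6 | h6 <;> rcases h01' (v ⬝ᵥ n2) with h7 | h7
        · rw [h6, h7, zero_smul, zero_smul, add_zero] at h5
          exact absurd h5 h4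
        · rw [h6, h7, zero_smul, one_smul, zero_add] at h5
          exact Or.inr (Or.inl h5)
        · rw [h6, h7, zero_smul, one_smul, add_zero] at h5
          exact Or.inl h5
        · rw [h6, h7, one_smul, one_smul] at h5
          exact Or.inr (Or.inr h5)
      · rintro (rfl | rfl | rfl)
        · exact ⟨by rwa [dotProduct_comm], hx1⟩
        · exact ⟨by rwa [dotProduct_comm], hx2⟩
        · exact ⟨by rw [dotProduct_add, dotProduct_comm, h1z, dotProduct_comm, h2z, add_zero], hx3⟩
    rw [hset, Finset.sum_insert, Finset.sum_insert, Finset.sum_singleton]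
    · refine h01 _ fun h => harc ?_
      rw [← add_assoc] at h
      exact (CharTwo.add_eq_zero.1 h).symm
    · rw [Finset.mem_singleton]
      intro h
      exact hx1 (by simpa using h.symm)
    · rw [Finset.mem_insert, Finset.mem_singleton]
      rintro (h | h)
      · exact hx12 1 (by rw [one_smul]; exact h.symm)
      · exact hx2 (by simpa using h.symm)
  have h2 : ∑ a : Fin 3 → F, ∑ v ∈ Finset.univ.filter (fun v => a ⬝ᵥ v = 0 ∧ v ≠ 0),
      a ⬝ᵥ A.b v = 1 := by
    have h3 : ∀ a : Fin 3 → F, ∑ v ∈ Finset.univ.filter (fun v => a ⬝ᵥ v = 0 ∧ v ≠ 0),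
        a ⬝ᵥ A.b v = 1 + (if a = 0 then 1 else 0) := by
      intro a
      by_cases ha : a = 0
      · subst ha
        rw [if_pos rfl, CharTwo.add_self_eq_zero]
        exact Finset.sum_eq_zero fun v _ => zero_dotProduct _
      · rw [if_neg ha, h1 a ha, add_zero]
    simp only [h3, Finset.sum_add_distrib, Finset.sum_const, Finset.card_univ, nsmul_eq_mul,
      mul_one, Finset.sum_ite_eq', Finset.mem_univ, if_true, Fintype.card_fun, Fintype.card_fin,
      Nat.cast_pow, Nat.cast_card_eq_zero]
    simp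
  have h4 : ∑ a : Fin 3 → F, ∑ v ∈ Finset.univ.filter (fun v => a ⬝ᵥ v = 0 ∧ v ≠ 0),
      a ⬝ᵥ A.b v = 0 := by
    simp only [Finset.sum_filter]
    rw [Finset.sum_comm]
    refine Finset.sum_eq_zero fun v _ => ?_
    by_cases hv : v = 0
    · subst hv
      simp
    · have h5 := (IsP.dot (A.b v)).sum_plane v (by omega)
      rw [Finset.sum_filter] at h5
      refine Eq.trans (Finset.sum_congr rfl fun a _ => ?_) h5
      simp [hv]
  rw [h4] at h2
  exact zero_ne_one h2

end Pool.Agent.Lib.MP_4dc748_co.TA
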