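import Pool.Agent.Lib.MP_4dc748_co.TA.Bad
import Pool.Agent.Lib.MP_4dc748_co.TA.Two
import Pool.Agent.Lib.MP_4dc748_co.TA.Step1
import Pool.Agent.Lib.MP_4dc748_co.TA.Lower
import Pool.Agent.Lib.MP_4dc748_co.TA.Chain
import Pool.Agent.Lib.MP_4dc748_co.TA.Plane

/-!
# m_2(R) = q^2 + 2 for the chain rings of length 2 and characteristic 2
-/

set_option autoImplicit false

namespace Pool.Agent.Lib.MP_4dc748_co.TA

theorem arcMax_two (R : Type) [Ring R] [Finite R] (F : Type) [Field F] [Finite F]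
    (e : (R ⧸ Ring.jacobson R) ≃+* F) (hchar : CharP R 2)
    (hcard : Nat.card R = Nat.card F ^ 2) : arcMax R 2 = Nat.card F ^ 2 + 2 := by
  classical
  have := charP_of_quot e hchar
  have : Fintype F := Fintype.ofFinite F
  obtain ⟨s, ⟨C⟩⟩ := exists_coord e hchar hcard
  have hup : ∀ K, IsArc R 2 K → K.ncard ≤ Nat.card F ^ 2 + 2 := by
    intro K hK
    refine C.upper (fun ι _ v b hv hd hl => ?_) hK
    by_contra hlt
    obtain ⟨A⟩ := exists_arc hv hd (by convert hl) (by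
      rw [Nat.card_eq_fintype_card] at hlt
      omega)
    obtain ⟨Q, hQ⟩ : ∃ Q, Fintype.card F = 2 * Q := by
      obtain ⟨n, _, hn⟩ := FiniteField.card F 2
      refine ⟨2 ^ ((n : ℕ) - 1), ?_⟩
      rw [hn, ← pow_succ']
      congr 1
      have := n.pos
      omega
    by_cases h4 : 2 ≤ Q
    · exact no_arc hQ h4 A
    · have h1 : 1 < Fintype.card F := Fintype.one_lt_card
      exact no_arc_two (by omega) A
  obtain ⟨v, b, hv, hd, hl⟩ := exists_lower (F := F) s
  obtain ⟨K, hK, hKc⟩ := C.lower hv hd (by convert hl)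
  have hc : Fintype.card ((F × F) ⊕ Bool) = Nat.card F ^ 2 + 2 := by
    rw [Fintype.card_sum, Fintype.card_prod, Fintype.card_bool, Nat.card_eq_fintype_card]
    ring
  refine le_antisymm ?_ ?_
  · refine csSup_le ⟨_, K, hK, rfl⟩ ?_
    rintro k ⟨K', hK', rfl⟩
    exact hup K' hK'
  · refine le_csSup ⟨Nat.card F ^ 2 + 2, ?_⟩ ⟨K, hK, by rw [hKc, hc]⟩
    rintro k ⟨K', hK', rfl⟩
    exact hup K' hK'

end Pool.Agent.Lib.MP_4dc748_co.TA
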