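import Pool.Agent.Lib.MP_4dc748_co.TA.CW

/-!
# Power sums, automorphisms
-/

set_option autoImplicit false

open scoped Classical

namespace Pool.Agent.Lib.MP_4dc748_co.TA

variable {F : Type} [Field F] [Fintype F] {s : F ≃+* F}

private theorem psum_kernel (x c : F) :
    ∑ i ∈ Finset.range (Fintype.card F), x ^ i * c ^ (Fintype.card F - 1 - i) =
      if x = c then 0 else 1 := by
  split_ifs with h
  · subst h
    have h1 : ∀ i ∈ Finset.range (Fintype.card F), x ^ i * x ^ (Fintype.card F - 1 - i) =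
        x ^ (Fintype.card F - 1) := by
      intro i hi
      rw [Finset.mem_range] at hi
      rw [← pow_add]
      congr 1
      omega
    rw [Finset.sum_congr rfl h1, Finset.sum_const, Finset.card_range, nsmul_eq_mul,
      FiniteField.cast_card_eq_zero, zero_mul]
  · have h1 := Commute.geom_sum₂_mul (Commute.all x c) (Fintype.card F)
    rw [FiniteField.pow_card, FiniteField.pow_card] at h1
    exact mul_right_cancel₀ (sub_ne_zero.2 h) (by rw [h1, one_mul])

private theorem psum_expand (f : F → F) (x : F) :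
    f x = ∑ c : F, c ^ 0 * f c -
      ∑ i ∈ Finset.range (Fintype.card F), x ^ i * ∑ c : F, c ^ (Fintype.card F - 1 - i) * f c := by
  have h1 : ∑ i ∈ Finset.range (Fintype.card F),
      x ^ i * ∑ c : F, c ^ (Fintype.card F - 1 - i) * f c =
      ∑ c : F, (if x = c then 0 else 1) * f c := by
    simp_rw [Finset.mul_sum]
    rw [Finset.sum_comm]
    refine Finset.sum_congr rfl fun c _ => ?_
    rw [← psum_kernel x c, Finset.sum_mul]
    refine Finset.sum_congr rfl fun i _ => ?_
    ring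
  rw [h1, ← Finset.sum_sub_distrib]
  have h2 : ∀ c ∈ (Finset.univ : Finset F), c ^ 0 * f c - (if x = c then 0 else 1) * f c =
      if x = c then f c else 0 := by
    intro c _
    split_ifs <;> ring
  rw [Finset.sum_congr rfl h2, Finset.sum_ite_eq]
  simp

/-- If all power sums Sum x^j f(x), j ≤ q - 2, j ≠ q - 1 - p, vanish then f = n0 + n1 x^p: write
f(x) = Sum over c of f(c) (1 + (x + c)^(q-1)), (x + c)^(q-1) = Sum over i ≤ q-1 of x^i c^(q-1-i) (all binomial
coefficients are 1 in F), so f(x) = Sum over i of a_i x^i with a_i = the power sum number q - 1 - i for i ≥ 1. -/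
theorem powersum_span [CharP F 2] {p : ℕ} (hp1 : 1 ≤ p) (hp : p < Fintype.card F - 1) {f : F → F}
    (h : ∀ j, j ≤ Fintype.card F - 2 → j ≠ Fintype.card F - 1 - p → ∑ x : F, x ^ j * f x = 0) :
    ∃ n0 n1 : F, ∀ x, f x = n0 + n1 * x ^ p := by
  refine ⟨∑ c : F, c ^ 0 * f c - ∑ c : F, c ^ (Fintype.card F - 1) * f c,
    - ∑ c : F, c ^ (Fintype.card F - 1 - p) * f c, fun x => ?_⟩
  have h0 : (0 : ℕ) ∈ Finset.range (Fintype.card F) := by
    rw [Finset.mem_range]
    omega
  have h1 : p ∈ (Finset.range (Fintype.card F)).erase 0 := by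
    rw [Finset.mem_erase, Finset.mem_range]
    omega
  have h2 : ∀ i ∈ ((Finset.range (Fintype.card F)).erase 0).erase p,
      x ^ i * ∑ c : F, c ^ (Fintype.card F - 1 - i) * f c = 0 := by
    intro i hi
    rw [Finset.mem_erase, Finset.mem_erase, Finset.mem_range] at hi
    rw [h _ (by omega) (by omega), mul_zero]
  rw [psum_expand f x, ← Finset.add_sum_erase _ _ h0, ← Finset.add_sum_erase _ _ h1,
    Finset.sum_eq_zero h2, pow_zero, one_mul, Nat.sub_zero]
  ring

/-- If all power sums number 0, ..., q - 1 vanish then f = 0. -/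
theorem powersum_zero [CharP F 2] {f : F → F}
    (h : ∀ j, j ≤ Fintype.card F - 1 → ∑ x : F, x ^ j * f x = 0) : ∀ x, f x = 0 := by
  intro x
  rw [psum_expand f x, h 0 (Nat.zero_le _), zero_sub, neg_eq_zero]
  refine Finset.sum_eq_zero fun i _ => ?_
  rw [h _ (Nat.sub_le _ _), mul_zero]

/-- Every automorphism of F is a power of Frobenius; x ↦ sqrt (s⁻¹ x) is x ↦ x^(2^k) with 2^k ≤ Q.
FiniteField.bijective_frobeniusAlgEquivOfAlgebraic_pow over ZMod 2; s⁻¹ = Frob^j, 0 ≤ j < r: k = j - 1, and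
k = r - 1 for j = 0 (x^(2^r) = x). -/
theorem exists_frob [CharP F 2] {Q : ℕ} (hq : Fintype.card F = 2 * Q) (s : F ≃+* F) :
    ∃ k : ℕ, 2 ^ k ≤ Q ∧ ∀ x : F, (x ^ 2 ^ k) ^ 2 = s.symm x := by
  letI : Algebra (ZMod 2) F := ZMod.algebra F 2
  let t : F ≃ₐ[ZMod 2] F := AlgEquiv.ofRingEquiv (f := s.symm) fun r => by
    have h1 : (s.symm : F →+* F).comp (algebraMap (ZMod 2) F) = algebraMap (ZMod 2) F :=
      Subsingleton.elim _ _
    exact RingHom.congr_fun h1 r
  obtain ⟨⟨j, hj⟩, hjt⟩ := (FiniteField.bijective_frobeniusAlgEquivOfAlgebraic_pow (ZMod 2) F).2 t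
  have hcard : Fintype.card F = 2 ^ Module.finrank (ZMod 2) F := by
    have h1 := Module.card_eq_pow_finrank (K := ZMod 2) (V := F)
    rw [h1, ZMod.card]
  have hfr : ∀ (i : ℕ) (x : F), (FiniteField.frobeniusAlgEquivOfAlgebraic (ZMod 2) F ^ i) x =
      x ^ 2 ^ i := by
    intro i
    induction i with
    | zero =>
      intro x
      rw [pow_zero, pow_zero, pow_one]
      rfl
    | succ i ih =>
      intro x
      rw [pow_succ, AlgEquiv.mul_apply, ih, pow_succ', pow_mul]
      congr 1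
  have hs : ∀ x, s.symm x = x ^ 2 ^ j := by
    intro x
    rw [← hfr j x]
    have h2 : (FiniteField.frobeniusAlgEquivOfAlgebraic (ZMod 2) F ^ j) = t := hjt
    rw [h2]
    rfl
  have hr : 1 ≤ Module.finrank (ZMod 2) F := by omega
  have hQ : 2 ^ (Module.finrank (ZMod 2) F - 1) = Q := by
    have h1 : 2 * 2 ^ (Module.finrank (ZMod 2) F - 1) = 2 * Q := by
      rw [← hq, hcard, ← pow_succ']
      congr 1
      omega
    omega
  rcases Nat.eq_zero_or_pos j with h0 | h0
  · refine ⟨Module.finrank (ZMod 2) F - 1, hQ.le, fun x => ?_⟩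
    rw [hs, h0, pow_zero, pow_one, ← pow_mul, ← pow_succ, Nat.sub_add_cancel hr, ← hcard,
      FiniteField.pow_card]
  · refine ⟨j - 1, ?_, fun x => ?_⟩
    · rw [← hQ]
      exact Nat.pow_le_pow_right (by norm_num) (by omega)
    · rw [hs, ← pow_mul, ← pow_succ, Nat.sub_add_cancel h0]

end Pool.Agent.Lib.MP_4dc748_co.TA
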