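import Pool.Agent.Lib.MP_4dc748_co.TA.PlaneA
import Pool.Agent.Lib.MP_4dc748_co.TA.Frame

/-!
# Lines of the plane in coordinates
-/

set_option autoImplicit false

open scoped Classical

namespace Pool.Agent.Lib.MP_4dc748_co.TA

variable {R F : Type} [Ring R] [Field F] {s : F ≃+* F}

/-- Elements with first coordinate ≠ 0 are units. -/
theorem planeB_unit (C : Coord R F s) {r : R} (hr : (C.e r).1 ≠ 0) :
    ∃ t : R, r * t = 1 ∧ t * r = 1 := by
  have h0 : s (C.e r).1 ≠ 0 := by simpa using hr
  refine ⟨C.e.symm ((C.e r).1⁻¹, -((C.e r).1⁻¹ * (C.e r).2 * (s (C.e r).1)⁻¹)), ?_, ?_⟩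
  · apply C.e.injective
    rw [C.e_mul, C.e.apply_symm_apply, C.e_one]
    refine Prod.ext (mul_inv_cancel₀ hr) ?_
    simp only [map_inv₀]
    field_simp
    ring
  · apply C.e.injective
    rw [C.e_mul, C.e.apply_symm_apply, C.e_one]
    refine Prod.ext (inv_mul_cancel₀ hr) ?_
    simp only
    field_simp
    ring

/-- The kernel of a row with a unit entry is free of rank 2. -/
theorem planeB_basis {l : Fin 3 → R} {i : Fin 3} {t : R} (h1 : l i * t = 1) (h2 : t * l i = 1)
    (L : Submodule Rᵐᵒᵖ (Fin 3 → R)) (hL : ∀ x, x ∈ L ↔ ∑ j, l j * x j = 0) :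
    IsLine R L := by
  have key : ∀ x, x ∈ L ↔ x i = -(t * ∑ j, l (i.succAbove j) * x (i.succAbove j)) := by
    intro x
    rw [hL, Fin.sum_univ_succAbove _ i]
    constructor
    · intro h
      have h3 : l i * x i = -∑ j, l (i.succAbove j) * x (i.succAbove j) :=
        eq_neg_of_add_eq_zero_left h
      have h4 : x i = t * (l i * x i) := by rw [← mul_assoc, h2, one_mul]
      rw [h4, h3, mul_neg]
    · intro h
      rw [h, mul_neg, ← mul_assoc, h1, one_mul, neg_add_cancel]
  let E : L ≃ₗ[Rᵐᵒᵖ] (Fin 2 → Rᵐᵒᵖ) :=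
    { toFun := fun x j => MulOpposite.op ((x : Fin 3 → R) (i.succAbove j))
      map_add' := fun x y => rfl
      map_smul' := fun r x => by
        funext j
        simp [MulOpposite.smul_eq_mul_unop]
      invFun := fun y => ⟨Fin.insertNth (α := fun _ => R) i
        (-(t * ∑ j, l (i.succAbove j) * (y j).unop)) fun j => (y j).unop, by
          rw [key]
          simp⟩
      left_inv := fun x => by
        apply Subtype.ext
        funext k
        refine Fin.succAboveCases i ?_ (fun j => ?_) k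
        · simp only [Fin.insertNth_apply_same]
          exact ((key x.1).1 x.2).symm
        · simp only [Fin.insertNth_apply_succAbove, MulOpposite.unop_op]
      right_inv := fun y => by
        funext j
        simp only [Fin.insertNth_apply_succAbove, MulOpposite.op_unop] }
  exact ⟨Module.Basis.ofEquivFun E⟩

/-- If a_i ≠ 0 then l_i is a unit and x ↦ (x_j), j ≠ i, is an isomorphism of the kernel onto R^2
(Fin.succAbove i). -/
theorem Coord.isLine_ker (C : Coord R F s) {a : Fin 3 → F} (c : Fin 3 → F) (ha : a ≠ 0) :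
    IsLine R (C.ker a c) := by
  obtain ⟨i, hi⟩ := Function.ne_iff.1 ha
  have h0 : (C.e (C.vec a c i)).1 ≠ 0 := by
    unfold Coord.vec
    rw [C.e.apply_symm_apply]
    exact hi
  obtain ⟨t, h1, h2⟩ := planeB_unit C h0
  exact planeB_basis h1 h2 _ fun x => Iff.rfl

/-- Every line is contained in such a kernel: basis x, y; v1 x, v1 y are independent (else x X λ + y X μ = 0),
a = their cross product, and c with c ⬝ᵥ s(v1 x) = - a ⬝ᵥ v2 x, c ⬝ᵥ s(v1 y) = - a ⬝ᵥ v2 y. -/
theorem Coord.exists_ker (C : Coord R F s) {L : Submodule Rᵐᵒᵖ (Fin 3 → R)} (hL : IsLine R L) :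
    ∃ a c : Fin 3 → F, a ≠ 0 ∧ L ≤ C.ker a c := by
  obtain ⟨B⟩ := hL
  set x : Fin 3 → R := (B 0 : Fin 3 → R) with hx
  set y : Fin 3 → R := (B 1 : Fin 3 → R) with hy
  have hind : ∀ c d : F, c • C.v1 x + d • C.v1 y = 0 → c = 0 ∧ d = 0 := by
    intro c d hcd
    have h1 : MulOpposite.op (C.e.symm (0, c)) • x + MulOpposite.op (C.e.symm (0, d)) • y = 0 := by
      apply planeA_ext C
      · funext i
        have k1 := congrFun (planeA_v1_smul C x (MulOpposite.op (C.e.symm (0, c)))) i
        have k2 := congrFun (planeA_v1_smul C y (MulOpposite.op (C.e.symm (0, d)))) i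
        simp only [MulOpposite.unop_op, C.e.apply_symm_apply, zero_smul, Pi.zero_apply] at k1 k2
        change (C.e (_ + _)).1 = (C.e 0).1
        rw [map_add, map_zero]
        change (C.e _).1 + (C.e _).1 = 0
        unfold Coord.v1 at k1 k2
        rw [k1, k2, add_zero]
      · funext i
        have k1 := congrFun (planeA_v2_smul C x (MulOpposite.op (C.e.symm (0, c)))) i
        have k2 := congrFun (planeA_v2_smul C y (MulOpposite.op (C.e.symm (0, d)))) i
        simp only [MulOpposite.unop_op, C.e.apply_symm_apply, map_zero, zero_smul, add_zero] at k1 k2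
        have k3 := congrFun hcd i
        change (C.e (_ + _)).2 = (C.e 0).2
        rw [map_add, map_zero]
        change (C.e _).2 + (C.e _).2 = 0
        unfold Coord.v2 at k1 k2
        rw [k1, k2]
        exact k3
    have h2 : MulOpposite.op (C.e.symm (0, c)) • B 0 + MulOpposite.op (C.e.symm (0, d)) • B 1 = 0 :=
      Subtype.ext h1
    have h3 := Fintype.linearIndependent_iff.mp B.linearIndependent
      (![MulOpposite.op (C.e.symm (0, c)), MulOpposite.op (C.e.symm (0, d))]) (by
        rw [Fin.sum_univ_two]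
        exact h2)
    have h4 : C.e.symm (0, c) = 0 := MulOpposite.op_injective (h3 0)
    have h5 : C.e.symm (0, d) = 0 := MulOpposite.op_injective (h3 1)
    have h6 : ((0, c) : F × F) = 0 := by
      rw [← C.e.apply_symm_apply (0, c), h4, map_zero]
    have h7 : ((0, d) : F × F) = 0 := by
      rw [← C.e.apply_symm_apply (0, d), h5, map_zero]
    exact ⟨congrArg Prod.snd h6, congrArg Prod.snd h7⟩
  have hli : LinearIndependent F ![C.v1 x, C.v1 y] := by
    rw [LinearIndependent.pair_iff]
    exact hind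
  have ha : crossProduct (C.v1 x) (C.v1 y) ≠ 0 := crossProduct_ne_zero_iff_linearIndependent.2 hli
  have he : crossProduct (C.v1 x) (C.v1 y) ⬝ᵥ C.v1 x = 0 := by
    rw [dotProduct_comm]
    exact dot_self_cross _ _
  have he0 : crossProduct (C.v1 x) (C.v1 y) ⬝ᵥ C.v1 y = 0 := by
    rw [dotProduct_comm]
    exact dot_cross_self _ _
  have hs : ∀ v w : Fin 3 → F, (s ∘ v) ⬝ᵥ (s ∘ w) = s (v ⬝ᵥ w) := by
    intro v w
    unfold dotProduct
    rw [map_sum]
    exact Finset.sum_congr rfl fun i _ => (map_mul s _ _).symm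
  have hs0 : ∀ v : Fin 3 → F, v ≠ 0 → s ∘ v ≠ 0 := by
    intro v hv h
    apply hv
    funext i
    have := congrFun h i
    simpa using this
  have hx0 : C.v1 x ≠ 0 := by
    intro h
    have := (hind 1 0 (by rw [h, smul_zero, zero_smul, add_zero])).1
    exact one_ne_zero this
  obtain ⟨a1, a2, e0, hF⟩ := exists_frame (a0 := s ∘ crossProduct (C.v1 x) (C.v1 y))
    (e1 := s ∘ C.v1 x) (e2 := s ∘ C.v1 y) (hs0 _ ha) (by rw [hs, he, map_zero])
    (by rw [hs, he0, map_zero]) (hs0 _ hx0) (by
      intro c hc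
      have h1 : C.v1 y = s.symm c • C.v1 x := by
        funext i
        have := congrArg s.symm (congrFun hc i)
        simpa using this
      have := (hind (-(s.symm c)) 1 (by rw [h1, neg_smul, one_smul, neg_add_cancel])).2
      exact one_ne_zero this)
  set B1 := -(crossProduct (C.v1 x) (C.v1 y) ⬝ᵥ C.v2 x) with hB1
  set B2 := -(crossProduct (C.v1 x) (C.v1 y) ⬝ᵥ C.v2 y) with hB2
  set c := B1 • a1 + B2 • a2 with hc
  have hc1 : c ⬝ᵥ (s ∘ C.v1 x) = B1 := by
    rw [hc, add_dotProduct, smul_dotProduct, smul_dotProduct, hF.h11, hF.h21, smul_zero, add_zero,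
      smul_eq_mul, mul_one]
  have hc2 : c ⬝ᵥ (s ∘ C.v1 y) = B2 := by
    rw [hc, add_dotProduct, smul_dotProduct, smul_dotProduct, hF.h12, hF.h22, smul_zero, zero_add,
      smul_eq_mul, mul_one]
  refine ⟨crossProduct (C.v1 x) (C.v1 y), c, ha, ?_⟩
  have kx : x ∈ C.ker (crossProduct (C.v1 x) (C.v1 y)) c := by
    rw [← Submodule.span_singleton_le_iff_mem, C.span_le_ker]
    exact ⟨he, by rw [hc1, hB1, add_neg_cancel]⟩
  have ky : y ∈ C.ker (crossProduct (C.v1 x) (C.v1 y)) c := by
    rw [← Submodule.span_singleton_le_iff_mem, C.span_le_ker]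
    exact ⟨he0, by rw [hc2, hB2, add_neg_cancel]⟩
  intro z hz
  have h1 := B.sum_repr ⟨z, hz⟩
  rw [Fin.sum_univ_two] at h1
  have h2 : z = B.repr ⟨z, hz⟩ 0 • x + B.repr ⟨z, hz⟩ 1 • y := (congrArg Subtype.val h1).symm
  rw [h2]
  exact Submodule.add_mem _ (Submodule.smul_mem _ _ kx) (Submodule.smul_mem _ _ ky)

end Pool.Agent.Lib.MP_4dc748_co.TA
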