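import Pool.Agent.Lib.MP_4dc748_co.TA.Defs

/-!
# The derivative of a polynomial at an interpolation node
-/

set_option autoImplicit false

open scoped Classical

namespace Pool.Agent.Lib.MP_4dc748_co.TA

/-- The derivative of a product of linear factors at a point which is not a root. -/
theorem slag_prod {F : Type} [Field F] (s : Finset F) (x : F) (hx : x ∉ s) :
    (∏ y ∈ s, (Polynomial.X - Polynomial.C y)).derivative.eval x =
      (∏ y ∈ s, (x - y)) * ∑ y ∈ s, (x - y)⁻¹ := by
  rw [Polynomial.derivative_prod_finset, Polynomial.eval_finsetSum, Finset.mul_sum]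
  refine Finset.sum_congr rfl fun y hy => ?_
  have hxy : x - y ≠ 0 := sub_ne_zero.2 fun h => hx (h ▸ hy)
  have h1 : ∏ z ∈ s, (x - z) = (x - y) * ∏ z ∈ s.erase y, (x - z) :=
    (Finset.mul_prod_erase s (fun z => x - z) hy).symm
  rw [h1]
  simp only [Polynomial.derivative_X_sub_C, mul_one, Polynomial.eval_prod, Polynomial.eval_sub,
    Polynomial.eval_X, Polynomial.eval_C]
  field_simp

/-- The derivative at a node x of a polynomial P of degree less than the number of nodes, from its values at the
nodes. Proof: let Λ = Prod over y in t.erase x of (X - y), apply Lagrange.coeff_eq_sum (node set t, v = id) to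
the polynomial G with (X - x) G = P Λ(x) - P(x) Λ (degree < t.card, so deg G < t.card - 1 and the coefficient
number t.card - 1 of G is 0): G(x) = P'(x) Λ(x) - P(x) Λ'(x), G(y) = P(y) Λ(x) / (y - x) for the other nodes;
Λ'(x) = Λ(x) * Sum 1 / (x - y). Divide by Λ(x). -/
theorem lag_deriv {F : Type} [Field F] {t : Finset F} {P : Polynomial F}
    (hP : P.degree < t.card) {x : F} (hx : x ∈ t) :
    P.derivative.eval x = P.eval x * ∑ y ∈ t.erase x, (x - y)⁻¹ +
      (∏ y ∈ t.erase x, (x - y)) *
        ∑ y ∈ t.erase x, P.eval y / ((x - y) * ∏ z ∈ t.erase y, (y - z)) := by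
  have hxt : x ∉ t.erase x := Finset.notMem_erase x t
  obtain ⟨La, hLa⟩ : ∃ La : Polynomial F, La = ∏ y ∈ t.erase x, (Polynomial.X - Polynomial.C y) :=
    ⟨_, rfl⟩
  obtain ⟨l, hl⟩ : ∃ l : F, l = ∏ y ∈ t.erase x, (x - y) := ⟨_, rfl⟩
  have hLx : La.eval x = l := by
    rw [hLa, hl, Polynomial.eval_prod]
    simp
  have hl0 : l ≠ 0 := by
    rw [hl]
    refine Finset.prod_ne_zero_iff.2 fun y hy => sub_ne_zero.2 fun h => hxt (h ▸ hy)
  have hLy : ∀ y ∈ t.erase x, La.eval y = 0 := by
    intro y hy
    rw [hLa, Polynomial.eval_prod]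
    exact Finset.prod_eq_zero hy (by simp)
  have hLd : La.derivative.eval x = l * ∑ y ∈ t.erase x, (x - y)⁻¹ := by
    rw [hLa, hl]
    exact slag_prod _ _ hxt
  have hLdeg : La.degree = ((t.erase x).card : ℕ) := by
    rw [hLa]
    simp [Polynomial.degree_prod, Polynomial.degree_X_sub_C]
  have hcard : (t.erase x).card < t.card := Finset.card_erase_lt_of_mem hx
  -- the polynomial H
  obtain ⟨H, hH⟩ : ∃ H : Polynomial F,
      H = P * Polynomial.C l - Polynomial.C (P.eval x) * La := ⟨_, rfl⟩
  have hHdeg : H.degree < t.card := by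
    rw [hH]
    refine lt_of_le_of_lt (Polynomial.degree_sub_le _ _) (max_lt ?_ ?_)
    · rw [Polynomial.degree_mul_C hl0]
      exact hP
    · refine lt_of_le_of_lt (b := La.degree) ?_ ?_
      · by_cases h0 : P.eval x = 0
        · rw [h0]
          simp
        · rw [Polynomial.degree_C_mul h0]
      · rw [hLdeg]
        exact_mod_cast hcard
  have hHx : H.eval x = 0 := by
    rw [hH]
    simp only [Polynomial.eval_sub, Polynomial.eval_mul, Polynomial.eval_C, hLx]
    ring
  obtain ⟨G, hG⟩ : ∃ G : Polynomial F, H = (Polynomial.X - Polynomial.C x) * G :=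
    Polynomial.dvd_iff_isRoot.2 hHx
  have hGdeg : G.coeff (t.card - 1) = 0 ∧ G.degree < t.card := by
    by_cases hG0 : G = 0
    · subst hG0
      simp
    · have h1 : (1 : WithBot ℕ) + G.degree = H.degree := by
        rw [hG, Polynomial.degree_mul, Polynomial.degree_X_sub_C]
      have h2 : G.degree = (G.natDegree : ℕ) := Polynomial.degree_eq_natDegree hG0
      rw [← h1, h2] at hHdeg
      have h3 : 1 + G.natDegree < t.card := by exact_mod_cast hHdeg
      refine ⟨Polynomial.coeff_eq_zero_of_natDegree_lt (by omega), ?_⟩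
      rw [h2]
      exact_mod_cast (by omega : G.natDegree < t.card)
  have hsum := Lagrange.coeff_eq_sum (s := t) (v := id) (Set.injOn_id _) hGdeg.2
  rw [hGdeg.1] at hsum
  simp only [id] at hsum
  rw [← Finset.add_sum_erase t _ hx, ← hl] at hsum
  have hGx : G.eval x = P.derivative.eval x * l - P.eval x * (l * ∑ y ∈ t.erase x, (x - y)⁻¹) := by
    have h1 : H.derivative.eval x = G.eval x := by
      rw [hG]
      simp [Polynomial.derivative_mul]
    rw [← h1, hH]
    simp only [Polynomial.derivative_sub, Polynomial.derivative_mul, Polynomial.derivative_C,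
      Polynomial.eval_sub, Polynomial.eval_mul, Polynomial.eval_C, hLd, mul_zero, zero_mul,
      add_zero, zero_add]
  have hGy : ∀ y ∈ t.erase x, G.eval y = P.eval y * l / (y - x) := by
    intro y hy
    have hyx : y - x ≠ 0 := sub_ne_zero.2 fun h => hxt (h ▸ hy)
    have h1 : H.eval y = (y - x) * G.eval y := by
      rw [hG]
      simp
    have h2 : H.eval y = P.eval y * l := by
      rw [hH]
      simp [hLy y hy]
    rw [eq_div_iff hyx, mul_comm, ← h1, h2]
  have hsum2 : ∑ y ∈ t.erase x, G.eval y / ∏ z ∈ t.erase y, (y - z) =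
      - (l * ∑ y ∈ t.erase x, P.eval y / ((x - y) * ∏ z ∈ t.erase y, (y - z))) := by
    rw [Finset.mul_sum, ← Finset.sum_neg_distrib]
    refine Finset.sum_congr rfl fun y hy => ?_
    have hyx : y - x ≠ 0 := sub_ne_zero.2 fun h => hxt (h ▸ hy)
    have hxy : x - y ≠ 0 := sub_ne_zero.2 fun h => hxt (h ▸ hy)
    have hpr : ∏ z ∈ t.erase y, (y - z) ≠ 0 :=
      Finset.prod_ne_zero_iff.2 fun z hz => sub_ne_zero.2 fun h => Finset.notMem_erase y t (h ▸ hz)
    rw [hGy y hy]
    have e : y - x = -(x - y) := by ring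
    rw [e]
    field_simp
  rw [hsum2, hGx] at hsum
  rw [← hl]
  generalize (∑ y ∈ t.erase x, (x - y)⁻¹) = A at hsum ⊢
  generalize (∑ y ∈ t.erase x, P.eval y / ((x - y) * ∏ z ∈ t.erase y, (y - z))) = B at hsum ⊢
  field_simp at hsum
  linear_combination -hsum

end Pool.Agent.Lib.MP_4dc748_co.TA
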