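import Pool.Agent.Lib.MP_4dc748_co.TA.SNode

/-!
# The lemma on arcs with missing points
-/

set_option autoImplicit false

open scoped Classical

namespace Pool.Agent.Lib.MP_4dc748_co.TA

open Polynomial

variable {F : Type} [Field F] [Fintype F]

/-- Sums over the field of polynomials of small degree. -/
theorem slem_sum_zero {G : F[X]} (hG : G.natDegree < Fintype.card F - 1) :
    ∑ x : F, G.eval x = 0 := by
  simp_rw [Polynomial.eval_eq_sum_range]
  rw [Finset.sum_comm]
  refine Finset.sum_eq_zero fun i hi => ?_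
  rw [Finset.mem_range] at hi
  rw [← Finset.mul_sum, FiniteField.sum_pow_lt_card_sub_one F i (by omega), mul_zero]

/-- The sum of the slopes of a polynomial. -/
theorem slem_slopes [CharP F 2] (hF : 2 ≤ Fintype.card F) {g : F[X]}
    (hg : g.natDegree ≤ Fintype.card F - 1) (x : F) :
    ∑ y ∈ Finset.univ.erase x, (g.eval x + g.eval y) / (x + y) = g.derivative.eval x := by
  have hroot : (g - C (g.eval x)).IsRoot x := by
    simp [Polynomial.IsRoot.def]
  obtain ⟨h, hh⟩ := Polynomial.dvd_iff_isRoot.2 hroot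
  have hdeg : h = 0 ∨ h.natDegree + 1 ≤ Fintype.card F - 1 := by
    by_cases h0 : h = 0
    · exact Or.inl h0
    · right
      have h1 : (g - C (g.eval x)).natDegree = 1 + h.natDegree := by
        rw [hh, Polynomial.natDegree_mul (Polynomial.X_sub_C_ne_zero x) h0,
          Polynomial.natDegree_X_sub_C]
      rw [Polynomial.natDegree_sub_C] at h1
      omega
  have hsum : ∑ y : F, h.eval y = 0 := by
    rcases hdeg with h0 | h0
    · rw [h0]
      simp
    · exact slem_sum_zero (by omega)
  rw [← Finset.add_sum_erase _ _ (Finset.mem_univ x)] at hsum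
  have hx : h.eval x = g.derivative.eval x := by
    have h1 : (g - C (g.eval x)).derivative.eval x = h.eval x := by
      rw [hh]
      simp [Polynomial.derivative_mul]
    rw [← h1]
    simp
  have hy : ∑ y ∈ Finset.univ.erase x, h.eval y =
      ∑ y ∈ Finset.univ.erase x, (g.eval x + g.eval y) / (x + y) := by
    refine Finset.sum_congr rfl fun y hy => ?_
    have hxy : x + y ≠ 0 := by
      intro h0
      exact (Finset.mem_erase.1 hy).1 (CharTwo.add_eq_zero.1 h0).symm
    have h1 : (g - C (g.eval x)).eval y = (y - x) * h.eval y := by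
      rw [hh]
      simp
    rw [Polynomial.eval_sub, Polynomial.eval_C, CharTwo.sub_eq_add, CharTwo.sub_eq_add,
      add_comm y x] at h1
    rw [eq_div_iff hxy, mul_comm, ← h1, add_comm]
  rw [← hy, ← hx]
  exact (CharTwo.add_eq_zero.1 hsum).symm

/-- S is a polynomial of degree less than the number of missing points. -/
theorem slem_agree [CharP F 2] {Q : ℕ} (hq : Fintype.card F = 2 * Q) (h2 : 2 ≤ Q) {X : Finset F}
    {f : F → F} (hL : LArc X f 0) (hX : (Finset.univ \ X).card ≤ X.card) :
    ∃ p : F[X], p.degree < (Finset.univ \ X).card ∧ ∀ x ∈ X, p.eval x = SX X f x := by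
  obtain ⟨t0, ht0, hc0⟩ := Finset.exists_subset_card_eq hX
  refine ⟨Lagrange.interpolate t0 id (SX X f), ?_, ?_⟩
  · rw [← hc0]
    exact Lagrange.degree_interpolate_lt _ (Set.injOn_id _)
  · intro x hx
    by_cases hxt : x ∈ t0
    · exact Lagrange.eval_interpolate_at_node _ (Set.injOn_id _) hxt
    · set p := Lagrange.interpolate t0 id (SX X f) with hp
      have hpd : p.degree < t0.card := Lagrange.degree_interpolate_lt _ (Set.injOn_id _)
      have hpe : ∀ z ∈ t0, p.eval z = SX X f z := fun z hz =>
        Lagrange.eval_interpolate_at_node _ (Set.injOn_id _) hz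
      have htc : (insert x t0).card = t0.card + 1 := Finset.card_insert_of_notMem hxt
      have h1 := slem_nodes hq h2 hL (t := insert x t0) (Finset.insert_subset hx ht0)
        (by rw [htc, hc0])
      have h3 := Lagrange.coeff_eq_sum (s := insert x t0) (v := id) (Set.injOn_id _) (P := p)
        (lt_trans hpd (by rw [htc]; exact_mod_cast Nat.lt_succ_self _))
      rw [htc, Nat.add_sub_cancel, Polynomial.coeff_eq_zero_of_degree_lt hpd,
        Finset.sum_insert hxt] at h3
      rw [Finset.sum_insert hxt] at h1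
      have h4 : ∑ z ∈ t0, SX X f z / ∏ y ∈ (insert x t0).erase z, (z + y) =
          ∑ z ∈ t0, p.eval (id z) / ∏ y ∈ (insert x t0).erase z, (id z - id y) := by
        refine Finset.sum_congr rfl fun z hz => ?_
        simp only [id]
        rw [hpe z hz]
        congr 1
        exact Finset.prod_congr rfl fun y _ => (CharTwo.sub_eq_add z y).symm
      rw [h4] at h1
      have h5 : ∏ y ∈ (insert x t0).erase x, (id x - id y) =
          ∏ y ∈ (insert x t0).erase x, (x + y) :=
        Finset.prod_congr rfl fun y _ => CharTwo.sub_eq_add x y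
      rw [h5] at h3
      have h6 : ∏ y ∈ (insert x t0).erase x, (x + y) ≠ 0 := by
        refine Finset.prod_ne_zero_iff.2 fun y hy h0 => ?_
        exact (Finset.mem_erase.1 hy).1 (CharTwo.add_eq_zero.1 h0).symm
      have h7 : p.eval x / ∏ y ∈ (insert x t0).erase x, (x + y) =
          SX X f x / ∏ y ∈ (insert x t0).erase x, (x + y) := by
        have h8 : p.eval (id x) = p.eval x := rfl
        rw [h8] at h3
        have h9 := h1.trans h3
        exact (add_right_cancel h9).symm
      exact (div_left_inj' h6).1 h7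

/-- The slopes of P^2 u, u = T w1^2. -/
theorem slem_key [CharP F 2] {Q : ℕ} (hq : Fintype.card F = 2 * Q) (h2 : 2 ≤ Q) {X : Finset F}
    {w w1 : F[X]} (hw1 : w = PX X * w1) (hd : (PX X).natDegree + w1.natDegree ≤ Q - 1)
    {x : F} (hx : x ∈ X) :
    ∑ y ∈ X.erase x, ((PX X ^ 2 * (Polynomial.X * w1 ^ 2)).eval x +
        (PX X ^ 2 * (Polynomial.X * w1 ^ 2)).eval y) / (x + y) +
      (PX X).eval x * (PX X).derivative.eval x * (Polynomial.X * w1 ^ 2).eval x =
      (w.eval x) ^ 2 := by
  obtain ⟨P, hP⟩ : ∃ P : F[X], P = PX X := ⟨_, rfl⟩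
  rw [← hP] at hw1 hd ⊢
  obtain ⟨u, hu⟩ : ∃ u : F[X], u = Polynomial.X * w1 ^ 2 := ⟨_, rfl⟩
  rw [← hu]
  obtain ⟨g, hg⟩ : ∃ g : F[X], g = P ^ 2 * u := ⟨_, rfl⟩
  rw [← hg]
  have hcard : 2 ≤ Fintype.card F := by omega
  have h20 : (2 : F) = 0 := CharTwo.two_eq_zero
  have hC2 : (C (2 : F) : F[X]) = 0 := by rw [h20, C_0]
  have hgd : g.natDegree ≤ Fintype.card F - 1 := by
    have h1 : g.natDegree ≤ 2 * P.natDegree + (1 + 2 * w1.natDegree) := by
      rw [hg, hu]
      refine Polynomial.natDegree_mul_le.trans (Nat.add_le_add ?_ ?_)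
      · exact Polynomial.natDegree_pow_le
      · refine Polynomial.natDegree_mul_le.trans (Nat.add_le_add ?_ ?_)
        · exact Polynomial.natDegree_X_le
        · exact Polynomial.natDegree_pow_le
    omega
  have hder : g.derivative = w ^ 2 := by
    rw [hg, hu, hw1, Polynomial.derivative_mul, Polynomial.derivative_mul,
      Polynomial.derivative_sq, Polynomial.derivative_sq, Polynomial.derivative_X, hC2]
    ring
  have hsl := slem_slopes hcard hgd x
  rw [hder, Polynomial.eval_pow] at hsl
  have hPprod : P = ∏ c ∈ Finset.univ \ X, (Polynomial.X - C c) := by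
    rw [hP, PX]
    exact Finset.prod_congr rfl fun c _ => (CharTwo.sub_eq_add (Polynomial.X : F[X]) (C c)).symm
  have hxc : x ∉ Finset.univ \ X := fun h => (Finset.mem_sdiff.1 h).2 hx
  have hPx : P.derivative.eval x = P.eval x * ∑ y ∈ Finset.univ \ X, (x - y)⁻¹ := by
    have h1 := slag_prod (Finset.univ \ X) x hxc
    rw [← hPprod] at h1
    rw [h1]
    congr 1
    rw [hPprod, Polynomial.eval_prod]
    exact Finset.prod_congr rfl fun y _ => by simp
  have hoff : ∀ y ∈ Finset.univ \ X, g.eval y = 0 := by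
    intro y hy
    rw [hg, hPprod, Polynomial.eval_mul, Polynomial.eval_pow, Polynomial.eval_prod,
      Finset.prod_eq_zero hy (by simp)]
    simp
  have hsplit : Finset.univ.erase x = X.erase x ∪ (Finset.univ \ X) := by
    ext y
    simp only [Finset.mem_erase, Finset.mem_univ, and_true, Finset.mem_union, Finset.mem_sdiff,
      true_and]
    constructor
    · intro h
      by_cases hy : y ∈ X
      · exact Or.inl ⟨h, hy⟩
      · exact Or.inr hy
    · rintro (h | h)
      · exact h.1
      · intro h'
        exact h (h' ▸ hx)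
  have hdisj : Disjoint (X.erase x) (Finset.univ \ X) := by
    rw [Finset.disjoint_left]
    intro y hy hy'
    exact (Finset.mem_sdiff.1 hy').2 (Finset.mem_of_mem_erase hy)
  rw [hsplit, Finset.sum_union hdisj] at hsl
  have hsecond : ∑ y ∈ Finset.univ \ X, (g.eval x + g.eval y) / (x + y) =
      P.eval x * P.derivative.eval x * u.eval x := by
    have h1 : ∑ y ∈ Finset.univ \ X, (g.eval x + g.eval y) / (x + y) =
        g.eval x * ∑ y ∈ Finset.univ \ X, (x - y)⁻¹ := by
      rw [Finset.mul_sum]
      refine Finset.sum_congr rfl fun y hy => ?_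
      rw [hoff y hy, add_zero, CharTwo.sub_eq_add, div_eq_mul_inv]
    rw [h1, hPx, hg, Polynomial.eval_mul, Polynomial.eval_pow]
    ring
  rw [hsecond] at hsl
  exact hsl

/-- The case h = 0. m = the number of elements not in X. If m ≥ Q then w = 0 (m zeros). So m < Q, and X has
q - m > m + 1 elements. (1) By slem_nodes S = SX X f agrees on X with a polynomial p of degree < m (p = 0 for
m = 0): take t0 ⊆ X with m elements, p = Lagrange.interpolate, and the node sets insert x t0; the divided
differences of p of order m vanish (Lagrange.coeff_eq_sum). (2) w = P w1 (P = PX X divides w, the roots are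
distinct), deg w1 ≤ Q - 1 - m. u = T w1^2, u' = w1^2 (char 2). Sum over x ∈ X of P(x) u(x) S(x) = Sum over all
x ∈ F of P(x) u(x) p(x) = 0: degree ≤ m + 1 + 2 (Q - 1 - m) + m - 1 = q - 2.
(3) Let g = P^2 u, g' = P^2 u' (char 2), deg g ≤ q - 1, g = 0 off X. The left side of (2) is
Sum over x ≠ y in X of g(x) (f x + f y) / (x + y) + Sum over x ∈ X of f(x) P(x) P'(x) u(x)
= Sum over x ∈ X of f(x) [Sum over y ∈ X.erase x of (g x + g y) / (x + y) + P(x) P'(x) u(x)].
Sum over all y ≠ x of (g x + g y) / (x + y) = g'(x): the polynomial ((g - g x) / (T - x)) has degree ≤ q - 2 and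
value g'(x) at x. The part y ∉ X is g(x) * Sum over y ∉ X of 1 / (x + y) = g(x) P'(x) / P(x) = P(x) P'(x) u(x).
So (2) says Sum over X of f(x) P(x)^2 u'(x) = 0, and P^2 u' = w^2. -/
theorem slem0 [CharP F 2] {Q : ℕ} (hq : Fintype.card F = 2 * Q) (h2 : 2 ≤ Q) {X : Finset F}
    {f : F → F} (hL : LArc X f 0) {w : F[X]} (hw : w.natDegree ≤ Q - 1)
    (h0 : ∀ x, x ∉ X → w.eval x = 0) :
    ∑ x ∈ X, (w.eval x) ^ 2 * f x = 0 := by
  by_cases hw0 : w = 0
  · rw [hw0]
    simp
  obtain ⟨P, hP⟩ : ∃ P : F[X], P = PX X := ⟨_, rfl⟩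
  have hPprod : P = ∏ c ∈ Finset.univ \ X, (Polynomial.X - C c) := by
    rw [hP, PX]
    exact Finset.prod_congr rfl fun c _ => (CharTwo.sub_eq_add (Polynomial.X : F[X]) (C c)).symm
  have hPm : P.Monic := by
    rw [hPprod]
    exact Polynomial.monic_prod_of_monic _ _ fun c _ => Polynomial.monic_X_sub_C c
  have hPd : P.natDegree = (Finset.univ \ X).card := by
    rw [hPprod, Polynomial.natDegree_prod_of_monic _ _ fun c _ => Polynomial.monic_X_sub_C c]
    simp
  have hdvd : P ∣ w := by
    rw [hPprod]
    refine Finset.prod_dvd_of_coprime ?_ ?_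
    · intro c _ d _ hcd
      exact Polynomial.pairwise_coprime_X_sub_C Function.injective_id hcd
    · intro c hc
      rw [Polynomial.dvd_iff_isRoot]
      exact h0 c (Finset.mem_sdiff.1 hc).2
  obtain ⟨w1, hw1⟩ := hdvd
  have hw10 : w1 ≠ 0 := by
    intro h
    rw [h, mul_zero] at hw1
    exact hw0 hw1
  have hdeg : P.natDegree + w1.natDegree ≤ Q - 1 := by
    rw [hw1, hPm.natDegree_mul' hw10] at hw
    exact hw
  have hcards : (Finset.univ \ X).card + X.card = Fintype.card F := by
    rw [Finset.card_sdiff_add_card_eq_card (Finset.subset_univ _), Finset.card_univ]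
  obtain ⟨p, hp1, hp2⟩ := slem_agree hq h2 hL (by omega)
  obtain ⟨u, hu⟩ : ∃ u : F[X], u = Polynomial.X * w1 ^ 2 := ⟨_, rfl⟩
  obtain ⟨g, hg⟩ : ∃ g : F[X], g = P ^ 2 * u := ⟨_, rfl⟩
  -- the first sum
  have hsum2 : ∑ x ∈ X, P.eval x * u.eval x * SX X f x = 0 := by
    have h1 : ∑ x ∈ X, P.eval x * u.eval x * SX X f x = ∑ x : F, (P * u * p).eval x := by
      rw [← Finset.sum_sdiff (Finset.subset_univ X)]
      have h3 : ∑ x ∈ Finset.univ \ X, (P * u * p).eval x = 0 := by
        refine Finset.sum_eq_zero fun y hy => ?_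
        have h4 : P.eval y = 0 := by
          rw [hPprod, Polynomial.eval_prod, Finset.prod_eq_zero hy (by simp)]
        rw [Polynomial.eval_mul, Polynomial.eval_mul, h4, zero_mul, zero_mul]
      rw [h3, zero_add]
      refine Finset.sum_congr rfl fun x hx => ?_
      rw [Polynomial.eval_mul, Polynomial.eval_mul, hp2 x hx]
    rw [h1]
    by_cases hp0 : p = 0
    · rw [hp0]
      simp
    · apply slem_sum_zero
      have h5 : p.natDegree < (Finset.univ \ X).card := by
        rw [Polynomial.degree_eq_natDegree hp0] at hp1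
        exact_mod_cast hp1
      have h6 : (P * u * p).natDegree ≤ P.natDegree + (1 + 2 * w1.natDegree) + p.natDegree := by
        refine Polynomial.natDegree_mul_le.trans (Nat.add_le_add ?_ le_rfl)
        refine Polynomial.natDegree_mul_le.trans (Nat.add_le_add le_rfl ?_)
        rw [hu]
        refine Polynomial.natDegree_mul_le.trans (Nat.add_le_add Polynomial.natDegree_X_le ?_)
        exact Polynomial.natDegree_pow_le
      omega
  have hkey : ∀ x ∈ X, ∑ y ∈ X.erase x, (g.eval x + g.eval y) / (x + y) +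
      P.eval x * P.derivative.eval x * u.eval x = (w.eval x) ^ 2 := by
    intro x hx
    have h1 := slem_key hq h2 (X := X) (w := w) (w1 := w1) (by rw [← hP]; exact hw1)
      (by rw [← hP]; exact hdeg) hx
    rw [← hP, ← hu, ← hg] at h1
    exact h1
  have hsym := snode_symm X (fun x y => (f x * g.eval y + f y * g.eval x) / (x + y)) (by
    intro x _ y _ _
    show (f x * g.eval y + f y * g.eval x) / (x + y) = (f y * g.eval x + f x * g.eval y) / (y + x)
    rw [add_comm (f x * g.eval y), add_comm x y])
  have hterm : ∀ x ∈ X, (w.eval x) ^ 2 * f x = P.eval x * u.eval x * SX X f x +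
      ∑ y ∈ X.erase x, (f x * g.eval y + f y * g.eval x) / (x + y) := by
    intro x hx
    have hgx : g.eval x = P.eval x * u.eval x * P.eval x := by
      rw [hg, Polynomial.eval_mul, Polynomial.eval_pow]
      ring
    have e1 : P.eval x * u.eval x * SX X f x =
        ∑ y ∈ X.erase x, g.eval x * ((f x + f y) / (x + y)) +
          f x * (P.eval x * P.derivative.eval x * u.eval x) := by
      rw [SX, ← hP, ← Finset.mul_sum, hgx]
      ring
    rw [← hkey x hx, e1, add_mul, Finset.sum_mul]
    have e2 : ∑ y ∈ X.erase x, (g.eval x + g.eval y) / (x + y) * f x =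
        ∑ y ∈ X.erase x, g.eval x * ((f x + f y) / (x + y)) +
        ∑ y ∈ X.erase x, (f x * g.eval y + f y * g.eval x) / (x + y) := by
      rw [← Finset.sum_add_distrib]
      refine Finset.sum_congr rfl fun y _ => ?_
      have h20 : (2 : F) = 0 := CharTwo.two_eq_zero
      have h3 : (g.eval x + g.eval y) * f x = g.eval x * (f x + f y) +
          (f x * g.eval y + f y * g.eval x) := by
        linear_combination (-(g.eval x * f y)) * h20
      rw [div_mul_eq_mul_div, h3, add_div, mul_div_assoc]
    rw [e2]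
    ring
  rw [Finset.sum_congr rfl hterm, Finset.sum_add_distrib, hsum2, hsym, add_zero]

/-- slem0 for the function f x + x h. -/
theorem slem [CharP F 2] {Q : ℕ} (hq : Fintype.card F = 2 * Q) (h2 : 2 ≤ Q) {X : Finset F}
    {f : F → F} {h : F} (hL : LArc X f h) {w : F[X]} (hw : w.natDegree ≤ Q - 1)
    (h0 : ∀ x, x ∉ X → w.eval x = 0) :
    ∑ x ∈ X, (w.eval x) ^ 2 * (f x + x * h) = 0 := by
  refine slem0 hq h2 (f := fun x => f x + x * h) ?_ hw h0
  have h20 : (2 : F) = 0 := CharTwo.two_eq_zero
  refine ⟨?_, ?_⟩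
  · intro x hx y hy hxy hcon
    apply hL.1 x hx y hy hxy
    have h1 : f x + x * h + (f y + y * h) = (x + y) * 0 := hcon
    linear_combination h1 - (x * h + y * h) * h20
  · intro x hx y hy z hz hxy hxz hyz hcon
    apply hL.2 x hx y hy z hz hxy hxz hyz
    have h1 : (f x + x * h + (f y + y * h)) * (x + z) =
      (f x + x * h + (f z + z * h)) * (x + y) := hcon
    linear_combination h1

end Pool.Agent.Lib.MP_4dc748_co.TA
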