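import Pool.Agent.Lib.MP_4dc748_co.TA.SLag

/-!
# The divided difference of the function S
-/

set_option autoImplicit false

open scoped Classical

namespace Pool.Agent.Lib.MP_4dc748_co.TA

open Polynomial

variable {F : Type} [Field F] [Fintype F]

/-- The polynomial Prod over c not in X of (T + c). -/
noncomputable def PX (X : Finset F) : F[X] := ∏ c ∈ Finset.univ \ X, (Polynomial.X + C c)

/-- S x = P(x) * Sum of the slopes (f x + f y) / (x + y), y ∈ X, y ≠ x, plus f(x) P'(x). -/
noncomputable def SX (X : Finset F) (f : F → F) (x : F) : F :=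
  (PX X).eval x * (∑ y ∈ X.erase x, (f x + f y) / (x + y)) + f x * (PX X).derivative.eval x

/-- The product of a + ρ over all ρ different from a is 1. -/
theorem snode_wilson [CharP F 2] (a : F) : ∏ r ∈ Finset.univ.erase a, (a + r) = 1 := by
  have h1 : ∏ u : Fˣ, (u : F) = 1 := by
    have h := congrArg (fun u : Fˣ => (u : F)) (FiniteField.prod_univ_units_id_eq_neg_one (K := F))
    simp only [Units.coe_prod, Units.val_neg, Units.val_one] at h
    rw [h, CharTwo.neg_eq]
  rw [← h1]
  symm
  refine Finset.prod_bij (fun (u : Fˣ) _ => a + u) ?_ ?_ ?_ ?_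
  · intro u _
    simp
  · intro u _ w _ h
    exact Units.ext (add_left_cancel h)
  · intro r hr
    have hne : a + r ≠ 0 := by
      intro h
      have h2 : r = a := by
        have h3 := CharTwo.add_eq_zero.1 h
        exact h3.symm
      exact (Finset.mem_erase.1 hr).1 h2
    refine ⟨Units.mk0 (a + r) hne, Finset.mem_univ _, ?_⟩
    rw [Units.val_mk0, ← add_assoc, CharTwo.add_self_eq_zero, zero_add]
  · intro u _
    rw [← add_assoc, CharTwo.add_self_eq_zero, zero_add]

/-- The sum of all elements of a field with at least 4 elements is 0. -/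
theorem snode_sum (hF : 4 ≤ Fintype.card F) : ∑ r : F, r = 0 := by
  have h := FiniteField.sum_pow_lt_card_sub_one F 1 (by omega)
  simpa using h

/-- Lagrange for two sets with the same number of elements. -/
theorem snode_lag {F : Type} [Field F] [CharP F 2] {s T : Finset F} (v : F → F) (hv : Set.InjOn v s)
    (hc : T.card = s.card) :
    ∑ r ∈ T, r + ∑ i ∈ s, v i =
      ∑ i ∈ s, (∏ r ∈ T, (v i + r)) / ∏ j ∈ s.erase i, (v i + v j) := by
  rcases Nat.eq_zero_or_pos s.card with h0 | h0
  · have hs : s = ∅ := Finset.card_eq_zero.1 h0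
    have hT : T = ∅ := Finset.card_eq_zero.1 (hc.trans h0)
    subst hs
    subst hT
    simp
  · obtain ⟨R, hR⟩ : ∃ R : F[X], R = ∏ r ∈ T, (Polynomial.X - C r) := ⟨_, rfl⟩
    obtain ⟨S, hS⟩ : ∃ S : F[X], S = ∏ i ∈ s, (Polynomial.X - C (v i)) := ⟨_, rfl⟩
    have hRd : R.degree = (s.card : ℕ) := by
      rw [hR, Polynomial.degree_prod]
      simp [Polynomial.degree_X_sub_C, hc]
    have hSd : S.degree = (s.card : ℕ) := by
      rw [hS, Polynomial.degree_prod]
      simp [Polynomial.degree_X_sub_C]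
    have hRm : R.leadingCoeff = 1 := by
      rw [hR]
      exact Polynomial.monic_prod_of_monic _ _ fun r _ => Polynomial.monic_X_sub_C r
    have hSm : S.leadingCoeff = 1 := by
      rw [hS]
      exact Polynomial.monic_prod_of_monic _ _ fun r _ => Polynomial.monic_X_sub_C (v r)
    have hR0 : R ≠ 0 := by
      intro h
      rw [h] at hRm
      simp at hRm
    have hdeg : (R - S).degree < (s.card : ℕ) := by
      have h := Polynomial.degree_sub_lt_left (hRd.trans hSd.symm) hR0 (hRm.trans hSm.symm)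
      rwa [hRd] at h
    have hsum := Lagrange.coeff_eq_sum (s := s) (v := v) hv hdeg
    have hc1 : R.coeff (s.card - 1) = ∑ r ∈ T, r := by
      have h := Polynomial.prod_X_sub_C_coeff_card_pred T (fun r : F => r) (by omega)
      rw [hR, ← hc, h, CharTwo.neg_eq]
    have hc2 : S.coeff (s.card - 1) = ∑ i ∈ s, v i := by
      have h := Polynomial.prod_X_sub_C_coeff_card_pred s v h0
      rw [hS, h, CharTwo.neg_eq]
    rw [Polynomial.coeff_sub, hc1, hc2, CharTwo.sub_eq_add] at hsum
    rw [hsum]
    refine Finset.sum_congr rfl fun i hi => ?_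
    have h1 : (R - S).eval (v i) = ∏ r ∈ T, (v i + r) := by
      have h2 : S.eval (v i) = 0 := by
        rw [hS, Polynomial.eval_prod]
        exact Finset.prod_eq_zero hi (by simp)
      rw [Polynomial.eval_sub, h2, sub_zero, hR, Polynomial.eval_prod]
      refine Finset.prod_congr rfl fun r _ => ?_
      simp [CharTwo.sub_eq_add]
    have h2 : ∏ j ∈ s.erase i, (v i - v j) = ∏ j ∈ s.erase i, (v i + v j) :=
      Finset.prod_congr rfl fun r _ => CharTwo.sub_eq_add _ _
    rw [h1, h2]

/-- The abstract form of the main identity. -/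
theorem snode_abs [CharP F 2] (hF : 4 ≤ Fintype.card F) {s s0 : Finset F} (h0 : s0 ⊆ s)
    (v : F → F) (hv : Set.InjOn v s) (hv0 : ∀ i ∈ s, v i ≠ 0)
    (hc : s0.card + s.card + 1 = Fintype.card F) :
    ∑ i ∈ s, v i + ∑ i ∈ s0, v i =
      ∑ i ∈ s0, (v i * (∏ j ∈ s.erase i, (v i + v j)) * ∏ j ∈ s0.erase i, (v i + v j))⁻¹ := by
  have h0S : (0 : F) ∉ s.image v := by
    intro h
    obtain ⟨i, hi, h⟩ := Finset.mem_image.1 h
    exact hv0 i hi h
  have hcS : (s.image v).card = s.card := Finset.card_image_of_injOn hv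
  obtain ⟨T, hT⟩ : ∃ T : Finset F, T = Finset.univ \ insert 0 (s.image v) := ⟨_, rfl⟩
  have hTc : T.card = s0.card := by
    rw [hT, Finset.card_sdiff_of_subset (Finset.subset_univ _), Finset.card_univ,
      Finset.card_insert_of_notMem h0S, hcS]
    omega
  have hTs : ∑ r ∈ T, r = ∑ i ∈ s, v i := by
    have h1 : ∑ r ∈ T, r + ∑ r ∈ insert 0 (s.image v), r = 0 := by
      rw [hT, Finset.sum_sdiff (Finset.subset_univ _)]
      exact snode_sum hF
    rw [Finset.sum_insert h0S, zero_add, Finset.sum_image (fun i hi j hj h => hv hi hj h)] at h1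
    exact CharTwo.add_eq_zero.1 h1
  have h1 := snode_lag (s := s0) (T := T) v (hv.mono (by exact_mod_cast h0)) hTc
  rw [hTs] at h1
  rw [h1]
  refine Finset.sum_congr rfl fun i hi => ?_
  have his : i ∈ s := h0 hi
  have hsplit : (∏ r ∈ T, (v i + r)) * (v i * ∏ j ∈ s.erase i, (v i + v j)) = 1 := by
    rw [← snode_wilson (v i)]
    have hsub : insert 0 ((s.image v).erase (v i)) ⊆ Finset.univ.erase (v i) := by
      intro r hr
      rcases Finset.mem_insert.1 hr with hr | hr
      · subst hr
        exact Finset.mem_erase.2 ⟨(hv0 i his).symm, Finset.mem_univ _⟩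
      · exact Finset.mem_erase.2 ⟨(Finset.mem_erase.1 hr).1, Finset.mem_univ _⟩
    rw [← Finset.prod_sdiff hsub]
    congr 1
    · refine Finset.prod_congr ?_ fun _ _ => rfl
      rw [hT]
      ext r
      simp only [Finset.mem_sdiff, Finset.mem_univ, true_and, Finset.mem_insert, Finset.mem_erase,
        and_true, not_or, not_and]
      constructor
      · rintro ⟨ha, hb⟩
        refine ⟨?_, ha, fun _ => hb⟩
        intro hr
        exact hb (Finset.mem_image.2 ⟨i, his, hr.symm⟩)
      · rintro ⟨ha, hb, hc⟩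
        exact ⟨hb, hc ha⟩
    · rw [Finset.prod_insert (fun h => h0S (Finset.mem_erase.1 h).2), add_zero]
      congr 1
      have himg : (s.image v).erase (v i) = (s.erase i).image v := by
        ext r
        simp only [Finset.mem_erase, Finset.mem_image]
        constructor
        · rintro ⟨ha, j, hj, rfl⟩
          exact ⟨j, ⟨fun h => ha (h ▸ rfl), hj⟩, rfl⟩
        · rintro ⟨j, ⟨ha, hj⟩, rfl⟩
          exact ⟨fun h => ha (hv hj his h), j, hj, rfl⟩
      rw [himg, Finset.prod_image]
      intro j hj k hk h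
      exact hv (Finset.mem_of_mem_erase hj) (Finset.mem_of_mem_erase hk) h
  have hne : v i * ∏ j ∈ s.erase i, (v i + v j) ≠ 0 := by
    intro h
    rw [h, mul_zero] at hsplit
    exact zero_ne_one hsplit
  have h2 : (∏ r ∈ T, (v i + r)) = (v i * ∏ j ∈ s.erase i, (v i + v j))⁻¹ :=
    eq_inv_of_mul_eq_one_left hsplit
  rw [h2, mul_inv (v i * ∏ j ∈ s.erase i, (v i + v j)), div_eq_mul_inv]

/-- A symmetric double sum over the pairs of different elements is 0 in characteristic 2. -/
theorem snode_symm {F : Type} [Field F] [CharP F 2] (t : Finset F) (H : F → F → F)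
    (hH : ∀ x ∈ t, ∀ y ∈ t, x ≠ y → H x y = H y x) :
    ∑ x ∈ t, ∑ y ∈ t.erase x, H x y = 0 := by
  induction t using Finset.induction_on with
  | empty => simp
  | insert a s ha ih =>
    rw [Finset.sum_insert ha, Finset.erase_insert ha]
    have h1 : ∑ x ∈ s, ∑ y ∈ (insert a s).erase x, H x y =
        ∑ x ∈ s, H x a + ∑ x ∈ s, ∑ y ∈ s.erase x, H x y := by
      rw [← Finset.sum_add_distrib]
      refine Finset.sum_congr rfl fun x hx => ?_
      have hax : a ≠ x := fun h => ha (h ▸ hx)
      rw [Finset.erase_insert_of_ne hax, Finset.sum_insert]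
      intro h
      exact ha (Finset.mem_of_mem_erase h)
    rw [h1, ih (fun x hx y hy => hH x (Finset.mem_insert_of_mem hx) y (Finset.mem_insert_of_mem hy)),
      add_zero]
    have h2 : ∑ x ∈ s, H x a = ∑ x ∈ s, H a x := by
      refine Finset.sum_congr rfl fun x hx => ?_
      exact hH x (Finset.mem_insert_of_mem hx) a (Finset.mem_insert_self a s)
        (fun h => ha (h ▸ hx))
    rw [h2, CharTwo.add_self_eq_zero]

/-- The quotient form of a product of differences of slopes. -/
theorem snode_prod {F : Type} [Field F] [CharP F 2] (E : Finset F) (f : F → F) (x y : F) (hxy : x + y ≠ 0)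
    (hE : ∀ z ∈ E, x + z ≠ 0) :
    (∏ z ∈ E, ((f x + f y) / (x + y) + (f x + f z) / (x + z))) * (x + y) ^ E.card *
      (∏ z ∈ E, (x + z)) = ∏ z ∈ E, (f x * (y + z) + f y * (x + z) + f z * (x + y)) := by
  rw [← Finset.prod_const, ← Finset.prod_mul_distrib, ← Finset.prod_mul_distrib]
  refine Finset.prod_congr rfl fun z hz => ?_
  have hz0 := hE z hz
  have h2 : (2 : F) = 0 := CharTwo.two_eq_zero
  field_simp
  linear_combination (f x * x) * h2

/-- Every divided difference of order m of S on X vanishes, m = the number of elements not in X.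
Write g(x, y) = (f x + f y) / (x + y) (the slope), Δ(x, y, z) = f x (y + z) + f y (x + z) + f z (x + y), which is
symmetric, W_x = Prod over z in t.erase x of (x + z), P = PX X. By hL (h = 0) all slopes g(x, y) are not 0, and
g(x, y) ≠ g(x, z) for y ≠ z, i.e. Δ(x, y, z) ≠ 0.
(1) Fix x ∈ X. T_x = univ minus 0 and the slopes g(x, y), y ∈ X.erase x; it has m elements. Σ of all elements of F
is 0 (q > 2), so the sum of T_x is Σ_x := the sum of the slopes at x. Let R_x = Prod over τ ∈ T_x of (T + τ).
For y ∈ X.erase x: the product of (g(x, y) + ρ) over all ρ ≠ g(x, y) in F is 1 (it is the product of all nonzero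
elements; char 2), so R_x(g(x, y)) * g(x, y) * Prod over z ∈ X, z ≠ x, y, of (g(x, y) + g(x, z)) = 1.
(2) g(x, y) + g(x, z) = Δ(x, y, z) / ((x + y) (x + z)), and P(x) * Prod over z ∈ X.erase x of (x + z) = 1, so
P(x) R_x(g(x, y)) = (x + y)^(|X|-3) / (g(x, y) Prod over z of Δ(x, y, z)) =: G(x, y), symmetric in x, y
(write (x + y)^|X| / (x + y)^3).
(3) Lagrange.coeff_eq_sum for R_x minus Prod over y ∈ t.erase x of (T + g(x, y)) (degree < m) at the m nodes
g(x, y), y ∈ t.erase x (for m = 0 there is nothing to do, both sides of the following are 0): Σ_x + Sum over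
y ∈ t.erase x of g(x, y) = Sum over y ∈ t.erase x of R_x(g(x, y)) / Prod over z ∈ t, z ≠ x, y, of
(g(x, y) + g(x, z)). Times P(x) / W_x, by (2): P(x) (Σ_x + Sum over y ∈ t.erase x of g(x, y)) / W_x =
Sum over y ∈ t.erase x of H(x, y), H(x, y) = G(x, y) (x + y)^m / ((x + y)^2 Prod over z of Δ(x, y, z)),
z ∈ t, z ≠ x, y, symmetric.
(4) Sum over x ∈ t: the right side is 0 (char 2, symmetric, x ≠ y). So Sum over x ∈ t of P(x) Σ_x / W_x =
Sum over x ≠ y in t of P(x) (f x + f y) / (W_x (x + y)), and the claim says that the coefficient of f(x) in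
Sum over x of S(x) / W_x is 0: this is lag_deriv for P and t (degree m < m + 1). -/
theorem slem_nodes [CharP F 2] {Q : ℕ} (hq : Fintype.card F = 2 * Q) (h2 : 2 ≤ Q) {X : Finset F}
    {f : F → F} (hL : LArc X f 0) {t : Finset F} (ht : t ⊆ X)
    (hc : t.card = (Finset.univ \ X).card + 1) :
    ∑ x ∈ t, SX X f x / ∏ y ∈ t.erase x, (x + y) = 0 := by
  have hF : 4 ≤ Fintype.card F := by omega
  have hXc : (Finset.univ \ X).card + X.card = Fintype.card F := by
    rw [Finset.card_sdiff_add_card_eq_card (Finset.subset_univ _), Finset.card_univ]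
  have hadd : ∀ a b : F, a ≠ b → a + b ≠ 0 := fun a b h h' => h (CharTwo.add_eq_zero.1 h')
  obtain ⟨W, hW⟩ : ∃ W : F → F, ∀ x, W x = ∏ y ∈ t.erase x, (x + y) := ⟨_, fun _ => rfl⟩
  obtain ⟨P, hP⟩ : ∃ P : F[X], P = PX X := ⟨_, rfl⟩
  have hW0 : ∀ x, W x ≠ 0 := by
    intro x
    rw [hW]
    exact Finset.prod_ne_zero_iff.2 fun y hy => hadd x y fun h => Finset.notMem_erase x t (h ▸ hy)
  -- (A) the value of P at the points of X
  have hPx : ∀ x ∈ X, P.eval x * ∏ z ∈ X.erase x, (x + z) = 1 := by
    intro x hx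
    have h1 : P.eval x = ∏ c ∈ Finset.univ \ X, (x + c) := by
      rw [hP, PX, Polynomial.eval_prod]
      simp
    rw [h1, ← snode_wilson x]
    have hsub : X.erase x ⊆ Finset.univ.erase x := Finset.erase_subset_erase x (Finset.subset_univ _)
    rw [← Finset.prod_sdiff hsub]
    congr 1
    refine Finset.prod_congr ?_ fun _ _ => rfl
    ext r
    simp only [Finset.mem_sdiff, Finset.mem_univ, true_and, Finset.mem_erase, and_true, not_and]
    constructor
    · intro h
      exact ⟨fun h' => h (h' ▸ hx), fun _ => h⟩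
    · rintro ⟨ha, hb⟩
      exact hb ha
  -- (B) the slopes
  have hg0 : ∀ x ∈ X, ∀ y ∈ X, x ≠ y → f x + f y ≠ 0 := by
    intro x hx y hy hxy
    have h := hL.1 x hx y hy hxy
    rwa [mul_zero] at h
  have hinj : ∀ x ∈ X, Set.InjOn (fun y => (f x + f y) / (x + y)) (X.erase x) := by
    intro x hx y hy z hz h
    by_contra hyz
    have hy' := Finset.mem_erase.1 (Finset.mem_coe.1 hy)
    have hz' := Finset.mem_erase.1 (Finset.mem_coe.1 hz)
    have h3 := hL.2 x hx y hy'.2 z hz'.2 hy'.1.symm hz'.1.symm hyz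
    apply h3
    have h' : (f x + f y) / (x + y) = (f x + f z) / (x + z) := h
    rwa [div_eq_div_iff (hadd x y hy'.1.symm) (hadd x z hz'.1.symm)] at h'
  -- (C) the symmetric function
  obtain ⟨D3, hD3⟩ : ∃ D3 : F → F → F → F,
      ∀ x y z, D3 x y z = f x * (y + z) + f y * (x + z) + f z * (x + y) := ⟨_, fun _ _ _ => rfl⟩
  obtain ⟨H, hH⟩ : ∃ H : F → F → F, ∀ x y, H x y =
      (x + y) ^ ((X.erase x).erase y).card * (x + y) ^ ((t.erase x).erase y).card /
        ((x + y) * (f x + f y) * (∏ z ∈ (X.erase x).erase y, D3 x y z) *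
          ∏ z ∈ (t.erase x).erase y, D3 x y z) := ⟨_, fun _ _ => rfl⟩
  have hHs : ∀ x ∈ t, ∀ y ∈ t, x ≠ y → H x y = H y x := by
    intro x _ y _ _
    rw [hH, hH, Finset.erase_right_comm (s := X) (a := x) (b := y),
      Finset.erase_right_comm (s := t) (a := x) (b := y), add_comm x y, add_comm (f x) (f y)]
    have h1 : ∀ z, D3 x y z = D3 y x z := by
      intro z
      rw [hD3, hD3]
      ring
    simp only [h1]
  have hkey : ∀ x ∈ t, P.eval x / W x * (∑ y ∈ X.erase x, (f x + f y) / (x + y) +
      ∑ y ∈ t.erase x, (f x + f y) / (x + y)) = ∑ y ∈ t.erase x, H x y := by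
    intro x hx
    have hxX := ht hx
    have hcard : (t.erase x).card + (X.erase x).card + 1 = Fintype.card F := by
      rw [Finset.card_erase_of_mem hx, Finset.card_erase_of_mem hxX]
      have h3 : 0 < X.card := Finset.card_pos.2 ⟨x, hxX⟩
      omega
    have h1 := snode_abs hF (s := X.erase x) (s0 := t.erase x) (Finset.erase_subset_erase x ht)
      (fun y => (f x + f y) / (x + y)) (hinj x hxX) (by
        intro y hy
        have hy' := Finset.mem_erase.1 hy
        exact div_ne_zero (hg0 x hxX y hy'.2 hy'.1.symm) (hadd x y hy'.1.symm)) hcard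
    rw [h1, Finset.mul_sum]
    refine Finset.sum_congr rfl fun y hy => ?_
    have hy' := Finset.mem_erase.1 hy
    have hyX := ht hy'.2
    have hxy : x + y ≠ 0 := hadd x y hy'.1.symm
    have hE1 : ∀ z ∈ (X.erase x).erase y, x + z ≠ 0 := fun z hz =>
      hadd x z (Finset.mem_erase.1 (Finset.mem_erase.1 hz).2).1.symm
    have hE2 : ∀ z ∈ (t.erase x).erase y, x + z ≠ 0 := fun z hz =>
      hadd x z (Finset.mem_erase.1 (Finset.mem_erase.1 hz).2).1.symm
    have hp1 := snode_prod ((X.erase x).erase y) f x y hxy hE1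
    have hp2 := snode_prod ((t.erase x).erase y) f x y hxy hE2
    have hWx : W x = (x + y) * ∏ z ∈ (t.erase x).erase y, (x + z) := by
      rw [hW]
      exact (Finset.mul_prod_erase (t.erase x) (fun z => x + z) hy).symm
    have hPx' : P.eval x * ((x + y) * ∏ z ∈ (X.erase x).erase y, (x + z)) = 1 := by
      have h3 := hPx x hxX
      rw [← Finset.mul_prod_erase (X.erase x) (fun z => x + z)
        (Finset.mem_erase.2 ⟨hy'.1, hyX⟩)] at h3
      exact h3
    have hne1 : ∏ z ∈ (X.erase x).erase y, (x + z) ≠ 0 := Finset.prod_ne_zero_iff.2 hE1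
    have hne2 : ∏ z ∈ (t.erase x).erase y, (x + z) ≠ 0 := Finset.prod_ne_zero_iff.2 hE2
    have hfxy : f x + f y ≠ 0 := hg0 x hxX y hyX hy'.1.symm
    rw [hH]
    simp only [hD3]
    rw [← hp1, ← hp2, hWx]
    have hPe : P.eval x = ((x + y) * ∏ z ∈ (X.erase x).erase y, (x + z))⁻¹ :=
      eq_inv_of_mul_eq_one_left hPx'
    rw [hPe]
    generalize (∏ z ∈ (X.erase x).erase y, ((f x + f y) / (x + y) + (f x + f z) / (x + z))) = A1
    generalize (∏ z ∈ (t.erase x).erase y, ((f x + f y) / (x + y) + (f x + f z) / (x + z))) = A2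
    generalize (∏ z ∈ (X.erase x).erase y, (x + z)) = B1 at hne1 ⊢
    generalize (∏ z ∈ (t.erase x).erase y, (x + z)) = B2 at hne2 ⊢
    have hpw1 : (x + y) ^ ((X.erase x).erase y).card ≠ 0 := pow_ne_zero _ hxy
    have hpw2 : (x + y) ^ ((t.erase x).erase y).card ≠ 0 := pow_ne_zero _ hxy
    generalize (x + y) ^ ((X.erase x).erase y).card = C1 at hpw1 ⊢
    generalize (x + y) ^ ((t.erase x).erase y).card = C2 at hpw2 ⊢
    by_cases hA1 : A1 = 0
    · subst hA1
      simp
    by_cases hA2 : A2 = 0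
    · subst hA2
      simp
    field_simp
  have hsumH : ∑ x ∈ t, P.eval x / W x * (∑ y ∈ X.erase x, (f x + f y) / (x + y) +
      ∑ y ∈ t.erase x, (f x + f y) / (x + y)) = 0 := by
    rw [Finset.sum_congr rfl hkey]
    exact snode_symm t H hHs
  -- (D) the derivative
  have hdeg : P.degree < t.card := by
    rw [hc, hP, PX, Polynomial.degree_prod]
    simp only [Polynomial.degree_X_add_C, Finset.sum_const, nsmul_eq_mul, mul_one]
    exact_mod_cast Nat.lt_succ_self _
  have hder : ∀ x ∈ t, P.derivative.eval x / W x =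
      P.eval x / W x * (∑ y ∈ t.erase x, (x + y)⁻¹) +
        ∑ y ∈ t.erase x, P.eval y / W y * (x + y)⁻¹ := by
    intro x hx
    have h1 := lag_deriv hdeg hx
    simp only [CharTwo.sub_eq_add] at h1
    rw [h1, ← hW x]
    have h3 : ∑ y ∈ t.erase x, P.eval y / ((x + y) * ∏ z ∈ t.erase y, (y + z)) =
        ∑ y ∈ t.erase x, P.eval y / W y * (x + y)⁻¹ := by
      refine Finset.sum_congr rfl fun y _ => ?_
      rw [← hW y, div_mul_eq_mul_div, div_eq_mul_inv, div_eq_mul_inv, mul_inv]
      ring
    rw [h3]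
    have hw := hW0 x
    field_simp
  -- (E) conclusion
  have hfin : ∑ x ∈ t, SX X f x / W x = 0 := by
    have h1 : ∑ x ∈ t, SX X f x / W x =
        ∑ x ∈ t, P.eval x / W x * (∑ y ∈ X.erase x, (f x + f y) / (x + y) +
          ∑ y ∈ t.erase x, (f x + f y) / (x + y)) +
        ∑ x ∈ t, ∑ y ∈ t.erase x, (P.eval x / W x * f y * (x + y)⁻¹ +
          P.eval y / W y * f x * (x + y)⁻¹) := by
      rw [← Finset.sum_add_distrib]
      refine Finset.sum_congr rfl fun x hx => ?_
      rw [SX, ← hP, Finset.sum_add_distrib]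
      have e1 : ∑ y ∈ t.erase x, (f x + f y) / (x + y) =
          f x * ∑ y ∈ t.erase x, (x + y)⁻¹ + ∑ y ∈ t.erase x, f y * (x + y)⁻¹ := by
        rw [Finset.mul_sum, ← Finset.sum_add_distrib]
        refine Finset.sum_congr rfl fun y _ => ?_
        rw [div_eq_mul_inv, add_mul]
      have e2 : ∑ y ∈ t.erase x, P.eval x / W x * f y * (x + y)⁻¹ =
          P.eval x / W x * ∑ y ∈ t.erase x, f y * (x + y)⁻¹ := by
        rw [Finset.mul_sum]
        refine Finset.sum_congr rfl fun y _ => ?_
        ring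
      have e3 : ∑ y ∈ t.erase x, P.eval y / W y * f x * (x + y)⁻¹ =
          f x * ∑ y ∈ t.erase x, P.eval y / W y * (x + y)⁻¹ := by
        rw [Finset.mul_sum]
        refine Finset.sum_congr rfl fun y _ => ?_
        ring
      rw [e1, e2, e3, add_div, mul_div_assoc (f x), hder x hx]
      have h22 : (2 : F) = 0 := CharTwo.two_eq_zero
      generalize (∑ y ∈ t.erase x, (x + y)⁻¹) = a1
      generalize (∑ y ∈ t.erase x, f y * (x + y)⁻¹) = a2
      generalize (∑ y ∈ t.erase x, P.eval y / W y * (x + y)⁻¹) = a3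
      generalize (∑ y ∈ X.erase x, (f x + f y) / (x + y)) = a4
      rw [mul_div_right_comm]
      linear_combination (-(P.eval x / W x * a2)) * h22
    rw [h1, hsumH, zero_add]
    refine snode_symm t _ fun x _ y _ _ => ?_
    rw [add_comm x y, add_comm]
  rw [← hfin]
  exact Finset.sum_congr rfl fun x _ => by rw [hW]

end Pool.Agent.Lib.MP_4dc748_co.TA
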