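import Pool.Agent.Lib.MP_4dc748_co.TA.LineB
import Pool.Agent.Lib.MP_4dc748_co.TA.SLem

/-!
# The functional D: the relation on one line
-/

set_option autoImplicit false

open scoped Classical

namespace Pool.Agent.Lib.MP_4dc748_co.TA

variable {F : Type} [Field F] [Fintype F] {s : F ≃+* F}

theorem D_add [CharP F 2] (A : Arc F s) (a : Fin 3 → F) (w w' : MvPolynomial (Fin 3) F) :
    D A a (w + w') = D A a w + D A a w' := by
  unfold D
  rw [← Finset.sum_add_distrib]
  refine Finset.sum_congr rfl fun v _ => ?_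
  rw [map_add, CharTwo.add_sq, add_mul]

theorem D_smul (A : Arc F s) (a : Fin 3 → F) (c : F) (w : MvPolynomial (Fin 3) F) :
    D A a (MvPolynomial.C c * w) = c ^ 2 * D A a w := by
  unfold D
  rw [Finset.mul_sum]
  refine Finset.sum_congr rfl fun v _ => ?_
  rw [map_mul, MvPolynomial.eval_C]
  ring

theorem D_sum [CharP F 2] (A : Arc F s) (a : Fin 3 → F) {κ : Type} (T : Finset κ)
    (w : κ → MvPolynomial (Fin 3) F) :
    D A a (∑ i ∈ T, w i) = ∑ i ∈ T, D A a (w i) := by
  induction T using Finset.induction_on with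
  | empty =>
    unfold D
    simp
  | insert i T hi ih => rw [Finset.sum_insert hi, Finset.sum_insert hi, D_add, ih]

theorem D_scale (A : Arc F s) {c : F} (hc : c ≠ 0) (a : Fin 3 → F) (w : MvPolynomial (Fin 3) F) :
    D A (c • a) w = c * D A a w := by
  unfold D
  rw [Finset.mul_sum]
  refine Finset.sum_congr ?_ fun v _ => ?_
  · ext v
    simp [smul_dotProduct, hc]
  · rw [smul_dotProduct, smul_eq_mul]
    ring

/-- A homogeneous polynomial at a multiple of a vector. -/
theorem star_hom {w : MvPolynomial (Fin 3) F} {n : ℕ} (hw : w.IsHomogeneous n) (c : F)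
    (v : Fin 3 → F) : MvPolynomial.eval (c • v) w = c ^ n * MvPolynomial.eval v w := by
  rw [MvPolynomial.eval_eq', MvPolynomial.eval_eq', Finset.mul_sum]
  refine Finset.sum_congr rfl fun d hd => ?_
  have h1 : ∑ i, d i = n := by
    have h2 := hw (MvPolynomial.mem_support_iff.mp hd)
    rw [← h2, Finsupp.weight_apply, Finsupp.sum_fintype _ _ (by simp)]
    simp
  have h3 : ∀ i, (c • v) i ^ d i = c ^ d i * v i ^ d i := fun i => by
    rw [Pi.smul_apply, smul_eq_mul, mul_pow]
  simp_rw [h3]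
  rw [Finset.prod_mul_distrib, Finset.prod_pow_eq_pow_sum, h1]
  ring

theorem star_comp (s : F ≃+* F) (c : F) (v : Fin 3 → F) : s ∘ (c • v) = s c • (s ∘ v) := by
  ext i
  simp

/-- The restriction of a homogeneous polynomial to the line u + t v: the polynomial. -/
theorem star_poly {w : MvPolynomial (Fin 3) F} {n : ℕ} (hw : w.IsHomogeneous n)
    (u v : Fin 3 → F) :
    ∃ p : Polynomial F, p.natDegree ≤ n ∧ p.coeff n = MvPolynomial.eval v w ∧
      ∀ x, p.eval x = MvPolynomial.eval (u + x • v) w := by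
  have hf : ∀ i, (Polynomial.C (u i) + Polynomial.C (v i) * Polynomial.X : Polynomial F).natDegree ≤ 1 := by
    intro i
    refine (Polynomial.natDegree_add_le _ _).trans (max_le ?_ ?_)
    · rw [Polynomial.natDegree_C]
      exact zero_le_one
    · exact (Polynomial.natDegree_C_mul_le _ _).trans Polynomial.natDegree_X_le
  have hc : ∀ i, (Polynomial.C (u i) + Polynomial.C (v i) * Polynomial.X : Polynomial F).coeff 1 =
      v i := by
    intro i
    rw [Polynomial.coeff_add, Polynomial.coeff_C_mul, Polynomial.coeff_X_one, mul_one,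
      Polynomial.coeff_C_succ, zero_add]
  refine ⟨MvPolynomial.aeval (fun i => Polynomial.C (u i) + Polynomial.C (v i) * Polynomial.X) w,
    ?_, ?_, ?_⟩
  · have h := MvPolynomial.aeval_natDegree_le w hw.totalDegree_le
      (fun i => Polynomial.C (u i) + Polynomial.C (v i) * Polynomial.X) hf
    rwa [mul_one] at h
  · rw [MvPolynomial.aeval_def, MvPolynomial.eval₂_eq', Polynomial.finsetSum_coeff,
      MvPolynomial.eval_eq']
    refine Finset.sum_congr rfl fun d hd => ?_
    have h1 : d 0 + d 1 + d 2 = n := by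
      have h2 := hw (MvPolynomial.mem_support_iff.mp hd)
      rw [← h2, Finsupp.weight_apply, Finsupp.sum_fintype _ _ (by simp), Fin.sum_univ_three]
      simp
    rw [← Polynomial.C_eq_algebraMap, Polynomial.coeff_C_mul, Fin.prod_univ_three,
      Fin.prod_univ_three]
    congr 1
    have h3 : ∀ i, ((Polynomial.C (u i) + Polynomial.C (v i) * Polynomial.X : Polynomial F) ^ d i).natDegree
        ≤ d i := fun i => by
      have h4 := Polynomial.natDegree_pow_le_of_le (d i) (hf i)
      rwa [mul_one] at h4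
    have h5 : ∀ i, ((Polynomial.C (u i) + Polynomial.C (v i) * Polynomial.X : Polynomial F) ^ d i).coeff
        (d i) = v i ^ d i := fun i => by
      have h6 := Polynomial.coeff_pow_of_natDegree_le (m := d i) (hf i)
      rw [mul_one, hc] at h6
      exact h6
    rw [← h1, Polynomial.coeff_mul_add_eq_of_natDegree_le
      (Polynomial.natDegree_mul_le.trans (add_le_add (h3 0) (h3 1))) (h3 2),
      Polynomial.coeff_mul_add_eq_of_natDegree_le (h3 0) (h3 1), h5, h5, h5]
  · intro x
    rw [← Polynomial.coe_evalRingHom, MvPolynomial.aeval_def, MvPolynomial.hom_eval₂]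
    show _ = MvPolynomial.eval₂ (RingHom.id F) (u + x • v) w
    congr 1
    · ext c
      simp
    · ext i
      rw [Polynomial.coe_evalRingHom, Polynomial.eval_add, Polynomial.eval_C,
        Polynomial.eval_mul, Polynomial.eval_C, Polynomial.eval_X, Pi.add_apply, Pi.smul_apply,
        smul_eq_mul, mul_comm]

/-- The sum of all values of x p(x)^2 for a polynomial p of degree at most Q - 1. -/
theorem star_sum [CharP F 2] {Q : ℕ} (hq : Fintype.card F = 2 * Q) (h2 : 2 ≤ Q)
    {p : Polynomial F} (hp : p.natDegree ≤ Q - 1) :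
    ∑ x : F, (p.eval x) ^ 2 * x = (p.coeff (Q - 1)) ^ 2 := by
  have h1 : ∀ x : F, (p.eval x) ^ 2 * x = (p ^ 2 * Polynomial.X).eval x := fun x => by
    rw [Polynomial.eval_mul, Polynomial.eval_pow, Polynomial.eval_X]
  have hd : (p ^ 2 * Polynomial.X).natDegree < 2 * Q := by
    have h3 := Polynomial.natDegree_mul_le (p := p ^ 2) (q := Polynomial.X)
    have h4 := Polynomial.natDegree_pow_le_of_le 2 hp
    have h5 := Polynomial.natDegree_X_le (R := F)
    omega
  simp_rw [h1, Polynomial.eval_eq_sum_range' hd]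
  rw [Finset.sum_comm]
  have h6 : ∀ i ∈ Finset.range (2 * Q), i ≠ 2 * Q - 1 →
      ∑ x : F, (p ^ 2 * Polynomial.X).coeff i * x ^ i = 0 := by
    intro i hi hne
    rw [← Finset.mul_sum, FiniteField.sum_pow_lt_card_sub_one, mul_zero]
    have := Finset.mem_range.mp hi
    rw [hq]
    omega
  rw [Finset.sum_eq_single (2 * Q - 1) h6 (fun h => absurd (Finset.mem_range.mpr (by omega)) h),
    ← Finset.mul_sum]
  have h7 : ∑ x : F, x ^ (2 * Q - 1) = (1 : F) := by
    have h8 : ∀ x : F, x ^ (2 * Q - 1) = 1 + (if x = 0 then (1 : F) else 0) := by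
      intro x
      rw [← ind_eq, hq, ← add_assoc, CharTwo.add_self_eq_zero, zero_add]
    simp_rw [h8]
    rw [Finset.sum_add_distrib, Finset.sum_ite_eq' Finset.univ (0 : F) (fun _ => (1 : F)),
      if_pos (Finset.mem_univ _), Finset.sum_const, Finset.card_univ, nsmul_eq_mul,
      FiniteField.cast_card_eq_zero, zero_mul, zero_add]
  rw [h7, mul_one]
  have h9 : 2 * Q - 1 = (2 * (Q - 1)) + 1 := by omega
  rw [h9, Polynomial.coeff_mul_X, Polynomial.coeff_pow_of_natDegree_le hp]

/-- Re is invariant under multiples. -/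
theorem star_re (M : Finset (Fin 3 → F)) {c : F} (hc : c ≠ 0) (v : Fin 3 → F) :
    Re M (c • v) ↔ Re M v := by
  unfold Re
  refine and_congr (by simp [hc]) (forall₂_congr fun m _ => ⟨fun h d hd => ?_, fun h d hd => ?_⟩)
  · exact h (c * d) (by rw [hd, smul_smul])
  · refine h (c⁻¹ * d) ?_
    rw [← smul_smul, ← hd, smul_smul, inv_mul_cancel₀ hc, one_smul]

/-- The relation on one line. For a = 0 trivial. Take e real on the line (exists_real_pair), a basis e, e0
(LC.exists_of), X = LX. The restriction of w to e0 + τ e: the polynomial p(τ) = w(s e0 + τ s e) (MvPolynomial.aeval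
with values in F[X]) has degree ≤ Q - 1, vanishes off X, its coefficient number Q - 1 is w(s e), eval at x is
w(s (e0 + s⁻¹ x e)). D A a w is the sum over all v ≠ 0 on a of the function g v = (w (s v))^2 (a ⬝ᵥ b v) if v is
real, 0 otherwise (constant on the classes because s(c)^(2(Q-1)) s(c) = 1), LC.sum, slem and
Sum over all x of p(x)^2 x h = (p.coeff (Q-1))^2 h (the coefficient number q - 1 of p^2 T; w(s e)^2 h cancels). -/
theorem star [CharP F 2] {Q : ℕ} (hq : Fintype.card F = 2 * Q) (h2 : 2 ≤ Q) (A : Arc F s)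
    (a : Fin 3 → F) {w : MvPolynomial (Fin 3) F} (hw : w.IsHomogeneous (Q - 1))
    (h0 : ∀ m ∈ A.M, a ⬝ᵥ m = 0 → MvPolynomial.eval (s ∘ m) w = 0) : D A a w = 0 := by
  by_cases ha : a = 0
  · unfold D
    refine Finset.sum_eq_zero fun v _ => ?_
    rw [ha, zero_dotProduct, mul_zero]
  obtain ⟨e, -, he, -, hr, -, -⟩ := exists_real_pair A ha
  obtain ⟨e0, hLC⟩ := LC.exists_of ha he hr.1
  have hwc : ∀ (c : F) (v : Fin 3 → F), MvPolynomial.eval (s ∘ (c • v)) w =
      s c ^ (Q - 1) * MvPolynomial.eval (s ∘ v) w := fun c v => by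
    rw [star_comp, star_hom hw]
  -- the function on the classes
  let g : (Fin 3 → F) → F := fun v =>
    if Re A.M v then (MvPolynomial.eval (s ∘ v) w) ^ 2 * (a ⬝ᵥ A.b v) else 0
  have hg : ∀ c : F, c ≠ 0 → ∀ v, a ⬝ᵥ v = 0 → g (c • v) = g v := by
    intro c hc v _
    have hsc : s c ≠ 0 := fun h => hc (by simpa using h)
    show (if Re A.M (c • v) then _ else _) = (if Re A.M v then _ else _)
    by_cases hv : Re A.M v
    · rw [if_pos ((star_re A.M hc v).mpr hv), if_pos hv, hwc, A.equi c hc, dotProduct_smul,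
        smul_eq_mul]
      have h1 : s c ^ (Fintype.card F - 1) = 1 := FiniteField.pow_card_sub_one_eq_one _ hsc
      have h3 : Fintype.card F - 1 = (Q - 1) * 2 + 1 := by omega
      rw [h3, pow_succ, pow_mul] at h1
      calc (s c ^ (Q - 1) * MvPolynomial.eval (s ∘ v) w) ^ 2 * (s c * (a ⬝ᵥ A.b v)) =
          ((s c ^ (Q - 1)) ^ 2 * s c) * ((MvPolynomial.eval (s ∘ v) w) ^ 2 * (a ⬝ᵥ A.b v)) := by ring
        _ = _ := by rw [h1, one_mul]
    · rw [if_neg (fun h => hv ((star_re A.M hc v).mp h)), if_neg hv]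
  have hD : D A a w = ∑ v ∈ Finset.univ.filter (fun v => a ⬝ᵥ v = 0 ∧ v ≠ 0), g v := by
    unfold D
    rw [Finset.sum_filter, Finset.sum_filter]
    refine Finset.sum_congr rfl fun v _ => ?_
    show _ = if a ⬝ᵥ v = 0 ∧ v ≠ 0 then (if Re A.M v then _ else _) else _
    by_cases hv : Re A.M v
    · have hv0 : v ≠ 0 := hv.1
      by_cases hav : a ⬝ᵥ v = 0
      · rw [if_pos ⟨hav, hv⟩, if_pos ⟨hav, hv0⟩, if_pos hv]
      · rw [if_neg (fun h => hav h.1), if_neg (fun h => hav h.1)]
    · rw [if_neg (fun h => hv h.2)]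
      by_cases hav : a ⬝ᵥ v = 0 ∧ v ≠ 0
      · rw [if_pos hav, if_neg hv]
      · rw [if_neg hav]
  rw [hD, hLC.sum s g hg]
  obtain ⟨p, hp1, hp2, hp3⟩ := star_poly hw (s ∘ e0) (s ∘ e)
  have hpe : ∀ x, p.eval x = MvPolynomial.eval (s ∘ (e0 + s.symm x • e)) w := by
    intro x
    rw [hp3]
    congr 2
    ext i
    simp
  have hoff : ∀ x, x ∉ LX s A.M e e0 → p.eval x = 0 := by
    intro x hx
    have h1 : ¬ Re A.M (e0 + s.symm x • e) := fun h =>
      hx (Finset.mem_filter.mpr ⟨Finset.mem_univ _, h⟩)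
    have hne : e0 + s.symm x • e ≠ 0 := by
      intro h
      have h4 := hLC.ind (s.symm x) 1 (by rw [one_smul, add_comm, h])
      exact one_ne_zero h4.2
    unfold Re at h1
    push_neg at h1
    obtain ⟨m, hm, c, hc⟩ := h1 hne
    have hc0 : c ≠ 0 := by
      intro h
      rw [h, zero_smul] at hc
      exact hne hc
    have ham : a ⬝ᵥ m = 0 := by
      have h5 : a ⬝ᵥ (e0 + s.symm x • e) = 0 := by
        rw [dotProduct_add, dotProduct_smul, hLC.he, hLC.he0, smul_zero, add_zero]
      rw [hc, dotProduct_smul, smul_eq_mul] at h5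
      exact (mul_eq_zero.mp h5).resolve_left hc0
    rw [hpe, hc, hwc, h0 m hm ham, mul_zero]
  have hS := slem hq h2 (LC.larc A hLC hr) hp1 hoff
  have hge : g e = (p.coeff (Q - 1)) ^ 2 * (a ⬝ᵥ A.b e) := by
    show (if Re A.M e then _ else _) = _
    rw [if_pos hr, hp2]
  have hgx : ∀ x, g (e0 + s.symm x • e) =
      if x ∈ LX s A.M e e0 then (p.eval x) ^ 2 * (a ⬝ᵥ A.b (e0 + s.symm x • e)) else 0 := by
    intro x
    show (if Re A.M (e0 + s.symm x • e) then _ else _) = _
    have h6 : x ∈ LX s A.M e e0 ↔ Re A.M (e0 + s.symm x • e) := by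
      unfold LX
      rw [Finset.mem_filter]
      exact ⟨fun h => h.2, fun h => ⟨Finset.mem_univ _, h⟩⟩
    rw [hpe]
    by_cases h7 : Re A.M (e0 + s.symm x • e)
    · rw [if_pos h7, if_pos (h6.mpr h7)]
    · rw [if_neg h7, if_neg (fun h => h7 (h6.mp h))]
  have hsum1 : ∑ x : F, g (e0 + s.symm x • e) =
      ∑ x ∈ LX s A.M e e0, (p.eval x) ^ 2 * (a ⬝ᵥ A.b (e0 + s.symm x • e)) := by
    simp_rw [hgx]
    rw [Finset.sum_ite_mem, Finset.univ_inter]
  have hsum2 : ∑ x ∈ LX s A.M e e0, (p.eval x) ^ 2 * (x * (a ⬝ᵥ A.b e)) =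
      (p.coeff (Q - 1)) ^ 2 * (a ⬝ᵥ A.b e) := by
    rw [← star_sum hq h2 hp1, Finset.sum_mul]
    refine (Finset.sum_subset (Finset.subset_univ _) fun x _ hx => ?_).trans
      (Finset.sum_congr rfl fun x _ => by ring)
    rw [hoff x hx]
    ring
  have hS2 : ∑ x ∈ LX s A.M e e0, (p.eval x) ^ 2 * (a ⬝ᵥ A.b (e0 + s.symm x • e)) +
      (p.coeff (Q - 1)) ^ 2 * (a ⬝ᵥ A.b e) = 0 := by
    rw [← hsum2, ← Finset.sum_add_distrib, ← hS]
    exact Finset.sum_congr rfl fun x _ => by ring
  rw [hge, hsum1, add_comm]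
  exact hS2

end Pool.Agent.Lib.MP_4dc748_co.TA
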