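import Pool.Agent.Lib.MP_4dc748_co.TA.Defs
import Pool.Agent.Lib.MP_4dc748_co.TA.Frame
import Pool.Agent.Lib.MP_4dc748_co.TA.Isol

/-!
# More than q^2 + 2 points: one point in each class
-/

set_option autoImplicit false

open scoped Classical

namespace Pool.Agent.Lib.MP_4dc748_co.TA

section stepA

variable {F : Type} [Field F]

theorem stepA_orth (x y : Fin 3 → F) : ∃ c : Fin 3 → F, c ≠ 0 ∧ c ⬝ᵥ x = 0 ∧ c ⬝ᵥ y = 0 := by
  have h : (Matrix.of ![x, y, 0]).det = 0 := by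
    apply Matrix.det_eq_zero_of_row_eq_zero 2
    intro j
    rfl
  obtain ⟨c, hc, hm⟩ := Matrix.exists_mulVec_eq_zero_iff.2 h
  refine ⟨c, hc, ?_, ?_⟩
  · rw [dotProduct_comm]
    exact congrFun hm 0
  · rw [dotProduct_comm]
    exact congrFun hm 1

/-- Two independent vectors: a linear form with given values. -/
theorem stepA_two {x y : Fin 3 → F} (hx : x ≠ 0) (hy : y ≠ 0) (h : ∀ c : F, y ≠ c • x) (t r : F) :
    ∃ c : Fin 3 → F, c ⬝ᵥ x = t ∧ c ⬝ᵥ y = r := by
  have h' : ∀ c : F, x ≠ c • y := by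
    intro c hc
    have hc0 : c ≠ 0 := by
      rintro rfl
      rw [zero_smul] at hc
      exact hx hc
    apply h c⁻¹
    rw [hc, smul_smul, inv_mul_cancel₀ hc0, one_smul]
  obtain ⟨n, hn1, hn2⟩ := isol_one hx h
  obtain ⟨m, hm1, hm2⟩ := isol_one hy h'
  refine ⟨t • m + r • n, ?_, ?_⟩
  · rw [add_dotProduct, smul_dotProduct, smul_dotProduct, hm1, hn2, smul_eq_mul, smul_eq_mul,
      mul_zero, mul_one, add_zero]
  · rw [add_dotProduct, smul_dotProduct, smul_dotProduct, hm2, hn1, smul_eq_mul, smul_eq_mul,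
      mul_zero, mul_one, zero_add]

theorem stepA_s (s : F ≃+* F) (u v : Fin 3 → F) : (s ∘ u) ⬝ᵥ (s ∘ v) = s (u ⬝ᵥ v) := by
  simp only [dotProduct, Function.comp_apply, map_sum, map_mul]

theorem stepA_s0 (s : F ≃+* F) {u : Fin 3 → F} (hu : u ≠ 0) : s ∘ u ≠ 0 := by
  intro h0
  apply hu
  funext i
  have := congrFun h0 i
  simpa using this

theorem stepA_sne (s : F ≃+* F) {u v : Fin 3 → F} (h : ∀ c : F, v ≠ c • u) (c : F) :
    s ∘ v ≠ c • (s ∘ u) := by
  intro hc
  apply h (s.symm c)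
  funext j
  have := congrArg s.symm (congrFun hc j)
  simpa using this

/-- The image of a frame. -/
theorem stepA_fr (s : F ≃+* F) {a0 a1 a2 e0 e1 e2 : Fin 3 → F} (h : Fr a0 a1 a2 e0 e1 e2) :
    Fr (s ∘ a0) (s ∘ a1) (s ∘ a2) (s ∘ e0) (s ∘ e1) (s ∘ e2) := by
  refine ⟨?_, ?_, ?_, ?_, ?_, ?_, ?_, ?_, ?_⟩
  · rw [stepA_s, h.h00, map_one]
  · rw [stepA_s, h.h01, map_zero]
  · rw [stepA_s, h.h02, map_zero]
  · rw [stepA_s, h.h10, map_zero]
  · rw [stepA_s, h.h11, map_one]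
  · rw [stepA_s, h.h12, map_zero]
  · rw [stepA_s, h.h20, map_zero]
  · rw [stepA_s, h.h21, map_zero]
  · rw [stepA_s, h.h22, map_one]

/-- Incidence with a multiple. -/
theorem stepA_inc (s : F ≃+* F) {a c u v b : Fin 3 → F} {e : F} (he : e ≠ 0) (hv : v = e • u) :
    Inc s a c v b ↔ a ⬝ᵥ u = 0 ∧ a ⬝ᵥ (s e⁻¹ • b) + c ⬝ᵥ (s ∘ u) = 0 := by
  have h1 : s ∘ v = s e • (s ∘ u) := by
    rw [hv]
    funext j
    simp
  have hse : s e ≠ 0 := (map_ne_zero s).2 he
  unfold Inc
  rw [h1, hv, dotProduct_smul, dotProduct_smul, dotProduct_smul, smul_eq_mul, smul_eq_mul,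
    smul_eq_mul, mul_eq_zero, or_iff_right he, map_inv₀]
  have h2 : a ⬝ᵥ b + s e * (c ⬝ᵥ s ∘ u) = s e * ((s e)⁻¹ * (a ⬝ᵥ b) + c ⬝ᵥ s ∘ u) := by
    rw [mul_add, mul_inv_cancel_left₀ hse]
  rw [h2, mul_eq_zero, or_iff_right hse]

end stepA

variable {F : Type} [Field F] [Fintype F] {s : F ≃+* F}

omit [Fintype F] in
/-- Three indices on a line. -/
theorem stepA_three {ι : Type} [Fintype ι] {v b : ι → Fin 3 → F}
    (hl : ∀ a c : Fin 3 → F, a ≠ 0 →
      (Finset.univ.filter (fun i => Inc s a c (v i) (b i))).card ≤ 2) {i j k : ι} (hij : i ≠ j)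
    (hik : i ≠ k) (hjk : j ≠ k) {a c : Fin 3 → F} (ha : a ≠ 0) (hi : Inc s a c (v i) (b i))
    (hj : Inc s a c (v j) (b j)) (hk : Inc s a c (v k) (b k)) : False := by
  have h1 : ({i, j, k} : Finset ι) ⊆ Finset.univ.filter (fun i => Inc s a c (v i) (b i)) := by
    intro x hx
    rw [Finset.mem_insert, Finset.mem_insert, Finset.mem_singleton] at hx
    rw [Finset.mem_filter]
    rcases hx with rfl | rfl | rfl
    · exact ⟨Finset.mem_univ _, hi⟩
    · exact ⟨Finset.mem_univ _, hj⟩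
    · exact ⟨Finset.mem_univ _, hk⟩
  have h2 := Finset.card_le_card h1
  rw [Finset.card_eq_three.2 ⟨i, j, k, hij, hik, hjk, rfl⟩] at h2
  have := hl a c ha
  omega

/-- With at least q^2 + 3 points there are no two points in one class. Suppose v j = c v i, i ≠ j (c ≠ 0).
Replacing (v j, b j) by (v i, b' ) with b' = s(c⁻¹) b j (Inc does not change, the point (e v, s(e) b) is the same
point), b' - b i is not a multiple of v i. Let 𝓛 = the set of all (a, c) in F^3 × F^3 with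
a ⬝ᵥ v i = 0, a ⬝ᵥ (b i - b') = 1, c ⬝ᵥ s (v i) + a ⬝ᵥ b i = 0: fibre of a surjective linear map F^6 → F^3, so it has
q^3 elements. All these lines contain i and not j. Every other point k is on at least q of them: the conditions
are values of five linear functions on F^6, so it is enough that there is one.
  v k a multiple of v i: replace by (v i, b''); if b'' - b i is in the span of v i and b i - b' then a line (a, c) with
  a ⬝ᵥ v i = a ⬝ᵥ (b i - b') = 0, a ≠ 0, c ⬝ᵥ s (v i) = - a ⬝ᵥ b i contains i, j, k, contradiction; otherwise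
  a with a ⬝ᵥ v i = 0, a ⬝ᵥ (b i - b') = 1, a ⬝ᵥ (b'' - b i) = 0 exists.
  v k not a multiple of v i: if b i - b' is in the span of v i, v k then the line a with a ⬝ᵥ v i = a ⬝ᵥ v k = 0 and c with
  c ⬝ᵥ s(v i) = - a ⬝ᵥ b i, c ⬝ᵥ s(v k) = - a ⬝ᵥ b k contains i, j, k; otherwise a with a ⬝ᵥ v i = a ⬝ᵥ v k = 0,
  a ⬝ᵥ (b i - b') = 1 exists, and such a c.
No (a, c) ∈ 𝓛 contains two points k ≠ i, j (a ≠ 0). So (|ι| - 2) q ≤ q^3. -/
theorem class_inj {ι : Type} [Fintype ι] {v b : ι → Fin 3 → F} (hv : ∀ i, v i ≠ 0)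
    (hd : ∀ i j, i ≠ j → ∀ c d : F, ¬ (v j = c • v i ∧ b j = d • v i + s c • b i))
    (hl : ∀ a c : Fin 3 → F, a ≠ 0 →
      (Finset.univ.filter (fun i => Inc s a c (v i) (b i))).card ≤ 2)
    (hcard : Fintype.card F ^ 2 + 3 ≤ Fintype.card ι) :
    ∀ i j, i ≠ j → ∀ c : F, v j ≠ c • v i := by
  intro i j hij e hve
  have he : e ≠ 0 := by
    rintro rfl
    rw [zero_smul] at hve
    exact hv j hve
  have hse : s e ≠ 0 := (map_ne_zero s).2 he
  set u := v i with hu
  set β := b i with hβ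
  set β' := s e⁻¹ • b j with hβ'
  set δ := β - β' with hδ
  have hu0 : u ≠ 0 := hv i
  have hsu0 : s ∘ u ≠ 0 := stepA_s0 s hu0
  -- δ is not a multiple of u
  have hδu : ∀ d : F, δ ≠ d • u := by
    intro d hdd
    apply hd i j hij e (-(s e * d))
    refine ⟨hve, ?_⟩
    have h1 : β' = β - d • u := by rw [← hdd, hδ]; abel
    have h2 : b j = s e • β' := by
      rw [hβ', smul_smul, ← map_mul, mul_inv_cancel₀ he, map_one, one_smul]
    rw [h2, h1, smul_sub, smul_smul, neg_smul, ← hβ, ← hu]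
    abel
  have hincj : ∀ a c : Fin 3 → F, Inc s a c (v j) (b j) ↔
      a ⬝ᵥ u = 0 ∧ a ⬝ᵥ β' + c ⬝ᵥ (s ∘ u) = 0 := fun a c => stepA_inc s he hve
  have hdel : ∀ a : Fin 3 → F, a ⬝ᵥ β' = a ⬝ᵥ β - a ⬝ᵥ δ := by
    intro a
    rw [hδ, dotProduct_sub]
    ring
  -- existence of a line through k
  have hex : ∀ k, k ≠ i → k ≠ j → ∃ a c : Fin 3 → F, a ⬝ᵥ u = 0 ∧ a ⬝ᵥ δ = 1 ∧
      c ⬝ᵥ (s ∘ u) + a ⬝ᵥ β = 0 ∧ Inc s a c (v k) (b k) := by
    intro k hki hkj
    by_cases hk : ∃ t : F, v k = t • u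
    · obtain ⟨t, ht⟩ := hk
      have ht0 : t ≠ 0 := by
        rintro rfl
        rw [zero_smul] at ht
        exact hv k ht
      set γ := s t⁻¹ • b k - β with hγ
      have hγ' : ∀ a : Fin 3 → F, a ⬝ᵥ (s t⁻¹ • b k) = a ⬝ᵥ β + a ⬝ᵥ γ := by
        intro a
        rw [hγ, dotProduct_sub]
        ring
      set a' := crossProduct u δ with ha'
      have ha0 : a' ≠ 0 := isol_cross hu0 hδu
      have hau : a' ⬝ᵥ u = 0 := by rw [dotProduct_comm]; exact dot_self_cross u δ
      have had : a' ⬝ᵥ δ = 0 := by rw [dotProduct_comm]; exact dot_cross_self u δ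
      obtain ⟨n, hn⟩ := isol_dual hsu0
      by_cases hg : a' ⬝ᵥ γ = 0
      · exfalso
        have hc : ((-(a' ⬝ᵥ β)) • n) ⬝ᵥ (s ∘ u) = -(a' ⬝ᵥ β) := by
          rw [smul_dotProduct, hn, smul_eq_mul, mul_one]
        refine stepA_three hl hij (Ne.symm hki) (Ne.symm hkj) ha0
          (c := (-(a' ⬝ᵥ β)) • n) ⟨hau, ?_⟩ ((hincj _ _).2 ⟨hau, ?_⟩)
          ((stepA_inc s ht0 ht).2 ⟨hau, ?_⟩)
        · rw [hc, ← hβ]; ring
        · rw [hc, hdel, had]; ring
        · rw [hc, hγ', hg]; ring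
      · set g := crossProduct u γ ⬝ᵥ δ with hgd
        have hg0 : g ≠ 0 := by
          intro h0
          apply hg
          have h1 : γ ⬝ᵥ crossProduct u δ = -(δ ⬝ᵥ crossProduct u γ) := by
            rw [triple_product_permutation γ u δ, triple_product_permutation u δ γ,
              ← cross_anticomm, dotProduct_neg]
          rw [ha', dotProduct_comm, h1, dotProduct_comm, ← hgd, h0, neg_zero]
        have hcu : crossProduct u γ ⬝ᵥ u = 0 := by rw [dotProduct_comm]; exact dot_self_cross u γ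
        have hcg : crossProduct u γ ⬝ᵥ γ = 0 := by rw [dotProduct_comm]; exact dot_cross_self u γ
        set a := g⁻¹ • crossProduct u γ with hadef
        have h1 : a ⬝ᵥ u = 0 := by rw [hadef, smul_dotProduct, hcu, smul_zero]
        have h2 : a ⬝ᵥ γ = 0 := by rw [hadef, smul_dotProduct, hcg, smul_zero]
        have h3 : a ⬝ᵥ δ = 1 := by
          rw [hadef, smul_dotProduct, ← hgd, smul_eq_mul, inv_mul_cancel₀ hg0]
        have hc : ((-(a ⬝ᵥ β)) • n) ⬝ᵥ (s ∘ u) = -(a ⬝ᵥ β) := by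
          rw [smul_dotProduct, hn, smul_eq_mul, mul_one]
        refine ⟨a, (-(a ⬝ᵥ β)) • n, h1, h3, ?_, (stepA_inc s ht0 ht).2 ⟨h1, ?_⟩⟩
        · rw [hc]; ring
        · rw [hc, hγ', h2]; ring
    · push Not at hk
      set a' := crossProduct u (v k) with ha'
      have ha0 : a' ≠ 0 := isol_cross hu0 hk
      have hau : a' ⬝ᵥ u = 0 := by rw [dotProduct_comm]; exact dot_self_cross u _
      have hav : a' ⬝ᵥ v k = 0 := by rw [dotProduct_comm]; exact dot_cross_self u _
      have htwo := stepA_two hsu0 (stepA_s0 s (hv k)) (stepA_sne s hk)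
      by_cases hg : a' ⬝ᵥ δ = 0
      · exfalso
        obtain ⟨c, hc1, hc2⟩ := htwo (-(a' ⬝ᵥ β)) (-(a' ⬝ᵥ b k))
        refine stepA_three hl hij (Ne.symm hki) (Ne.symm hkj) ha0
          (c := c) ⟨hau, ?_⟩ ((hincj _ _).2 ⟨hau, ?_⟩) ⟨hav, ?_⟩
        · rw [hc1, ← hβ]; ring
        · rw [hc1, hdel, hg]; ring
        · rw [hc2]; ring
      · set a := (a' ⬝ᵥ δ)⁻¹ • a' with hadef
        have h1 : a ⬝ᵥ u = 0 := by rw [hadef, smul_dotProduct, hau, smul_zero]
        have h2 : a ⬝ᵥ v k = 0 := by rw [hadef, smul_dotProduct, hav, smul_zero]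
        have h3 : a ⬝ᵥ δ = 1 := by
          rw [hadef, smul_dotProduct, smul_eq_mul, inv_mul_cancel₀ hg]
        obtain ⟨c, hc1, hc2⟩ := htwo (-(a ⬝ᵥ β)) (-(a ⬝ᵥ b k))
        refine ⟨a, c, h1, h3, ?_, h2, ?_⟩
        · rw [hc1]; ring
        · rw [hc2]; ring
  set L : Finset ((Fin 3 → F) × (Fin 3 → F)) := Finset.univ.filter (fun l =>
    l.1 ⬝ᵥ u = 0 ∧ l.1 ⬝ᵥ δ = 1 ∧ l.2 ⬝ᵥ (s ∘ u) + l.1 ⬝ᵥ β = 0) with hL
  -- upper bound
  have hLcard : L.card ≤ Fintype.card F ^ 3 := by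
    have hcr0 : crossProduct u δ ≠ 0 := isol_cross hu0 hδu
    obtain ⟨a1, a2, e0, hfr⟩ := exists_frame (a0 := crossProduct u δ) (e1 := u) (e2 := δ) hcr0
      (by rw [dotProduct_comm]; exact dot_self_cross u δ)
      (by rw [dotProduct_comm]; exact dot_cross_self u δ) hu0 hδu
    have hfs := stepA_fr s hfr
    have h1 : L.card ≤ (Finset.univ : Finset (F × F × F)).card := by
      apply Finset.card_le_card_of_injOn
        (fun l => (l.1 ⬝ᵥ e0, l.2 ⬝ᵥ (s ∘ e0), l.2 ⬝ᵥ (s ∘ δ)))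
      · intro l _
        exact Finset.mem_coe.2 (Finset.mem_univ _)
      · rintro ⟨a, c⟩ hac ⟨a', c'⟩ hac' heq
        rw [Finset.mem_coe, hL, Finset.mem_filter] at hac hac'
        obtain ⟨-, h1, h2, h3⟩ := hac
        obtain ⟨-, h1', h2', h3'⟩ := hac'
        simp only [Prod.mk.injEq] at heq h1 h2 h3 h1' h2' h3'
        obtain ⟨g1, g2, g3⟩ := heq
        have ha : a = a' := by
          rw [hfr.cov a, hfr.cov a', g1, h1, h1', h2, h2']
        have hc : c ⬝ᵥ (s ∘ u) = c' ⬝ᵥ (s ∘ u) := by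
          rw [ha] at h3
          exact add_right_cancel (h3.trans h3'.symm)
        rw [ha, hfs.cov c, hfs.cov c', g2, g3, hc]
    rw [Finset.card_univ, Fintype.card_prod, Fintype.card_prod] at h1
    calc L.card ≤ _ := h1
      _ = _ := by ring
  have hdc := Finset.card_mul_le_card_mul (s := (Finset.univ.erase i).erase j) (t := L)
    (fun k l => Inc s l.1 l.2 (v k) (b k)) (m := Fintype.card F) (n := 1) (by
      intro k hk
      rw [Finset.mem_erase, Finset.mem_erase] at hk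
      obtain ⟨a, c, h1, h2, h3, h4⟩ := hex k hk.2.1 hk.1
      obtain ⟨c0, hc0, hc1, hc2⟩ := stepA_orth (s ∘ u) (s ∘ v k)
      rw [← Finset.card_univ]
      apply Finset.card_le_card_of_injOn (fun t : F => (a, c + t • c0))
      · intro t _
        rw [Finset.mem_coe, Finset.mem_bipartiteAbove, hL, Finset.mem_filter]
        refine ⟨⟨Finset.mem_univ _, h1, h2, ?_⟩, h4.1, ?_⟩
        · rw [add_dotProduct, smul_dotProduct, hc1, smul_zero, add_zero, h3]
        · show a ⬝ᵥ b k + (c + t • c0) ⬝ᵥ (s ∘ v k) = 0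
          rw [add_dotProduct, smul_dotProduct, hc2, smul_zero, add_zero]
          exact h4.2
      · intro t _ t' _ htt
        simp only [Prod.mk.injEq, true_and, add_right_inj] at htt
        exact smul_left_injective F hc0 htt) (by
      intro l hlL
      rw [hL, Finset.mem_filter] at hlL
      obtain ⟨-, h1, h2, h3⟩ := hlL
      have hl0 : l.1 ≠ 0 := by
        intro h0
        rw [h0, zero_dotProduct] at h2
        exact zero_ne_one h2
      have h4 := hl l.1 l.2 hl0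
      have h5 : insert i (((Finset.univ.erase i).erase j).bipartiteBelow
          (fun k (l : (Fin 3 → F) × (Fin 3 → F)) => Inc s l.1 l.2 (v k) (b k)) l) ⊆
          Finset.univ.filter (fun i => Inc s l.1 l.2 (v i) (b i)) := by
        intro x hx
        rw [Finset.mem_insert, Finset.mem_bipartiteBelow] at hx
        rw [Finset.mem_filter]
        refine ⟨Finset.mem_univ _, ?_⟩
        rcases hx with rfl | hx
        · refine ⟨h1, ?_⟩
          rw [← hβ, ← hu, add_comm]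
          exact h3
        · exact hx.2
      have h6 := Finset.card_le_card h5
      rw [Finset.card_insert_of_notMem (by
        rw [Finset.mem_bipartiteBelow, Finset.mem_erase, Finset.mem_erase]
        exact fun hh => hh.1.2.1 rfl)] at h6
      omega)
  have hse2 : ((Finset.univ.erase i).erase j : Finset ι).card = Fintype.card ι - 2 := by
    rw [Finset.card_erase_of_mem (Finset.mem_erase.2 ⟨Ne.symm hij, Finset.mem_univ _⟩),
      Finset.card_erase_of_mem (Finset.mem_univ _), Finset.card_univ, Nat.sub_sub]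
  rw [hse2, mul_one] at hdc
  have hq : 0 < Fintype.card F := Fintype.card_pos
  have h7 : Fintype.card F ^ 2 + 1 ≤ Fintype.card ι - 2 := by omega
  have h8 := Nat.mul_le_mul_right (Fintype.card F) h7
  have h9 : (Fintype.card F ^ 2 + 1) * Fintype.card F ≤ Fintype.card F ^ 3 :=
    h8.trans (hdc.trans hLcard)
  nlinarith

end Pool.Agent.Lib.MP_4dc748_co.TA
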