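import Pool.Agent.Lib.MP_4dc748_co.TA.L0

/-!
# Virtual points
-/

set_option autoImplicit false

open scoped Classical

namespace Pool.Agent.Lib.MP_4dc748_co.TA

variable {F : Type} [Field F] [Fintype F] {s : F ≃+* F}

omit [Fintype F] in
/-- The missing point of a line with exactly one. -/
theorem virt_one {M : Finset (Fin 3 → F)} {a : Fin 3 → F} (h : mu M a = 1) :
    ∃ m ∈ M, a ⬝ᵥ m = 0 ∧ ∀ m' ∈ M, a ⬝ᵥ m' = 0 → m' = m := by
  obtain ⟨m, hm⟩ := Finset.card_eq_one.1 h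
  have h1 : m ∈ M.filter (fun m => a ⬝ᵥ m = 0) := by
    rw [hm]
    exact Finset.mem_singleton_self m
  rw [Finset.mem_filter] at h1
  refine ⟨m, h1.1, h1.2, fun m' hm' ha' => ?_⟩
  have h2 : m' ∈ M.filter (fun m => a ⬝ᵥ m = 0) := Finset.mem_filter.2 ⟨hm', ha'⟩
  rw [hm, Finset.mem_singleton] at h2
  exact h2

/-- Case 1: some line a0 through m has mu a0 > Q: exists_virt_l0. Case 2: exists_wu gives w1, u; for a through m
with mu a = 1 (m is the only missing point on a) and a form w: w + w(s m) w1 vanishes at s m, star, D_add,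
D_smul (char 2). -/
theorem exists_virt [CharP F 2] {Q : ℕ} (hq : Fintype.card F = 2 * Q) (h2 : 2 ≤ Q)
    (A : Arc F s) {m : Fin 3 → F} (hm : m ∈ A.M) :
    ∃ u : Fin 3 → F, ∀ a : Fin 3 → F, a ≠ 0 → a ⬝ᵥ m = 0 → mu A.M a = 1 →
      ∀ w : MvPolynomial (Fin 3) F, w.IsHomogeneous (Q - 1) →
        D A a w = (MvPolynomial.eval (s ∘ m) w) ^ 2 * (a ⬝ᵥ u) := by
  by_cases hc : ∃ a0 : Fin 3 → F, a0 ≠ 0 ∧ a0 ⬝ᵥ m = 0 ∧ Q < mu A.M a0
  · obtain ⟨a0, h0, ham, hmu⟩ := hc
    exact exists_virt_l0 hq h2 A h0 hmu hm ham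
  · push Not at hc
    obtain ⟨w1, u, hw1, hw1m, _, hu⟩ := exists_wu hq h2 A hm hc
    refine ⟨u, fun a ha ham hmu w hw => ?_⟩
    obtain ⟨m1, hm1, ham1, huniq⟩ := virt_one hmu
    have hw' : (w + MvPolynomial.C (MvPolynomial.eval (s ∘ m) w) * w1).IsHomogeneous (Q - 1) := by
      refine hw.add ?_
      have h3 := (MvPolynomial.isHomogeneous_C (Fin 3) (MvPolynomial.eval (s ∘ m) w)).mul hw1
      rwa [zero_add] at h3
    have h4 := star hq h2 A a hw' (by
      intro m' hm' ham'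
      have h5 : m' = m := by rw [huniq m' hm' ham', huniq m hm ham]
      rw [h5, map_add, map_mul, MvPolynomial.eval_C, hw1m, mul_one, CharTwo.add_self_eq_zero])
    rw [D_add, D_smul, hu a ham] at h4
    exact CharTwo.add_eq_zero.1 h4

omit [Fintype F] in
theorem virt_re_smul {M : Finset (Fin 3 → F)} {c : F} (hc : c ≠ 0) {v : Fin 3 → F} :
    Re M (c • v) ↔ Re M v := by
  refine and_congr (smul_ne_zero_iff_right hc) ?_
  refine forall₂_congr fun m _ => ?_
  constructor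
  · intro h d hd
    exact h (c * d) (by rw [hd, smul_smul])
  · intro h d hd
    refine h (c⁻¹ * d) ?_
    rw [← smul_smul, ← hd, smul_smul, inv_mul_cancel₀ hc, one_smul]

/-- The extension of b by given values at the missing points. -/
noncomputable def virtB (A : Arc F s) (U : (Fin 3 → F) → (Fin 3 → F)) (v : Fin 3 → F) : Fin 3 → F :=
  if Re A.M v then A.b v
  else if h : ∃ p : (Fin 3 → F) × F, p.1 ∈ A.M ∧ p.2 ≠ 0 ∧ v = p.2 • p.1 then
    s h.choose.2 • U h.choose.1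
  else 0

theorem virtB_re (A : Arc F s) (U : (Fin 3 → F) → (Fin 3 → F)) {v : Fin 3 → F} (h : Re A.M v) :
    virtB A U v = A.b v := if_pos h

theorem virtB_m (A : Arc F s) (U : (Fin 3 → F) → (Fin 3 → F)) {m : Fin 3 → F} (hm : m ∈ A.M)
    {c : F} (hc : c ≠ 0) : virtB A U (c • m) = s c • U m := by
  have h1 : ¬ Re A.M (c • m) := fun h => h.2 m hm c rfl
  have h2 : ∃ p : (Fin 3 → F) × F, p.1 ∈ A.M ∧ p.2 ≠ 0 ∧ c • m = p.2 • p.1 := ⟨(m, c), hm, hc, rfl⟩
  rw [virtB, if_neg h1, dif_pos h2]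
  obtain ⟨h3, h4, h5⟩ := h2.choose_spec
  set m' := h2.choose.1
  set c' := h2.choose.2
  have h6 : m' = m := by
    refine A.ind m hm m' h3 (c'⁻¹ * c) ?_
    rw [← smul_smul, h5, smul_smul, inv_mul_cancel₀ h4, one_smul]
  rw [h6] at h5 ⊢
  have h7 : c = c' := by
    have h8 : (c - c') • m = 0 := by rw [sub_smul, h5, sub_self]
    exact sub_eq_zero.1 ((smul_eq_zero.1 h8).resolve_right (A.ne m hm))
  rw [h7]

theorem virtB_zero (A : Arc F s) (U : (Fin 3 → F) → (Fin 3 → F)) : virtB A U 0 = 0 := by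
  have h1 : ¬ Re A.M 0 := fun h => h.1 rfl
  have h2 : ¬ ∃ p : (Fin 3 → F) × F, p.1 ∈ A.M ∧ p.2 ≠ 0 ∧ (0 : Fin 3 → F) = p.2 • p.1 := by
    rintro ⟨p, h3, h4, h5⟩
    exact (smul_ne_zero h4 (A.ne _ h3)) h5.symm
  rw [virtB, if_neg h1, dif_neg h2]

/-- A vector is real or a nonzero multiple of a missing vector or zero. -/
theorem virt_cases (A : Arc F s) (v : Fin 3 → F) :
    Re A.M v ∨ v = 0 ∨ ∃ m ∈ A.M, ∃ c : F, c ≠ 0 ∧ v = c • m := by
  by_cases hv : v = 0
  · exact Or.inr (Or.inl hv)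
  · by_cases h : Re A.M v
    · exact Or.inl h
    · right
      right
      have h1 : ¬ ∀ m ∈ A.M, ∀ c : F, v ≠ c • m := fun h' => h ⟨hv, h'⟩
      push Not at h1
      obtain ⟨m, hm, c, hc⟩ := h1
      refine ⟨m, hm, c, ?_, hc⟩
      rintro rfl
      rw [zero_smul] at hc
      exact hv hc

/-- b' = b on the real vectors, b' (c m) = s c u_m for m ∈ M, c ≠ 0, b' 0 = 0. For mu a = 1 take in exists_virt
the form w = (Sum_i C (c i) X_i)^(Q-1); 2 (Q - 1) = q - 2 = q - 1 - 1; the sum over the multiples of m is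
(a ⬝ᵥ u) (c ⬝ᵥ s m)^(q-2) because s(e)^(q-1) = 1 and q - 1 = 1 in F; a, a = 0 in char 2. -/
theorem exists_ext [CharP F 2] {Q : ℕ} (hq : Fintype.card F = 2 * Q) (h2 : 2 ≤ Q)
    (A : Arc F s) :
    ∃ b' : (Fin 3 → F) → (Fin 3 → F), (∀ v, Re A.M v → b' v = A.b v) ∧
      (∀ c : F, c ≠ 0 → ∀ v, b' (c • v) = s c • b' v) ∧
      ∀ a : Fin 3 → F, a ≠ 0 → mu A.M a = 1 → ∀ c, Cf s 1 b' a c = 0 := by
  have hex : ∀ m : Fin 3 → F, ∃ u : Fin 3 → F, m ∈ A.M → ∀ a : Fin 3 → F, a ≠ 0 → a ⬝ᵥ m = 0 →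
      mu A.M a = 1 → ∀ w : MvPolynomial (Fin 3) F, w.IsHomogeneous (Q - 1) →
        D A a w = (MvPolynomial.eval (s ∘ m) w) ^ 2 * (a ⬝ᵥ u) := by
    intro m
    by_cases hm : m ∈ A.M
    · obtain ⟨u, hu⟩ := exists_virt hq h2 A hm
      exact ⟨u, fun _ => hu⟩
    · exact ⟨0, fun h => absurd h hm⟩
  choose U hU using hex
  refine ⟨virtB A U, fun v hv => virtB_re A U hv, fun c hc v => ?_, fun a ha hmu c => ?_⟩
  · rcases virt_cases A v with h | rfl | ⟨m, hm, e, he, rfl⟩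
    · rw [virtB_re A U h, virtB_re A U ((virt_re_smul hc).2 h), A.equi c hc]
    · rw [smul_zero, virtB_zero, smul_zero]
    · rw [smul_smul, virtB_m A U hm (mul_ne_zero hc he), virtB_m A U hm he, map_mul, smul_smul]
  · obtain ⟨m, hm, ham, huniq⟩ := virt_one hmu
    have hw : (linf c ^ (Q - 1)).IsHomogeneous (Q - 1) := by
      have h3 := (linf_hom c).pow (Q - 1)
      rwa [one_mul] at h3
    have hev : ∀ v : Fin 3 → F, (MvPolynomial.eval (s ∘ v) (linf c ^ (Q - 1))) ^ 2 =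
        (c ⬝ᵥ (s ∘ v)) ^ (Fintype.card F - 1 - 1) := by
      intro v
      rw [map_pow, linf_eval, ← pow_mul]
      congr 1
      omega
    have hD := hU m hm a ha ham hmu _ hw
    rw [hev] at hD
    -- the real part
    have hre : ∑ v ∈ Finset.univ.filter (fun v => a ⬝ᵥ v = 0 ∧ Re A.M v),
        (a ⬝ᵥ virtB A U v) ^ 1 * (c ⬝ᵥ (s ∘ v)) ^ (Fintype.card F - 1 - 1) =
        (c ⬝ᵥ (s ∘ m)) ^ (Fintype.card F - 1 - 1) * (a ⬝ᵥ U m) := by
      rw [← hD]
      unfold D
      refine Finset.sum_congr rfl fun v hv => ?_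
      rw [Finset.mem_filter] at hv
      rw [hev, virtB_re A U hv.2.2, pow_one, mul_comm]
    -- the missing part
    have hmis : ∑ v ∈ Finset.univ.filter (fun v => a ⬝ᵥ v = 0 ∧ v ≠ 0 ∧ ¬ Re A.M v),
        (a ⬝ᵥ virtB A U v) ^ 1 * (c ⬝ᵥ (s ∘ v)) ^ (Fintype.card F - 1 - 1) =
        (c ⬝ᵥ (s ∘ m)) ^ (Fintype.card F - 1 - 1) * (a ⬝ᵥ U m) := by
      have himg : Finset.univ.filter (fun v => a ⬝ᵥ v = 0 ∧ v ≠ 0 ∧ ¬ Re A.M v) =
          (Finset.univ.filter (fun e : F => e ≠ 0)).image (fun e => e • m) := by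
        ext v
        simp only [Finset.mem_filter, Finset.mem_univ, true_and, Finset.mem_image]
        constructor
        · rintro ⟨h3, h4, h5⟩
          rcases virt_cases A v with h | h | ⟨m', hm', e, he, rfl⟩
          · exact absurd h h5
          · exact absurd h h4
          · refine ⟨e, he, ?_⟩
            rw [dotProduct_smul, smul_eq_mul, mul_eq_zero] at h3
            rw [huniq m' hm' (h3.resolve_left he)]
        · rintro ⟨e, he, rfl⟩
          refine ⟨?_, smul_ne_zero he (A.ne m hm), fun h => h.2 m hm e rfl⟩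
          rw [dotProduct_smul, ham, smul_zero]
      rw [himg, Finset.sum_image]
      · have h3 : ∀ e ∈ Finset.univ.filter (fun e : F => e ≠ 0),
            (a ⬝ᵥ virtB A U (e • m)) ^ 1 * (c ⬝ᵥ (s ∘ (e • m))) ^ (Fintype.card F - 1 - 1) =
            (c ⬝ᵥ (s ∘ m)) ^ (Fintype.card F - 1 - 1) * (a ⬝ᵥ U m) := by
          intro e he
          rw [Finset.mem_filter] at he
          have h4 : s e ≠ 0 := by simpa using he.2
          have h5 : s ∘ (e • m) = s e • (s ∘ m) := by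
            ext i
            simp only [Function.comp_apply, Pi.smul_apply, smul_eq_mul, map_mul]
          have h6 : s e ^ (Fintype.card F - 1 - 1 + 1) = 1 := by
            have : Fintype.card F - 1 - 1 + 1 = Fintype.card F - 1 := by omega
            rw [this]
            exact FiniteField.pow_card_sub_one_eq_one _ h4
          rw [virtB_m A U hm he.2, pow_one, h5, dotProduct_smul, dotProduct_smul, smul_eq_mul,
            smul_eq_mul, mul_pow]
          calc s e * (a ⬝ᵥ U m) * (s e ^ (Fintype.card F - 1 - 1) *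
                (c ⬝ᵥ (s ∘ m)) ^ (Fintype.card F - 1 - 1))
              = s e ^ (Fintype.card F - 1 - 1 + 1) *
                ((c ⬝ᵥ (s ∘ m)) ^ (Fintype.card F - 1 - 1) * (a ⬝ᵥ U m)) := by
                rw [pow_succ]
                ring
            _ = _ := by rw [h6, one_mul]
        rw [Finset.sum_congr rfl h3, Finset.sum_const]
        have h4 : (Finset.univ.filter (fun c : F => c ≠ 0)).card = Fintype.card F - 1 := by
          rw [Finset.filter_ne', Finset.card_erase_of_mem (Finset.mem_univ _), Finset.card_univ]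
        rw [h4, nsmul_eq_mul, Nat.cast_sub Fintype.card_pos, l0_card_cast hq, zero_sub,
          Nat.cast_one, CharTwo.neg_eq, one_mul]
      · intro e _ e' _ h3
        have h8 : (e - e') • m = 0 := by
          rw [sub_smul]
          exact sub_eq_zero.2 h3
        exact sub_eq_zero.1 ((smul_eq_zero.1 h8).resolve_right (A.ne m hm))
    have hsplit : Cf s 1 (virtB A U) a c =
        ∑ v ∈ Finset.univ.filter (fun v => a ⬝ᵥ v = 0 ∧ Re A.M v),
          (a ⬝ᵥ virtB A U v) ^ 1 * (c ⬝ᵥ (s ∘ v)) ^ (Fintype.card F - 1 - 1) +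
        ∑ v ∈ Finset.univ.filter (fun v => a ⬝ᵥ v = 0 ∧ v ≠ 0 ∧ ¬ Re A.M v),
          (a ⬝ᵥ virtB A U v) ^ 1 * (c ⬝ᵥ (s ∘ v)) ^ (Fintype.card F - 1 - 1) := by
      unfold Cf
      rw [← Finset.sum_filter_add_sum_filter_not
        (Finset.univ.filter (fun v => a ⬝ᵥ v = 0 ∧ v ≠ 0)) (fun v => Re A.M v)]
      congr 1
      · refine Finset.sum_congr ?_ fun _ _ => rfl
        ext v
        simp only [Finset.mem_filter, Finset.mem_univ, true_and]
        exact ⟨fun h => ⟨h.1.1, h.2⟩, fun h => ⟨⟨h.1, h.2.1⟩, h.2⟩⟩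
      · refine Finset.sum_congr ?_ fun _ _ => rfl
        ext v
        simp only [Finset.mem_filter, Finset.mem_univ, true_and]
        exact and_assoc
    rw [hsplit, hre, hmis, CharTwo.add_self_eq_zero]

end Pool.Agent.Lib.MP_4dc748_co.TA
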